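import Pool.Agent.Lib_helper51.DD_FDefs
import Pool.Agent.Lib_helper56.DD_R

/-!
# MP_a2cbb7_co, block FA: tournament bounds
-/

set_option autoImplicit false

namespace Pool.Agent.DD

open Finset Classical

noncomputable section

theorem crs_antisymm (v z a : ℂ) : crs v z a = - crs v a z := by
  unfold crs; ring

theorem dt_symm (v z a : ℂ) : dt v z a = dt v a z := by
  unfold dt; ring

theorem dist_sq_re_im' (a x : ℂ) : dist a x ^ 2 = (a.re - x.re) ^ 2 + (a.im - x.im) ^ 2 := by
  rw [dist_eq_norm, ← Complex.normSq_eq_norm_sq, Complex.normSq_apply]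
  simp only [Complex.sub_re, Complex.sub_im]
  ring

theorem crs_dt_sq (v z a : ℂ) : crs v z a ^ 2 + dt v z a ^ 2 = dist z v ^ 2 * dist a v ^ 2 := by
  rw [dist_sq_re_im', dist_sq_re_im']
  unfold crs dt
  simp only [Complex.sub_re, Complex.sub_im]
  ring

/-- same ray and same distance from `v`: equal -/
theorem eq_of_ray (v z a : ℂ) (h0 : crs v z a = 0) (h1 : 0 < dt v z a) (h2 : dist a v = dist z v) :
    a = z := by
  have h3 := crs_dt_sq v z a
  rw [h0, h2] at h3
  have h4 : dt v z a = dist z v ^ 2 := by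
    have : dt v z a ^ 2 = (dist z v ^ 2) ^ 2 := by nlinarith
    have h5 : 0 ≤ dist z v ^ 2 := sq_nonneg _
    have h6 := sq_eq_sq₀ h1.le h5
    exact h6.mp this
  have h7 : dist a z ^ 2 = 0 := by
    have e1 : dist a z ^ 2 = dist a v ^ 2 + dist z v ^ 2 - 2 * dt v z a := by
      rw [dist_sq_re_im', dist_sq_re_im', dist_sq_re_im']
      unfold dt
      simp only [Complex.sub_re, Complex.sub_im]
      ring
    rw [e1, h4, h2]; ring
  have h8 : dist a z = 0 := by
    exact pow_eq_zero_iff (two_ne_zero) |>.mp h7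
  exact dist_eq_zero.mp h8

/-- `W` is a tournament (at least one of the two directions) -/
theorem W_total (ε : ℝ) (hε : ε = 1 ∨ ε = -1) (A : Finset ℂ) (v z z' : ℂ) (hz : z ∈ A.erase v)
    (hz' : z' ∈ A.erase v) (hne : z ≠ z') : z' ∈ W ε A v z ∨ z ∈ W ε A v z' := by
  rw [Finset.mem_erase] at hz hz'
  unfold W
  rw [Finset.mem_filter, Finset.mem_filter, crs_antisymm v z' z, dt_symm v z' z]
  have hε0 : ε ≠ 0 := by rcases hε with h | h <;> rw [h] <;> norm_num
  by_cases h0 : crs v z z' = 0
  · have hd1 : 0 < dist z v := dist_pos.mpr hz.1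
    have hd2 : 0 < dist z' v := dist_pos.mpr hz'.1
    have h3 := crs_dt_sq v z z'
    rw [h0] at h3
    have h4 : dt v z z' ≠ 0 := by
      intro h
      rw [h] at h3
      have : 0 < dist z v ^ 2 * dist z' v ^ 2 := by positivity
      linarith
    rcases lt_or_gt_of_ne h4 with h5 | h5
    · left; exact ⟨hz'.2, hz'.1, Or.inr ⟨h0, Or.inl h5⟩⟩
    · rcases lt_trichotomy (dist z' v) (dist z v) with h6 | h6 | h6
      · left; exact ⟨hz'.2, hz'.1, Or.inr ⟨h0, Or.inr ⟨h5, h6⟩⟩⟩
      · exact absurd (eq_of_ray v z z' h0 h5 h6).symm hne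
      · right; exact ⟨hz.2, hz.1, Or.inr ⟨by rw [h0]; simp, Or.inr ⟨h5, h6⟩⟩⟩
  · have h1 : ε * crs v z z' ≠ 0 := mul_ne_zero hε0 h0
    rcases lt_or_gt_of_ne h1 with h2 | h2
    · right; exact ⟨hz.2, hz.1, Or.inl (by rw [mul_neg]; linarith)⟩
    · left; exact ⟨hz'.2, hz'.1, Or.inl h2⟩

theorem W_count (ε : ℝ) (hε : ε = 1 ∨ ε = -1) (A : Finset ℂ) (v : ℂ) (m : ℕ) :
    ((A.erase v).filter (fun z => (W ε A v z).card ≤ m)).card ≤ 2 * m + 1 := by
  set S := (A.erase v).filter (fun z => (W ε A v z).card ≤ m) with hS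
  have h1 : S.offDiag.card ≤ 2 * ∑ z ∈ S, (W ε A v z).card := by
    have h2 : S.offDiag ⊆ (S.offDiag.filter (fun t => t.2 ∈ W ε A v t.1)) ∪
        (S.offDiag.filter (fun t => t.1 ∈ W ε A v t.2)) := by
      intro t ht
      have ht' := Finset.mem_offDiag.mp ht
      rw [Finset.mem_union, Finset.mem_filter, Finset.mem_filter]
      rcases W_total ε hε A v t.1 t.2 (Finset.mem_filter.mp ht'.1).1 (Finset.mem_filter.mp ht'.2.1).1
        ht'.2.2 with h | h
      · exact Or.inl ⟨ht, h⟩
      · exact Or.inr ⟨ht, h⟩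
    have h3 : (S.offDiag.filter (fun t => t.2 ∈ W ε A v t.1)).card ≤ ∑ z ∈ S, (W ε A v z).card := by
      have : S.offDiag.filter (fun t => t.2 ∈ W ε A v t.1) ⊆ (S.sigma (fun z => W ε A v z)).image
          (fun t => (t.1, t.2)) := by
        intro t ht
        rw [Finset.mem_filter, Finset.mem_offDiag] at ht
        rw [Finset.mem_image]
        exact ⟨⟨t.1, t.2⟩, Finset.mem_sigma.mpr ⟨ht.1.1, ht.2⟩, rfl⟩
      calc (S.offDiag.filter (fun t => t.2 ∈ W ε A v t.1)).card ≤ _ := Finset.card_le_card this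
        _ ≤ (S.sigma (fun z => W ε A v z)).card := Finset.card_image_le
        _ = ∑ z ∈ S, (W ε A v z).card := Finset.card_sigma _ _
    have h4 : (S.offDiag.filter (fun t => t.1 ∈ W ε A v t.2)).card ≤ ∑ z ∈ S, (W ε A v z).card := by
      have : S.offDiag.filter (fun t => t.1 ∈ W ε A v t.2) ⊆ (S.sigma (fun z => W ε A v z)).image
          (fun t => (t.2, t.1)) := by
        intro t ht
        rw [Finset.mem_filter, Finset.mem_offDiag] at ht
        rw [Finset.mem_image]
        exact ⟨⟨t.2, t.1⟩, Finset.mem_sigma.mpr ⟨ht.1.2.1, ht.2⟩, rfl⟩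
      calc (S.offDiag.filter (fun t => t.1 ∈ W ε A v t.2)).card ≤ _ := Finset.card_le_card this
        _ ≤ (S.sigma (fun z => W ε A v z)).card := Finset.card_image_le
        _ = ∑ z ∈ S, (W ε A v z).card := Finset.card_sigma _ _
    calc S.offDiag.card ≤ _ := Finset.card_le_card h2
      _ ≤ _ := Finset.card_union_le _ _
      _ ≤ 2 * ∑ z ∈ S, (W ε A v z).card := by omega
  have h5 : ∑ z ∈ S, (W ε A v z).card ≤ S.card * m := by
    rw [← smul_eq_mul]
    exact Finset.sum_le_card_nsmul _ _ _ (fun z hz => (Finset.mem_filter.mp hz).2)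
  rw [Finset.offDiag_card] at h1
  by_contra hcon
  push Not at hcon
  have h6 : S.card * (2 * m + 1) < S.card * S.card := by
    apply Nat.mul_lt_mul_of_pos_left hcon
    omega
  have h7 : S.card ≤ S.card * S.card := Nat.le_mul_self _
  nlinarith [Nat.sub_add_cancel h7]

theorem depth_le_W (ε : ℝ) (hε : ε = 1 ∨ ε = -1) (A : Finset ℂ) (v z : ℂ) (hz : z ∈ A.erase v) :
    depth A v ≤ (W ε A v z).card := by
  rw [Finset.mem_erase] at hz
  have hzv : 0 < dist z v := dist_pos.mpr hz.1
  -- choose a small tilt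
  have hδ : ∃ δ : ℝ, 0 < δ ∧ ∀ a ∈ A, ε * crs v z a < 0 → ε * crs v z a - δ * dt v z a < 0 := by
    have h1 : ∀ a ∈ A, ∀ᶠ δ : ℝ in nhdsWithin 0 (Set.Ioi 0),
        ε * crs v z a < 0 → ε * crs v z a - δ * dt v z a < 0 := by
      intro a _
      by_cases h : ε * crs v z a < 0
      · have h2 : Filter.Tendsto (fun δ : ℝ => ε * crs v z a - δ * dt v z a) (nhdsWithin 0 (Set.Ioi 0))
            (nhds (ε * crs v z a - 0 * dt v z a)) := by
          apply Filter.Tendsto.mono_left _ nhdsWithin_le_nhds
          apply Continuous.tendsto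
          fun_prop
        rw [zero_mul, sub_zero] at h2
        filter_upwards [h2.eventually_lt_const h] with δ h3 _ using h3
      · exact Filter.Eventually.of_forall (fun _ h' => absurd h' h)
    have h2 := (Filter.eventually_all_finset A).mpr h1
    obtain ⟨δ, h3, h4⟩ := (h2.and self_mem_nhdsWithin).exists
    exact ⟨δ, h4, h3⟩
  obtain ⟨δ, hδ0, hδ⟩ := hδ
  set u : ℂ := ⟨-(ε * (z - v).im) - δ * (z - v).re, ε * (z - v).re - δ * (z - v).im⟩ with hu
  have hval : ∀ a : ℂ, (a - v).re * u.re + (a - v).im * u.im = ε * crs v z a - δ * dt v z a := by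
    intro a
    rw [hu]; unfold crs dt
    simp only
    ring
  have hu0 : u ≠ 0 := by
    intro h
    have h1 := hval z
    rw [h] at h1
    have h2 : crs v z z = 0 := by unfold crs; ring
    have h3 : dt v z z = dist z v ^ 2 := by
      rw [dist_sq_re_im']; unfold dt; simp only [Complex.sub_re, Complex.sub_im]; ring
    rw [h2, h3] at h1
    simp only [Complex.zero_re, Complex.zero_im, mul_zero, add_zero, zero_sub] at h1
    have : 0 < δ * dist z v ^ 2 := by positivity
    linarith
  have hsub : (A.erase v).filter (fun a => 0 ≤ (a - v).re * u.re + (a - v).im * u.im) ⊆ W ε A v z := by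
    intro a ha
    rw [Finset.mem_filter, Finset.mem_erase, hval] at ha
    obtain ⟨⟨hav, haA⟩, hge⟩ := ha
    unfold W
    rw [Finset.mem_filter]
    refine ⟨haA, hav, ?_⟩
    by_cases h1 : 0 < ε * crs v z a
    · exact Or.inl h1
    · right
      push Not at h1
      rcases lt_or_eq_of_le h1 with h2 | h2
      · have := hδ a haA h2
        linarith
      · have h3 : crs v z a = 0 := by
          rcases mul_eq_zero.mp h2 with h | h
          · exfalso; rcases hε with h' | h' <;> rw [h'] at h <;> norm_num at h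
          · exact h
        refine ⟨h3, Or.inl ?_⟩
        rw [h2, zero_sub] at hge
        have h4 : dt v z a ≤ 0 := by nlinarith
        rcases lt_or_eq_of_le h4 with h5 | h5
        · exact h5
        · exfalso
          have h6 := crs_dt_sq v z a
          rw [h3, h5] at h6
          have : 0 < dist a v := dist_pos.mpr hav
          have : 0 < dist z v ^ 2 * dist a v ^ 2 := by positivity
          linarith
  calc depth A v ≤ ((A.erase v).filter (fun a => 0 ≤ (a - v).re * u.re + (a - v).im * u.im)).card := by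
        apply Nat.sInf_le
        exact ⟨u, hu0, rfl⟩
    _ ≤ (W ε A v z).card := Finset.card_le_card hsub

/-- a sum over a set with few small values -/
theorem exp_sum_nat (q : ℝ) (hq : 0 < q) : ∀ (n : ℕ) (S : Finset ℂ) (f : ℂ → ℕ), S.card = n →
    (∀ m : ℕ, (S.filter (fun z => f z ≤ m)).card ≤ 2 * m + 1) →
    ∑ z ∈ S, Real.exp (-q * f z) ≤ ∑ i ∈ range n, Real.exp (-(q / 2)) ^ i := by
  intro n
  induction n with
  | zero =>
    intro S f hS _
    rw [Finset.card_eq_zero] at hS
    simp [hS]
  | succ n ih =>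
    intro S f hS hf
    have hne : S.Nonempty := by
      rw [← Finset.card_pos, hS]; omega
    obtain ⟨z, hz, hmax⟩ := Finset.exists_max_image S f hne
    have h1 : S.card ≤ 2 * f z + 1 := by
      have := hf (f z)
      rwa [Finset.filter_true_of_mem (fun a ha => hmax a ha)] at this
    have h2 : (S.erase z).card = n := by
      rw [Finset.card_erase_of_mem hz, hS]; omega
    have h3 := ih (S.erase z) f h2 (fun m => le_trans
      (Finset.card_le_card (Finset.filter_subset_filter _ (Finset.erase_subset _ _))) (hf m))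
    rw [← Finset.add_sum_erase S _ hz, Finset.sum_range_succ, add_comm]
    have h4 : Real.exp (-q * f z) ≤ Real.exp (-(q / 2)) ^ n := by
      rw [← Real.exp_nat_mul, Real.exp_le_exp]
      have h5 : (n : ℝ) ≤ 2 * f z := by
        have : n ≤ 2 * f z := by omega
        exact_mod_cast this
      nlinarith
    linarith

theorem exp_sum_le (q : ℝ) (hq : 0 < q) (hq1 : q ≤ 1) (S : Finset ℂ) (f : ℂ → ℕ)
    (hf : ∀ m : ℕ, (S.filter (fun z => f z ≤ m)).card ≤ 2 * m + 1) :
    ∑ z ∈ S, Real.exp (-q * f z) ≤ 4 / q := by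
  refine le_trans (exp_sum_nat q hq S.card S f rfl hf) ?_
  have h0 : 0 < Real.exp (-(q / 2)) := Real.exp_pos _
  have h1 : Real.exp (-(q / 2)) < 1 := by
    rw [Real.exp_lt_one_iff]; linarith
  have h2 : Real.exp (-(q / 2)) ≤ 1 - q / 4 := by
    -- exp(-t) ≤ 1/(1+t) ≤ 1 - t/2 for t ≤ 1
    have h3 : 1 + q / 2 ≤ Real.exp (q / 2) := by
      have := Real.add_one_le_exp (q / 2); linarith
    have h4 : Real.exp (-(q / 2)) * Real.exp (q / 2) = 1 := by
      rw [← Real.exp_add]; simp
    have h5 : Real.exp (-(q / 2)) * (1 + q / 2) ≤ 1 :=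
      le_trans (mul_le_mul_of_nonneg_left h3 h0.le) (le_of_eq h4)
    have h6 : 1 ≤ (1 - q / 4) * (1 + q / 2) := by nlinarith
    have h7 : Real.exp (-(q / 2)) * (1 + q / 2) ≤ (1 - q / 4) * (1 + q / 2) := by linarith
    exact le_of_mul_le_mul_right h7 (by linarith)
  rw [geom_sum_eq h1.ne, ← neg_div_neg_eq]
  rw [div_le_div_iff₀ (by linarith) hq]
  have h3 : 0 ≤ Real.exp (-(q / 2)) ^ S.card := by positivity
  nlinarith

theorem W_exp_sum (ε : ℝ) (hε : ε = 1 ∨ ε = -1) (A : Finset ℂ) (v : ℂ) (q : ℝ) (hq : 0 < q) (hq1 : q ≤ 1) :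
    ∑ z ∈ A.erase v, Real.exp (-q * (W ε A v z).card) ≤ (8 / q) * Real.exp (-q * depth A v / 2) := by
  have h1 : ∀ z ∈ A.erase v, Real.exp (-q * (W ε A v z).card) ≤
      Real.exp (-(q / 2) * (W ε A v z).card) * Real.exp (-q * depth A v / 2) := by
    intro z hz
    rw [← Real.exp_add, Real.exp_le_exp]
    have : (depth A v : ℝ) ≤ (W ε A v z).card := by exact_mod_cast depth_le_W ε hε A v z hz
    nlinarith
  calc ∑ z ∈ A.erase v, Real.exp (-q * (W ε A v z).card)
      ≤ ∑ z ∈ A.erase v, Real.exp (-(q / 2) * (W ε A v z).card) * Real.exp (-q * depth A v / 2) :=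
        Finset.sum_le_sum h1
    _ = (∑ z ∈ A.erase v, Real.exp (-(q / 2) * (W ε A v z).card)) * Real.exp (-q * depth A v / 2) := by
        rw [Finset.sum_mul]
    _ ≤ (4 / (q / 2)) * Real.exp (-q * depth A v / 2) := by
        apply mul_le_mul_of_nonneg_right _ (Real.exp_pos _).le
        exact exp_sum_le (q / 2) (by linarith) (by linarith) (A.erase v) (fun z => (W ε A v z).card)
          (W_count ε hε A v)
    _ = (8 / q) * Real.exp (-q * depth A v / 2) := by
        congr 1; field_simp; norm_num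

theorem SE_exists (A R : Finset ℂ) (hR : R ⊆ A) (v : ℂ) (hv : v ∈ R) (hv2 : ∃ r ∈ R, r ≠ v)
    (h : SE R v) : ∃ z ∈ R, z ≠ v ∧ Disjoint (W 1 A v z) R := by
  obtain ⟨u, hu0, hu⟩ := h
  set P : ℂ → ℝ := fun r => (r - v).re * u.re + (r - v).im * u.im with hP
  set Q : ℂ → ℝ := fun r => (r - v).im * u.re - (r - v).re * u.im with hQ
  have hu2 : 0 < u.re ^ 2 + u.im ^ 2 := by
    have : u.re ≠ 0 ∨ u.im ≠ 0 := by
      by_contra hcon
      push Not at hcon
      exact hu0 (Complex.ext hcon.1 hcon.2)
    rcases this with h | h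
    · positivity
    · positivity
  have hcrs : ∀ z r, crs v z r * (u.re ^ 2 + u.im ^ 2) = P z * Q r - Q z * P r := by
    intro z r; simp only [hP, hQ]; unfold crs; ring
  have hdt : ∀ z r, dt v z r * (u.re ^ 2 + u.im ^ 2) = P z * P r + Q z * Q r := by
    intro z r; simp only [hP, hQ]; unfold dt; ring
  have hPpos : ∀ r ∈ R.erase v, 0 < P r := fun r hr => by
    rw [Finset.mem_erase] at hr
    exact hu r hr.2 hr.1
  have hne : (R.erase v).Nonempty := by
    obtain ⟨r, hr, hrv⟩ := hv2
    exact ⟨r, Finset.mem_erase.mpr ⟨hrv, hr⟩⟩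
  obtain ⟨z₀, hz₀, hmax⟩ := Finset.exists_max_image (R.erase v) (fun r => Q r / P r) hne
  have hne2 : ((R.erase v).filter (fun r => Q r / P r = Q z₀ / P z₀)).Nonempty :=
    ⟨z₀, Finset.mem_filter.mpr ⟨hz₀, rfl⟩⟩
  obtain ⟨z, hz, hmin⟩ := Finset.exists_min_image _ (fun r => dist r v) hne2
  rw [Finset.mem_filter] at hz
  have hzR := Finset.mem_erase.mp hz.1
  refine ⟨z, hzR.2, hzR.1, ?_⟩
  rw [Finset.disjoint_left]
  intro r hrW hrR
  unfold W at hrW
  rw [Finset.mem_filter] at hrW
  obtain ⟨_, hrv, hr⟩ := hrW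
  have hrE : r ∈ R.erase v := Finset.mem_erase.mpr ⟨hrv, hrR⟩
  have hPz := hPpos z hz.1
  have hPr := hPpos r hrE
  have hle : Q r / P r ≤ Q z / P z := by
    rw [hz.2]; exact hmax r hrE
  rw [div_le_div_iff₀ hPr hPz] at hle
  have hc := hcrs z r
  rcases hr with h1 | ⟨h1, h2⟩
  · rw [one_mul] at h1
    have : 0 < crs v z r * (u.re ^ 2 + u.im ^ 2) := mul_pos h1 hu2
    rw [hc] at this
    nlinarith
  · rw [h1, zero_mul] at hc
    have heq : Q r / P r = Q z₀ / P z₀ := by
      rw [← hz.2, div_eq_div_iff hPr.ne' hPz.ne']; linarith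
    rcases h2 with h3 | ⟨h3, h4⟩
    · have h5 := hdt z r
      have h6 : dt v z r * (u.re ^ 2 + u.im ^ 2) < 0 := mul_neg_of_neg_of_pos h3 hu2
      rw [h5] at h6
      have h7 : 0 ≤ Q z * Q r := by
        have h8 : Q r = Q z / P z * P r := by
          field_simp; linarith
        rw [h8]
        have : Q z * (Q z / P z * P r) = Q z ^ 2 * (P r / P z) := by ring
        rw [this]
        positivity
      nlinarith
    · have h5 := hmin r (Finset.mem_filter.mpr ⟨hrE, heq⟩)
      linarith

theorem ex_sum_fin {α ι : Type*} [DecidableEq α] (p : ℝ) (A : Finset α) (I : Finset ι)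
    (f : ι → Finset α → ℝ) :
    ex p A (fun R => ∑ i ∈ I, f i R) = ∑ i ∈ I, ex p A (f i) := by
  unfold ex
  rw [Finset.sum_comm]
  apply Finset.sum_congr rfl
  intro R _
  rw [Finset.mul_sum]

theorem ex_mul_const {α : Type*} [DecidableEq α] (p : ℝ) (A : Finset α) (c : ℝ)
    (f : Finset α → ℝ) :
    ex p A (fun R => c * f R) = c * ex p A f := by
  unfold ex
  rw [Finset.mul_sum]
  apply Finset.sum_congr rfl
  intro R _
  ring

theorem ex_add {α : Type*} [DecidableEq α] (p : ℝ) (A : Finset α) (f g : Finset α → ℝ) :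
    ex p A (fun R => f R + g R) = ex p A f + ex p A g := by
  unfold ex
  rw [← Finset.sum_add_distrib]
  apply Finset.sum_congr rfl
  intro R _
  ring

theorem ex_le {α : Type*} [DecidableEq α] (p : ℝ) (hp : 0 ≤ p) (hp1 : p ≤ 1) (A : Finset α)
    (f g : Finset α → ℝ) (h : ∀ R, R ⊆ A → f R ≤ g R) : ex p A f ≤ ex p A g := by
  unfold ex
  apply Finset.sum_le_sum
  intro R hR
  have : 0 ≤ 1 - p := by linarith
  exact mul_le_mul_of_nonneg_left (h R (Finset.mem_powerset.mp hR)) (by positivity)

theorem one_sub_pow_le (p : ℝ) (hp1 : p ≤ 1) (k : ℕ) : (1 - p) ^ k ≤ Real.exp (-p * k) := by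
  have h1 : 1 - p ≤ Real.exp (-p) := by
    have := Real.add_one_le_exp (-p); linarith
  calc (1 - p) ^ k ≤ Real.exp (-p) ^ k := pow_le_pow_left₀ (by linarith) h1 k
    _ = Real.exp (-p * k) := by rw [← Real.exp_nat_mul]; ring_nf

theorem W_subset (ε : ℝ) (A : Finset ℂ) (v z : ℂ) : W ε A v z ⊆ A := Finset.filter_subset _ _

theorem pair_disj_W (ε : ℝ) (A : Finset ℂ) (v z : ℂ) : Disjoint ({v, z} : Finset ℂ) (W ε A v z) := by
  rw [Finset.disjoint_left]
  intro a ha haW
  unfold W at haW
  rw [Finset.mem_filter] at haW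
  rw [Finset.mem_insert, Finset.mem_singleton] at ha
  rcases ha with rfl | rfl
  · exact haW.2.1 rfl
  · have h0 : crs v a a = 0 := by unfold crs; ring
    rcases haW.2.2 with h | ⟨_, h | ⟨_, h⟩⟩
    · rw [h0, mul_zero] at h; exact lt_irrefl _ h
    · unfold dt at h; nlinarith [sq_nonneg ((a - v).re), sq_nonneg ((a - v).im)]
    · exact lt_irrefl _ h

/-- probability that `v, z` are sampled and `W` is missed -/
theorem ex_pair_W (ε : ℝ) (A : Finset ℂ) (p : ℝ) (v z : ℂ) (hv : v ∈ A)
    (hz : z ∈ A.erase v) :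
    ex p A (fun R => if ({v, z} : Finset ℂ) ⊆ R ∧ Disjoint (W ε A v z) R then (1:ℝ) else 0) =
      p ^ 2 * (1 - p) ^ (W ε A v z).card := by
  rw [Finset.mem_erase] at hz
  have h1 := ex_pair p A {v, z} (W ε A v z) (by
    intro a ha
    rw [Finset.mem_insert, Finset.mem_singleton] at ha
    rcases ha with rfl | rfl
    · exact hv
    · exact hz.2) (W_subset ε A v z) (pair_disj_W ε A v z)
  rw [Finset.card_pair hz.1.symm] at h1
  rw [← h1]

theorem depth_le_card (A : Finset ℂ) (v : ℂ) : depth A v ≤ (A.erase v).card := by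
  calc depth A v ≤ ((A.erase v).filter
        (fun a => 0 ≤ (a - v).re * (1 : ℂ).re + (a - v).im * (1 : ℂ).im)).card := by
        apply Nat.sInf_le
        exact ⟨1, one_ne_zero, rfl⟩
    _ ≤ (A.erase v).card := Finset.card_filter_le _ _

theorem ex_SE (A : Finset ℂ) (q : ℝ) (hq : 0 < q) (hq1 : q ≤ 1/2) :
    ex q A (fun R => ((R.filter (fun v => SE R v)).card : ℝ)) ≤
      q * ∑ v ∈ A, 9 * Real.exp (-q * depth A v / 2) := by
  have h1 : ex q A (fun R => ((R.filter (fun v => SE R v)).card : ℝ)) ≤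
      ex q A (fun R => ∑ v ∈ A, ((if ({v} : Finset ℂ) ⊆ R ∧ Disjoint (A.erase v) R then (1:ℝ) else 0) +
        ∑ z ∈ A.erase v, (if ({v, z} : Finset ℂ) ⊆ R ∧ Disjoint (W 1 A v z) R then (1:ℝ) else 0))) := by
    apply ex_le q hq.le (by linarith)
    intro R hR
    have h2 : ((R.filter (fun v => SE R v)).card : ℝ) =
        ∑ v ∈ R.filter (fun v => SE R v), (1:ℝ) := by simp
    rw [h2]
    calc ∑ v ∈ R.filter (fun v => SE R v), (1:ℝ) ≤ ∑ v ∈ R.filter (fun v => SE R v),
        ((if ({v} : Finset ℂ) ⊆ R ∧ Disjoint (A.erase v) R then (1:ℝ) else 0) +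
        ∑ z ∈ A.erase v, (if ({v, z} : Finset ℂ) ⊆ R ∧ Disjoint (W 1 A v z) R then (1:ℝ) else 0)) := by
          apply Finset.sum_le_sum
          intro v hv
          rw [Finset.mem_filter] at hv
          by_cases hv2 : ∃ r ∈ R, r ≠ v
          · obtain ⟨z, hzR, hzv, hdis⟩ := SE_exists A R hR v hv.1 hv2 hv.2
            have h3 : (1:ℝ) ≤ ∑ z ∈ A.erase v,
                (if ({v, z} : Finset ℂ) ⊆ R ∧ Disjoint (W 1 A v z) R then (1:ℝ) else 0) := by
              have hzE : z ∈ A.erase v := Finset.mem_erase.mpr ⟨hzv, hR hzR⟩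
              have h4 := Finset.single_le_sum (f := fun z =>
                (if ({v, z} : Finset ℂ) ⊆ R ∧ Disjoint (W 1 A v z) R then (1:ℝ) else 0))
                (fun i _ => by positivity) hzE
              refine le_trans (le_of_eq ?_) h4
              symm
              apply if_pos
              refine ⟨?_, hdis⟩
              intro a ha
              rw [Finset.mem_insert, Finset.mem_singleton] at ha
              rcases ha with rfl | rfl
              · exact hv.1
              · exact hzR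
            have h5 : (0:ℝ) ≤ (if ({v} : Finset ℂ) ⊆ R ∧ Disjoint (A.erase v) R then (1:ℝ) else 0) := by
              positivity
            linarith
          · push Not at hv2
            have h3 : (if ({v} : Finset ℂ) ⊆ R ∧ Disjoint (A.erase v) R then (1:ℝ) else 0) = 1 := by
              apply if_pos
              refine ⟨Finset.singleton_subset_iff.mpr hv.1, ?_⟩
              rw [Finset.disjoint_left]
              intro a ha haR
              exact (Finset.mem_erase.mp ha).1 (hv2 a haR)
            have h5 : (0:ℝ) ≤ ∑ z ∈ A.erase v,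
                (if ({v, z} : Finset ℂ) ⊆ R ∧ Disjoint (W 1 A v z) R then (1:ℝ) else 0) :=
              Finset.sum_nonneg (fun i _ => by positivity)
            linarith
      _ ≤ _ := by
          apply Finset.sum_le_sum_of_subset_of_nonneg
          · exact (Finset.filter_subset _ _).trans hR
          · intro v _ _
            apply add_nonneg (by positivity)
            exact Finset.sum_nonneg (fun i _ => by positivity)
  refine le_trans h1 ?_
  rw [ex_sum_fin, Finset.mul_sum]
  apply Finset.sum_le_sum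
  intro v hv
  rw [ex_add, ex_sum_fin]
  have h2 : ex q A (fun R => if ({v} : Finset ℂ) ⊆ R ∧ Disjoint (A.erase v) R then (1:ℝ) else 0) ≤
      q * Real.exp (-q * depth A v / 2) := by
    have h3 := ex_pair q A {v} (A.erase v) (Finset.singleton_subset_iff.mpr hv)
      (Finset.erase_subset _ _) (by simp)
    rw [Finset.card_singleton, pow_one] at h3
    have h4 : ex q A (fun R => if ({v} : Finset ℂ) ⊆ R ∧ Disjoint (A.erase v) R then (1:ℝ) else 0) =
        q * (1 - q) ^ (A.erase v).card := by rw [← h3]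
    rw [h4]
    apply mul_le_mul_of_nonneg_left _ hq.le
    refine le_trans (one_sub_pow_le q (by linarith) _) ?_
    rw [Real.exp_le_exp]
    have h5 : (depth A v : ℝ) ≤ (A.erase v).card := by exact_mod_cast depth_le_card A v
    have h6 : (0:ℝ) ≤ depth A v := Nat.cast_nonneg _
    nlinarith
  have h3 : ∑ z ∈ A.erase v, ex q A (fun R =>
      if ({v, z} : Finset ℂ) ⊆ R ∧ Disjoint (W 1 A v z) R then (1:ℝ) else 0) ≤
      8 * q * Real.exp (-q * depth A v / 2) := by
    calc ∑ z ∈ A.erase v, ex q A (fun R =>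
        if ({v, z} : Finset ℂ) ⊆ R ∧ Disjoint (W 1 A v z) R then (1:ℝ) else 0)
        ≤ ∑ z ∈ A.erase v, q ^ 2 * Real.exp (-q * (W 1 A v z).card) := by
          apply Finset.sum_le_sum
          intro z hz
          rw [ex_pair_W 1 A q v z hv hz]
          exact mul_le_mul_of_nonneg_left (one_sub_pow_le q (by linarith) _) (by positivity)
      _ = q ^ 2 * ∑ z ∈ A.erase v, Real.exp (-q * (W 1 A v z).card) := by rw [Finset.mul_sum]
      _ ≤ q ^ 2 * ((8 / q) * Real.exp (-q * depth A v / 2)) :=
          mul_le_mul_of_nonneg_left (W_exp_sum 1 (Or.inl rfl) A v q hq (by linarith)) (by positivity)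
      _ = 8 * q * Real.exp (-q * depth A v / 2) := by field_simp
  calc _ ≤ q * Real.exp (-q * depth A v / 2) + 8 * q * Real.exp (-q * depth A v / 2) := add_le_add h2 h3
    _ = q * (9 * Real.exp (-q * depth A v / 2)) := by ring

theorem ex_hull (ε : ℝ) (hε : ε = 1 ∨ ε = -1) (A : Finset ℂ) (p : ℝ) (hp : 0 < p) (hp1 : p ≤ 1/2) :
    ex p A (fun R => ∑ v ∈ R, ∑ z ∈ (R.erase v).filter (fun z => Disjoint (W ε A v z) R),
      Real.exp (p * (W ε A v z).card / 4)) ≤
      p * ∑ v ∈ A, 11 * Real.exp (-p * depth A v / 4) := by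
  have h1 : ex p A (fun R => ∑ v ∈ R, ∑ z ∈ (R.erase v).filter (fun z => Disjoint (W ε A v z) R),
      Real.exp (p * (W ε A v z).card / 4)) ≤
      ex p A (fun R => ∑ v ∈ A, ∑ z ∈ A.erase v, Real.exp (p * (W ε A v z).card / 4) *
        (if ({v, z} : Finset ℂ) ⊆ R ∧ Disjoint (W ε A v z) R then (1:ℝ) else 0)) := by
    apply ex_le p hp.le (by linarith)
    intro R hR
    calc ∑ v ∈ R, ∑ z ∈ (R.erase v).filter (fun z => Disjoint (W ε A v z) R),
        Real.exp (p * (W ε A v z).card / 4)
        ≤ ∑ v ∈ R, ∑ z ∈ A.erase v, Real.exp (p * (W ε A v z).card / 4) *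
        (if ({v, z} : Finset ℂ) ⊆ R ∧ Disjoint (W ε A v z) R then (1:ℝ) else 0) := by
          apply Finset.sum_le_sum
          intro v hv
          calc ∑ z ∈ (R.erase v).filter (fun z => Disjoint (W ε A v z) R),
              Real.exp (p * (W ε A v z).card / 4)
              = ∑ z ∈ (R.erase v).filter (fun z => Disjoint (W ε A v z) R),
                Real.exp (p * (W ε A v z).card / 4) *
        (if ({v, z} : Finset ℂ) ⊆ R ∧ Disjoint (W ε A v z) R then (1:ℝ) else 0) := by
                apply Finset.sum_congr rfl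
                intro z hz
                rw [Finset.mem_filter, Finset.mem_erase] at hz
                rw [if_pos, mul_one]
                refine ⟨?_, hz.2⟩
                intro a ha
                rw [Finset.mem_insert, Finset.mem_singleton] at ha
                rcases ha with rfl | rfl
                · exact hv
                · exact hz.1.2
            _ ≤ _ := by
                apply Finset.sum_le_sum_of_subset_of_nonneg
                · exact (Finset.filter_subset _ _).trans (Finset.erase_subset_erase v hR)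
                · intro z _ _
                  positivity
      _ ≤ _ := by
          apply Finset.sum_le_sum_of_subset_of_nonneg hR
          intro v _ _
          exact Finset.sum_nonneg (fun i _ => by positivity)
  refine le_trans h1 ?_
  rw [ex_sum_fin, Finset.mul_sum]
  apply Finset.sum_le_sum
  intro v hv
  rw [ex_sum_fin]
  calc ∑ z ∈ A.erase v, ex p A (fun R => Real.exp (p * (W ε A v z).card / 4) *
        (if ({v, z} : Finset ℂ) ⊆ R ∧ Disjoint (W ε A v z) R then (1:ℝ) else 0))
      ≤ ∑ z ∈ A.erase v, p ^ 2 * Real.exp (-(3 * p / 4) * (W ε A v z).card) := by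
        apply Finset.sum_le_sum
        intro z hz
        rw [ex_mul_const, ex_pair_W ε A p v z hv hz]
        calc Real.exp (p * (W ε A v z).card / 4) * (p ^ 2 * (1 - p) ^ (W ε A v z).card)
            ≤ Real.exp (p * (W ε A v z).card / 4) * (p ^ 2 * Real.exp (-p * (W ε A v z).card)) := by
              apply mul_le_mul_of_nonneg_left _ (Real.exp_pos _).le
              exact mul_le_mul_of_nonneg_left (one_sub_pow_le p (by linarith) _) (by positivity)
          _ = p ^ 2 * Real.exp (-(3 * p / 4) * (W ε A v z).card) := by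
              rw [mul_left_comm, ← Real.exp_add]
              congr 2; ring
    _ = p ^ 2 * ∑ z ∈ A.erase v, Real.exp (-(3 * p / 4) * (W ε A v z).card) := by rw [Finset.mul_sum]
    _ ≤ p ^ 2 * ((8 / (3 * p / 4)) * Real.exp (-(3 * p / 4) * depth A v / 2)) :=
        mul_le_mul_of_nonneg_left (W_exp_sum ε hε A v (3 * p / 4) (by positivity) (by linarith))
          (by positivity)
    _ = p * (32 / 3 * Real.exp (-(3 * p / 4) * depth A v / 2)) := by field_simp; ring
    _ ≤ p * (11 * Real.exp (-p * depth A v / 4)) := by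
        apply mul_le_mul_of_nonneg_left _ hp.le
        have h2 : Real.exp (-(3 * p / 4) * depth A v / 2) ≤ Real.exp (-p * depth A v / 4) := by
          rw [Real.exp_le_exp]
          have h6 : (0:ℝ) ≤ p * depth A v := by positivity
          nlinarith
        have h3 := Real.exp_pos (-(3 * p / 4) * depth A v / 2)
        nlinarith

end

end Pool.Agent.DD
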