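import Pool.Agent.Lib_helper60.DD.Defs

/-!
# MP_a2cbb7_co, block M2: `close_pair`
-/

set_option autoImplicit false

namespace Pool.Agent.DD

open Finset Classical

noncomputable section

/-- two points on a circle of radius `ρ` around the origin, on the same side, at small height:
the chord is steep -/
theorem chord_real (ρ p1 p2 q1 q2 : ℝ) (hρ : 0 < ρ) (hp : p1 ^ 2 + p2 ^ 2 = ρ ^ 2)
    (hq : q1 ^ 2 + q2 ^ 2 = ρ ^ 2) (hp2 : |p2| ≤ 71 / 1000 * ρ) (hq2 : |q2| ≤ 71 / 1000 * ρ)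
    (hs : 0 < p1 * q1) (hpq : q2 < p2) : |p1 - q1| ≤ 8 / 100 * (p2 - q2) := by
  obtain ⟨a1, a2⟩ := abs_le.mp hp2
  obtain ⟨b1, b2⟩ := abs_le.mp hq2
  have hP : (98 / 100 * ρ) ^ 2 ≤ p1 ^ 2 := by nlinarith
  have hQ : (98 / 100 * ρ) ^ 2 ≤ q1 ^ 2 := by nlinarith
  have hP' : 98 / 100 * ρ ≤ |p1| := by
    have := sq_le_sq.mp hP
    rwa [abs_of_pos (by linarith : 0 < 98 / 100 * ρ)] at this
  have hQ' : 98 / 100 * ρ ≤ |q1| := by
    have := sq_le_sq.mp hQ
    rwa [abs_of_pos (by linarith : 0 < 98 / 100 * ρ)] at this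
  have hsum : 196 / 100 * ρ ≤ |p1 + q1| := by
    rcases lt_or_ge 0 p1 with h | h
    · have hq0 : 0 < q1 := by
        by_contra hcon
        push Not at hcon
        nlinarith
      rw [abs_of_pos h] at hP'
      rw [abs_of_pos hq0] at hQ'
      rw [abs_of_pos (by linarith)]
      linarith
    · have hq0 : q1 < 0 := by
        by_contra hcon
        push Not at hcon
        nlinarith
      rw [abs_of_nonpos h] at hP'
      rw [abs_of_neg hq0] at hQ'
      rw [abs_of_nonpos (by linarith)]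
      linarith
  have hprod : |p1 - q1| * |p1 + q1| = (p2 - q2) * |p2 + q2| := by
    rw [← abs_mul, show (p1 - q1) * (p1 + q1) = -((p2 - q2) * (p2 + q2)) by nlinarith, abs_neg,
      abs_mul, abs_of_pos (by linarith : 0 < p2 - q2)]
  have hsm : |p2 + q2| ≤ 142 / 1000 * ρ := by
    rw [abs_le]; constructor <;> linarith
  have h1 : |p1 - q1| * (196 / 100 * ρ) ≤ (p2 - q2) * (142 / 1000 * ρ) := by
    calc |p1 - q1| * (196 / 100 * ρ) ≤ |p1 - q1| * |p1 + q1| :=
          mul_le_mul_of_nonneg_left hsum (abs_nonneg _)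
      _ = (p2 - q2) * |p2 + q2| := hprod
      _ ≤ (p2 - q2) * (142 / 1000 * ρ) := mul_le_mul_of_nonneg_left hsm (by linarith)
  have h2 : |p1 - q1| * (196 / 100) ≤ (p2 - q2) * (142 / 1000) := by
    have : |p1 - q1| * (196 / 100) * ρ ≤ (p2 - q2) * (142 / 1000) * ρ := by nlinarith
    exact le_of_mul_le_mul_right this hρ
  have h3 : 0 < p2 - q2 := by linarith
  nlinarith

theorem dist_sq_re_im (a x : ℂ) : (a.re - x.re) ^ 2 + (a.im - x.im) ^ 2 = dist a x ^ 2 := by
  rw [dist_eq_norm, ← Complex.normSq_eq_norm_sq, Complex.normSq_apply]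
  simp only [Complex.sub_re, Complex.sub_im]
  ring

/-- a point `t` at distance `ρ` from `x` near a chain point `e` is nearly horizontal from `x` -/
theorem near_flat (s s' ρ : ℝ) (hρ : 0 < ρ) (hs : |s| ≤ 1/20) (hs' : |s'| ≤ 1/20) (x e t : ℂ)
    (ht : dist t x = ρ) (het : dist e t ≤ (1/50) * ρ) (h1 : ¬ Up s x e) (h2 : ¬ Up s' e x) :
    |t.im - x.im| ≤ 71 / 1000 * ρ := by
  unfold Up at h1 h2
  push Not at h1 h2
  have hex : dist e x ≤ 51 / 50 * ρ := by
    calc dist e x ≤ dist e t + dist t x := dist_triangle _ _ _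
      _ ≤ 51 / 50 * ρ := by rw [ht]; linarith
  have hre : |e.re - x.re| ≤ 51 / 50 * ρ := by
    refine le_trans ?_ hex
    rw [dist_eq_norm, ← Complex.sub_re]
    exact Complex.abs_re_le_norm _
  have hte : |e.im - t.im| ≤ 1 / 50 * ρ := by
    refine le_trans ?_ het
    rw [dist_eq_norm, ← Complex.sub_im]
    exact Complex.abs_im_le_norm _
  have k1 : s * (e.re - x.re) ≤ 51 / 1000 * ρ := by
    calc s * (e.re - x.re) ≤ |s * (e.re - x.re)| := le_abs_self _
      _ = |s| * |e.re - x.re| := abs_mul _ _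
      _ ≤ (1/20) * (51 / 50 * ρ) := by gcongr
      _ = 51 / 1000 * ρ := by ring
  have k2 : s' * (x.re - e.re) ≤ 51 / 1000 * ρ := by
    calc s' * (x.re - e.re) ≤ |s' * (x.re - e.re)| := le_abs_self _
      _ = |s'| * |e.re - x.re| := by rw [abs_mul, abs_sub_comm x.re e.re]
      _ ≤ (1/20) * (51 / 50 * ρ) := by gcongr
      _ = 51 / 1000 * ρ := by ring
  obtain ⟨b1, b2⟩ := abs_le.mp hte
  rw [abs_le]
  constructor <;> linarith

theorem close_geom (x a c : ℂ) (ρ : ℝ) (hρ : 0 < ρ) (ha : dist a x = ρ) (hc : dist c x = ρ)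
    (ha2 : |a.im - x.im| ≤ 71 / 1000 * ρ) (hc2 : |c.im - x.im| ≤ 71 / 1000 * ρ)
    (hs : 0 < (a.re - x.re) * (c.re - x.re)) (hac : c.im < a.im) :
    ∃ (w : ℂ) (t y : ℝ), ‖w‖ = 1 ∧ 0 < w.im ∧ |w.re| ≤ w.im / 4 ∧ 0 < t ∧
      t ≤ |y| / 2 ∧ a = c + (2 * t : ℝ) * w ∧ x = c + (t + y * Complex.I) * w := by
  have hps := dist_sq_re_im a x
  have hqs := dist_sq_re_im c x
  rw [ha] at hps
  rw [hc] at hqs
  have hch := chord_real ρ (a.re - x.re) (a.im - x.im) (c.re - x.re) (c.im - x.im) hρ hps hqs ha2 hc2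
    hs (by linarith)
  have hch' : |a.re - c.re| ≤ 8 / 100 * (a.im - c.im) := by
    have e1 : a.re - x.re - (c.re - x.re) = a.re - c.re := by ring
    have e2 : a.im - x.im - (c.im - x.im) = a.im - c.im := by ring
    rwa [e1, e2] at hch
  set d : ℝ := dist a c with hd
  have hne : a ≠ c := by
    intro h; rw [h] at hac; exact lt_irrefl _ hac
  have hd0 : 0 < d := dist_pos.mpr hne
  have hds := dist_sq_re_im a c
  rw [← hd] at hds
  have hdle : d ≤ 108 / 100 * (a.im - c.im) := by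
    have h1 : d ≤ |a.re - c.re| + |a.im - c.im| := by
      rw [hd, dist_eq_norm]
      calc ‖a - c‖ ≤ |(a - c).re| + |(a - c).im| := Complex.norm_le_abs_re_add_abs_im _
        _ = |a.re - c.re| + |a.im - c.im| := by rw [Complex.sub_re, Complex.sub_im]
    rw [abs_of_pos (by linarith : 0 < a.im - c.im)] at h1
    linarith
  have him : a.im - c.im ≤ 142 / 1000 * ρ := by
    have := (abs_le.mp ha2).2
    have := (abs_le.mp hc2).1
    linarith
  set w : ℂ := (a - c) / (d : ℂ) with hw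
  have hwn : ‖w‖ = 1 := by
    rw [hw, norm_div, Complex.norm_real, Real.norm_of_nonneg hd0.le, ← dist_eq_norm, ← hd]
    exact div_self hd0.ne'
  have hwre : w.re = (a.re - c.re) / d := by
    rw [hw, Complex.div_ofReal_re, Complex.sub_re]
  have hwim : w.im = (a.im - c.im) / d := by
    rw [hw, Complex.div_ofReal_im, Complex.sub_im]
  have hdw : (d : ℂ) * w = a - c := by
    rw [hw]; field_simp [Complex.ofReal_ne_zero.mpr hd0.ne']
  have hww : w * (starRingEnd ℂ) w = 1 := by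
    rw [Complex.mul_conj, Complex.normSq_eq_norm_sq, hwn]; simp
  set v : ℂ := (x - c) * (starRingEnd ℂ) w with hv
  have hxc : x = c + v * w := by
    rw [hv, mul_assoc, mul_comm ((starRingEnd ℂ) w) w, hww]; ring
  have hvre : v.re = d / 2 := by
    have h1 : v.re = (x.re - c.re) * w.re + (x.im - c.im) * w.im := by
      rw [hv]; simp [Complex.mul_re]
    rw [h1, hwre, hwim]
    have h2 : (x.re - c.re) * (a.re - c.re) + (x.im - c.im) * (a.im - c.im) = d ^ 2 / 2 := by
      nlinarith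
    have h3 : (x.re - c.re) * ((a.re - c.re) / d) + (x.im - c.im) * ((a.im - c.im) / d) =
        ((x.re - c.re) * (a.re - c.re) + (x.im - c.im) * (a.im - c.im)) / d := by ring
    rw [h3, h2]; field_simp
  have hvn : v.re ^ 2 + v.im ^ 2 = ρ ^ 2 := by
    have h1 : ‖v‖ = ρ := by
      rw [hv, norm_mul, RCLike.norm_conj, hwn, mul_one, ← dist_eq_norm, dist_comm, hc]
    rw [← h1, ← Complex.normSq_eq_norm_sq, Complex.normSq_apply]; ring
  refine ⟨w, d / 2, v.im, hwn, ?_, ?_, by linarith, ?_, ?_, ?_⟩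
  · rw [hwim]; exact div_pos (by linarith) hd0
  · rw [hwre, hwim, abs_div, abs_of_pos hd0, div_div, mul_comm d 4, ← div_div]
    apply div_le_div_of_nonneg_right _ hd0.le
    linarith
  · have h1 : (2 * (d / 2)) ^ 2 ≤ v.im ^ 2 := by
      rw [hvre] at hvn
      have : d ≤ 154 / 1000 * ρ := by linarith
      nlinarith
    have h2 := sq_le_sq.mp h1
    rw [abs_of_pos (by linarith : 0 < 2 * (d / 2))] at h2
    linarith
  · have : ((2 * (d / 2) : ℝ) : ℂ) = (d : ℂ) := by
      congr 1; ring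
    rw [this, hdw]; ring
  · rw [← hvre, Complex.re_add_im]; exact hxc

/-- `t` is nearly horizontal from `x` -/
theorem flat_of_count (A E : Finset ℂ) (σ : ℂ → ℝ) (h s₁ k₁ : ℝ) (hch : Chain A E σ (1/20) h)
    (hk : h + s₁ < k₁) (x : ℂ) (hx : x ∈ E)
    (htx : ((E.filter (fun e => Up (σ e) e x)).card : ℝ) ≤ s₁) (ρ : ℝ) (hρ : 0 < ρ) (t : ℂ)
    (ht : dist t x = ρ) (hnear : k₁ ≤ ((E.filter (fun e => dist e t ≤ (1/50) * ρ)).card : ℝ)) :
    |t.im - x.im| ≤ 71 / 1000 * ρ := by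
  have hbad : (((E.filter (fun e => Up (σ x) x e)) ∪ (E.filter (fun e => Up (σ e) e x))).card : ℝ)
      < ((E.filter (fun e => dist e t ≤ (1/50) * ρ)).card : ℝ) := by
    have h1 : ((E.filter (fun e => Up (σ x) x e)).card : ℝ) ≤ h := by
      refine le_trans ?_ (hch.low x hx)
      exact_mod_cast Finset.card_le_card (Finset.filter_subset_filter _ hch.sub)
    have h2 : (((E.filter (fun e => Up (σ x) x e)) ∪ (E.filter (fun e => Up (σ e) e x))).card : ℝ) ≤
        ((E.filter (fun e => Up (σ x) x e)).card : ℝ) + ((E.filter (fun e => Up (σ e) e x)).card : ℝ) := by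
      exact_mod_cast Finset.card_union_le _ _
    linarith
  have hbad' : ((E.filter (fun e => Up (σ x) x e)) ∪ (E.filter (fun e => Up (σ e) e x))).card
      < (E.filter (fun e => dist e t ≤ (1/50) * ρ)).card := by exact_mod_cast hbad
  obtain ⟨e, he1, he2⟩ := Finset.exists_mem_notMem_of_card_lt_card hbad'
  rw [Finset.mem_filter] at he1
  rw [Finset.mem_union, not_or, Finset.mem_filter, Finset.mem_filter] at he2
  refine near_flat (σ x) (σ e) ρ hρ (hch.slope x hx) (hch.slope e he1.1) x e t ht he1.2 ?_ ?_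
  · intro hc; exact he2.1 ⟨he1.1, hc⟩
  · intro hc; exact he2.2 ⟨he1.1, hc⟩

/-- two of three points on a circle around `x`, all at small height, are on the same side -/
theorem same_side (T : Finset ℂ) (hT3 : T.card = 3) (x : ℂ) (ρ : ℝ) (hρ : 0 < ρ)
    (hTx : ∀ t ∈ T, dist t x = ρ) (hfl : ∀ t ∈ T, |t.im - x.im| ≤ 71 / 1000 * ρ) :
    ∃ a ∈ T, ∃ c ∈ T, 0 < (a.re - x.re) * (c.re - x.re) ∧ c.im < a.im := by
  have hre : ∀ t ∈ T, t.re - x.re ≠ 0 := by
    intro t ht h0
    have h1 := dist_sq_re_im t x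
    rw [hTx t ht, h0] at h1
    have h2 := abs_le.mp (hfl t ht)
    nlinarith
  obtain ⟨a, ha, c, hc, hac, hs⟩ := Finset.exists_ne_map_eq_of_card_lt_of_maps_to
    (s := T) (t := (Finset.univ : Finset Bool)) (f := fun t => decide (0 < t.re - x.re))
    (by rw [hT3]; decide) (fun _ _ => Finset.mem_univ _)
  have hpos : 0 < (a.re - x.re) * (c.re - x.re) := by
    have h1 : (0 < a.re - x.re) ↔ (0 < c.re - x.re) := by simpa using hs
    rcases lt_or_gt_of_ne (hre a ha) with h | h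
    · have h2 : ¬ (0 < c.re - x.re) := fun h' => by
        have := h1.mpr h'; linarith
      have h3 : c.re - x.re < 0 := lt_of_le_of_ne (not_lt.mp h2) (hre c hc)
      exact mul_pos_of_neg_of_neg h h3
    · exact mul_pos h (h1.mp h)
  have him : c.im ≠ a.im := by
    intro h
    apply hac
    have h1 := dist_sq_re_im a x
    have h2 := dist_sq_re_im c x
    rw [hTx a ha] at h1
    rw [hTx c hc] at h2
    rw [← h] at h1
    have h3 : (a.re - x.re - (c.re - x.re)) * (a.re - x.re + (c.re - x.re)) = 0 := by nlinarith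
    rcases mul_eq_zero.mp h3 with h4 | h4
    · exact Complex.ext (by linarith) h.symm
    · exfalso
      have h5 : a.re - x.re = -(c.re - x.re) := by linarith
      rw [h5] at hpos
      nlinarith [sq_nonneg (c.re - x.re)]
  rcases lt_or_gt_of_ne him with h | h
  · exact ⟨a, ha, c, hc, hpos, h⟩
  · exact ⟨c, hc, a, ha, by rwa [mul_comm] at hpos, h⟩

/-- a chain point near `c` has the higher point `a` above its line -/
theorem up_of_near (s : ℝ) (hs : |s| ≤ 1/20) (x a c e : ℂ) (ρ : ℝ) (hρ : 0 < ρ) (ha : dist a x = ρ)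
    (hc : dist c x = ρ)
    (ha2 : |a.im - x.im| ≤ 71 / 1000 * ρ) (hc2 : |c.im - x.im| ≤ 71 / 1000 * ρ)
    (hs' : 0 < (a.re - x.re) * (c.re - x.re)) (hac : c.im < a.im)
    (he : dist e c ≤ dist a c / 4) : Up s e a := by
  have hps := dist_sq_re_im a x
  have hqs := dist_sq_re_im c x
  rw [ha] at hps
  rw [hc] at hqs
  have hch := chord_real ρ (a.re - x.re) (a.im - x.im) (c.re - x.re) (c.im - x.im) hρ hps hqs ha2 hc2
    hs' (by linarith)
  have hch' : |a.re - c.re| ≤ 8 / 100 * (a.im - c.im) := by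
    have e1 : a.re - x.re - (c.re - x.re) = a.re - c.re := by ring
    have e2 : a.im - x.im - (c.im - x.im) = a.im - c.im := by ring
    rwa [e1, e2] at hch
  have hdle : dist a c ≤ 108 / 100 * (a.im - c.im) := by
    have h1 : dist a c ≤ |a.re - c.re| + |a.im - c.im| := by
      rw [dist_eq_norm]
      calc ‖a - c‖ ≤ |(a - c).re| + |(a - c).im| := Complex.norm_le_abs_re_add_abs_im _
        _ = |a.re - c.re| + |a.im - c.im| := by rw [Complex.sub_re, Complex.sub_im]
    rw [abs_of_pos (by linarith : 0 < a.im - c.im)] at h1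
    linarith
  have h1 : |e.re - c.re| ≤ 27 / 100 * (a.im - c.im) := by
    calc |e.re - c.re| ≤ dist e c := by
          rw [dist_eq_norm, ← Complex.sub_re]; exact Complex.abs_re_le_norm _
      _ ≤ 27 / 100 * (a.im - c.im) := by linarith
  have h2 : |e.im - c.im| ≤ 27 / 100 * (a.im - c.im) := by
    calc |e.im - c.im| ≤ dist e c := by
          rw [dist_eq_norm, ← Complex.sub_im]; exact Complex.abs_im_le_norm _
      _ ≤ 27 / 100 * (a.im - c.im) := by linarith
  unfold Up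
  have h3 : |a.re - e.re| ≤ 35 / 100 * (a.im - c.im) := by
    have : a.re - e.re = (a.re - c.re) - (e.re - c.re) := by ring
    rw [this]
    calc |(a.re - c.re) - (e.re - c.re)| ≤ |a.re - c.re| + |e.re - c.re| := abs_sub _ _
      _ ≤ 35 / 100 * (a.im - c.im) := by linarith
  have h4 : s * (a.re - e.re) ≤ 1 / 20 * (35 / 100 * (a.im - c.im)) := by
    calc s * (a.re - e.re) ≤ |s * (a.re - e.re)| := le_abs_self _
      _ = |s| * |a.re - e.re| := abs_mul _ _
      _ ≤ 1 / 20 * (35 / 100 * (a.im - c.im)) := by gcongr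
  have h5 := (abs_le.mp h2).2
  linarith

theorem close_pair (A E : Finset ℂ) (σ : ℂ → ℝ) (h s₁ k₁ : ℝ) (hch : Chain A E σ (1/20) h)
    (hk : h + s₁ < k₁) (x : ℂ) (hx : x ∈ E)
    (htx : ((E.filter (fun e => Up (σ e) e x)).card : ℝ) ≤ s₁)
    (T : Finset ℂ) (hT : T ⊆ A) (hT3 : T.card = 3) (ρ : ℝ) (hρ : 0 < ρ) (hTx : ∀ t ∈ T, dist t x = ρ)
    (htame : ∀ t ∈ T, ((E.filter (fun e => Up (σ e) e t)).card : ℝ) ≤ s₁)
    (hnear : ∀ t ∈ T, k₁ ≤ ((E.filter (fun e => dist e t ≤ (1/50) * ρ)).card : ℝ)) :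
    ∃ a ∈ T, ∃ c ∈ T, ∃ (w : ℂ) (t y : ℝ), ‖w‖ = 1 ∧ 0 < w.im ∧ |w.re| ≤ w.im / 4 ∧ 0 < t ∧
      t ≤ |y| / 2 ∧ a = c + (2 * t : ℝ) * w ∧ x = c + (t + y * Complex.I) * w ∧
      ((E.filter (fun e => dist e c ≤ dist a c / 4)).card : ℝ) < k₁ := by
  have hfl : ∀ t ∈ T, |t.im - x.im| ≤ 71 / 1000 * ρ := fun t ht =>
    flat_of_count A E σ h s₁ k₁ hch hk x hx htx ρ hρ t (hTx t ht) (hnear t ht)
  obtain ⟨a, ha, c, hc, hpos, him⟩ := same_side T hT3 x ρ hρ hTx hfl
  obtain ⟨w, t, y, h1, h2, h3, h4, h5, h6, h7⟩ := close_geom x a c ρ hρ (hTx a ha) (hTx c hc)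
    (hfl a ha) (hfl c hc) hpos him
  refine ⟨a, ha, c, hc, w, t, y, h1, h2, h3, h4, h5, h6, h7, ?_⟩
  have h0 : 0 ≤ h := le_trans (Nat.cast_nonneg _) (hch.low x hx)
  have hle : ((E.filter (fun e => dist e c ≤ dist a c / 4)).card : ℝ) ≤
      ((E.filter (fun e => Up (σ e) e a)).card : ℝ) := by
    have : E.filter (fun e => dist e c ≤ dist a c / 4) ⊆ E.filter (fun e => Up (σ e) e a) := by
      intro e he
      rw [Finset.mem_filter] at he ⊢
      exact ⟨he.1, up_of_near (σ e) (hch.slope e he.1) x a c e ρ hρ (hTx a ha) (hTx c hc)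
        (hfl a ha) (hfl c hc) hpos him he.2⟩
    exact_mod_cast Finset.card_le_card this
  have := htame a ha
  linarith

end

end Pool.Agent.DD
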