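import Pool.Agent.Lib_helper60.DD.Defs

/-!
# MP_a2cbb7_co, block M3: `lambda_bound` and `heavy_bound` (column lemma)
-/

set_option autoImplicit false

namespace Pool.Agent.DD

open Finset Classical

noncomputable section

/-- summing `1/f` over a set split into cells, when `f` is at least the number of points of the
set in a disc which contains the cell of its centre -/
theorem cell_sum {K : Type*} [DecidableEq K] (S : Finset ℂ) (r : ℝ) (cell : ℂ → K) (T : Finset K)
    (hT : ∀ x ∈ S, cell x ∈ T) (hc : ∀ x ∈ S, ∀ y ∈ S, cell y = cell x → dist y x ≤ r)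
    (f : ℂ → ℝ) (hf : ∀ x ∈ S, ((S.filter (fun y => dist y x ≤ r)).card : ℝ) ≤ f x) :
    ∑ x ∈ S, (1:ℝ) / f x ≤ T.card := by
  rw [← Finset.sum_fiberwise_of_maps_to hT]
  have h : ∀ k ∈ T, ∑ x ∈ S.filter (fun x => cell x = k), (1:ℝ) / f x ≤ 1 := by
    intro k _
    rcases (S.filter (fun x => cell x = k)).eq_empty_or_nonempty with h0 | h0
    · rw [h0]; simp
    · have hpos : (0:ℝ) < ((S.filter (fun x => cell x = k)).card : ℝ) := by
        exact_mod_cast Finset.card_pos.mpr h0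
      calc ∑ x ∈ S.filter (fun x => cell x = k), (1:ℝ) / f x
          ≤ ∑ x ∈ S.filter (fun x => cell x = k), (1:ℝ) / ((S.filter (fun x => cell x = k)).card : ℝ) := by
            apply Finset.sum_le_sum
            intro x hx
            rw [Finset.mem_filter] at hx
            apply one_div_le_one_div_of_le hpos
            refine le_trans ?_ (hf x hx.1)
            exact_mod_cast Finset.card_le_card (by
              intro y hy
              rw [Finset.mem_filter] at hy ⊢
              exact ⟨hy.1, hc x hx.1 y hy.1 (hy.2.trans hx.2.symm)⟩)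
        _ = 1 := by
            rw [Finset.sum_const, nsmul_eq_mul]
            field_simp
  calc ∑ k ∈ T, ∑ x ∈ S.filter (fun x => cell x = k), (1:ℝ) / f x ≤ ∑ k ∈ T, (1:ℝ) :=
        Finset.sum_le_sum h
    _ = T.card := by simp

/-- coordinates of `x` in the frame `(c, w)` -/
theorem frame_coords (c w x : ℂ) (hw : ‖w‖ = 1) (t y : ℝ) (hx : x = c + (t + y * Complex.I) * w) :
    ((x - c) * (starRingEnd ℂ) w).re = t ∧ ((x - c) * (starRingEnd ℂ) w).im = y := by
  have hw' : w * (starRingEnd ℂ) w = 1 := by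
    rw [Complex.mul_conj, Complex.normSq_eq_norm_sq, hw]; simp
  have : (x - c) * (starRingEnd ℂ) w = t + y * Complex.I := by
    rw [hx]
    calc (c + (t + y * Complex.I) * w - c) * (starRingEnd ℂ) w
        = (t + y * Complex.I) * (w * (starRingEnd ℂ) w) := by ring
      _ = t + y * Complex.I := by rw [hw', mul_one]
  rw [this]
  simp

theorem frame_norm (w z : ℂ) (hw : ‖w‖ = 1) : ‖z * (starRingEnd ℂ) w‖ = ‖z‖ := by
  rw [norm_mul, RCLike.norm_conj, hw, mul_one]

/-- the geometric heart of the column lemma -/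
theorem column_geom (s : ℝ) (hs : |s| ≤ 1/20) (c w : ℂ) (hw2 : 0 < w.im) (hw3 : |w.re| ≤ w.im / 4)
    (ε : ℝ) (t y t' y' : ℝ) (ht : 0 < t) (hy : 0 < y) (ht' : 0 < t') (hyy : 2 * y ≤ y')
    (x x' : ℂ) (hx : x = c + (t + (ε * y : ℝ) * Complex.I) * w)
    (hx' : x' = c + (t' + (ε * y' : ℝ) * Complex.I) * w)
    (hup : ¬ Up s x (c + (2 * t : ℝ) * w)) : Up s x x' := by
  unfold Up at hup ⊢
  push Not at hup
  rw [hx] at hup ⊢
  rw [hx']
  simp only [Complex.add_re, Complex.mul_re, Complex.ofReal_re, Complex.ofReal_im, Complex.I_re,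
    Complex.I_im, Complex.add_im, Complex.mul_im, mul_zero, mul_one, zero_mul, sub_zero, add_zero,
    zero_add] at hup ⊢
  obtain ⟨hs1, hs2⟩ := abs_le.mp hs
  obtain ⟨hr1, hr2⟩ := abs_le.mp hw3
  have hG : 0 < w.im - s * w.re := by nlinarith
  set G := w.im - s * w.re with hGdef
  set K := w.re + s * w.im with hK
  -- `hup : t * G < ε * y * K`
  have h1 : t * G < ε * y * K := by
    rw [hGdef, hK]; nlinarith
  have hK0 : 0 < ε * K := by
    by_contra hcon
    push Not at hcon
    have : ε * y * K ≤ 0 := by nlinarith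
    nlinarith [mul_pos ht hG]
  have h2 : y * (ε * K) ≤ (y' - y) * (ε * K) := by
    apply mul_le_mul_of_nonneg_right _ hK0.le
    linarith
  have h3 : 0 < t' * G := mul_pos ht' hG
  have h4 : 0 ≤ (t' - t) * G + (y' - y) * (ε * K) := by nlinarith
  rw [hGdef, hK] at h4
  nlinarith

/-- one side of the column lemma.  `ε = 1` or `-1` is the side. -/
theorem heavy_bound_side (A E : Finset ℂ) (σ : ℂ → ℝ) (h μ : ℝ) (hch : Chain A E σ (1/20) h)
    (hμ : 0 < μ) (hh : 0 ≤ h) (c w : ℂ) (hw : ‖w‖ = 1) (hw2 : 0 < w.im) (hw3 : |w.re| ≤ w.im / 4)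
    (ε : ℝ) (hε : ε = 1 ∨ ε = -1) (X : Finset ℂ)
    (hX : ∀ x ∈ X, x ∈ E ∧ μ ≤ (M A x (dist c x) : ℝ) ∧ ∃ t y : ℝ, 0 < t ∧ t ≤ y / 2 ∧
      x = c + (t + (ε * y : ℝ) * Complex.I) * w ∧ ¬ Up (σ x) x (c + (2 * t : ℝ) * w)) :
    ∑ x ∈ X, (1:ℝ) / (M A x (dist c x) : ℝ) ≤ 4 + h / μ := by
  have hhμ : 0 ≤ h / μ := div_nonneg hh hμ.le
  rcases X.eq_empty_or_nonempty with h0 | h0
  · rw [h0]; simp; linarith
  set u : ℂ → ℂ := fun x => (x - c) * (starRingEnd ℂ) w with hu
  have hε2 : ε * ε = 1 := by rcases hε with rfl | rfl <;> norm_num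
  have key : ∀ x ∈ X, 0 < (u x).re ∧ (u x).re ≤ ε * (u x).im / 2 ∧
      x = c + ((u x).re + (ε * (ε * (u x).im) : ℝ) * Complex.I) * w ∧
      ¬ Up (σ x) x (c + (2 * (u x).re : ℝ) * w) := by
    intro x hx
    obtain ⟨_, _, t, y, ht, hty, hxe, hup⟩ := hX x hx
    obtain ⟨e1, e2⟩ := frame_coords c w x hw t (ε * y : ℝ) hxe
    have e1' : (u x).re = t := e1
    have e2' : (u x).im = ε * y := e2
    have e3 : ε * (u x).im = y := by rw [e2', ← mul_assoc, hε2, one_mul]
    rw [e1', e3]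
    exact ⟨ht, hty, hxe, hup⟩
  have hdist : ∀ x y : ℂ, dist y x = ‖u y - u x‖ := by
    intro x y
    rw [hu, dist_eq_norm]
    show ‖y - x‖ = ‖(y - c) * (starRingEnd ℂ) w - (x - c) * (starRingEnd ℂ) w‖
    rw [← sub_mul, frame_norm _ _ hw]
    congr 1; ring
  have hdc : ∀ x : ℂ, dist c x = ‖u x‖ := by
    intro x
    rw [dist_comm, dist_eq_norm, hu]
    show ‖x - c‖ = ‖(x - c) * (starRingEnd ℂ) w‖
    rw [frame_norm _ _ hw]
  obtain ⟨x₀, hx₀, hmin⟩ := Finset.exists_min_image X (fun x => ε * (u x).im) h0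
  set m : ℝ := ε * (u x₀).im with hm
  have hm0 : 0 < m := by
    have := key x₀ hx₀
    linarith [this.1, this.2.1]
  rw [← Finset.sum_filter_add_sum_filter_not X (fun x => ε * (u x).im < 2 * m)]
  have hnear : ∑ x ∈ X.filter (fun x => ε * (u x).im < 2 * m), (1:ℝ) / (M A x (dist c x) : ℝ) ≤ 4 := by
    have := cell_sum (X.filter (fun x => ε * (u x).im < 2 * m)) m
      (fun x => (decide ((u x).re ≤ m / 2), decide (ε * (u x).im ≤ 3 * m / 2)))
      (Finset.univ : Finset (Bool × Bool)) (fun _ _ => Finset.mem_univ _) ?_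
      (fun x => (M A x (dist c x) : ℝ)) ?_
    · simpa using this
    · intro x hx y hy hxy
      rw [Finset.mem_filter] at hx hy
      obtain ⟨kx1, kx2, -, -⟩ := key x hx.1
      obtain ⟨ky1, ky2, -, -⟩ := key y hy.1
      have mx := hmin x hx.1
      have my := hmin y hy.1
      simp only [Prod.mk.injEq, decide_eq_decide] at hxy
      have hre : |(u y - u x).re| ≤ m / 2 := by
        rw [Complex.sub_re, abs_le]
        rcases le_or_gt ((u x).re) (m / 2) with hh1 | hh1
        · have := hxy.1.mpr hh1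
          constructor <;> linarith
        · have : ¬ ((u y).re ≤ m / 2) := fun hc => absurd (hxy.1.mp hc) (not_le.mpr hh1)
          push Not at this
          constructor <;> linarith
      have him : |(u y - u x).im| ≤ m / 2 := by
        have h1 : |(u y - u x).im| = |ε * (u y).im - ε * (u x).im| := by
          rw [Complex.sub_im, ← mul_sub, abs_mul]
          rcases hε with rfl | rfl <;> simp
        rw [h1, abs_le]
        rcases le_or_gt (ε * (u x).im) (3 * m / 2) with hh1 | hh1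
        · have := hxy.2.mpr hh1
          constructor <;> linarith
        · have : ¬ (ε * (u y).im ≤ 3 * m / 2) := fun hc => absurd (hxy.2.mp hc) (not_le.mpr hh1)
          push Not at this
          constructor <;> linarith
      rw [hdist]
      calc ‖u y - u x‖ ≤ |(u y - u x).re| + |(u y - u x).im| := Complex.norm_le_abs_re_add_abs_im _
        _ ≤ m := by linarith
    · intro x hx
      rw [Finset.mem_filter] at hx
      have h1 : m ≤ dist c x := by
        rw [hdc]
        have mx := hmin x hx.1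
        calc m ≤ ε * (u x).im := mx
          _ ≤ |(u x).im| := by
            rcases hε with rfl | rfl
            · rw [one_mul]; exact le_abs_self _
            · rw [neg_one_mul]; exact neg_le_abs _
          _ ≤ ‖u x‖ := Complex.abs_im_le_norm _
      unfold M
      exact_mod_cast Finset.card_le_card (by
        intro y hy
        rw [Finset.mem_filter] at hy ⊢
        refine ⟨hch.sub (hX y (Finset.mem_filter.mp hy.1).1).1, hy.2.trans h1⟩)
  have hfar : ∑ x ∈ X.filter (fun x => ¬ ε * (u x).im < 2 * m), (1:ℝ) / (M A x (dist c x) : ℝ) ≤ h / μ := by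
    have hsub : X.filter (fun x => ¬ ε * (u x).im < 2 * m) ⊆ A.filter (fun a => Up (σ x₀) x₀ a) := by
      intro x hx
      rw [Finset.mem_filter] at hx ⊢
      obtain ⟨hxX, hx2⟩ := hx
      push Not at hx2
      refine ⟨hch.sub (hX x hxX).1, ?_⟩
      obtain ⟨k1, k2, k3, k4⟩ := key x₀ hx₀
      obtain ⟨l1, l2, l3, l4⟩ := key x hxX
      exact column_geom (σ x₀) (hch.slope x₀ (hX x₀ hx₀).1) c w hw2 hw3 ε (u x₀).re m (u x).re
        (ε * (u x).im) k1 hm0 l1 hx2 x₀ x k3 l3 k4
    have hcard : ((X.filter (fun x => ¬ ε * (u x).im < 2 * m)).card : ℝ) ≤ h := by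
      refine le_trans ?_ (hch.low x₀ (hX x₀ hx₀).1)
      exact_mod_cast Finset.card_le_card hsub
    calc ∑ x ∈ X.filter (fun x => ¬ ε * (u x).im < 2 * m), (1:ℝ) / (M A x (dist c x) : ℝ)
        ≤ ∑ x ∈ X.filter (fun x => ¬ ε * (u x).im < 2 * m), (1:ℝ) / μ := by
          apply Finset.sum_le_sum
          intro x hx
          exact one_div_le_one_div_of_le hμ (hX x (Finset.mem_filter.mp hx).1).2.1
      _ = ((X.filter (fun x => ¬ ε * (u x).im < 2 * m)).card : ℝ) / μ := by
          rw [Finset.sum_const, nsmul_eq_mul]; ring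
      _ ≤ h / μ := by gcongr
  linarith

theorem heavy_bound (A E : Finset ℂ) (σ : ℂ → ℝ) (h μ : ℝ) (hch : Chain A E σ (1/20) h) (hμ : 0 < μ)
    (hh : 0 ≤ h) (c w : ℂ) (hw : ‖w‖ = 1) (hw2 : 0 < w.im) (hw3 : |w.re| ≤ w.im / 4) (X : Finset ℂ)
    (hX : ∀ x ∈ X, x ∈ E ∧ μ ≤ (M A x (dist c x) : ℝ) ∧ ∃ t y : ℝ, 0 < t ∧ t ≤ |y| / 2 ∧
      x = c + (t + y * Complex.I) * w ∧ ¬ Up (σ x) x (c + (2 * t : ℝ) * w)) :
    ∑ x ∈ X, (1:ℝ) / (M A x (dist c x) : ℝ) ≤ 2 * (80 + h / μ) := by
  have hhμ : 0 ≤ h / μ := div_nonneg hh hμ.le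
  set Q : ℂ → Prop := fun x => ∃ t y : ℝ, 0 < t ∧ t ≤ y / 2 ∧
      x = c + (t + ((1:ℝ) * y : ℝ) * Complex.I) * w ∧ ¬ Up (σ x) x (c + (2 * t : ℝ) * w) with hQ
  rw [← Finset.sum_filter_add_sum_filter_not X Q]
  have h1 := heavy_bound_side A E σ h μ hch hμ hh c w hw hw2 hw3 1 (Or.inl rfl) (X.filter Q) (by
    intro x hx
    rw [Finset.mem_filter] at hx
    exact ⟨(hX x hx.1).1, (hX x hx.1).2.1, hx.2⟩)
  have h2 := heavy_bound_side A E σ h μ hch hμ hh c w hw hw2 hw3 (-1) (Or.inr rfl)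
    (X.filter (fun x => ¬ Q x)) (by
    intro x hx
    rw [Finset.mem_filter] at hx
    obtain ⟨a1, a2, t, y, ht, hty, hxe, hup⟩ := hX x hx.1
    refine ⟨a1, a2, ?_⟩
    rcases le_or_gt 0 y with hy | hy
    · exfalso
      apply hx.2
      refine ⟨t, y, ht, by rwa [abs_of_nonneg hy] at hty, ?_, hup⟩
      rw [hxe]; push_cast; ring
    · refine ⟨t, -y, ht, by rwa [abs_of_neg hy] at hty, ?_, hup⟩
      rw [hxe]; push_cast; ring)
  linarith

theorem lambda_bound (A E : Finset ℂ) (κ k₁ : ℝ) (hκ : 0 < κ) (hκ1 : κ ≤ 1/4) (c : ℂ)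
    (S : Finset (ℂ × ℂ)) (hS : ∀ t ∈ S, t.1 ∈ E ∧ t.2 ∈ A ∧ t.2 ≠ c ∧ dist t.1 t.2 = dist t.1 c ∧
      on E (bis t.2 c) ≤ 2 ∧ ((E.filter (fun e => dist e c ≤ dist t.2 c / 4)).card : ℝ) < k₁ ∧
      k₁ ≤ ((E.filter (fun e => dist e c ≤ κ * dist c t.1)).card : ℝ)) :
    ∑ t ∈ S, (1:ℝ) / (M A t.1 (2 * dist c t.1) : ℝ) ≤ 2 := by
  rcases S.eq_empty_or_nonempty with h0 | h0
  · rw [h0]; simp
  obtain ⟨p, hp, hmax⟩ := Finset.exists_max_image S (fun t => dist t.2 c) h0
  set I : Finset ℂ := S.image Prod.snd with hI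
  have hIpos : (0:ℝ) < I.card := by
    exact_mod_cast Finset.card_pos.mpr (h0.image _)
  have hlarge : ∀ t ∈ S, dist p.2 c ≤ dist c t.1 := by
    intro t ht
    by_contra hcon
    push Not at hcon
    obtain ⟨-, -, -, -, -, hp6, -⟩ := hS p hp
    obtain ⟨-, -, -, -, -, -, ht7⟩ := hS t ht
    have hle : κ * dist c t.1 ≤ dist p.2 c / 4 := by
      have : κ * dist c t.1 ≤ (1/4) * dist c t.1 :=
        mul_le_mul_of_nonneg_right hκ1 dist_nonneg
      linarith
    have hcard : ((E.filter (fun e => dist e c ≤ κ * dist c t.1)).card : ℝ) ≤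
        ((E.filter (fun e => dist e c ≤ dist p.2 c / 4)).card : ℝ) := by
      exact_mod_cast Finset.card_le_card (by
        intro e he
        rw [Finset.mem_filter] at he ⊢
        exact ⟨he.1, he.2.trans hle⟩)
    linarith
  have hM : ∀ t ∈ S, (I.card : ℝ) ≤ (M A t.1 (2 * dist c t.1) : ℝ) := by
    intro t ht
    unfold M
    exact_mod_cast Finset.card_le_card (by
      intro a ha
      rw [hI, Finset.mem_image] at ha
      obtain ⟨q, hq, rfl⟩ := ha
      rw [Finset.mem_filter]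
      refine ⟨(hS q hq).2.1, ?_⟩
      calc dist q.2 t.1 ≤ dist q.2 c + dist c t.1 := dist_triangle _ _ _
        _ ≤ dist p.2 c + dist c t.1 := by
            have := hmax q hq
            linarith
        _ ≤ 2 * dist c t.1 := by
            have := hlarge t ht
            linarith)
  have hScard : (S.card : ℝ) ≤ 2 * I.card := by
    have h1 : S.card ≤ ∑ a ∈ I, (S.filter (fun t => t.2 = a)).card := by
      rw [← Finset.card_eq_sum_card_image Prod.snd S]
    have h2 : ∀ a ∈ I, (S.filter (fun t => t.2 = a)).card ≤ 2 := by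
      intro a ha
      rw [hI, Finset.mem_image] at ha
      obtain ⟨q, hq, rfl⟩ := ha
      refine le_trans ?_ (hS q hq).2.2.2.2.1
      unfold on
      apply Finset.card_le_card_of_injOn Prod.fst
      · intro t ht
        rw [Finset.mem_coe, Finset.mem_filter] at ht
        rw [Finset.mem_coe, Finset.mem_filter]
        obtain ⟨h1, -, -, h4, -⟩ := hS t ht.1
        refine ⟨h1, ?_⟩
        show dist t.1 q.2 = dist t.1 c
        rw [← ht.2]; exact h4
      · intro t ht t' ht' he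
        rw [Finset.mem_coe, Finset.mem_filter] at ht ht'
        exact Prod.ext he (ht.2.trans ht'.2.symm)
    have h3 : S.card ≤ 2 * I.card := by
      calc S.card ≤ ∑ a ∈ I, (S.filter (fun t => t.2 = a)).card := h1
        _ ≤ ∑ a ∈ I, 2 := Finset.sum_le_sum h2
        _ = 2 * I.card := by rw [Finset.sum_const, smul_eq_mul, mul_comm]
    exact_mod_cast h3
  calc ∑ t ∈ S, (1:ℝ) / (M A t.1 (2 * dist c t.1) : ℝ) ≤ ∑ t ∈ S, (1:ℝ) / (I.card : ℝ) := by
        apply Finset.sum_le_sum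
        intro t ht
        exact one_div_le_one_div_of_le hIpos (hM t ht)
    _ = (S.card : ℝ) / (I.card : ℝ) := by
        rw [Finset.sum_const, nsmul_eq_mul]; ring
    _ ≤ 2 := by
        rw [div_le_iff₀ hIpos]
        exact hScard

end

end Pool.Agent.DD
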