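import Mathlib

set_option autoImplicit false

open MeasureTheory Set Filter Topology

namespace Pool.Agent.H68

/-- The fibre inequality. -/
lemma fibre_ineq (u : ℝ → ℂ) (τ : ℝ) (h0 : 0 < τ) (h1 : τ < 1)
    (hs0 : Summable fun m : ℤ => ‖u (τ + m)‖)
    (hs : Summable fun m : ℤ => |(m : ℝ)| * ‖u (τ + m)‖)
    (e0 : ∑' m : ℤ, u (τ + m) = 0) (e1 : ∑' m : ℤ, (m : ℂ) * u (τ + m) = 0) :
    |τ| * ‖u τ‖ + |τ - 1| * ‖u (τ - 1)‖ ≤
      ∑' m : ℤ, if m = 0 ∨ m = -1 then 0 else |τ + m| * ‖u (τ + m)‖ := by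
  have hs0' : Summable fun m : ℤ => u (τ + m) := hs0.of_norm
  have hs' : Summable fun m : ℤ => (m : ℂ) * u (τ + m) := by
    apply Summable.of_norm
    refine hs.congr fun m => ?_
    rw [norm_mul, Complex.norm_intCast]
  -- bounds functions
  set A : ℤ → ℝ := fun m => if m = 0 ∨ m = -1 then 0 else |(m : ℝ) + 1| * ‖u (τ + m)‖ with hA
  set B : ℤ → ℝ := fun m => if m = 0 ∨ m = -1 then 0 else |(m : ℝ)| * ‖u (τ + m)‖ with hB
  have sumA : Summable A := by
    refine Summable.of_nonneg_of_le (fun m => ?_) (fun m => ?_) (hs.add hs0)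
    · simp only [hA]; split_ifs <;> positivity
    · simp only [hA]
      split_ifs
      · positivity
      · have : |(m : ℝ) + 1| ≤ |(m : ℝ)| + 1 := by
          simpa using abs_add_le (m : ℝ) 1
        nlinarith [norm_nonneg (u (τ + m))]
  have sumB : Summable B := by
    refine Summable.of_nonneg_of_le (fun m => ?_) (fun m => ?_) hs
    · simp only [hB]; split_ifs <;> positivity
    · simp only [hB]
      split_ifs
      · positivity
      · exact le_rfl
  -- first relation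
  have r1 : ‖u τ‖ ≤ ∑' m, A m := by
    have hg : Summable fun m : ℤ => ((m : ℂ) + 1) * u (τ + m) := by
      refine (hs'.add hs0').congr fun m => ?_
      ring
    have hg0 : ∑' m : ℤ, ((m : ℂ) + 1) * u (τ + m) = 0 := by
      have : ∑' m : ℤ, ((m : ℂ) + 1) * u (τ + m) =
          ∑' m : ℤ, (m : ℂ) * u (τ + m) + ∑' m : ℤ, u (τ + m) := by
        rw [← hs'.tsum_add hs0']
        congr 1; ext m; ring
      rw [this, e0, e1, add_zero]
    have h2 := hg.tsum_eq_add_tsum_ite (0 : ℤ)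
    rw [hg0] at h2
    have h3 : u τ = -∑' n : ℤ, ite (n = 0) 0 (((n : ℂ) + 1) * u (τ + n)) := by
      have : (((0 : ℤ) : ℂ) + 1) * u (τ + ((0 : ℤ) : ℝ)) = u τ := by simp
      rw [this] at h2
      linear_combination -h2
    rw [h3, norm_neg]
    have heq : ∀ n : ℤ, ‖(ite (n = 0) 0 (((n : ℂ) + 1) * u (τ + n)) : ℂ)‖ = A n := by
      intro n
      simp only [hA]
      by_cases hn : n = 0
      · simp [hn]
      · by_cases hn1 : n = -1
        · simp [hn1]
        · simp only [hn, hn1, or_self, if_false]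
          rw [norm_mul]
          congr 1
          have : ((n : ℂ) + 1) = (((n : ℝ) + 1 : ℝ) : ℂ) := by push_cast; ring
          rw [this, Complex.norm_real, Real.norm_eq_abs]
    calc ‖∑' n : ℤ, (ite (n = 0) 0 (((n : ℂ) + 1) * u (τ + n)) : ℂ)‖
        ≤ ∑' n : ℤ, ‖(ite (n = 0) 0 (((n : ℂ) + 1) * u (τ + n)) : ℂ)‖ := by
          apply norm_tsum_le_tsum_norm
          exact sumA.congr fun n => (heq n).symm
      _ = ∑' m, A m := tsum_congr heq
  have r2 : ‖u (τ - 1)‖ ≤ ∑' m, B m := by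
    have h2 := hs'.tsum_eq_add_tsum_ite (-1 : ℤ)
    rw [e1] at h2
    have h3 : u (τ - 1) = ∑' n : ℤ, ite (n = -1) 0 ((n : ℂ) * u (τ + n)) := by
      have : (((-1 : ℤ) : ℂ)) * u (τ + ((-1 : ℤ) : ℝ)) = - u (τ - 1) := by
        push_cast; rw [← sub_eq_add_neg]; ring
      rw [this] at h2
      linear_combination h2
    rw [h3]
    have heq : ∀ n : ℤ, ‖(ite (n = -1) 0 ((n : ℂ) * u (τ + n)) : ℂ)‖ = B n := by
      intro n
      simp only [hB]
      by_cases hn : n = -1
      · simp [hn]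
      · by_cases hn1 : n = 0
        · simp [hn1]
        · simp only [hn, hn1, or_self, if_false]
          rw [norm_mul, Complex.norm_intCast]
    calc ‖∑' n : ℤ, (ite (n = -1) 0 ((n : ℂ) * u (τ + n)) : ℂ)‖
        ≤ ∑' n : ℤ, ‖(ite (n = -1) 0 ((n : ℂ) * u (τ + n)) : ℂ)‖ := by
          apply norm_tsum_le_tsum_norm
          exact sumB.congr fun n => (heq n).symm
      _ = ∑' m, B m := tsum_congr heq
  have habs : |τ| = τ := abs_of_pos h0
  have habs1 : |τ - 1| = 1 - τ := by rw [abs_of_neg (by linarith)]; ring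
  rw [habs, habs1]
  calc τ * ‖u τ‖ + (1 - τ) * ‖u (τ - 1)‖
      ≤ τ * ∑' m, A m + (1 - τ) * ∑' m, B m := by
        gcongr
    _ = ∑' m, (τ * A m + (1 - τ) * B m) := by
        rw [(sumA.mul_left τ).tsum_add (sumB.mul_left (1 - τ)), tsum_mul_left, tsum_mul_left]
    _ = ∑' m : ℤ, if m = 0 ∨ m = -1 then 0 else |τ + m| * ‖u (τ + m)‖ := by
        refine tsum_congr fun m => ?_
        simp only [hA, hB]
        split_ifs with hm
        · simp
        · push Not at hm
          have key : τ * |(m : ℝ) + 1| + (1 - τ) * |(m : ℝ)| = |τ + m| := by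
            rcases lt_or_ge m 0 with hneg | hpos
            · have hm2 : m ≤ -2 := by omega
              have hm2' : (m : ℝ) ≤ -2 := by exact_mod_cast hm2
              rw [abs_of_neg (by linarith), abs_of_neg (by linarith), abs_of_neg (by linarith)]
              ring
            · have hm1 : 1 ≤ m := by omega
              have hm1' : (1 : ℝ) ≤ m := by exact_mod_cast hm1
              rw [abs_of_pos (by linarith), abs_of_pos (by linarith), abs_of_pos (by linarith)]
              ring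
          rw [← key]; ring

/-- The integrated inequality: `∫_{-1}^{1} |s||u(s)| ds ≤ ∫_{|s|>1} |s||u(s)| ds`, written as
`2 * ∫_{-1}^1 ≤ ∫_ℝ`. -/
lemma integrated_ineq (u : ℝ → ℂ)
    (hint : Integrable fun s : ℝ => |s| * ‖u s‖)
    (hs0 : ∀ τ : ℝ, Summable fun m : ℤ => ‖u (τ + m)‖)
    (hs : ∀ τ : ℝ, Summable fun m : ℤ => |(m : ℝ)| * ‖u (τ + m)‖)
    (e0 : ∀ τ : ℝ, ∑' m : ℤ, u (τ + m) = 0) (e1 : ∀ τ : ℝ, ∑' m : ℤ, (m : ℂ) * u (τ + m) = 0) :
    2 * (∫ s in (-1 : ℝ)..1, |s| * ‖u s‖) ≤ ∫ s : ℝ, |s| * ‖u s‖ := by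
  set φ : ℝ → ℝ := fun s => |s| * ‖u s‖ with hφ
  have hφ0 : ∀ s, 0 ≤ φ s := fun s => by simp only [hφ]; positivity
  -- periodisation
  have hper := hint.hasSum_intervalIntegral_comp_add_int
  -- F m τ
  set F : ℤ → ℝ → ℝ := fun m τ => if m = 0 ∨ m = -1 then 0 else φ (τ + m) with hF
  have hint' : ∀ m : ℤ, Integrable (fun τ : ℝ => φ (τ + m)) := fun m => hint.comp_add_right (m : ℝ)
  have hFint : ∀ m, Integrable (F m) (volume.restrict (Ioc (0 : ℝ) 1)) := by
    intro m
    simp only [hF]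
    by_cases hm : m = 0 ∨ m = -1
    · simp [hm]
    · simp only [hm, if_false]
      exact (hint' m).integrableOn
  have hI : ∀ m : ℤ, (∫ τ in (0 : ℝ)..1, φ (τ + m)) = ∫ τ in Ioc (0 : ℝ) 1, φ (τ + m) := by
    intro m; rw [intervalIntegral.integral_of_le zero_le_one]
  have hFval : ∀ m : ℤ, ∫ τ in Ioc (0 : ℝ) 1, ‖F m τ‖ =
      if m = 0 ∨ m = -1 then 0 else ∫ τ in (0 : ℝ)..1, φ (τ + m) := by
    intro m
    by_cases hm : m = 0 ∨ m = -1
    · simp [hF, hm]
    · simp only [hF, hm, if_false, hI]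
      refine integral_congr_ae (Eventually.of_forall fun τ => ?_)
      simp only [Real.norm_eq_abs]
      exact abs_of_nonneg (hφ0 _)
  have hFval' : ∀ m : ℤ, ∫ τ in Ioc (0 : ℝ) 1, F m τ =
      if m = 0 ∨ m = -1 then 0 else ∫ τ in (0 : ℝ)..1, φ (τ + m) := by
    intro m
    by_cases hm : m = 0 ∨ m = -1
    · simp [hF, hm]
    · simp only [hF, hm, if_false, hI]
  have hnn : ∀ m : ℤ, 0 ≤ ∫ τ in (0 : ℝ)..1, φ (τ + m) := fun m =>
    intervalIntegral.integral_nonneg zero_le_one fun _ _ => hφ0 _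
  have hsumF : Summable fun m : ℤ => ∫ τ in Ioc (0 : ℝ) 1, ‖F m τ‖ := by
    refine Summable.of_nonneg_of_le (fun m => integral_nonneg fun _ => norm_nonneg _)
      (fun m => ?_) hper.summable
    rw [hFval]
    split_ifs
    · exact hnn m
    · exact le_rfl
  have h1 : ∑' m : ℤ, ∫ τ in Ioc (0 : ℝ) 1, F m τ = ∫ τ in Ioc (0 : ℝ) 1, ∑' m : ℤ, F m τ :=
    integral_tsum_of_summable_integral_norm hFint hsumF
  -- total sum
  have h2 : ∑' m : ℤ, ∫ τ in Ioc (0 : ℝ) 1, F m τ =
      (∫ s : ℝ, φ s) - ∫ s in (-1 : ℝ)..1, φ s := by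
    have e := hper.tsum_eq
    have a := hper.summable.tsum_eq_add_tsum_ite (0 : ℤ)
    have hs1 : Summable fun n : ℤ => ite (n = 0) 0 (∫ τ in (0 : ℝ)..1, φ (τ + n)) := by
      refine Summable.of_nonneg_of_le (fun m => ?_) (fun m => ?_) hper.summable
      · split_ifs
        · exact le_rfl
        · exact hnn m
      · split_ifs
        · exact hnn m
        · exact le_rfl
    have b := hs1.tsum_eq_add_tsum_ite (-1 : ℤ)
    rw [e, b] at a
    have c : ∑' m : ℤ, ∫ τ in Ioc (0 : ℝ) 1, F m τ =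
        ∑' n : ℤ, ite (n = -1) 0 (ite (n = 0) 0 (∫ τ in (0 : ℝ)..1, φ (τ + n))) := by
      refine tsum_congr fun n => ?_
      rw [hFval']
      by_cases hn : n = 0
      · simp [hn]
      · by_cases hn1 : n = -1
        · simp [hn1]
        · simp [hn, hn1]
    rw [c]
    have d1 : (∫ τ in (0 : ℝ)..1, φ (τ + ((0 : ℤ) : ℝ))) = ∫ s in (0 : ℝ)..1, φ s := by simp
    have d2 : (∫ τ in (0 : ℝ)..1, φ (τ + ((-1 : ℤ) : ℝ))) = ∫ s in (-1 : ℝ)..0, φ s := by
      rw [intervalIntegral.integral_comp_add_right (f := φ)]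
      norm_num
    have d3 : (∫ s in (-1 : ℝ)..1, φ s) =
        (∫ s in (-1 : ℝ)..0, φ s) + ∫ s in (0 : ℝ)..1, φ s :=
      (intervalIntegral.integral_add_adjacent_intervals hint.intervalIntegrable
        hint.intervalIntegrable).symm
    rw [d3, ← d1, ← d2]
    simp only [show ((-1 : ℤ) = 0) = False by simp, if_false] at a
    linarith
  -- pointwise inequality
  have h3 : ∀ τ ∈ Ioo (0 : ℝ) 1, φ τ + φ (τ - 1) ≤ ∑' m : ℤ, F m τ := by
    intro τ hτ
    have := fibre_ineq u τ hτ.1 hτ.2 (hs0 τ) (hs τ) (e0 τ) (e1 τ)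
    simpa only [hφ, hF] using this
  -- summability and integrability of the sum
  have h4 : IntegrableOn (fun τ => ∑' m : ℤ, F m τ) (Ioc (0 : ℝ) 1) := by
    by_contra hcon
    have hz : ∫ τ in Ioc (0 : ℝ) 1, ∑' m : ℤ, F m τ = 0 := integral_undef hcon
    rw [← h1] at hz
    -- each term zero
    have hsumF' : Summable fun m : ℤ => ∫ τ in Ioc (0 : ℝ) 1, F m τ := by
      refine hsumF.congr fun m => ?_
      rw [hFval, hFval']
    have hnnF' : ∀ m, 0 ≤ ∫ τ in Ioc (0 : ℝ) 1, F m τ := by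
      intro m
      rw [hFval']
      split_ifs
      · exact le_rfl
      · exact hnn m
    have hall : ∀ m, ∫ τ in Ioc (0 : ℝ) 1, F m τ = 0 := by
      intro m
      have hle := hsumF'.le_tsum m (fun j _ => hnnF' j)
      rw [hz] at hle
      exact le_antisymm hle (hnnF' m)
    have hae : ∀ m, F m =ᵐ[volume.restrict (Ioc (0 : ℝ) 1)] 0 := by
      intro m
      have hnnF : 0 ≤ᵐ[volume.restrict (Ioc (0 : ℝ) 1)] F m := by
        refine Eventually.of_forall fun τ => ?_
        simp only [hF, Pi.zero_apply]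
        split_ifs
        · exact le_rfl
        · exact hφ0 _
      exact (integral_eq_zero_iff_of_nonneg_ae hnnF (hFint m)).1 (hall m)
    apply hcon
    have : (fun τ => ∑' m : ℤ, F m τ) =ᵐ[volume.restrict (Ioc (0 : ℝ) 1)] fun _ => (0 : ℝ) := by
      have := ae_all_iff.2 hae
      filter_upwards [this] with τ hτ
      simp [hτ]
    exact (integrable_zero _ _ _).congr this.symm
  have h5 : ∫ τ in Ioc (0 : ℝ) 1, (φ τ + φ (τ - 1)) ≤ ∫ τ in Ioc (0 : ℝ) 1, ∑' m : ℤ, F m τ := by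
    refine integral_mono_ae ?_ h4 ?_
    · exact (hint.add (by simpa [sub_eq_add_neg] using hint.comp_add_right (-1 : ℝ))).integrableOn
    · have : ∀ᵐ τ ∂(volume.restrict (Ioc (0 : ℝ) 1)), τ ∈ Ioo (0 : ℝ) 1 := by
        rw [← restrict_Ioo_eq_restrict_Ioc]
        exact ae_restrict_mem measurableSet_Ioo
      filter_upwards [this] with τ hτ
      exact h3 τ hτ
  have h6 : ∫ τ in Ioc (0 : ℝ) 1, (φ τ + φ (τ - 1)) = ∫ s in (-1 : ℝ)..1, φ s := by
    rw [← intervalIntegral.integral_of_le zero_le_one, intervalIntegral.integral_add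
      hint.intervalIntegrable
      (by
        have : Integrable fun τ : ℝ => φ (τ - 1) := by
          simpa [sub_eq_add_neg] using hint.comp_add_right (-1 : ℝ)
        exact this.intervalIntegrable)]
    rw [intervalIntegral.integral_comp_sub_right (f := φ)]
    norm_num
    rw [add_comm]
    exact intervalIntegral.integral_add_adjacent_intervals hint.intervalIntegrable
        hint.intervalIntegrable
  rw [h6, ← h1, h2] at h5
  linarith

end Pool.Agent.H68
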