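import Mathlib
import Pool.Agent.Lib_helper68.KTwoA

set_option autoImplicit false

open MeasureTheory Set Filter Topology

namespace Pool.Agent.H68

/-- polynomial decay from the inversion identity -/
lemma decay_of_inv (u v : ℝ → ℂ) (w M : ℝ) (hw : 4 < w)
    (hub : ∀ t, ‖u t‖ ≤ M) (hvb : ∀ t, ‖v t‖ ≤ M)
    (hu : ∀ t : ℝ, t ≠ 0 → ‖u t‖ = |t| ^ (-w) * ‖v (-1 / t)‖) :
    ∀ s, ‖u s‖ ≤ 16 * M / (1 + |s|) ^ 4 := by
  intro s
  have hM : 0 ≤ M := (norm_nonneg _).trans (hub 0)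
  have hpos : (0 : ℝ) < (1 + |s|) ^ 4 := by positivity
  rw [le_div_iff₀ hpos]
  rcases le_or_gt |s| 1 with h | h
  · calc ‖u s‖ * (1 + |s|) ^ 4 ≤ M * (1 + 1) ^ 4 := by
          gcongr
          exact hub s
      _ = 16 * M := by ring
  · have hs : s ≠ 0 := by
      rintro rfl
      simp at h
      linarith
    rw [hu s hs]
    have h1 : |s| ^ (-w) ≤ |s| ^ (-4 : ℝ) :=
      Real.rpow_le_rpow_of_exponent_le h.le (by linarith)
    have h2 : |s| ^ (-4 : ℝ) = (|s| ^ 4)⁻¹ := by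
      rw [Real.rpow_neg (abs_nonneg s)]
      congr 1
      exact_mod_cast Real.rpow_natCast |s| 4
    have h3 : (0 : ℝ) < |s| ^ 4 := by positivity
    calc |s| ^ (-w) * ‖v (-1 / s)‖ * (1 + |s|) ^ 4
        ≤ (|s| ^ 4)⁻¹ * M * (|s| + |s|) ^ 4 := by
          gcongr
          · rw [← h2]; exact h1
          · exact hvb _
      _ = 16 * M := by
          field_simp
          ring

lemma summable_aux : Summable fun m : ℤ => ((1 + |(m : ℝ)|) ^ 2)⁻¹ := by
  have h : Summable fun n : ℤ => 1 / (n : ℝ) ^ 2 := Real.summable_one_div_int_pow.2 one_lt_two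
  refine Summable.of_norm_bounded_eventually h ?_
  have : ∀ᶠ i : ℤ in cofinite, i ≠ 0 := by
    simpa using (Set.finite_singleton (0 : ℤ)).eventually_cofinite_notMem
  filter_upwards [this] with m hm
  have hm' : (0 : ℝ) < |(m : ℝ)| := by
    rw [abs_pos]; exact_mod_cast hm
  rw [Real.norm_eq_abs, abs_of_nonneg (by positivity), one_div]
  rw [← sq_abs (m : ℝ)]
  gcongr
  linarith

lemma summable_of_decay (u : ℝ → ℂ) (C : ℝ) (hC : ∀ s, ‖u s‖ ≤ C / (1 + |s|) ^ 4) (τ : ℝ) :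
    (Summable fun m : ℤ => ‖u (τ + m)‖) ∧ (Summable fun m : ℤ => |(m : ℝ)| * ‖u (τ + m)‖) := by
  have hC0 : 0 ≤ C := by
    have := (norm_nonneg _).trans (hC 0)
    simpa using this
  have key : ∀ m : ℤ, ‖u (τ + m)‖ ≤ C * (1 + |τ|) ^ 4 * ((1 + |(m : ℝ)|) ^ 4)⁻¹ := by
    intro m
    refine (hC _).trans ?_
    have h1 : 1 + |(m : ℝ)| ≤ (1 + |τ + m|) * (1 + |τ|) := by
      have : |(m : ℝ)| ≤ |τ + m| + |τ| := by
        have := abs_sub (τ + m) τ
        simpa using this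
      nlinarith [abs_nonneg (τ + m), abs_nonneg τ]
    have h2 : (1 + |(m : ℝ)|) ^ 4 ≤ (1 + |τ + m|) ^ 4 * (1 + |τ|) ^ 4 := by
      rw [← mul_pow]
      gcongr
    rw [div_le_iff₀ (by positivity)]
    have h3 : (0 : ℝ) < (1 + |(m : ℝ)|) ^ 4 := by positivity
    calc C = C * ((1 + |(m : ℝ)|) ^ 4)⁻¹ * (1 + |(m : ℝ)|) ^ 4 := by field_simp
      _ ≤ C * ((1 + |(m : ℝ)|) ^ 4)⁻¹ * ((1 + |τ + m|) ^ 4 * (1 + |τ|) ^ 4) := by gcongr
      _ = C * (1 + |τ|) ^ 4 * ((1 + |(m : ℝ)|) ^ 4)⁻¹ * (1 + |τ + m|) ^ 4 := by ring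
  have hsum := summable_aux.mul_left (C * (1 + |τ|) ^ 4)
  constructor
  · refine Summable.of_nonneg_of_le (fun m => norm_nonneg _) (fun m => (key m).trans ?_) hsum
    gcongr
    · linarith [abs_nonneg (m : ℝ)]
    · norm_num
  · refine Summable.of_nonneg_of_le (fun m => by positivity) (fun m => ?_) hsum
    have hm : |(m : ℝ)| * ((1 + |(m : ℝ)|) ^ 4)⁻¹ ≤ ((1 + |(m : ℝ)|) ^ 2)⁻¹ := by
      have h3 : (0 : ℝ) < (1 + |(m : ℝ)|) := by positivity
      rw [← div_eq_mul_inv, div_le_iff₀ (by positivity)]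
      have : ((1 + |(m : ℝ)|) ^ 2)⁻¹ * (1 + |(m : ℝ)|) ^ 4 = (1 + |(m : ℝ)|) ^ 2 := by
        field_simp
      rw [this]
      nlinarith [abs_nonneg (m : ℝ)]
    calc |(m : ℝ)| * ‖u (τ + m)‖ ≤ |(m : ℝ)| * (C * (1 + |τ|) ^ 4 * ((1 + |(m : ℝ)|) ^ 4)⁻¹) := by
          gcongr
          exact key m
      _ = C * (1 + |τ|) ^ 4 * (|(m : ℝ)| * ((1 + |(m : ℝ)|) ^ 4)⁻¹) := by ring
      _ ≤ C * (1 + |τ|) ^ 4 * ((1 + |(m : ℝ)|) ^ 2)⁻¹ := by gcongr

lemma integrable_of_decay (u : ℝ → ℂ) (hcont : Continuous u) (C : ℝ)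
    (hC : ∀ s, ‖u s‖ ≤ C / (1 + |s|) ^ 4) :
    Integrable fun s : ℝ => |s| * ‖u s‖ := by
  have hC0 : 0 ≤ C := by
    have := (norm_nonneg _).trans (hC 0)
    simpa using this
  refine (integrable_inv_one_add_sq.const_mul C).mono' (by fun_prop) ?_
  refine Eventually.of_forall fun s => ?_
  rw [Real.norm_eq_abs, abs_of_nonneg (by positivity)]
  have h1 : |s| * (C / (1 + |s|) ^ 4) ≤ C * (1 + s ^ 2)⁻¹ := by
    rw [← sq_abs s]
    have hs := abs_nonneg s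
    rw [← div_eq_mul_inv, ← mul_div_assoc, div_le_div_iff₀ (by positivity) (by positivity)]
    have : |s| * (1 + |s| ^ 2) ≤ (1 + |s|) ^ 4 := by nlinarith [pow_nonneg hs 3, pow_nonneg hs 4, pow_nonneg hs 2]
    calc |s| * C * (1 + |s| ^ 2) = C * (|s| * (1 + |s| ^ 2)) := by ring
      _ ≤ C * (1 + |s|) ^ 4 := by gcongr
  refine le_trans ?_ h1
  gcongr
  exact hC s

/-- One-sided form of the integrated inequality. -/
lemma half_line_ineq (u : ℝ → ℂ) (hint : Integrable fun s : ℝ => |s| * ‖u s‖)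
    (h : 2 * (∫ s in (-1 : ℝ)..1, |s| * ‖u s‖) ≤ ∫ s : ℝ, |s| * ‖u s‖) :
    ∫ s in Ioc (0 : ℝ) 1, s * (‖u s‖ + ‖u (-s)‖) ≤ ∫ s in Ioi (1 : ℝ), s * (‖u s‖ + ‖u (-s)‖) := by
  set φ : ℝ → ℝ := fun s => |s| * ‖u s‖ with hφ
  have hneg : Integrable fun s : ℝ => φ (-s) := hint.comp_neg
  have hP : ∀ s ∈ Ioi (0 : ℝ), s * (‖u s‖ + ‖u (-s)‖) = φ s + φ (-s) := by
    intro s hs
    have hs' : (0 : ℝ) < s := hs
    simp only [hφ, abs_neg, abs_of_pos hs']
    ring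
  have e1 : ∫ s : ℝ, φ s = ∫ s in Ioi (0 : ℝ), (φ s + φ (-s)) := by
    rw [integral_add hint.integrableOn hneg.integrableOn]
    have : ∫ s in Ioi (0 : ℝ), φ (-s) = ∫ s in Iic (0 : ℝ), φ s := by
      simp [integral_comp_neg_Ioi (0 : ℝ) φ]
    rw [this, add_comm]
    exact (intervalIntegral.integral_Iic_add_Ioi hint.integrableOn hint.integrableOn).symm
  have e2 : ∫ s in (-1 : ℝ)..1, φ s = ∫ s in Ioc (0 : ℝ) 1, (φ s + φ (-s)) := by
    rw [integral_add hint.integrableOn hneg.integrableOn]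
    rw [← intervalIntegral.integral_of_le zero_le_one, ← intervalIntegral.integral_of_le zero_le_one]
    rw [intervalIntegral.integral_comp_neg (f := φ)]
    rw [neg_zero, add_comm]
    exact (intervalIntegral.integral_add_adjacent_intervals hint.intervalIntegrable
      hint.intervalIntegrable).symm
  have e3 : ∫ s in Ioi (0 : ℝ), (φ s + φ (-s)) =
      (∫ s in Ioc (0 : ℝ) 1, (φ s + φ (-s))) + ∫ s in Ioi (1 : ℝ), (φ s + φ (-s)) := by
    have hdis : Disjoint (Ioc (0 : ℝ) 1) (Ioi 1) := by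
      rw [Set.disjoint_left]
      intro x hx hx'
      exact absurd hx.2 (not_le.2 hx')
    have hsum : Integrable fun s => φ s + φ (-s) := hint.add hneg
    have := setIntegral_union (f := fun s => φ s + φ (-s)) hdis measurableSet_Ioi
      hsum.integrableOn hsum.integrableOn
    rw [Ioc_union_Ioi_eq_Ioi zero_le_one] at this
    exact this
  rw [e1, e2, e3] at h
  rw [setIntegral_congr_fun measurableSet_Ioc (fun s hs => hP s hs.1),
    setIntegral_congr_fun measurableSet_Ioi (fun s hs => hP s (lt_trans zero_lt_one hs))]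
  linarith

/-- The change of variables `s = 1/y`. -/
lemma inv_change (u v : ℝ → ℂ) (w : ℝ)
    (hu : ∀ t : ℝ, t ≠ 0 → ‖u t‖ = |t| ^ (-w) * ‖v (-1 / t)‖) :
    ∫ s in Ioi (1 : ℝ), s * (‖u s‖ + ‖u (-s)‖) =
      ∫ y in Ioo (0 : ℝ) 1, y ^ (w - 3) * (‖v y‖ + ‖v (-y)‖) := by
  have h := integral_comp_rpow_Ioi
    (fun y => (Iio (1 : ℝ)).indicator (fun y => y ^ (w - 3) * (‖v y‖ + ‖v (-y)‖)) y)
    (p := -1) (by norm_num)
  have r : ∫ y in Ioi (0 : ℝ), (Iio (1 : ℝ)).indicator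
      (fun y => y ^ (w - 3) * (‖v y‖ + ‖v (-y)‖)) y =
      ∫ y in Ioo (0 : ℝ) 1, y ^ (w - 3) * (‖v y‖ + ‖v (-y)‖) := by
    rw [setIntegral_indicator measurableSet_Iio]
    rfl
  rw [← r, ← h]
  have l : ∫ s in Ioi (1 : ℝ), s * (‖u s‖ + ‖u (-s)‖) =
      ∫ s in Ioi (0 : ℝ), (Ioi (1 : ℝ)).indicator (fun s => s * (‖u s‖ + ‖u (-s)‖)) s := by
    rw [setIntegral_indicator measurableSet_Ioi]
    congr 2
    ext x
    simp only [mem_Ioi, mem_inter_iff]
    constructor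
    · intro hx; exact ⟨by linarith, hx⟩
    · intro hx; exact hx.2
  rw [l]
  refine setIntegral_congr_fun measurableSet_Ioi fun s hs => ?_
  have hs : (0 : ℝ) < s := hs
  have hinv : s ^ (-1 : ℝ) = s⁻¹ := Real.rpow_neg_one s
  simp only [hinv, smul_eq_mul]
  by_cases h1 : 1 < s
  · have h2 : s⁻¹ < 1 := inv_lt_one_of_one_lt₀ h1
    rw [indicator_of_mem (show s ∈ Ioi (1 : ℝ) from h1),
      indicator_of_mem (show s⁻¹ ∈ Iio (1 : ℝ) from h2)]
    rw [hu s hs.ne', hu (-s) (neg_ne_zero.2 hs.ne'), abs_neg, abs_of_pos hs]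
    have e1 : -1 / s = -s⁻¹ := by rw [neg_div, one_div]
    have e2 : -1 / -s = s⁻¹ := by rw [neg_div_neg_eq, one_div]
    rw [e1, e2]
    have e3 : s * s ^ (-w) = |(-1 : ℝ)| * s ^ ((-1 : ℝ) - 1) * (s⁻¹) ^ (w - 3) := by
      rw [Real.inv_rpow hs.le, ← Real.rpow_neg hs.le, abs_neg, abs_one, one_mul,
        ← Real.rpow_add hs]
      nth_rewrite 1 [← Real.rpow_one s]
      rw [← Real.rpow_add hs]
      congr 1; ring
    calc s * (s ^ (-w) * ‖v (-s⁻¹)‖ + s ^ (-w) * ‖v s⁻¹‖)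
        = (s * s ^ (-w)) * (‖v s⁻¹‖ + ‖v (-s⁻¹)‖) := by ring
      _ = _ := by rw [e3]; ring
  · have h2 : ¬ s⁻¹ < 1 := by
      rw [not_lt]
      exact (one_le_inv₀ hs).2 (not_lt.1 h1)
    rw [indicator_of_notMem (show s ∉ Ioi (1 : ℝ) from h1),
      indicator_of_notMem (show s⁻¹ ∉ Iio (1 : ℝ) from h2)]
    simp

/-- The abstract uniqueness statement. -/
theorem abstract_uniqueness (u v : ℝ → ℂ) (w M : ℝ) (hw : 4 < w)
    (hcu : Continuous u) (hcv : Continuous v)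
    (hub : ∀ t, ‖u t‖ ≤ M) (hvb : ∀ t, ‖v t‖ ≤ M)
    (hu : ∀ t : ℝ, t ≠ 0 → ‖u t‖ = |t| ^ (-w) * ‖v (-1 / t)‖)
    (hv : ∀ t : ℝ, t ≠ 0 → ‖v t‖ = |t| ^ (-w) * ‖u (-1 / t)‖)
    (eu0 : ∀ τ : ℝ, ∑' m : ℤ, u (τ + m) = 0) (eu1 : ∀ τ : ℝ, ∑' m : ℤ, (m : ℂ) * u (τ + m) = 0)
    (ev0 : ∀ τ : ℝ, ∑' m : ℤ, v (τ + m) = 0) (ev1 : ∀ τ : ℝ, ∑' m : ℤ, (m : ℂ) * v (τ + m) = 0) :
    ∀ t, u t = 0 := by
  have du := decay_of_inv u v w M hw hub hvb hu
  have dv := decay_of_inv v u w M hw hvb hub hv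
  have iu := integrable_of_decay u hcu _ du
  have iv := integrable_of_decay v hcv _ dv
  have Iu := integrated_ineq u iu (fun τ => (summable_of_decay u _ du τ).1)
    (fun τ => (summable_of_decay u _ du τ).2) eu0 eu1
  have Iv := integrated_ineq v iv (fun τ => (summable_of_decay v _ dv τ).1)
    (fun τ => (summable_of_decay v _ dv τ).2) ev0 ev1
  have Hu := half_line_ineq u iu Iu
  have Hv := half_line_ineq v iv Iv
  rw [inv_change u v w hu] at Hu
  rw [inv_change v u w hv] at Hv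
  -- pass to Ioo
  rw [integral_Ioc_eq_integral_Ioo] at Hu Hv
  set Ru : ℝ → ℝ := fun s => ‖u s‖ + ‖u (-s)‖ with hRu
  set Rv : ℝ → ℝ := fun s => ‖v s‖ + ‖v (-s)‖ with hRv
  have cRu : Continuous Ru := by fun_prop
  have cRv : Continuous Rv := by fun_prop
  have cpow : Continuous fun s : ℝ => s ^ (w - 3) := by
    apply Real.continuous_rpow_const
    linarith
  have int1 : ∀ g : ℝ → ℝ, Continuous g → IntegrableOn g (Ioo (0 : ℝ) 1) := fun g hg =>
    (hg.continuousOn.integrableOn_Icc (a := 0) (b := 1)).mono_set Ioo_subset_Icc_self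
  have hD : ∫ s in Ioo (0 : ℝ) 1, (s - s ^ (w - 3)) * (Ru s + Rv s) ≤ 0 := by
    have : ∫ s in Ioo (0 : ℝ) 1, (s - s ^ (w - 3)) * (Ru s + Rv s) =
        ((∫ s in Ioo (0 : ℝ) 1, s * Ru s) - ∫ s in Ioo (0 : ℝ) 1, s ^ (w - 3) * Rv s) +
        ((∫ s in Ioo (0 : ℝ) 1, s * Rv s) - ∫ s in Ioo (0 : ℝ) 1, s ^ (w - 3) * Ru s) := by
      rw [← integral_sub (int1 _ (by fun_prop)) (int1 _ (by fun_prop)),
        ← integral_sub (int1 _ (by fun_prop)) (int1 _ (by fun_prop)),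
        ← integral_add (int1 _ (by fun_prop)) (int1 _ (by fun_prop))]
      refine integral_congr_ae (Eventually.of_forall fun s => ?_)
      simp only
      ring
    rw [this]
    linarith
  have hpos : ∀ s ∈ Ioo (0 : ℝ) 1, 0 < s - s ^ (w - 3) := by
    intro s hs
    have : s ^ (w - 3) < s ^ (1 : ℝ) := Real.rpow_lt_rpow_of_exponent_gt hs.1 hs.2 (by linarith)
    rw [Real.rpow_one] at this
    linarith
  have hR0 : ∀ s, 0 ≤ Ru s + Rv s := fun s => by simp only [hRu, hRv]; positivity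
  have hnn : 0 ≤ᵐ[volume.restrict (Ioo (0 : ℝ) 1)] fun s => (s - s ^ (w - 3)) * (Ru s + Rv s) := by
    filter_upwards [ae_restrict_mem measurableSet_Ioo] with s hs
    exact mul_nonneg (hpos s hs).le (hR0 s)
  have hzero : ∫ s in Ioo (0 : ℝ) 1, (s - s ^ (w - 3)) * (Ru s + Rv s) = 0 :=
    le_antisymm hD (integral_nonneg_of_ae hnn)
  have hae := (integral_eq_zero_iff_of_nonneg_ae hnn (int1 _ (by fun_prop))).1 hzero
  have heq : EqOn (fun s => (s - s ^ (w - 3)) * (Ru s + Rv s)) 0 (Ioo (0 : ℝ) 1) := by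
    refine Measure.eqOn_open_of_ae_eq hae isOpen_Ioo ?_ continuousOn_const
    exact Continuous.continuousOn (by fun_prop)
  have hR : ∀ s ∈ Ioo (0 : ℝ) 1, Ru s + Rv s = 0 := by
    intro s hs
    have := heq hs
    simp only [Pi.zero_apply, mul_eq_zero] at this
    rcases this with h | h
    · exact absurd h (hpos s hs).ne'
    · exact h
  have hu0 : ∀ s, 0 < |s| → |s| < 1 → ‖u s‖ = 0 ∧ ‖v s‖ = 0 := by
    intro s h0 h1
    have := hR |s| ⟨h0, h1⟩
    simp only [hRu, hRv] at this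
    have a1 := norm_nonneg (u |s|)
    have a2 := norm_nonneg (u (-|s|))
    have a3 := norm_nonneg (v |s|)
    have a4 := norm_nonneg (v (-|s|))
    rcases abs_choice s with h | h
    · rw [h] at this a1 a2 a3 a4
      constructor <;> linarith
    · rw [h, neg_neg] at this
      rw [h, neg_neg] at a2 a4
      rw [h] at a1 a3
      constructor <;> linarith
  have hdense : Dense (({-1, 0, 1} : Set ℝ)ᶜ) :=
    (Set.Finite.countable (by simp)).dense_compl ℝ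
  have hfin : u = fun _ => 0 := by
    refine Continuous.ext_on hdense hcu continuous_const ?_
    intro t ht
    simp only [mem_compl_iff, mem_insert_iff, mem_singleton_iff, not_or] at ht
    have ht0 : 0 < |t| := abs_pos.2 ht.2.1
    rcases lt_trichotomy |t| 1 with h | h | h
    · exact norm_eq_zero.1 (hu0 t ht0 h).1
    · exfalso
      rcases eq_or_eq_neg_of_abs_eq h with h' | h'
      · exact ht.2.2 h'
      · exact ht.1 h'
    · have h3 : |(-1 / t)| = |t|⁻¹ := by rw [abs_div, abs_neg, abs_one, one_div]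
      have h1 : 0 < |(-1 / t)| := by rw [h3]; positivity
      have h2 : |(-1 / t)| < 1 := by
        rw [h3]; exact inv_lt_one_of_one_lt₀ h
      have := (hu0 (-1 / t) h1 h2).2
      have e := hu t ht.2.1
      rw [this, mul_zero] at e
      exact norm_eq_zero.1 e
  intro t
  rw [hfin]

end Pool.Agent.H68
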