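import Mathlib

set_option autoImplicit false

open MeasureTheory Set Filter Topology
open scoped FourierTransform Real SchwartzMap

namespace Pool.Agent.H68

section Phi

variable {V : Type*} [NormedAddCommGroup V] [InnerProductSpace ℝ V] [MeasurableSpace V]
  [BorelSpace V] [FiniteDimensional ℝ V]

/-- The Gaussian transform `z ↦ ∫ h(x) e^{z |x|²} dx`. -/
noncomputable def Phi (h : V → ℂ) (z : ℂ) : ℂ := ∫ x, h x * Complex.exp (z * (‖x‖ : ℂ) ^ 2)

lemma norm_exp_le_one (z : ℂ) (hz : z.re ≤ 0) (x : V) :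
    ‖Complex.exp (z * (‖x‖ : ℂ) ^ 2)‖ ≤ 1 := by
  rw [Complex.norm_exp, Real.exp_le_one_iff]
  have : (z * (‖x‖ : ℂ) ^ 2).re = z.re * ‖x‖ ^ 2 := by
    rw [← Complex.ofReal_pow, Complex.re_mul_ofReal]
  rw [this]
  exact mul_nonpos_of_nonpos_of_nonneg hz (by positivity)

lemma Phi_continuousOn (h : V → ℂ) (hh : Integrable h) :
    ContinuousOn (Phi h) {z : ℂ | z.re ≤ 0} := by
  unfold Phi
  refine continuousOn_of_dominated (bound := fun x => ‖h x‖) ?_ ?_ hh.norm ?_
  · intro z _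
    refine hh.aestronglyMeasurable.mul ?_
    exact Continuous.aestronglyMeasurable (by fun_prop)
  · intro z hz
    refine Eventually.of_forall fun x => ?_
    rw [norm_mul]
    exact mul_le_of_le_one_right (norm_nonneg _) (norm_exp_le_one z hz x)
  · refine Eventually.of_forall fun x => ?_
    exact Continuous.continuousOn (by fun_prop)

lemma Phi_norm_le (h : V → ℂ) (hh : Integrable h) (z : ℂ) (hz : z.re ≤ 0) :
    ‖Phi h z‖ ≤ ∫ x, ‖h x‖ := by
  unfold Phi
  refine norm_integral_le_of_norm_le hh.norm (Eventually.of_forall fun x => ?_)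
  rw [norm_mul]
  exact mul_le_of_le_one_right (norm_nonneg _) (norm_exp_le_one z hz x)

lemma fourier_fourier_even (f : 𝓢(V, ℂ)) (hf : ∀ x, f (-x) = f x) (x : V) :
    𝓕 (𝓕 (f : V → ℂ)) x = f x := by
  have h1 : 𝓕⁻ (𝓕 (f : V → ℂ)) (-x) = f (-x) := by
    have : Integrable (𝓕 (f : V → ℂ)) := by
      rw [← SchwartzMap.fourier_coe]
      exact (𝓕 f).integrable
    exact f.integrable.fourierInv_fourier_eq this f.continuous.continuousAt
  rw [Real.fourierInv_eq_fourier_neg, neg_neg] at h1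
  rw [h1, hf]

lemma parseval_pos (f : 𝓢(V, ℂ)) (hf : ∀ x, f (-x) = f x) (b : ℂ) (hb : 0 < b.re) :
    Phi (f : V → ℂ) (-b) =
      (π / b) ^ (Module.finrank ℝ V / 2 : ℂ) * Phi (𝓕 (f : V → ℂ)) (-π ^ 2 / b) := by
  have hgauss : Integrable fun x : V => Complex.exp (-b * (‖x‖ : ℂ) ^ 2) := by
    simpa using GaussianFourier.integrable_cexp_neg_mul_sq_norm_add hb 0 (0 : V)
  have hFf : Integrable (𝓕 (f : V → ℂ)) := by
    rw [← SchwartzMap.fourier_coe]
    exact (𝓕 f).integrable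
  have key : ∫ ξ : V, 𝓕 (fun x : V => Complex.exp (-b * (‖x‖ : ℂ) ^ 2)) ξ • 𝓕 (f : V → ℂ) ξ =
      ∫ x : V, Complex.exp (-b * (‖x‖ : ℂ) ^ 2) • 𝓕 (𝓕 (f : V → ℂ)) x := by
    simpa using! (VectorFourier.integral_fourierIntegral_smul_eq_flip (L := innerₗ V)
      Real.continuous_fourierChar continuous_inner hgauss hFf)
  have e1 : Phi (f : V → ℂ) (-b) =
      ∫ x : V, Complex.exp (-b * (‖x‖ : ℂ) ^ 2) • 𝓕 (𝓕 (f : V → ℂ)) x := by
    unfold Phi
    refine integral_congr_ae (Eventually.of_forall fun x => ?_)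
    simp only [fourier_fourier_even f hf, smul_eq_mul]
    ring
  rw [e1, ← key]
  unfold Phi
  rw [← integral_const_mul]
  refine integral_congr_ae (Eventually.of_forall fun ξ => ?_)
  simp only [smul_eq_mul]
  rw [fourier_gaussian_innerProductSpace hb]
  have : -(π : ℂ) ^ 2 * (‖ξ‖ : ℂ) ^ 2 / b = -(π : ℂ) ^ 2 / b * (‖ξ‖ : ℂ) ^ 2 := by ring
  rw [this]
  ring

lemma parseval_norm (f : 𝓢(V, ℂ)) (hf : ∀ x, f (-x) = f x) (t : ℝ) (ht : t ≠ 0) :
    ‖Phi (f : V → ℂ) (π * Complex.I * t)‖ =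
      |t| ^ (-((Module.finrank ℝ V : ℝ) / 2)) *
        ‖Phi (𝓕 (f : V → ℂ)) (π * Complex.I * ((-1 / t : ℝ) : ℂ))‖ := by
  set N : ℝ := (Module.finrank ℝ V : ℝ) / 2 with hN
  have hfi : Integrable (f : V → ℂ) := f.integrable
  have hFf : Integrable (𝓕 (f : V → ℂ)) := by
    rw [← SchwartzMap.fourier_coe]
    exact (𝓕 f).integrable
  -- the path b(δ)
  set b : ℝ → ℂ := fun δ => π * (δ - Complex.I * t) with hb
  have hbre : ∀ δ, (b δ).re = π * δ := by
    intro δ
    simp [hb]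
  have hbne : ∀ δ, b δ ≠ 0 := by
    intro δ h
    have h1 : (b δ).im = -(π * t) := by simp [hb]
    rw [h] at h1
    simp only [Complex.zero_im] at h1
    have : π * t = 0 := by linarith
    rcases mul_eq_zero.1 this with h | h
    · exact Real.pi_ne_zero h
    · exact ht h
  have hbc : Continuous b := by fun_prop
  have hmain : ∀ δ : ℝ, 0 < δ → ‖Phi (f : V → ℂ) (-b δ)‖ =
      ‖(π : ℂ) / b δ‖ ^ N * ‖Phi (𝓕 (f : V → ℂ)) (-π ^ 2 / b δ)‖ := by
    intro δ hδ
    rw [parseval_pos f hf (b δ) (by rw [hbre]; positivity), norm_mul]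
    congr 1
    have : (Module.finrank ℝ V / 2 : ℂ) = ((N : ℝ) : ℂ) := by
      rw [hN]; push_cast; ring
    rw [this, Complex.norm_cpow_real]
  -- limits
  have hL : Tendsto (fun δ => ‖Phi (f : V → ℂ) (-b δ)‖) (𝓝[>] 0)
      (𝓝 ‖Phi (f : V → ℂ) (-b 0)‖) := by
    have h1 : ContinuousOn (fun δ : ℝ => Phi (f : V → ℂ) (-b δ)) (Ici 0) := by
      refine (Phi_continuousOn (f : V → ℂ) hfi).comp (by fun_prop) ?_
      intro δ hδ
      simp only [mem_ofPred_eq, Complex.neg_re, hbre]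
      have : (0 : ℝ) ≤ δ := hδ
      have := mul_nonneg Real.pi_pos.le this
      linarith
    have h2 := (h1 0 (le_refl (0:ℝ))).norm
    exact h2.mono_left (nhdsWithin_mono _ Ioi_subset_Ici_self)
  have hR : Tendsto (fun δ => ‖(π : ℂ) / b δ‖ ^ N * ‖Phi (𝓕 (f : V → ℂ)) (-π ^ 2 / b δ)‖) (𝓝[>] 0)
      (𝓝 (‖(π : ℂ) / b 0‖ ^ N * ‖Phi (𝓕 (f : V → ℂ)) (-π ^ 2 / b 0)‖)) := by
    have h0 : ContinuousOn (fun δ : ℝ => ‖(π : ℂ) / b δ‖ ^ N) (Ici 0) := by
      refine ContinuousOn.rpow_const ?_ ?_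
      · exact (continuousOn_const.div hbc.continuousOn (fun δ _ => hbne δ)).norm
      · intro δ _
        left
        rw [norm_ne_zero_iff]
        exact div_ne_zero (by exact_mod_cast Real.pi_ne_zero) (hbne δ)
    have h1 : ContinuousOn (fun δ : ℝ => Phi (𝓕 (f : V → ℂ)) (-π ^ 2 / b δ)) (Ici 0) := by
      refine (Phi_continuousOn (𝓕 (f : V → ℂ)) hFf).comp
        (continuousOn_const.div hbc.continuousOn (fun δ _ => hbne δ)) ?_
      intro δ hδ
      simp only [mem_ofPred_eq]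
      have hδ' : (0 : ℝ) ≤ δ := hδ
      have e : (-(π : ℂ) ^ 2 / b δ).re = -(π ^ 2 * (b δ).re) / Complex.normSq (b δ) := by
        rw [div_eq_mul_inv]
        have : (-(π : ℂ) ^ 2) = ((-π ^ 2 : ℝ) : ℂ) := by push_cast; ring
        rw [this, Complex.re_ofReal_mul, Complex.inv_re]
        ring
      rw [e, hbre]
      apply div_nonpos_of_nonpos_of_nonneg
      · have : 0 ≤ π ^ 2 * (π * δ) := by positivity
        linarith
      · exact Complex.normSq_nonneg _
    have h2 := (h0 0 (le_refl (0:ℝ))).mul (h1 0 (le_refl (0:ℝ))).norm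
    exact h2.mono_left (nhdsWithin_mono _ Ioi_subset_Ici_self)
  have hEq := tendsto_nhds_unique (hL.congr' (by
    filter_upwards [self_mem_nhdsWithin] with δ hδ
    exact hmain δ hδ)) hR
  have e1 : -b 0 = π * Complex.I * t := by simp [hb]; ring
  have htc : (t : ℂ) ≠ 0 := by exact_mod_cast ht
  have e2 : -(π : ℂ) ^ 2 / b 0 = π * Complex.I * ((-1 / t : ℝ) : ℂ) := by
    rw [div_eq_iff (hbne 0)]
    simp only [hb]
    push_cast
    field_simp
    ring_nf
    rw [Complex.I_sq]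
    ring
  have e3 : ‖(π : ℂ) / b 0‖ ^ N = |t| ^ (-N) := by
    have : (π : ℂ) / b 0 = Complex.I / t := by
      rw [div_eq_div_iff (hbne 0) htc]
      simp only [hb]
      push_cast
      ring_nf
      rw [Complex.I_sq]
      ring
    rw [this, norm_div, Complex.norm_I, Complex.norm_real, Real.norm_eq_abs, one_div,
      Real.inv_rpow (abs_nonneg t), Real.rpow_neg (abs_nonneg t)]
  rw [e1, e2, e3] at hEq
  exact hEq

/-- The Fourier transform of a radial function is radial. -/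
lemma radial_fourier (f : V → ℂ) (hf : ∀ x y : V, ‖x‖ = ‖y‖ → f x = f y) :
    ∀ x y : V, ‖x‖ = ‖y‖ → 𝓕 f x = 𝓕 f y := by
  intro x y hxy
  set A := (ℝ ∙ (x - y))ᗮ.reflection with hA
  have h1 : A x = y := Submodule.reflection_sub hxy
  have h2 : f ∘ A = f := by
    ext z
    exact hf _ _ (A.norm_map z)
  have h3 := Real.fourier_comp_linearIsometry A f x
  rw [h2, h1] at h3
  exact h3

end Phi

end Pool.Agent.H68
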