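import Mathlib

set_option autoImplicit false

open MeasureTheory Set Filter Topology
open scoped FourierTransform Real SchwartzMap

namespace Pool.Agent.H68

/-- `K(√s) (√s)^m` -/
noncomputable def sq (K : ℝ → ℂ) (m : ℕ) (s : ℝ) : ℂ := K (Real.sqrt s) * ((Real.sqrt s : ℝ) : ℂ) ^ m

lemma sq_continuous (K : ℝ → ℂ) (hK : Continuous K) (m : ℕ) : Continuous (sq K m) := by
  unfold sq; fun_prop

lemma sq_of_nonpos (K : ℝ → ℂ) (m : ℕ) (hm : 1 ≤ m) (s : ℝ) (hs : s ≤ 0) : sq K m s = 0 := by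
  unfold sq
  rw [Real.sqrt_eq_zero_of_nonpos hs]
  simp [Nat.one_le_iff_ne_zero.1 hm]

lemma sq_decay (K : 𝓢(ℝ, ℂ)) (m : ℕ) (hm : 1 ≤ m) :
    ∃ C : ℝ, ∀ s, ‖sq K m s‖ ≤ C * (1 + s ^ 2)⁻¹ := by
  obtain ⟨C1, hC1⟩ := K.decay m 0
  obtain ⟨C2, hC2⟩ := K.decay (m + 4) 0
  simp only [norm_iteratedFDeriv_zero] at hC1 hC2
  refine ⟨C1 + C2, fun s => ?_⟩
  have hC10 : 0 ≤ C1 := (by positivity : (0 : ℝ) ≤ ‖(0 : ℝ)‖ ^ m * ‖K 0‖).trans (hC1.2 0)
  have hC20 : 0 ≤ C2 := (by positivity : (0 : ℝ) ≤ ‖(0 : ℝ)‖ ^ (m + 4) * ‖K 0‖).trans (hC2.2 0)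
  rcases le_or_gt s 0 with hs | hs
  · rw [sq_of_nonpos _ m hm s hs, norm_zero]
    positivity
  · have hr : (0 : ℝ) ≤ Real.sqrt s := Real.sqrt_nonneg s
    have hn : ‖sq K m s‖ = ‖Real.sqrt s‖ ^ m * ‖K (Real.sqrt s)‖ := by
      unfold sq
      rw [norm_mul, norm_pow, Complex.norm_real]; ring
    rw [← div_eq_mul_inv, le_div_iff₀ (by positivity), hn]
    have h4 : s ^ 2 = ‖Real.sqrt s‖ ^ 4 := by
      rw [Real.norm_eq_abs, abs_of_nonneg hr]
      have : Real.sqrt s ^ 4 = (Real.sqrt s ^ 2) ^ 2 := by ring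
      rw [this, Real.sq_sqrt hs.le]
    calc ‖Real.sqrt s‖ ^ m * ‖K (Real.sqrt s)‖ * (1 + s ^ 2)
        = ‖Real.sqrt s‖ ^ m * ‖K (Real.sqrt s)‖ + ‖Real.sqrt s‖ ^ (m + 4) * ‖K (Real.sqrt s)‖ := by
          rw [h4]; ring
      _ ≤ C1 + C2 := add_le_add (hC1.2 _) (hC2.2 _)

lemma integrable_of_sq_decay (g : ℝ → ℂ) (hg : Continuous g) (C : ℝ)
    (hC : ∀ s, ‖g s‖ ≤ C * (1 + s ^ 2)⁻¹) : Integrable g :=
  (integrable_inv_one_add_sq.const_mul C).mono' hg.aestronglyMeasurable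
    (Eventually.of_forall hC)

/-- derivative of `G = F(√s)(√s)^(n+2)`. -/
lemma sq_hasDerivAt (F : 𝓢(ℝ, ℂ)) (n : ℕ) (hn : 1 ≤ n) (s : ℝ) :
    HasDerivAt (sq F (n + 2))
      ((1 / 2 : ℂ) * sq (deriv F) (n + 1) s + ((n + 2 : ℕ) : ℂ) / 2 * sq F n s) s := by
  rcases lt_trichotomy s 0 with hs | hs | hs
  · rw [sq_of_nonpos _ (n + 1) (by omega) s hs.le, sq_of_nonpos _ n hn s hs.le]
    simp only [mul_zero, add_zero]
    refine (hasDerivAt_const s (0 : ℂ)).congr_of_eventuallyEq ?_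
    filter_upwards [Iio_mem_nhds hs] with y hy
    exact sq_of_nonpos _ _ (by omega) y (le_of_lt hy)
  · subst hs
    rw [sq_of_nonpos _ (n + 1) (by omega) 0 le_rfl, sq_of_nonpos _ n hn 0 le_rfl]
    simp only [mul_zero, add_zero]
    rw [hasDerivAt_iff_isLittleO_nhds_zero]
    simp only [zero_add, smul_zero, sub_zero]
    rw [sq_of_nonpos _ (n + 2) (by omega) 0 le_rfl]
    simp only [sub_zero]
    have e : ∀ h : ℝ, sq F (n + 2) h = ((Real.sqrt h : ℝ) : ℂ) ^ 2 * sq F n h := by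
      intro h; unfold sq; ring
    simp_rw [e]
    have h1 : (fun h : ℝ => ((Real.sqrt h : ℝ) : ℂ) ^ 2) =O[𝓝 0] fun h : ℝ => h := by
      refine Asymptotics.IsBigO.of_bound 1 (Eventually.of_forall fun h => ?_)
      rw [norm_pow, Complex.norm_real, Real.norm_eq_abs, one_mul, Real.norm_eq_abs, sq_abs]
      rcases le_or_gt h 0 with hh | hh
      · rw [Real.sqrt_eq_zero_of_nonpos hh]; simp
      · rw [Real.sq_sqrt hh.le]; exact le_abs_self h
    have h2 : (fun h : ℝ => sq F n h) =o[𝓝 0] fun _ : ℝ => (1 : ℝ) := by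
      rw [Asymptotics.isLittleO_one_iff]
      have := (sq_continuous F F.continuous n).tendsto 0
      rwa [sq_of_nonpos _ n hn 0 le_rfl] at this
    simpa using h1.mul_isLittleO h2
  · have hs' : Real.sqrt s ≠ 0 := (Real.sqrt_pos.2 hs).ne'
    have hsc : ((Real.sqrt s : ℝ) : ℂ) ≠ 0 := by exact_mod_cast hs'
    have d1 : HasDerivAt Real.sqrt (1 / (2 * Real.sqrt s)) s := Real.hasDerivAt_sqrt hs.ne'
    have d2 : HasDerivAt (fun y => F (Real.sqrt y)) ((1 / (2 * Real.sqrt s)) • deriv F (Real.sqrt s)) s := by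
      have hF : HasDerivAt F (deriv F (Real.sqrt s)) (Real.sqrt s) :=
        (F.differentiable _).hasDerivAt
      exact hF.scomp s d1
    have d3 : HasDerivAt (fun y => ((Real.sqrt y : ℝ) : ℂ)) (((1 / (2 * Real.sqrt s) : ℝ)) : ℂ) s :=
      d1.ofReal_comp
    have d4 := d3.pow (n + 2)
    have d5 := d2.mul d4
    have : sq F (n + 2) = (fun y => F (Real.sqrt y)) * (fun y => ((Real.sqrt y : ℝ) : ℂ)) ^ (n + 2) := by
      ext y; simp [sq]
    rw [this]
    refine d5.congr_deriv ?_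
    unfold sq
    simp only [Pi.pow_apply, Complex.real_smul]
    push_cast
    field_simp
    ring

/-- The one-dimensional transform `∫ G(s) e^{π i t s} ds`. -/
noncomputable def hatG (G : ℝ → ℂ) (t : ℝ) : ℂ := ∫ s, G s * Complex.exp (π * Complex.I * t * s)

lemma fourier_scaled (G : ℝ → ℂ) (t ξ : ℝ) :
    𝓕 (fun v : ℝ => G (2 * v) * Complex.exp (2 * π * Complex.I * t * v)) ξ =
      (1 / 2 : ℂ) * hatG G (t - ξ) := by
  rw [Real.fourier_real_eq_integral_exp_smul]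
  unfold hatG
  have h := Measure.integral_comp_mul_left
    (fun s : ℝ => G s * Complex.exp (π * Complex.I * ((t - ξ : ℝ) : ℂ) * s)) 2
  have e : (1 / 2 : ℂ) * ∫ s : ℝ, G s * Complex.exp (π * Complex.I * ((t - ξ : ℝ) : ℂ) * s) =
      |(2 : ℝ)⁻¹| • ∫ s : ℝ, G s * Complex.exp (π * Complex.I * ((t - ξ : ℝ) : ℂ) * s) := by
    rw [Complex.real_smul, abs_of_pos (by norm_num)]
    push_cast
    ring
  rw [e, ← h]
  refine integral_congr_ae (Eventually.of_forall fun v => ?_)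
  simp only [smul_eq_mul]
  rw [mul_left_comm, ← Complex.exp_add]
  congr 2
  push_cast
  ring

lemma inv_two_le (v : ℝ) : (1 + (2 * v) ^ 2)⁻¹ ≤ (1 + v ^ 2)⁻¹ := by
  have h : 1 + v ^ 2 ≤ 1 + (2 * v) ^ 2 := by nlinarith [sq_nonneg v]
  exact inv_anti₀ (by positivity) h

/-- Poisson summation, zeroth order. -/
lemma poisson_zero (G : ℝ → ℂ) (hG : Continuous G) (C : ℝ) (hC : ∀ s, ‖G s‖ ≤ C * (1 + s ^ 2)⁻¹)
    (hz : ∀ n : ℤ, G (2 * n) = 0) (t : ℝ)
    (hs : Summable fun m : ℤ => hatG G (t - m)) :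
    ∑' m : ℤ, hatG G (t - m) = 0 := by
  set f : ℝ → ℂ := fun v : ℝ => G (2 * v) * Complex.exp (2 * π * Complex.I * t * v) with hf
  have hfc : Continuous f := by fun_prop
  have hnexp : ∀ v : ℝ, ‖Complex.exp (2 * π * Complex.I * t * v)‖ = 1 := by
    intro v
    have : (2 * π * Complex.I * t * v : ℂ) = ((2 * π * t * v : ℝ) : ℂ) * Complex.I := by
      push_cast; ring
    rw [this, Complex.norm_exp_ofReal_mul_I]
  have hdec : f =O[cocompact ℝ] fun x : ℝ => |x| ^ (-2 : ℝ) := by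
    have hC0 : 0 ≤ C := by
      have := (norm_nonneg _).trans (hC 0)
      simpa using this
    refine Asymptotics.IsBigO.of_bound C ?_
    have : ∀ᶠ x : ℝ in cocompact ℝ, x ≠ 0 := by
      exact (isCompact_singleton (x := (0:ℝ))).compl_mem_cocompact
    filter_upwards [this] with x hx
    simp only [hf, norm_mul, hnexp, mul_one]
    have hx2 : |x| ^ (-2 : ℝ) = (x ^ 2)⁻¹ := by
      rw [Real.rpow_neg (abs_nonneg x)]
      congr 1
      rw [← sq_abs x]
      exact_mod_cast Real.rpow_natCast |x| 2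
    rw [hx2, Real.norm_eq_abs, abs_of_nonneg (by positivity)]
    refine (hC _).trans ?_
    have hx2 : 0 < x ^ 2 := by positivity
    gcongr
    nlinarith
  have hsum : Summable fun n : ℤ => 𝓕 f n := by
    refine (hs.mul_left (1 / 2 : ℂ)).congr fun n => ?_
    rw [fourier_scaled]
  have hp := Real.tsum_eq_tsum_fourier_of_rpow_decay_of_summable hfc one_lt_two hdec hsum 0
  have hl : ∑' n : ℤ, f (0 + n) = 0 := by
    have : ∀ n : ℤ, f (0 + n) = 0 := by
      intro n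
      simp only [hf, zero_add, hz n, zero_mul]
    simp only [this, tsum_zero]
  rw [hl] at hp
  have hr : ∑' n : ℤ, 𝓕 f n * fourier n ((0 : ℝ) : UnitAddCircle) =
      (1 / 2 : ℂ) * ∑' m : ℤ, hatG G (t - m) := by
    rw [← tsum_mul_left]
    refine tsum_congr fun n => ?_
    rw [fourier_scaled]
    simp
  rw [hr] at hp
  have h2 : (1 / 2 : ℂ) ≠ 0 := by norm_num
  exact (mul_eq_zero.1 hp.symm).resolve_left h2

/-- Poisson summation, first order. -/
lemma poisson_one (G G1 : ℝ → ℂ) (hG1c : Continuous G1)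
    (hd : ∀ s, HasDerivAt G (G1 s) s)
    (C : ℝ) (hC : ∀ s, ‖G s‖ ≤ C * (1 + s ^ 2)⁻¹)
    (C1 : ℝ) (hC1 : ∀ s, ‖G1 s‖ ≤ C1 * (1 + s ^ 2)⁻¹)
    (hz : ∀ n : ℤ, G (2 * n) = 0) (hz1 : ∀ n : ℤ, G1 (2 * n) = 0) (t : ℝ)
    (hs : Summable fun m : ℤ => (m : ℂ) * hatG G (t - m)) :
    ∑' m : ℤ, (m : ℂ) * hatG G (t - m) = 0 := by
  have hG : Continuous G := by
    rw [continuous_iff_continuousAt]
    exact fun s => (hd s).continuousAt
  set g : ℝ → ℂ := fun v : ℝ => G (2 * v) * Complex.exp (2 * π * Complex.I * t * v) with hg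
  set f : ℝ → ℂ := fun v : ℝ => (2 * G1 (2 * v) + 2 * π * Complex.I * t * G (2 * v)) *
    Complex.exp (2 * π * Complex.I * t * v) with hf
  have hgd : ∀ v, HasDerivAt g (f v) v := by
    intro v
    have d1 : HasDerivAt (fun v : ℝ => G (2 * v)) ((2 : ℝ) • G1 (2 * v)) v := by
      have a : HasDerivAt (fun v : ℝ => 2 * v) 2 v := by
        simpa using (hasDerivAt_id v).const_mul (2 : ℝ)
      exact (hd (2 * v)).scomp v a
    have d2 : HasDerivAt (fun v : ℝ => (2 * π * Complex.I * t * v : ℂ)) (2 * π * Complex.I * t) v := by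
      have a : HasDerivAt (fun v : ℝ => (v : ℂ)) 1 v := by
        simpa using (hasDerivAt_id v).ofReal_comp
      simpa using a.const_mul (2 * π * Complex.I * t : ℂ)
    have d3 := d1.mul d2.cexp
    refine d3.congr_deriv ?_
    simp only [hf, Complex.real_smul]
    push_cast
    ring
  have hderiv : deriv g = f := by
    ext v; exact (hgd v).deriv
  have hgdiff : Differentiable ℝ g := fun v => (hgd v).differentiableAt
  have hgc : Continuous g := hgdiff.continuous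
  have hfc : Continuous f := by fun_prop
  have hnexp : ∀ v : ℝ, ‖Complex.exp (2 * π * Complex.I * t * v)‖ = 1 := by
    intro v
    have : (2 * π * Complex.I * t * v : ℂ) = ((2 * π * t * v : ℝ) : ℂ) * Complex.I := by
      push_cast; ring
    rw [this, Complex.norm_exp_ofReal_mul_I]
  have hC0 : 0 ≤ C := by
    have := (norm_nonneg _).trans (hC 0)
    simpa using this
  have hC10 : 0 ≤ C1 := by
    have := (norm_nonneg _).trans (hC1 0)
    simpa using this
  have hgb : ∀ v, ‖g v‖ ≤ C * (1 + v ^ 2)⁻¹ := by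
    intro v
    simp only [hg, norm_mul, hnexp, mul_one]
    refine (hC _).trans ?_
    exact mul_le_mul_of_nonneg_left (inv_two_le v) hC0
  have hfb : ∀ v, ‖f v‖ ≤ (2 * C1 + ‖(2 * π * Complex.I * t : ℂ)‖ * C) * (1 + v ^ 2)⁻¹ := by
    intro v
    have e1 : ‖f v‖ = ‖2 * G1 (2 * v) + 2 * π * Complex.I * t * G (2 * v)‖ := by
      simp only [hf]
      rw [norm_mul, hnexp, mul_one]
    have b1 : ‖G1 (2 * v)‖ ≤ C1 * (1 + v ^ 2)⁻¹ :=
      (hC1 (2 * v)).trans (mul_le_mul_of_nonneg_left (inv_two_le v) hC10)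
    have b0 : ‖G (2 * v)‖ ≤ C * (1 + v ^ 2)⁻¹ :=
      (hC (2 * v)).trans (mul_le_mul_of_nonneg_left (inv_two_le v) hC0)
    rw [e1]
    calc ‖2 * G1 (2 * v) + 2 * π * Complex.I * t * G (2 * v)‖
        ≤ ‖2 * G1 (2 * v)‖ + ‖2 * π * Complex.I * t * G (2 * v)‖ := norm_add_le _ _
      _ = 2 * ‖G1 (2 * v)‖ + ‖(2 * π * Complex.I * t : ℂ)‖ * ‖G (2 * v)‖ := by
          rw [norm_mul, Complex.norm_ofNat, norm_mul (2 * π * Complex.I * t : ℂ)]
      _ ≤ 2 * (C1 * (1 + v ^ 2)⁻¹) + ‖(2 * π * Complex.I * t : ℂ)‖ * (C * (1 + v ^ 2)⁻¹) := by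
          gcongr
      _ = _ := by ring
  have hgi : Integrable g := integrable_of_sq_decay g hgc C hgb
  have hfi : Integrable f := integrable_of_sq_decay f hfc _ hfb
  have hFT : ∀ ξ : ℝ, 𝓕 f ξ = (2 * π * Complex.I * ξ) * ((1 / 2 : ℂ) * hatG G (t - ξ)) := by
    intro ξ
    have := congrFun (Real.fourier_deriv hgi hgdiff (by rw [hderiv]; exact hfi)) ξ
    rw [hderiv] at this
    rw [this, ← fourier_scaled G t ξ]
    simp [smul_eq_mul, hg]
  set C2 : ℝ := 2 * C1 + ‖(2 * π * Complex.I * t : ℂ)‖ * C with hC2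
  have hC20 : 0 ≤ C2 := by positivity
  have hdec : f =O[cocompact ℝ] fun x : ℝ => |x| ^ (-2 : ℝ) := by
    refine Asymptotics.IsBigO.of_bound C2 ?_
    have : ∀ᶠ x : ℝ in cocompact ℝ, x ≠ 0 := by
      exact (isCompact_singleton (x := (0:ℝ))).compl_mem_cocompact
    filter_upwards [this] with x hx
    have hx2 : |x| ^ (-2 : ℝ) = (x ^ 2)⁻¹ := by
      rw [Real.rpow_neg (abs_nonneg x)]
      congr 1
      rw [← sq_abs x]
      exact_mod_cast Real.rpow_natCast |x| 2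
    rw [hx2, Real.norm_eq_abs, abs_of_nonneg (by positivity)]
    refine (hfb _).trans ?_
    have hx2 : 0 < x ^ 2 := by positivity
    gcongr
    linarith
  have hsum : Summable fun n : ℤ => 𝓕 f n := by
    refine (hs.mul_left (π * Complex.I : ℂ)).congr fun n => ?_
    rw [hFT]
    push_cast
    ring
  have hp := Real.tsum_eq_tsum_fourier_of_rpow_decay_of_summable hfc one_lt_two hdec hsum 0
  have hl : ∑' n : ℤ, f (0 + n) = 0 := by
    have : ∀ n : ℤ, f (0 + n) = 0 := by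
      intro n
      simp only [hf, zero_add, hz n, hz1 n]
      simp
    simp only [this, tsum_zero]
  rw [hl] at hp
  have hr : ∑' n : ℤ, 𝓕 f n * fourier n ((0 : ℝ) : UnitAddCircle) =
      (π * Complex.I : ℂ) * ∑' m : ℤ, (m : ℂ) * hatG G (t - m) := by
    rw [← tsum_mul_left]
    refine tsum_congr fun n => ?_
    rw [hFT]
    simp
    ring
  rw [hr] at hp
  have h2 : (π * Complex.I : ℂ) ≠ 0 :=
    mul_ne_zero (by exact_mod_cast Real.pi_ne_zero) Complex.I_ne_zero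
  exact (mul_eq_zero.1 hp.symm).resolve_left h2

/-- If `hatG G = 0` then `G = 0`. -/
lemma eq_zero_of_hatG (G : ℝ → ℂ) (hG : Continuous G) (hi : Integrable G)
    (h : ∀ t, hatG G t = 0) : ∀ s, G s = 0 := by
  have hF : 𝓕 G = 0 := by
    ext ξ
    rw [Real.fourier_real_eq_integral_exp_smul]
    have := h (-2 * ξ)
    unfold hatG at this
    rw [Pi.zero_apply, ← this]
    refine integral_congr_ae (Eventually.of_forall fun s => ?_)
    simp only [smul_eq_mul]
    rw [mul_comm]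
    congr 2
    push_cast
    ring
  intro s
  have h1 := hi.fourierInv_fourier_eq (by rw [hF]; exact integrable_zero _ _ _)
    (hG.continuousAt (x := s))
  rw [hF] at h1
  rw [← h1, Real.fourierInv_eq_fourier_neg, Real.fourier_real_eq_integral_exp_smul]
  simp

end Pool.Agent.H68
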