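import Mathlib
import Pool.Agent.Lib_helper68.KTwoB
import Pool.Agent.Lib_helper68.KTwoC
import Pool.Agent.Lib_helper68.KTwoD

set_option autoImplicit false

open MeasureTheory Set Filter Topology
open scoped FourierTransform Real SchwartzMap

namespace Pool.Agent.H68

section Polar

variable {V : Type*} [NormedAddCommGroup V] [InnerProductSpace ℝ V] [MeasurableSpace V]
  [BorelSpace V] [FiniteDimensional ℝ V]

lemma polar (f : V → ℂ) (hf : ∀ x y : V, ‖x‖ = ‖y‖ → f x = f y) (e : V) (he : ‖e‖ = 1)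
    (n : ℕ) (hn1 : 1 ≤ n) (hn : Module.finrank ℝ V = n + 2) (z : ℂ) :
    Phi f z = (((n + 2 : ℕ) : ℂ) * (volume.real (Metric.ball (0 : V) 1) : ℂ) / 2) *
      ∫ s : ℝ, sq (fun r => f (r • e)) n s * Complex.exp (z * s) := by
  have hnt : Nontrivial V := by
    apply Module.nontrivial_of_finrank_pos (R := ℝ)
    omega
  set g : ℝ → ℂ := fun r => f (r • e) * Complex.exp (z * (r : ℂ) ^ 2) with hg
  have h1 : Phi f z = ∫ x : V, g ‖x‖ := by
    unfold Phi
    refine integral_congr_ae (Eventually.of_forall fun x => ?_)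
    simp only [hg]
    congr 1
    apply hf
    rw [norm_smul, he, mul_one, norm_norm]
  rw [h1, integral_fun_norm_addHaar]
  set g' : ℝ → ℂ := fun y => sq (fun r => f (r • e)) n y * Complex.exp (z * y) with hg'
  have h2 := integral_comp_rpow_Ioi g' (p := 2) (by norm_num)
  have h3 : ∫ y in Ioi (0 : ℝ), g' y = ∫ y, g' y := by
    refine setIntegral_eq_integral_of_forall_compl_eq_zero fun y hy => ?_
    have hy' : y ≤ 0 := not_lt.1 hy
    simp only [hg', sq_of_nonpos _ n hn1 y hy', zero_mul]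
  rw [← h3, ← h2, hn]
  have h4 : ∫ x in Ioi (0 : ℝ), (|(2 : ℝ)| * x ^ ((2 : ℝ) - 1)) • g' (x ^ (2 : ℝ)) =
      2 * ∫ y in Ioi (0 : ℝ), y ^ (n + 2 - 1) • g y := by
    rw [← integral_const_mul]
    refine setIntegral_congr_fun measurableSet_Ioi fun x hx => ?_
    have hx : (0 : ℝ) < x := hx
    have e1 : x ^ (2 : ℝ) = x ^ 2 := by exact_mod_cast Real.rpow_natCast x 2
    have e2 : x ^ ((2 : ℝ) - 1) = x := by
      rw [show (2 : ℝ) - 1 = 1 by norm_num, Real.rpow_one]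
    simp only [e1, e2, hg', hg, sq, Real.sqrt_sq hx.le, abs_of_pos (show (0 : ℝ) < 2 by norm_num)]
    have e3 : n + 2 - 1 = n + 1 := by omega
    rw [e3]
    simp only [Complex.real_smul]
    push_cast
    ring
  rw [h4]
  simp only [nsmul_eq_mul, Complex.real_smul]
  push_cast
  ring

end Polar

section Main

variable {d : ℕ}

/-- Evaluation of a Schwartz function on a ray, as a Schwartz function on `ℝ`. -/
lemma exists_profile (f : 𝓢(EuclideanSpace ℝ (Fin d), ℂ)) (e : EuclideanSpace ℝ (Fin d))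
    (he : ‖e‖ = 1) : ∃ F : 𝓢(ℝ, ℂ), ∀ r, F r = f (r • e) := by
  set L : ℝ →L[ℝ] EuclideanSpace ℝ (Fin d) := (ContinuousLinearMap.id ℝ ℝ).smulRight e with hL
  have hup : ∃ (k : ℕ) (C : ℝ), ∀ x : ℝ, ‖x‖ ≤ C * (1 + ‖L x‖) ^ k := by
    refine ⟨1, 1, fun x => ?_⟩
    have : ‖L x‖ = ‖x‖ := by simp [hL, norm_smul, he]
    rw [this]
    simp
  refine ⟨SchwartzMap.compCLM ℂ L.hasTemperateGrowth hup f, fun r => ?_⟩
  simp [hL]

/-- data attached to one function -/
lemma one_side (f : 𝓢(EuclideanSpace ℝ (Fin d), ℂ)) (hd : 9 ≤ d)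
    (hf : ∀ x y : EuclideanSpace ℝ (Fin d), ‖x‖ = ‖y‖ → f x = f y)
    (e : EuclideanSpace ℝ (Fin d)) (he : ‖e‖ = 1)
    (h0 : ∀ n : ℕ, 1 ≤ n → f (Real.sqrt (2 * n) • e) = 0)
    (h1 : ∀ n : ℕ, 1 ≤ n → deriv (fun t : ℝ => f (t • e)) (Real.sqrt (2 * n)) = 0)
    (u : ℝ → ℂ) (hu : ∀ t : ℝ, u t = Phi (f : EuclideanSpace ℝ (Fin d) → ℂ) (π * Complex.I * t))
    (hs0 : ∀ τ : ℝ, Summable fun m : ℤ => ‖u (τ + m)‖)
    (hs : ∀ τ : ℝ, Summable fun m : ℤ => |(m : ℝ)| * ‖u (τ + m)‖) :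
    (∀ τ : ℝ, ∑' m : ℤ, u (τ + m) = 0) ∧ (∀ τ : ℝ, ∑' m : ℤ, (m : ℂ) * u (τ + m) = 0) ∧
    ((∀ t, u t = 0) → f = 0) := by
  obtain ⟨F, hF⟩ := exists_profile f e he
  obtain ⟨n, rfl⟩ : ∃ n, d = n + 4 := ⟨d - 4, by omega⟩
  have hn : 5 ≤ n := by omega
  set G : ℝ → ℂ := sq F (n + 2) with hG
  set G1 : ℝ → ℂ := fun s => (1 / 2 : ℂ) * sq (deriv F) (n + 1) s +
    ((n + 2 : ℕ) : ℂ) / 2 * sq F n s with hG1
  have hFeq : (fun r : ℝ => f (r • e)) = F := by ext r; exact (hF r).symm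
  have hdF : Continuous (deriv F) := by
    have := (SchwartzMap.derivCLM ℂ ℂ F).continuous
    exact this
  have hGc : Continuous G := sq_continuous F F.continuous _
  have hG1c : Continuous G1 := by
    have a := sq_continuous (deriv F) hdF (n + 1)
    have b := sq_continuous F F.continuous n
    simp only [hG1]
    fun_prop
  obtain ⟨C, hC⟩ := sq_decay F (n + 2) (by omega)
  obtain ⟨Ca, hCa⟩ := sq_decay (SchwartzMap.derivCLM ℂ ℂ F) (n + 1) (by omega)
  obtain ⟨Cb, hCb⟩ := sq_decay F n (by omega)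
  have hCa' : ∀ s, ‖sq (deriv F) (n + 1) s‖ ≤ Ca * (1 + s ^ 2)⁻¹ := hCa
  have hC1 : ∀ s, ‖G1 s‖ ≤ (1 / 2 * Ca + ((n + 2 : ℕ) : ℝ) / 2 * Cb) * (1 + s ^ 2)⁻¹ := by
    intro s
    simp only [hG1]
    refine (norm_add_le _ _).trans ?_
    rw [norm_mul, norm_mul, add_mul, mul_assoc, mul_assoc]
    have e1 : ‖(1 / 2 : ℂ)‖ = 1 / 2 := by norm_num
    have e2 : ‖((n + 2 : ℕ) : ℂ) / 2‖ = ((n + 2 : ℕ) : ℝ) / 2 := by
      rw [norm_div, Complex.norm_natCast]; norm_num
    rw [e1, e2]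
    have := hCa' s
    have := hCb s
    gcongr
  have hz : ∀ m : ℤ, G (2 * m) = 0 := by
    intro m
    rcases le_or_gt m 0 with hm | hm
    · apply sq_of_nonpos _ _ (by omega)
      have : (m : ℝ) ≤ 0 := by exact_mod_cast hm
      linarith
    · obtain ⟨k, rfl⟩ : ∃ k : ℕ, m = k := ⟨m.toNat, by omega⟩
      have hk : 1 ≤ k := by exact_mod_cast hm
      have := h0 k hk
      simp only [hG, sq, hF]
      rw [show (2 * ((k : ℤ) : ℝ)) = 2 * (k : ℝ) by push_cast; ring, this, zero_mul]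
  have hz1 : ∀ m : ℤ, G1 (2 * m) = 0 := by
    intro m
    rcases le_or_gt m 0 with hm | hm
    · have hm' : (m : ℝ) ≤ 0 := by exact_mod_cast hm
      have a := sq_of_nonpos (deriv F) (n + 1) (by omega) (2 * m) (by linarith)
      have b := sq_of_nonpos F n (by omega) (2 * m) (by linarith)
      simp only [hG1, a, b, mul_zero, add_zero]
    · obtain ⟨k, rfl⟩ : ∃ k : ℕ, m = k := ⟨m.toNat, by omega⟩
      have hk : 1 ≤ k := by exact_mod_cast hm
      have a := h0 k hk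
      have b := h1 k hk
      rw [hFeq] at b
      simp only [hG1, sq, hF]
      rw [show (2 * ((k : ℤ) : ℝ)) = 2 * (k : ℝ) by push_cast; ring, a, b]
      simp
  -- relation between u and hatG
  set c : ℂ := (((n + 2 + 2 : ℕ) : ℂ) *
    (volume.real (Metric.ball (0 : EuclideanSpace ℝ (Fin (n + 4))) 1) : ℂ) / 2) with hc
  have hc0 : c ≠ 0 := by
    have hv : 0 < volume.real (Metric.ball (0 : EuclideanSpace ℝ (Fin (n + 4))) 1) := by
      rw [measureReal_def]
      exact ENNReal.toReal_pos (Metric.measure_ball_pos volume _ one_pos).ne'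
        measure_ball_lt_top.ne
    have hv' : (volume.real (Metric.ball (0 : EuclideanSpace ℝ (Fin (n + 4))) 1) : ℂ) ≠ 0 := by
      exact_mod_cast hv.ne'
    have hn' : ((n + 2 + 2 : ℕ) : ℂ) ≠ 0 := by exact_mod_cast (by omega : n + 2 + 2 ≠ 0)
    rw [hc]
    exact div_ne_zero (mul_ne_zero hn' hv') (by norm_num)
  have hrel : ∀ t, u t = c * hatG G t := by
    intro t
    rw [hu t, polar (f : EuclideanSpace ℝ (Fin (n + 4)) → ℂ) hf e he (n + 2) (by omega)
      (by simp) (π * Complex.I * t), hFeq]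
    rfl
  have hrel' : ∀ t, hatG G t = c⁻¹ * u t := by
    intro t
    rw [hrel t, ← mul_assoc, inv_mul_cancel₀ hc0, one_mul]
  have hsum0 : ∀ t : ℝ, Summable fun m : ℤ => hatG G (t - m) := by
    intro t
    have a : Summable fun m : ℤ => u (t + m) := (hs0 t).of_norm
    have b : Summable fun m : ℤ => u (t + ((-m : ℤ) : ℝ)) :=
      (Equiv.neg ℤ).summable_iff.2 a
    refine (b.mul_left c⁻¹).congr fun m => ?_
    rw [hrel']
    congr 2
    push_cast
    ring
  have hs' : ∀ τ : ℝ, Summable fun m : ℤ => (m : ℂ) * u (τ + m) := by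
    intro τ
    apply Summable.of_norm
    refine (hs τ).congr fun m => ?_
    rw [norm_mul, Complex.norm_intCast]
  have hsum1 : ∀ t : ℝ, Summable fun m : ℤ => (m : ℂ) * hatG G (t - m) := by
    intro t
    have b : Summable fun m : ℤ => (((-m : ℤ) : ℂ)) * u (t + ((-m : ℤ) : ℝ)) :=
      (Equiv.neg ℤ).summable_iff.2 (hs' t)
    refine (b.mul_left (-c⁻¹)).congr fun m => ?_
    rw [hrel']
    have : t + ((-m : ℤ) : ℝ) = t - m := by push_cast; ring
    rw [this]
    push_cast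
    ring
  have hd1 : ∀ s, HasDerivAt G (G1 s) s := fun s => sq_hasDerivAt F n (by omega) s
  refine ⟨fun τ => ?_, fun τ => ?_, fun hz0 => ?_⟩
  · have p := poisson_zero G hGc C hC hz τ (hsum0 τ)
    have : ∑' m : ℤ, u (τ + m) = c * ∑' m : ℤ, hatG G (τ - m) := by
      rw [← tsum_mul_left, ← (Equiv.neg ℤ).tsum_eq (fun m : ℤ => u (τ + m))]
      refine tsum_congr fun m => ?_
      rw [hrel]
      congr 2
      simp [sub_eq_add_neg]
    rw [this, p, mul_zero]
  · have p := poisson_one G G1 hG1c hd1 C hC _ hC1 hz hz1 τ (hsum1 τ)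
    have : ∑' m : ℤ, (m : ℂ) * u (τ + m) = -c * ∑' m : ℤ, (m : ℂ) * hatG G (τ - m) := by
      rw [← tsum_mul_left, ← (Equiv.neg ℤ).tsum_eq (fun m : ℤ => (m : ℂ) * u (τ + m))]
      refine tsum_congr fun m => ?_
      rw [hrel]
      have : τ + ((Equiv.neg ℤ m : ℤ) : ℝ) = τ - m := by simp [sub_eq_add_neg]
      rw [this]
      simp
      ring
    rw [this, p, mul_zero]
  · have hGz : ∀ s, G s = 0 := by
      refine eq_zero_of_hatG G hGc (integrable_of_sq_decay G hGc C hC) fun t => ?_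
      rw [hrel', hz0, mul_zero]
    have hFz : ∀ r : ℝ, 0 < r → F r = 0 := by
      intro r hr
      have := hGz (r ^ 2)
      simp only [hG, sq, Real.sqrt_sq hr.le] at this
      rcases mul_eq_zero.1 this with h | h
      · exact h
      · exfalso
        have : (r : ℂ) ≠ 0 := by exact_mod_cast hr.ne'
        exact (pow_ne_zero _ this) h
    have hF0 : ∀ r : ℝ, 0 ≤ r → F r = 0 := by
      intro r hr
      have hcl : r ∈ closure (Ioi (0 : ℝ)) := by rw [closure_Ioi]; exact hr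
      have : EqOn F 0 (closure (Ioi (0 : ℝ))) :=
        EqOn.closure (fun r hr => hFz r hr) F.continuous continuous_const
      exact this hcl
    ext x
    have : f x = f (‖x‖ • e) := by
      apply hf
      rw [norm_smul, he, mul_one, norm_norm]
    rw [this, ← hF, hF0 _ (norm_nonneg x)]
    rfl

/-- Uniqueness in dimension `d ≥ 9` with double zeros at the radii `√(2n)`, `n ≥ 1`. -/
theorem uniqueness_k_two (hd : 9 ≤ d) (f : 𝓢(EuclideanSpace ℝ (Fin d), ℂ))
    (hf : ∀ x y : EuclideanSpace ℝ (Fin d), ‖x‖ = ‖y‖ → f x = f y)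
    (e : EuclideanSpace ℝ (Fin d)) (he : ‖e‖ = 1)
    (h0 : ∀ n : ℕ, 1 ≤ n → f (Real.sqrt (2 * n) • e) = 0)
    (h1 : ∀ n : ℕ, 1 ≤ n → deriv (fun t : ℝ => f (t • e)) (Real.sqrt (2 * n)) = 0)
    (h0' : ∀ n : ℕ, 1 ≤ n → (𝓕 (f : EuclideanSpace ℝ (Fin d) → ℂ)) (Real.sqrt (2 * n) • e) = 0)
    (h1' : ∀ n : ℕ, 1 ≤ n →
      deriv (fun t : ℝ => (𝓕 (f : EuclideanSpace ℝ (Fin d) → ℂ)) (t • e)) (Real.sqrt (2 * n)) = 0) :
    f = 0 := by
  have heven : ∀ x : EuclideanSpace ℝ (Fin d), f (-x) = f x := fun x => hf _ _ (norm_neg x)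
  set g : 𝓢(EuclideanSpace ℝ (Fin d), ℂ) := 𝓕 f with hg
  have hgf : (g : EuclideanSpace ℝ (Fin d) → ℂ) = 𝓕 (f : EuclideanSpace ℝ (Fin d) → ℂ) := SchwartzMap.fourier_coe f
  have hgrad : ∀ x y : EuclideanSpace ℝ (Fin d), ‖x‖ = ‖y‖ → g x = g y := by
    intro x y hxy
    rw [hgf]
    exact radial_fourier (f : EuclideanSpace ℝ (Fin d) → ℂ) hf x y hxy
  have hgeven : ∀ x : EuclideanSpace ℝ (Fin d), g (-x) = g x := fun x => hgrad _ _ (norm_neg x)
  have hFg : 𝓕 (g : EuclideanSpace ℝ (Fin d) → ℂ) = (f : EuclideanSpace ℝ (Fin d) → ℂ) := by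
    rw [hgf]
    ext x
    exact fourier_fourier_even f heven x
  set u : ℝ → ℂ := fun t => Phi (f : EuclideanSpace ℝ (Fin d) → ℂ) (π * Complex.I * t) with hu
  set v : ℝ → ℂ := fun t => Phi (g : EuclideanSpace ℝ (Fin d) → ℂ) (π * Complex.I * t) with hv
  set w : ℝ := (d : ℝ) / 2 with hw
  have hw4 : 4 < w := by
    have : (9 : ℝ) ≤ d := by exact_mod_cast hd
    rw [hw]; linarith
  have hre : ∀ t : ℝ, (π * Complex.I * t : ℂ).re ≤ 0 := by intro t; simp
  have hcont : ∀ h : 𝓢(EuclideanSpace ℝ (Fin d), ℂ), Continuous fun t : ℝ => Phi (h : EuclideanSpace ℝ (Fin d) → ℂ) (π * Complex.I * t) := by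
    intro h
    have := (Phi_continuousOn (h : EuclideanSpace ℝ (Fin d) → ℂ) h.integrable).comp
      (f := fun t : ℝ => (π * Complex.I * t : ℂ)) (s := univ)
      (by fun_prop) (fun t _ => hre t)
    rwa [← continuousOn_univ]
  set M : ℝ := max (∫ x, ‖f x‖) (∫ x, ‖g x‖) with hM
  have hub : ∀ t, ‖u t‖ ≤ M := fun t =>
    (Phi_norm_le (f : EuclideanSpace ℝ (Fin d) → ℂ) f.integrable _ (hre t)).trans (le_max_left _ _)
  have hvb : ∀ t, ‖v t‖ ≤ M := fun t =>
    (Phi_norm_le (g : EuclideanSpace ℝ (Fin d) → ℂ) g.integrable _ (hre t)).trans (le_max_right _ _)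
  have hfr : (Module.finrank ℝ (EuclideanSpace ℝ (Fin d)) : ℝ) / 2 = w := by simp [hw]
  have hinvu : ∀ t : ℝ, t ≠ 0 → ‖u t‖ = |t| ^ (-w) * ‖v (-1 / t)‖ := by
    intro t ht
    have := parseval_norm f heven t ht
    rw [hfr] at this
    simp only [hu, hv]
    rw [this, hgf]
  have hinvv : ∀ t : ℝ, t ≠ 0 → ‖v t‖ = |t| ^ (-w) * ‖u (-1 / t)‖ := by
    intro t ht
    have := parseval_norm g hgeven t ht
    rw [hfr] at this
    simp only [hu, hv]
    rw [this, hFg]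
  have du := decay_of_inv u v w M hw4 hub hvb hinvu
  have dv := decay_of_inv v u w M hw4 hvb hub hinvv
  obtain ⟨eu0, eu1, ez⟩ := one_side f hd hf e he h0 h1 u (fun _ => rfl)
    (fun τ => (summable_of_decay u _ du τ).1) (fun τ => (summable_of_decay u _ du τ).2)
  obtain ⟨ev0, ev1, _⟩ := one_side g hd hgrad e he
    (by intro n hn; rw [hgf]; exact h0' n hn) (by intro n hn; rw [hgf]; exact h1' n hn)
    v (fun _ => rfl)
    (fun τ => (summable_of_decay v _ dv τ).1) (fun τ => (summable_of_decay v _ dv τ).2)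
  exact ez (abstract_uniqueness u v w M hw4 (hcont f) (hcont g) hub hvb hinvu hinvv
    eu0 eu1 ev0 ev1)

end Main

end Pool.Agent.H68
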