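import Mathlib

/-!
Basic facts on order types of subsets of a well-ordered type, phrased with strictly increasing
enumerations.
-/

set_option autoImplicit false
set_option linter.unusedSectionVars false

open Cardinal Ordinal Set

namespace Pool.Agent.H68.OG

variable {V : Type} [LinearOrder V] [WellFoundedLT V]

/-- The order type of a subset. -/
noncomputable def typ (A : Set V) : Ordinal.{0} := Ordinal.type (fun x y : A => x < y)

/-- `TG A b` : the set `A` has order type at least `b`, witnessed by an increasing enumeration. -/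
def TG (A : Set V) (b : Ordinal.{0}) : Prop :=
  ∃ g : Ordinal.{0} → V, (∀ x < b, g x ∈ A) ∧ ∀ x y, x < y → y < b → g x < g y

theorem tg_of_le_typ [Nonempty V] {A : Set V} {b : Ordinal.{0}} (h : b ≤ typ A) : TG A b := by
  classical
  obtain ⟨v0⟩ := ‹Nonempty V›
  refine ⟨fun x => if hx : x < b then
      ((Ordinal.enum (fun x y : A => x < y)) ⟨x, lt_of_lt_of_le hx h⟩ : V) else v0, ?_, ?_⟩
  · intro x hx
    simp only [hx, dif_pos]
    exact Subtype.coe_prop _
  · intro x y hxy hy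
    have hx : x < b := hxy.trans hy
    simp only [hx, hy, dif_pos]
    have := (Ordinal.enum_lt_enum (r := fun x y : A => x < y)
      (o₁ := ⟨x, lt_of_lt_of_le hx h⟩) (o₂ := ⟨y, lt_of_lt_of_le hy h⟩)).2 (by exact hxy)
    exact this

theorem le_typ_of_tg {A : Set V} {b : Ordinal.{0}} (h : TG A b) : b ≤ typ A := by
  classical
  obtain ⟨g, hg, hm⟩ := h
  have key : Ordinal.type (fun x y : b.ToType => x < y) ≤ Ordinal.type (fun x y : A => x < y) := by
    rw [Ordinal.type_le_iff']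
    let e := (Ordinal.ToType.mk (o := b)).symm
    refine ⟨RelEmbedding.ofMonotone
      (fun x => ⟨g (e x).1, hg _ (e x).2⟩) ?_⟩
    intro x y hxy
    exact hm _ _ (by exact e.lt_iff_lt.2 hxy) (e y).2
  have h2 : Ordinal.type (fun x y : b.ToType => x < y) = b := Ordinal.type_toType b
  rw [h2] at key
  exact key

theorem tg_iff [Nonempty V] {A : Set V} {b : Ordinal.{0}} : TG A b ↔ b ≤ typ A :=
  ⟨le_typ_of_tg, tg_of_le_typ⟩

theorem TG.mono {A B : Set V} {b : Ordinal.{0}} (hAB : A ⊆ B) (h : TG A b) : TG B b := by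
  obtain ⟨g, hg, hm⟩ := h
  exact ⟨g, fun x hx => hAB (hg x hx), hm⟩

theorem TG.le {A : Set V} {a b : Ordinal.{0}} (hab : a ≤ b) (h : TG A b) : TG A a := by
  obtain ⟨g, hg, hm⟩ := h
  exact ⟨g, fun x hx => hg x (lt_of_lt_of_le hx hab), fun x y hxy hy =>
    hm x y hxy (lt_of_lt_of_le hy hab)⟩

/-- If `TG A c'` for a cofinal set of `c'`. -/
theorem tg_of_forall_lt [Nonempty V] {A : Set V} {b : Ordinal.{0}}
    (h : ∀ c < b, ∃ c', c < c' ∧ TG A c') : TG A b := by
  rw [tg_iff]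
  refine le_of_forall_lt ?_
  intro c hc
  obtain ⟨c', hc', ht⟩ := h c hc
  exact lt_of_lt_of_le hc' (le_typ_of_tg ht)

theorem tg_zero [Nonempty V] (A : Set V) : TG A 0 := by
  rw [tg_iff]; exact zero_le

theorem tg_one {A : Set V} {v : V} (h : v ∈ A) : TG A 1 := by
  refine ⟨fun _ => v, fun _ _ => h, ?_⟩
  intro x y hxy hy
  rw [Order.lt_one_iff] at hy
  subst hy
  exact absurd hxy (not_lt.2 zero_le)

theorem TG.nonempty {A : Set V} {b : Ordinal.{0}} (hb : 0 < b) (h : TG A b) : A.Nonempty := by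
  obtain ⟨g, hg, -⟩ := h
  exact ⟨g 0, hg 0 hb⟩

/-- `A` of type at least `a + b` splits. -/
theorem TG.add {S T : Set V} {a b : Ordinal.{0}} (hS : TG S a) (hT : TG T b)
    (h : ∀ x ∈ S, ∀ y ∈ T, x < y) : TG (S ∪ T) (a + b) := by
  classical
  obtain ⟨g, hg, hm⟩ := hS
  obtain ⟨g', hg', hm'⟩ := hT
  refine ⟨fun x => if x < a then g x else g' (x - a), ?_, ?_⟩
  · intro x hx
    by_cases hxa : x < a
    · simp only [hxa, if_true]; exact Or.inl (hg x hxa)
    · simp only [hxa, if_false]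
      refine Or.inr (hg' _ ?_)
      rw [not_lt] at hxa
      rw [← Ordinal.add_sub_cancel_of_le hxa] at hx
      exact (add_lt_add_iff_left a).1 hx
  · intro x y hxy hy
    by_cases hya : y < a
    · have hxa : x < a := hxy.trans hya
      simp only [hxa, hya, if_true]
      exact hm x y hxy hya
    · have hy' : y - a < b := by
        rw [not_lt] at hya
        rw [← Ordinal.add_sub_cancel_of_le hya] at hy
        exact (add_lt_add_iff_left a).1 hy
      by_cases hxa : x < a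
      · simp only [hxa, hya, if_true, if_false]
        exact h _ (hg x hxa) _ (hg' _ hy')
      · simp only [hxa, hya, if_false]
        refine hm' _ _ ?_ hy'
        rw [not_lt] at hxa hya
        have h1 := Ordinal.add_sub_cancel_of_le hxa
        have h2 := Ordinal.add_sub_cancel_of_le hya
        rw [← h1, ← h2] at hxy
        exact (add_lt_add_iff_left a).1 hxy

theorem TG.split {A : Set V} {a b : Ordinal.{0}} (h : TG A (a + b)) :
    ∃ S T : Set V, S ⊆ A ∧ T ⊆ A ∧ TG S a ∧ TG T b ∧ ∀ x ∈ S, ∀ y ∈ T, x < y := by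
  obtain ⟨g, hg, hm⟩ := h
  refine ⟨g '' Iio a, {v | ∃ x < b, v = g (a + x)}, ?_, ?_, ?_, ?_, ?_⟩
  · rintro _ ⟨x, hx, rfl⟩
    exact hg x (lt_of_lt_of_le hx (le_self_add))
  · rintro _ ⟨x, hx, rfl⟩
    exact hg _ ((add_lt_add_iff_left a).2 hx)
  · exact ⟨g, fun x hx => ⟨x, hx, rfl⟩, fun x y hxy hy =>
      hm x y hxy (lt_of_lt_of_le hy (le_self_add))⟩
  · exact ⟨fun x => g (a + x), fun x hx => ⟨x, hx, rfl⟩, fun x y hxy hy =>
      hm _ _ ((add_lt_add_iff_left a).2 hxy) ((add_lt_add_iff_left a).2 hy)⟩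
  · rintro _ ⟨x, hx, rfl⟩ _ ⟨y, hy, rfl⟩
    exact hm _ _ (lt_of_lt_of_le hx (le_self_add))
      ((add_lt_add_iff_left a).2 hy)

/-- Blocks of a set of type at least `b * κ`. -/
theorem TG.blocks {A : Set V} {b : Ordinal.{0}} {κ : Cardinal.{0}} (h : TG A (b * κ.ord)) :
    ∃ B : κ.ord.ToType → Set V, (∀ i, B i ⊆ A) ∧ (∀ i, TG (B i) b) ∧
      ∀ i j, i < j → ∀ x ∈ B i, ∀ y ∈ B j, x < y := by
  obtain ⟨g, hg, hm⟩ := h
  let e := (Ordinal.ToType.mk (o := κ.ord)).symm
  have hlt : ∀ (i : κ.ord.ToType) (x : Ordinal.{0}), x < b → b * (e i).1 + x < b * κ.ord := by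
    intro i x hx
    calc b * (e i).1 + x < b * (e i).1 + b := (add_lt_add_iff_left _).2 hx
      _ = b * Order.succ (e i).1 := (Ordinal.mul_succ _ _).symm
      _ ≤ b * κ.ord := by
        refine mul_le_mul_right ?_ b
        exact Order.succ_le_of_lt (e i).2
  refine ⟨fun i => {v | ∃ x < b, v = g (b * (e i).1 + x)}, ?_, ?_, ?_⟩
  · rintro i _ ⟨x, hx, rfl⟩
    exact hg _ (hlt i x hx)
  · intro i
    exact ⟨fun x => g (b * (e i).1 + x), fun x hx => ⟨x, hx, rfl⟩, fun x y hxy hy =>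
      hm _ _ ((add_lt_add_iff_left _).2 hxy) (hlt i y hy)⟩
  · rintro i j hij _ ⟨x, hx, rfl⟩ _ ⟨y, hy, rfl⟩
    refine hm _ _ ?_ (hlt j y hy)
    calc b * (e i).1 + x < b * (e i).1 + b := (add_lt_add_iff_left _).2 hx
      _ = b * Order.succ (e i).1 := (Ordinal.mul_succ _ _).symm
      _ ≤ b * (e j).1 := by
        refine mul_le_mul_right ?_ b
        exact Order.succ_le_of_lt (e.lt_iff_lt.2 hij)
      _ ≤ b * (e j).1 + y := le_self_add

/-- A set meeting `κ` many increasing blocks in sets of type at least `b` has type at least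
`b * κ`. -/
theorem tg_of_blocks [Nonempty V] {X : Set V} {b : Ordinal.{0}} {κ : Cardinal.{0}}
    {B : κ.ord.ToType → Set V} (hB : ∀ i j, i < j → ∀ x ∈ B i, ∀ y ∈ B j, x < y)
    (I : Set κ.ord.ToType) (hI : κ ≤ #I) (hX : ∀ i ∈ I, TG (X ∩ B i) b) :
    TG X (b * κ.ord) := by
  classical
  rcases eq_or_ne b 0 with hb | hb
  · subst hb
    rw [zero_mul]
    exact tg_zero X
  rcases isEmpty_or_nonempty κ.ord.ToType with hE | hN
  · have : κ.ord = 0 := by
      simpa using hE
    rw [this, mul_zero]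
    exact tg_zero X
  have hI' : TG I κ.ord := by
    rw [tg_iff, Cardinal.ord_le]
    unfold typ
    rw [Ordinal.card_type]
    exact hI
  obtain ⟨h, hh, hhm⟩ := hI'
  choose! g hg hgm using hX
  refine ⟨fun x => g (h (x / b)) (x % b), ?_, ?_⟩
  · intro x hx
    have h1 : x / b < κ.ord := (Ordinal.lt_mul_iff_div_lt hb).1 hx
    exact (hg _ (hh _ h1) _ (Ordinal.mod_lt x hb)).1
  · intro x y hxy hy
    have hx : x < b * κ.ord := hxy.trans hy
    have hx1 : x / b < κ.ord := (Ordinal.lt_mul_iff_div_lt hb).1 hx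
    have hy1 : y / b < κ.ord := (Ordinal.lt_mul_iff_div_lt hb).1 hy
    have hle : x / b ≤ y / b := by
      by_contra hcon
      rw [not_le] at hcon
      have h2 : b * (y / b) + y % b < b * (x / b) + x % b := by
        calc b * (y / b) + y % b < b * (y / b) + b := (add_lt_add_iff_left _).2 (Ordinal.mod_lt y hb)
          _ = b * Order.succ (y / b) := (Ordinal.mul_succ _ _).symm
          _ ≤ b * (x / b) := mul_le_mul_right (Order.succ_le_of_lt hcon) b
          _ ≤ _ := le_self_add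
      rw [Ordinal.div_add_mod, Ordinal.div_add_mod] at h2
      exact absurd hxy (not_lt.2 h2.le)
    rcases hle.eq_or_lt with heq | hlt
    · show g (h (x / b)) (x % b) < g (h (y / b)) (y % b)
      rw [← heq]
      refine hgm _ (hh _ hx1) _ _ ?_ (Ordinal.mod_lt y hb)
      have h2 : b * (x / b) + x % b < b * (y / b) + y % b := by
        rw [Ordinal.div_add_mod, Ordinal.div_add_mod]; exact hxy
      rw [← heq] at h2
      exact (add_lt_add_iff_left _).1 h2
    · have h3 := hhm _ _ hlt hy1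
      exact hB _ _ h3 _ (hg _ (hh _ hx1) _ (Ordinal.mod_lt x hb)).2 _
        (hg _ (hh _ hy1) _ (Ordinal.mod_lt y hb)).2

/-- The type of `A` is at least `κ ^ γ` once it is at least `κ ^ s * κ` for all `s < γ`. -/
theorem tg_opow [Nonempty V] {A : Set V} {κ : Cardinal.{0}} (hκ : 1 < κ.ord) {γ : Ordinal.{0}}
    (hγ : γ ≠ 0) (h : ∀ s < γ, TG A (κ.ord ^ s * κ.ord)) : TG A (κ.ord ^ γ) := by
  refine tg_of_forall_lt ?_
  intro c hc
  rcases Ordinal.zero_or_succ_or_isSuccLimit γ with h0 | ⟨s, rfl⟩ | hl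
  · exact absurd h0 hγ
  · rw [Ordinal.opow_succ] at hc
    exact ⟨_, hc, h s (Order.lt_succ s)⟩
  · have hk0 : κ.ord ≠ 0 := (zero_lt_one.trans hκ).ne'
    obtain ⟨s, hs, hcs⟩ := (Ordinal.lt_opow_of_isSuccLimit hk0 hl).1 hc
    refine ⟨κ.ord ^ s * κ.ord, lt_of_lt_of_le hcs ?_, h s hs⟩
    calc κ.ord ^ s = κ.ord ^ s * 1 := (mul_one _).symm
      _ ≤ κ.ord ^ s * κ.ord := mul_le_mul_right hκ.le _

/-- `TG` at `κ ^ γ` gives `TG` at `κ ^ s * κ` for `s < γ`. -/
theorem TG.opow_lt {A : Set V} {κ : Cardinal.{0}} (hκ : 1 < κ.ord) {γ s : Ordinal.{0}}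
    (hs : s < γ) (h : TG A (κ.ord ^ γ)) : TG A (κ.ord ^ s * κ.ord) := by
  refine h.le ?_
  rw [← Ordinal.opow_succ]
  exact Ordinal.opow_le_opow_right (zero_lt_one.trans hκ) (Order.succ_le_of_lt hs)

end Pool.Agent.H68.OG
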