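import Mathlib
import Pool.Agent.Lib_helper68.OG1

/-!
The pigeonhole lemma for sets of type `κ ^ γ` and the existence of small kernels.
-/

set_option autoImplicit false
set_option linter.unusedSectionVars false

open Cardinal Ordinal Set

namespace Pool.Agent.H68.OG

variable {V : Type} [LinearOrder V] [WellFoundedLT V] [Nonempty V]

theorem one_lt_ord {κ : Cardinal.{0}} (hκ : κ.IsRegular) : 1 < κ.ord := by
  rw [Cardinal.lt_ord]
  simpa using one_lt_aleph0.trans_le hκ.1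

/-- Pigeonhole lemma. -/
theorem exists_large {κ μ : Cardinal.{0}} (hκ : κ.IsRegular) (hμ : μ.IsRegular)
    {ι : Type} (hι : #ι < κ) (D : ι → Set V) :
    ∀ (γ : Ordinal.{0}), γ.card < μ → ∀ (A : Set V), TG A (κ.ord ^ γ) → ∀ (Y : Set ι),
      μ ≤ #Y → (∀ v ∈ A, #{k : ι | k ∈ Y ∧ v ∉ D k} < μ) →
      ∃ k ∈ Y, TG (A ∩ D k) (κ.ord ^ γ) := by
  classical
  have h1 := one_lt_ord hκ
  intro γ
  induction γ using WellFoundedLT.induction with
  | ind γ IH =>
    intro hγ A hA Y hY hD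
    by_contra hcon
    push Not at hcon
    by_cases h0 : γ = 0
    · subst h0
      rw [Ordinal.opow_zero] at hA hcon
      obtain ⟨v, hv⟩ := hA.nonempty zero_lt_one
      have hk : ∃ k ∈ Y, v ∈ D k := by
        by_contra hk
        push Not at hk
        have : {k : ι | k ∈ Y ∧ v ∉ D k} = Y := by
          ext k
          simp only [Set.mem_ofPred_eq, and_iff_left_iff_imp]
          exact hk k
        have h2 := hD v hv
        rw [this] at h2
        exact absurd h2 (not_lt.2 hY)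
      obtain ⟨k, hkY, hk⟩ := hk
      exact hcon k hkY (tg_one ⟨hv, hk⟩)
    · have hs : ∀ k : Y, ∃ s : γ.ToType,
          ¬ TG (A ∩ D k.1) (κ.ord ^ ((Ordinal.ToType.mk.symm s).1) * κ.ord) := by
        intro k
        by_contra hh
        push Not at hh
        refine hcon k.1 k.2 (tg_opow h1 h0 ?_)
        intro s hs
        have := hh (Ordinal.ToType.mk ⟨s, hs⟩)
        simpa using this
      choose s hs using hs
      have hcard : #γ.ToType < μ.ord.cof := by
        rw [hμ.cof_ord]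
        simpa using hγ
      obtain ⟨a, ha⟩ := Cardinal.infinite_pigeonhole_card s μ hY hμ.1 hcard
      set σ : Ordinal.{0} := (Ordinal.ToType.mk.symm a).1 with hσ
      have hσγ : σ < γ := (Ordinal.ToType.mk.symm a).2
      let Y' : Set ι := {k | ∃ h : k ∈ Y, s ⟨k, h⟩ = a}
      have hY'Y : Y' ⊆ Y := fun k hk => hk.1
      have hY' : μ ≤ #Y' := by
        refine ha.trans ?_
        refine Cardinal.mk_le_of_injective (f := fun x : s ⁻¹' {a} => (⟨x.1.1, x.1.2, x.2⟩ : Y')) ?_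
        intro x y hxy
        simp only [Subtype.mk.injEq] at hxy
        exact Subtype.ext (Subtype.ext hxy)
      have hsm : ∀ k ∈ Y', ¬ TG (A ∩ D k) (κ.ord ^ σ * κ.ord) := by
        rintro k ⟨hk, hka⟩
        have := hs ⟨k, hk⟩
        rw [hka] at this
        exact this
      obtain ⟨B, hBA, hBt, hBm⟩ := (hA.opow_lt h1 hσγ).blocks
      have hIk : ∀ k ∈ Y', #{i : κ.ord.ToType | TG ((A ∩ D k) ∩ B i) (κ.ord ^ σ)} < κ := by
        intro k hk
        by_contra hge
        rw [not_lt] at hge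
        exact hsm k hk (tg_of_blocks hBm _ hge fun i hi => hi)
      have hY'κ : #Y' < κ := lt_of_le_of_lt (Cardinal.mk_set_le Y') hι
      have hun : #(⋃ k, ⋃ (_ : k ∈ Y'), {i : κ.ord.ToType | TG ((A ∩ D k) ∩ B i) (κ.ord ^ σ)}) < κ :=
        (Cardinal.card_biUnion_lt_iff_forall_of_isRegular
          (t := fun k _ => {i : κ.ord.ToType | TG ((A ∩ D k) ∩ B i) (κ.ord ^ σ)}) hκ hY'κ).2 hIk
      have hex : ∃ i : κ.ord.ToType, ∀ k ∈ Y', ¬ TG ((A ∩ D k) ∩ B i) (κ.ord ^ σ) := by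
        by_contra hno
        push Not at hno
        have huniv : (⋃ k, ⋃ (_ : k ∈ Y'), {i : κ.ord.ToType | TG ((A ∩ D k) ∩ B i) (κ.ord ^ σ)})
            = Set.univ := by
          rw [Set.eq_univ_iff_forall]
          intro i
          obtain ⟨k, hk, hki⟩ := hno i
          simp only [Set.mem_iUnion]
          exact ⟨k, hk, hki⟩
        rw [huniv, Cardinal.mk_univ, Cardinal.mk_toType, Cardinal.card_ord] at hun
        exact lt_irrefl _ hun
      obtain ⟨i, hi⟩ := hex
      obtain ⟨k, hkY', hk⟩ := IH σ hσγ (lt_of_le_of_lt (Ordinal.card_le_card hσγ.le) hγ) (B i)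
        (hBt i) Y' hY' (by
          intro v hv
          refine lt_of_le_of_lt (Cardinal.mk_le_mk_of_subset ?_) (hD v (hBA i hv))
          rintro k ⟨hk1, hk2⟩
          exact ⟨hY'Y hk1, hk2⟩)
      refine hi k hkY' (hk.mono ?_)
      rintro v ⟨hv1, hv2⟩
      exact ⟨⟨hBA i hv1, hv2⟩, hv1⟩

/-- The blocks `B` with exponent `s` and kernel `F`: small sets outside the kernel do not
block. -/
def Task (κ : Cardinal.{0}) (f : V → Finset V) (B : κ.ord.ToType → Set V) (s : Ordinal.{0})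
    (F : Set V) : Prop :=
  (∀ i j, i < j → ∀ x ∈ B i, ∀ y ∈ B j, x < y) ∧
  ∀ Z : Set V, #Z < κ → (∀ z ∈ Z, z ∉ F) →
    κ ≤ #{i : κ.ord.ToType | TG {v | v ∈ B i ∧ ∀ u ∈ f v, u ∉ Z} (κ.ord ^ s)}

theorem Task.superset {κ : Cardinal.{0}} {f : V → Finset V} {B : κ.ord.ToType → Set V}
    {s : Ordinal.{0}} {F F' : Set V} (hF : F ⊆ F') (h : Task κ f B s F) : Task κ f B s F' :=
  ⟨h.1, fun Z hZ hd => h.2 Z hZ fun z hz hzF => hd z hz (hF hzF)⟩

/-- Existence of kernels. -/
theorem exists_kernel {κ μ : Cardinal.{0}} (hκ : κ.IsRegular) (hμ : μ.IsRegular) (hμκ : μ < κ)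
    (f : V → Finset V) {B : κ.ord.ToType → Set V} {s : Ordinal.{0}} (hs : s.card < μ)
    (hBm : ∀ i j, i < j → ∀ x ∈ B i, ∀ y ∈ B j, x < y) (hB : ∀ i, TG (B i) (κ.ord ^ s)) :
    ∃ F : Set V, #F < κ ∧ Task κ f B s F := by
  classical
  by_contra hcon
  push Not at hcon
  have hg : ∀ F : Set V, ∃ Z : Set V, #F < κ → (#Z < κ ∧ (∀ z ∈ Z, z ∉ F) ∧
      #{i : κ.ord.ToType | TG {v | v ∈ B i ∧ ∀ u ∈ f v, u ∉ Z} (κ.ord ^ s)} < κ) := by
    intro F
    by_cases hF : #F < κ
    · have := hcon F hF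
      unfold Task at this
      push Not at this
      obtain ⟨Z, h1, h2, h3⟩ := this hBm
      exact ⟨Z, fun _ => ⟨h1, h2, h3⟩⟩
    · exact ⟨∅, fun h => absurd h hF⟩
  choose g hg using hg
  let M := μ.ord.ToType
  have hwf : WellFounded (fun a b : M => a < b) := wellFounded_lt
  let Zs : M → Set V := hwf.fix (fun k rec => g (⋃ k' : {k' : M // k' < k}, rec k'.1 k'.2))
  have hZs : ∀ k, Zs k = g (⋃ k' : {k' : M // k' < k}, Zs k'.1) := by
    intro k
    exact hwf.fix_eq _ k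
  have hinit : ∀ k : M, #{k' : M // k' < k} < κ := by
    intro k
    have h1 : #{k' : M // k' < k} ≤ #M := Cardinal.mk_subtype_le _
    have h2 : #M = μ := by rw [Cardinal.mk_toType, Cardinal.card_ord]
    rw [h2] at h1
    exact lt_of_le_of_lt h1 hμκ
  have hsmall : ∀ k, #(Zs k) < κ := by
    intro k
    induction k using WellFoundedLT.induction with
    | ind k IH =>
      rw [hZs k]
      refine (hg _ ?_).1
      exact (Cardinal.card_iUnion_lt_iff_forall_of_isRegular hκ (hinit k)).2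
        fun k' => IH k'.1 k'.2
  have hun : ∀ k, #(⋃ k' : {k' : M // k' < k}, Zs k'.1) < κ := fun k =>
    (Cardinal.card_iUnion_lt_iff_forall_of_isRegular hκ (hinit k)).2 fun k' => hsmall k'.1
  have hdisj : ∀ k' k, k' < k → ∀ z ∈ Zs k, z ∉ Zs k' := by
    intro k' k hk z hz hz'
    rw [hZs k] at hz
    refine (hg _ (hun k)).2.1 z hz ?_
    simp only [Set.mem_iUnion]
    exact ⟨⟨k', hk⟩, hz'⟩
  have hblock : ∀ k, #{i : κ.ord.ToType | TG {v | v ∈ B i ∧ ∀ u ∈ f v, u ∉ Zs k} (κ.ord ^ s)} < κ := by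
    intro k
    have := (hg _ (hun k)).2.2
    rw [← hZs k] at this
    exact this
  have hMκ : #M < κ := by
    rw [Cardinal.mk_toType, Cardinal.card_ord]; exact hμκ
  have hex : ∃ i : κ.ord.ToType, ∀ k, ¬ TG {v | v ∈ B i ∧ ∀ u ∈ f v, u ∉ Zs k} (κ.ord ^ s) := by
    by_contra hno
    push Not at hno
    have h1 : #(⋃ k : M, {i : κ.ord.ToType | TG {v | v ∈ B i ∧ ∀ u ∈ f v, u ∉ Zs k} (κ.ord ^ s)})
        < κ := (Cardinal.card_iUnion_lt_iff_forall_of_isRegular hκ hMκ).2 hblock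
    have huniv : (⋃ k : M, {i : κ.ord.ToType | TG {v | v ∈ B i ∧ ∀ u ∈ f v, u ∉ Zs k} (κ.ord ^ s)})
        = Set.univ := by
      rw [Set.eq_univ_iff_forall]
      intro i
      obtain ⟨k, hk⟩ := hno i
      simp only [Set.mem_iUnion]
      exact ⟨k, hk⟩
    rw [huniv, Cardinal.mk_univ, Cardinal.mk_toType, Cardinal.card_ord] at h1
    exact lt_irrefl _ h1
  obtain ⟨i, hi⟩ := hex
  obtain ⟨k, -, hk⟩ := exists_large (κ := κ) (μ := μ) hκ hμ (ι := M) hMκ
    (fun k => {v | ∀ u ∈ f v, u ∉ Zs k}) s hs (B i) (hB i) Set.univ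
    (by rw [Cardinal.mk_univ, Cardinal.mk_toType, Cardinal.card_ord]) (by
      intro v _
      refine lt_of_lt_of_le ?_ hμ.1
      rw [Cardinal.lt_aleph0_iff_finite]
      have hex2 : ∀ k : {k : M | k ∈ (Set.univ : Set M) ∧ v ∉ {v | ∀ u ∈ f v, u ∉ Zs k}},
          ∃ u : f v, u.1 ∈ Zs k.1 := by
        rintro ⟨k, -, hk⟩
        simp only [Set.mem_ofPred_eq] at hk
        push Not at hk
        obtain ⟨u, hu, huk⟩ := hk
        exact ⟨⟨u, hu⟩, huk⟩
      choose u hu using hex2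
      refine Finite.of_injective u ?_
      intro a b hab
      by_contra hne
      rcases lt_trichotomy a.1 b.1 with h | h | h
      · exact hdisj _ _ h _ (hu b) (hab ▸ hu a)
      · exact hne (Subtype.ext h)
      · exact hdisj _ _ h _ (hu a) (hab ▸ hu b))
  exact hi k (hk.mono fun v hv => hv)

end Pool.Agent.H68.OG
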