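import Mathlib
import Pool.Agent.Lib_helper68.OG2

/-!
The `κ`-step construction of a free set.
-/

set_option autoImplicit false
set_option linter.unusedSectionVars false
set_option linter.deprecated false

open Cardinal Ordinal Set

namespace Pool.Agent.H68.OG

/-- Recursion along a well-order with a non-deterministic step. -/
theorem exists_rec {W : Type} [LinearOrder W] [WellFoundedLT W] {Y : Type 1} [Nonempty Y]
    (S : W → (W → Y) → Y → Prop) (hS : ∀ c g, ∃ y, S c g y)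
    (hcongr : ∀ c g g' y, (∀ d < c, g d = g' d) → S c g y → S c g' y) :
    ∃ N : W → Y, ∀ c, S c N (N c) := by
  classical
  choose st hst using hS
  have hwf : WellFounded (fun a b : W => a < b) := wellFounded_lt
  let N : W → Y := hwf.fix (fun c rec => st c (fun d => if h : d < c then rec d h else
    Classical.arbitrary Y))
  have hN : ∀ c, N c = st c (fun d => if _ : d < c then N d else Classical.arbitrary Y) := by
    intro c
    exact hwf.fix_eq _ c
  refine ⟨N, fun c => ?_⟩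
  have h1 := hst c (fun d => if _ : d < c then N d else Classical.arbitrary Y)
  rw [← hN c] at h1
  refine hcongr c _ N _ ?_ h1
  intro d hd
  simp [hd]

variable {V : Type} [LinearOrder V] [WellFoundedLT V] [Nonempty V]

open Classical in
/-- Chosen blocks of `A` for the exponent `s`. -/
noncomputable def BL (κ : Cardinal.{0}) (A : Set V) (s : Ordinal.{0}) : κ.ord.ToType → Set V :=
  if h : TG A (κ.ord ^ s * κ.ord) then h.blocks.choose else fun _ => ∅

theorem BL_sub (κ : Cardinal.{0}) (A : Set V) (s : Ordinal.{0}) (i : κ.ord.ToType) :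
    BL κ A s i ⊆ A := by
  unfold BL
  split_ifs with h
  · exact h.blocks.choose_spec.1 i
  · exact Set.empty_subset A

theorem BL_tg {κ : Cardinal.{0}} {A : Set V} {s : Ordinal.{0}}
    (h : TG A (κ.ord ^ s * κ.ord)) (i : κ.ord.ToType) : TG (BL κ A s i) (κ.ord ^ s) := by
  unfold BL
  rw [dif_pos h]
  exact h.blocks.choose_spec.2.1 i

theorem BL_mono (κ : Cardinal.{0}) (A : Set V) (s : Ordinal.{0}) :
    ∀ i j, i < j → ∀ x ∈ BL κ A s i, ∀ y ∈ BL κ A s j, x < y := by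
  unfold BL
  split_ifs with h
  · exact h.blocks.choose_spec.2.2
  · intro i j _ x hx
    exact absurd hx (Set.notMem_empty x)

/-- A small subset of `κ` is bounded. -/
theorem exists_bound {κ : Cardinal.{0}} (hκ : κ.IsRegular) (S : Set κ.ord.ToType)
    (hS : #S < κ) : ∃ b, ∀ x ∈ S, x < b := by
  classical
  by_contra hcon
  push Not at hcon
  have h1 : #(⋃ x, ⋃ (_ : x ∈ S), Iic x) < κ := by
    refine (Cardinal.card_biUnion_lt_iff_forall_of_isRegular (t := fun x _ => Iic x) hκ hS).2 ?_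
    intro x _
    have h2 : #(Iio x) < κ := Cardinal.mk_Iio_toType_ord_lt x
    have h3 : (Iic x) ⊆ Iio x ∪ {x} := by
      intro y hy
      rcases (show y ≤ x from hy).lt_or_eq with h | h
      · exact Or.inl h
      · exact Or.inr h
    refine lt_of_le_of_lt (Cardinal.mk_le_mk_of_subset h3) ?_
    refine lt_of_le_of_lt (Cardinal.mk_union_le _ _) ?_
    refine Cardinal.add_lt_of_lt hκ.1 h2 ?_
    simpa using one_lt_aleph0.trans_le hκ.1
  have huniv : (⋃ x, ⋃ (_ : x ∈ S), Iic x) = Set.univ := by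
    rw [Set.eq_univ_iff_forall]
    intro b
    obtain ⟨x, hx, hbx⟩ := hcon b
    simp only [Set.mem_iUnion]
    exact ⟨x, hx, hbx⟩
  rw [huniv, Cardinal.mk_univ, Cardinal.mk_toType, Cardinal.card_ord] at h1
  exact lt_irrefl _ h1

theorem exists_mu {κ ν : Cardinal.{0}} (hν : ℵ₀ ≤ ν) (hνκ : ν < κ) {s : Ordinal.{0}}
    (hs : s.card < ν) : ∃ μ : Cardinal.{0}, μ.IsRegular ∧ s.card < μ ∧ μ < κ := by
  by_cases h : s.card < ℵ₀
  · exact ⟨ℵ₀, Cardinal.isRegular_aleph0, h, lt_of_le_of_lt hν hνκ⟩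
  · rw [not_lt] at h
    exact ⟨Order.succ s.card, Cardinal.isRegular_succ h, Order.lt_succ _,
      lt_of_le_of_lt (Order.succ_le_of_lt hs) hνκ⟩

/-- Kernel of a node. -/
theorem exists_node_kernel {κ ν : Cardinal.{0}} (hκ : κ.IsRegular) (hν : ℵ₀ ≤ ν) (hνκ : ν < κ)
    (f : V → Finset V) {A : Set V} {γ : Ordinal.{0}} (hγ : γ.card < ν)
    (hA : TG A (κ.ord ^ γ)) :
    ∃ F : Set V, #F < κ ∧ ∀ s < γ, Task κ f (BL κ A s) s F := by
  classical
  have h1 := one_lt_ord hκ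
  have hex : ∀ a : γ.ToType, ∃ F : Set V, #F < κ ∧
      Task κ f (BL κ A (Ordinal.ToType.mk.symm a).1) (Ordinal.ToType.mk.symm a).1 F := by
    intro a
    have ha : (Ordinal.ToType.mk.symm a).1 < γ := (Ordinal.ToType.mk.symm a).2
    have hac : (Ordinal.ToType.mk.symm a).1.card < ν :=
      lt_of_le_of_lt (Ordinal.card_le_card ha.le) hγ
    obtain ⟨μ, hμ, hsμ, hμκ⟩ := exists_mu hν hνκ hac
    exact exists_kernel hκ hμ hμκ f hsμ (BL_mono κ A _) (BL_tg (hA.opow_lt h1 ha))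
  choose F hF hT using hex
  refine ⟨⋃ a, F a, ?_, ?_⟩
  · refine (Cardinal.card_iUnion_lt_iff_forall_of_isRegular hκ ?_).2 hF
    rw [Cardinal.mk_toType]
    exact hγ.trans hνκ
  · intro s hs
    have := hT (Ordinal.ToType.mk ⟨s, hs⟩)
    simp only [OrderIso.symm_apply_apply] at this
    exact this.superset (Set.subset_iUnion F _)

/-- Nodes of the construction. -/
structure Nd (κ : Cardinal.{0}) (V : Type) : Type 1 where
  ok : Prop
  A : Set V
  γ : Ordinal.{0}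
  F : Set V
  x : V
  t : κ.ord.ToType
  b : κ.ord.ToType
  i : κ.ord.ToType

/-- `y` is a child of the task `(B, s, F)`. -/
def Child {κ : Cardinal.{0}} (f : V → Finset V) (r : V → κ.ord.ToType)
    (B : κ.ord.ToType → Set V) (s : Ordinal.{0}) (F : Set V) (y : Nd κ V) : Prop :=
  y.A ⊆ B y.i ∧ y.t ≤ y.i ∧ TG y.A (κ.ord ^ s) ∧ y.γ = s ∧
  (∀ v ∈ y.A, ∀ u ∈ f v, r u < y.t → u ∈ F) ∧ (∀ v ∈ y.A, y.t ≤ r v) ∧ y.x ∈ y.A ∧
  (∀ s' < s, Task κ f (BL κ y.A s') s' y.F)

/-- Bounds of a node. -/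
def Bd {κ : Cardinal.{0}} (f : V → Finset V) (r : V → κ.ord.ToType) (y : Nd κ V) : Prop :=
  y.t < y.b ∧ (∀ v ∈ y.F, r v < y.b) ∧ r y.x < y.b ∧ (∀ v ∈ f y.x, r v < y.b) ∧ y.i < y.b

theorem exists_Bd {κ : Cardinal.{0}} (hκ : κ.IsRegular) (hκ0 : ℵ₀ < κ) (f : V → Finset V)
    (r : V → κ.ord.ToType)
    (t i : κ.ord.ToType) (F : Set V) (hF : #F < κ) (x : V) :
    ∃ b, t < b ∧ (∀ v ∈ F, r v < b) ∧ r x < b ∧ (∀ v ∈ f x, r v < b) ∧ i < b := by
  classical
  have h1 : #(r '' F) < κ := lt_of_le_of_lt Cardinal.mk_image_le hF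
  have hfin : ({t, i, r x} ∪ r '' (f x : Set V) : Set κ.ord.ToType).Finite := by
    refine Set.Finite.union (Set.toFinite _) ?_
    exact (Finset.finite_toSet (f x)).image r
  have h2 : #({t, i, r x} ∪ r '' (f x : Set V) : Set κ.ord.ToType) < κ :=
    lt_of_lt_of_le (Cardinal.lt_aleph0_iff_set_finite.2 hfin) hκ0.le
  have h3 : #(r '' F ∪ ({t, i, r x} ∪ r '' (f x : Set V)) : Set κ.ord.ToType) < κ :=
    lt_of_le_of_lt (Cardinal.mk_union_le _ _) (Cardinal.add_lt_of_lt hκ.1 h1 h2)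
  obtain ⟨b, hb⟩ := exists_bound hκ _ h3
  refine ⟨b, hb t ?_, fun v hv => hb _ ?_, hb _ ?_, fun v hv => hb _ ?_, hb _ ?_⟩
  · right; left; simp
  · left; exact ⟨v, hv, rfl⟩
  · right; left; simp
  · right; right; exact ⟨v, by simpa using hv, rfl⟩
  · right; left; simp

theorem mk_lt_of_r {κ : Cardinal.{0}} {r : V → κ.ord.ToType} (hr : Function.Injective r)
    (t : κ.ord.ToType) : #{u : V | r u < t} < κ := by
  refine lt_of_le_of_lt ?_ (Cardinal.mk_Iio_toType_ord_lt t)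
  refine Cardinal.mk_le_of_injective (f := fun u : {u : V | r u < t} => (⟨r u.1, u.2⟩ : Iio t)) ?_
  intro a b hab
  exact Subtype.ext (hr (congrArg Subtype.val hab))

theorem exists_child {κ ν : Cardinal.{0}} (hκ : κ.IsRegular) (hν : ℵ₀ ≤ ν) (hνκ : ν < κ)
    (f : V → Finset V) (r : V → κ.ord.ToType) (hr : Function.Injective r)
    {B : κ.ord.ToType → Set V} {s : Ordinal.{0}} {F : Set V} (hs : s.card < ν)
    (hT : Task κ f B s F) (t : κ.ord.ToType) :
    ∃ y : Nd κ V, y.ok ∧ y.t = t ∧ Child f r B s F y ∧ Bd f r y := by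
  classical
  have hκ0 : ℵ₀ < κ := lt_of_le_of_lt hν hνκ
  have h1 := one_lt_ord hκ
  let Z : Set V := {u | r u < t ∧ u ∉ F}
  have hZ : #Z < κ :=
    lt_of_le_of_lt (Cardinal.mk_le_mk_of_subset fun u hu => hu.1) (mk_lt_of_r hr t)
  have hI := hT.2 Z hZ fun z hz => hz.2
  set I : Set κ.ord.ToType := {i | TG {v | v ∈ B i ∧ ∀ u ∈ f v, u ∉ Z} (κ.ord ^ s)} with hIdef
  let Bad : Set κ.ord.ToType := Iio t ∪ {i | ∃ u, r u < t ∧ u ∈ B i}
  have hBad2 : #{i : κ.ord.ToType | ∃ u, r u < t ∧ u ∈ B i} < κ := by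
    refine lt_of_le_of_lt ?_ (mk_lt_of_r hr t)
    have hch : ∀ i : {i : κ.ord.ToType | ∃ u, r u < t ∧ u ∈ B i}, ∃ u : {u : V | r u < t},
        u.1 ∈ B i.1 := by
      rintro ⟨i, u, hu, hui⟩
      exact ⟨⟨u, hu⟩, hui⟩
    choose u hu using hch
    refine Cardinal.mk_le_of_injective (f := u) ?_
    intro a b hab
    by_contra hne
    rcases lt_trichotomy a.1 b.1 with h | h | h
    · exact absurd (hT.1 _ _ h _ (hu a) _ (hab ▸ hu b)) (lt_irrefl _)
    · exact hne (Subtype.ext h)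
    · exact absurd (hT.1 _ _ h _ (hu b) _ (hab ▸ hu a)) (lt_irrefl _)
  have hBad : #Bad < κ := lt_of_le_of_lt (Cardinal.mk_union_le _ _)
    (Cardinal.add_lt_of_lt hκ.1 (Cardinal.mk_Iio_toType_ord_lt t) hBad2)
  obtain ⟨i, hiI, hiB⟩ : ∃ i ∈ I, i ∉ Bad := by
    by_contra hno
    push Not at hno
    exact absurd (lt_of_le_of_lt (Cardinal.mk_le_mk_of_subset hno) hBad) (not_lt.2 hI)
  have hti : t ≤ i := by
    by_contra h
    rw [not_le] at h
    exact hiB (Or.inl h)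
  have hBi : ∀ v ∈ B i, t ≤ r v := by
    intro v hv
    by_contra h
    rw [not_le] at h
    exact hiB (Or.inr ⟨v, h, hv⟩)
  set A : Set V := {v | v ∈ B i ∧ ∀ u ∈ f v, u ∉ Z} with hAdef
  have hA : TG A (κ.ord ^ s) := hiI
  obtain ⟨F', hF', hT'⟩ := exists_node_kernel hκ hν hνκ f hs hA
  obtain ⟨x, hx⟩ := hA.nonempty (Ordinal.opow_pos s (zero_lt_one.trans h1))
  obtain ⟨b, hb1, hb2, hb3, hb4, hb5⟩ := exists_Bd hκ hκ0 f r t i F' hF' x
  refine ⟨⟨True, A, s, F', x, t, b, i⟩, trivial, rfl, ⟨?_, hti, hA, rfl, ?_, ?_, hx, hT'⟩,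
    hb1, hb2, hb3, hb4, hb5⟩
  · intro v hv
    exact hv.1
  · intro v hv u hu hru
    by_contra hF
    exact hv.2 u hu ⟨hru, hF⟩
  · intro v hv
    exact hBi v hv.1

end Pool.Agent.H68.OG
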