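import Mathlib
import Pool.Agent.Lib_helper68.OG3

/-!
The main construction: a free set meeting fewer than `κ` many families of blocks.
-/

set_option autoImplicit false
set_option linter.unusedSectionVars false
set_option linter.deprecated false

open Cardinal Ordinal Set

namespace Pool.Agent.H68.OG

variable {V : Type} [LinearOrder V] [WellFoundedLT V] [Nonempty V]

/-- A schedule with all fibres of size `κ`. -/
theorem exists_schedule {κ : Cardinal.{0}} (hκ0 : ℵ₀ ≤ κ) (Y : Type) (hY : #Y ≤ κ)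
    (hY0 : Nonempty Y) :
    ∃ e : κ.ord.ToType → Y, ∀ y, κ ≤ #{c : κ.ord.ToType | e c = y} := by
  classical
  have hW : #κ.ord.ToType = κ := by rw [Cardinal.mk_toType, Cardinal.card_ord]
  have h1 : #(Y × κ.ord.ToType) = κ := by
    rw [Cardinal.mk_prod, Cardinal.lift_id, Cardinal.lift_id, hW]
    exact Cardinal.mul_eq_right hκ0 hY (Cardinal.mk_ne_zero_iff.2 hY0)
  have h2 : #κ.ord.ToType = #(Y × κ.ord.ToType) := by rw [h1, hW]
  obtain ⟨φ⟩ := Cardinal.eq.1 h2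
  refine ⟨fun c => (φ c).1, fun y => ?_⟩
  calc κ = #κ.ord.ToType := hW.symm
    _ ≤ #{c : κ.ord.ToType | (φ c).1 = y} := by
      refine Cardinal.mk_le_of_injective
        (f := fun w => (⟨φ.symm (y, w), by simp⟩ : {c : κ.ord.ToType | (φ c).1 = y})) ?_
      intro a b hab
      have h3 := congrArg Subtype.val hab
      have h4 := φ.symm.injective h3
      exact (Prod.mk.inj h4).2

theorem mk_Iic_lt {κ : Cardinal.{0}} (hκ : ℵ₀ ≤ κ) (x : κ.ord.ToType) : #(Iic x) < κ := by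
  have h2 : #(Iio x) < κ := Cardinal.mk_Iio_toType_ord_lt x
  have h3 : (Iic x) ⊆ Iio x ∪ {x} := by
    intro y hy
    rcases (show y ≤ x from hy).lt_or_eq with h | h
    · exact Or.inl h
    · exact Or.inr h
  refine lt_of_le_of_lt (Cardinal.mk_le_mk_of_subset h3) ?_
  refine lt_of_le_of_lt (Cardinal.mk_union_le _ _) ?_
  refine Cardinal.add_lt_of_lt hκ h2 ?_
  simpa using one_lt_aleph0.trans_le hκ

theorem fiber_above {κ : Cardinal.{0}} (hκ : ℵ₀ ≤ κ) {Y : Type} {e : κ.ord.ToType → Y} {y : Y}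
    (h : κ ≤ #{c : κ.ord.ToType | e c = y}) (d : κ.ord.ToType) :
    κ ≤ #{c : κ.ord.ToType | e c = y ∧ d < c} := by
  by_contra hcon
  rw [not_le] at hcon
  have hsub : {c : κ.ord.ToType | e c = y} ⊆ {c : κ.ord.ToType | e c = y ∧ d < c} ∪ Iic d := by
    intro c hc
    by_cases hd : d < c
    · exact Or.inl ⟨hc, hd⟩
    · exact Or.inr (not_lt.1 hd)
  have := lt_of_le_of_lt ((Cardinal.mk_le_mk_of_subset hsub).trans (Cardinal.mk_union_le _ _))
    (Cardinal.add_lt_of_lt hκ hcon (mk_Iic_lt hκ d))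
  exact absurd h (not_le.2 this)

section Main

variable {κ ν : Cardinal.{0}} (hκ : κ.IsRegular) (hν : ℵ₀ ≤ ν) (hνκ : ν < κ)
  (f : V → Finset V) (r : V → κ.ord.ToType) (hr : Function.Injective r)
  {P : Type} (hP : #P < κ) (B₀ : P → κ.ord.ToType → Set V) (γ₀ : P → Ordinal.{0})
  (hB₀ : ∀ p i j, i < j → ∀ x ∈ B₀ p i, ∀ y ∈ B₀ p j, x < y)
  (hγ₀ : ∀ p, (γ₀ p).card < ν) (hT₀ : ∀ p i, TG (B₀ p i) (κ.ord ^ γ₀ p))

/-- exponent coded by an element of `ν.ord.ToType` -/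
noncomputable def ex {ν : Cardinal.{0}} (s : ν.ord.ToType) : Ordinal.{0} :=
  (Ordinal.ToType.mk.symm s).1

theorem ex_card {ν : Cardinal.{0}} (s : ν.ord.ToType) : (ex s).card < ν := by
  have h : ex s < ν.ord := (Ordinal.ToType.mk.symm s).2
  exact Cardinal.lt_ord.1 h

theorem exists_ex {ν : Cardinal.{0}} {s : Ordinal.{0}} (hs : s.card < ν) :
    ∃ a : ν.ord.ToType, ex a = s := by
  refine ⟨Ordinal.ToType.mk ⟨s, Cardinal.lt_ord.2 hs⟩, ?_⟩
  unfold ex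
  simp

/-- The specification of the recursion. -/
def Spec (ν : Cardinal.{0}) (f : V → Finset V) (r : V → κ.ord.ToType)
    (B₀ : P → κ.ord.ToType → Set V) (γ₀ : P → Ordinal.{0}) (F₀ : P → Set V)
    (e : κ.ord.ToType → P ⊕ (κ.ord.ToType × ν.ord.ToType)) (b₀ : κ.ord.ToType)
    (c : κ.ord.ToType) (g : κ.ord.ToType → Nd κ V) (y : Nd κ V) : Prop :=
  b₀ < y.t ∧ (∀ d < c, (g d).b < y.t) ∧ Bd f r y ∧
  (∀ p, e c = Sum.inl p → y.ok ∧ Child f r (B₀ p) (γ₀ p) (F₀ p) y) ∧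
  (∀ d s, e c = Sum.inr (d, s) →
    (y.ok ↔ (d < c ∧ (g d).ok ∧ ex s < (g d).γ ∧
      Task κ f (BL κ (g d).A (ex s)) (ex s) (g d).F)) ∧
    (y.ok → Child f r (BL κ (g d).A (ex s)) (ex s) (g d).F y))

theorem spec_congr (F₀ : P → Set V) (e : κ.ord.ToType → P ⊕ (κ.ord.ToType × ν.ord.ToType))
    (b₀ c : κ.ord.ToType) (g g' : κ.ord.ToType → Nd κ V) (y : Nd κ V)
    (h : ∀ d < c, g d = g' d) (hS : Spec ν f r B₀ γ₀ F₀ e b₀ c g y) :
    Spec ν f r B₀ γ₀ F₀ e b₀ c g' y := by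
  obtain ⟨h1, h2, h3, h4, h5⟩ := hS
  refine ⟨h1, fun d hd => by rw [← h d hd]; exact h2 d hd, h3, h4, ?_⟩
  intro d s hds
  obtain ⟨h6, h7⟩ := h5 d s hds
  by_cases hd : d < c
  · rw [← h d hd]
    exact ⟨h6, h7⟩
  · have hnok : ¬ y.ok := fun hy => hd (h6.1 hy).1
    exact ⟨⟨fun hy => absurd hy hnok, fun hy => absurd hy.1 hd⟩, fun hy => absurd hy hnok⟩

include hκ hν hνκ hr hP hγ₀ in
theorem spec_exists (F₀ : P → Set V)
    (hF₀ : ∀ p, Task κ f (B₀ p) (γ₀ p) (F₀ p))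
    (e : κ.ord.ToType → P ⊕ (κ.ord.ToType × ν.ord.ToType))
    (b₀ c : κ.ord.ToType) (g : κ.ord.ToType → Nd κ V) :
    ∃ y, Spec ν f r B₀ γ₀ F₀ e b₀ c g y := by
  classical
  have hκ0 : ℵ₀ < κ := lt_of_le_of_lt hν hνκ
  -- choose the time
  have hsm : #(({b₀} : Set κ.ord.ToType) ∪ (fun d => (g d).b) '' Iio c : Set κ.ord.ToType) < κ := by
    refine lt_of_le_of_lt (Cardinal.mk_union_le _ _) (Cardinal.add_lt_of_lt hκ.1 ?_ ?_)
    · simpa using one_lt_aleph0.trans_le hκ.1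
    · exact lt_of_le_of_lt Cardinal.mk_image_le (Cardinal.mk_Iio_toType_ord_lt c)
  obtain ⟨t, ht⟩ := exists_bound hκ _ hsm
  have ht0 : b₀ < t := ht b₀ (Or.inl rfl)
  have htd : ∀ d < c, (g d).b < t := fun d hd => ht _ (Or.inr ⟨d, hd, rfl⟩)
  obtain ⟨v0⟩ := ‹Nonempty V›
  rcases hq : e c with p | ⟨d, s⟩
  · obtain ⟨y, hy1, hy2, hy3, hy4⟩ := exists_child hκ hν hνκ f r hr (hγ₀ p) (hF₀ p) t
    refine ⟨y, by rw [hy2]; exact ht0, fun d hd => by rw [hy2]; exact htd d hd, hy4, ?_, ?_⟩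
    · intro p' hp'
      rw [hq] at hp'
      obtain rfl := Sum.inl.inj hp'
      exact ⟨hy1, hy3⟩
    · intro d s hds
      rw [hq] at hds
      exact absurd hds (by simp)
  · by_cases hok : d < c ∧ (g d).ok ∧ ex s < (g d).γ ∧
        Task κ f (BL κ (g d).A (ex s)) (ex s) (g d).F
    · obtain ⟨y, hy1, hy2, hy3, hy4⟩ := exists_child hκ hν hνκ f r hr (ex_card s) hok.2.2.2 t
      refine ⟨y, by rw [hy2]; exact ht0, fun d hd => by rw [hy2]; exact htd d hd, hy4, ?_, ?_⟩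
      · intro p' hp'
        rw [hq] at hp'
        exact absurd hp' (by simp)
      · intro d' s' hds
        rw [hq] at hds
        obtain ⟨rfl, rfl⟩ := Prod.mk.inj (Sum.inr.inj hds)
        exact ⟨⟨fun _ => hok, fun _ => hy1⟩, fun _ => hy3⟩
    · obtain ⟨b, hb1, hb2, hb3, hb4, hb5⟩ := exists_Bd hκ hκ0 f r t t ∅ (by
        simpa using hκ.pos) v0
      refine ⟨⟨False, ∅, 0, ∅, v0, t, b, t⟩, ht0, htd, ⟨hb1, hb2, hb3, hb4, hb5⟩, ?_, ?_⟩
      · intro p' hp'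
        rw [hq] at hp'
        exact absurd hp' (by simp)
      · intro d' s' hds
        rw [hq] at hds
        obtain ⟨rfl, rfl⟩ := Prod.mk.inj (Sum.inr.inj hds)
        exact ⟨⟨fun h => absurd h id, fun h => absurd h hok⟩, fun h => absurd h id⟩

end Main

end Pool.Agent.H68.OG
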