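import Mathlib
import Pool.Agent.Lib_helper68.OG4

/-!
The main lemma on free sets.
-/

set_option autoImplicit false
set_option linter.unusedSectionVars false
set_option linter.deprecated false

open Cardinal Ordinal Set

namespace Pool.Agent.H68.OG

variable {V : Type} [LinearOrder V] [WellFoundedLT V] [Nonempty V]

/-- Main lemma: a set mapping `f : V → [V]^{<ω}` on a set of size at most `κ` has a free set
meeting each of fewer than `κ` many families of blocks in a large set. -/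
theorem main_lemma {κ ν : Cardinal.{0}} (hκ : κ.IsRegular) (hν : ℵ₀ ≤ ν) (hνκ : ν < κ)
    (f : V → Finset V) (r : V → κ.ord.ToType) (hr : Function.Injective r)
    {P : Type} (hP : #P < κ) (B₀ : P → κ.ord.ToType → Set V) (γ₀ : P → Ordinal.{0})
    (hB₀ : ∀ p i j, i < j → ∀ x ∈ B₀ p i, ∀ y ∈ B₀ p j, x < y)
    (hγ₀ : ∀ p, (γ₀ p).card < ν) (hT₀ : ∀ p i, TG (B₀ p i) (κ.ord ^ γ₀ p)) :
    ∃ X : Set V, (∀ x ∈ X, ∀ y ∈ X, x ≠ y → y ∉ f x) ∧
      ∀ p, κ ≤ #{i : κ.ord.ToType | TG (X ∩ B₀ p i) (κ.ord ^ γ₀ p)} := by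
  classical
  have hκ0 : ℵ₀ < κ := lt_of_le_of_lt hν hνκ
  have h1 := one_lt_ord hκ
  have hW : #κ.ord.ToType = κ := by rw [Cardinal.mk_toType, Cardinal.card_ord]
  -- kernels of the roots
  have hF₀ : ∀ p, ∃ F : Set V, #F < κ ∧ Task κ f (B₀ p) (γ₀ p) F := by
    intro p
    obtain ⟨μ, hμ, hsμ, hμκ⟩ := exists_mu hν hνκ (hγ₀ p)
    exact exists_kernel hκ hμ hμκ f hsμ (hB₀ p) (hT₀ p)
  choose F₀ hF₀ hTask₀ using hF₀
  have hb : ∃ b₀ : κ.ord.ToType, ∀ p, ∀ v ∈ F₀ p, r v < b₀ := by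
    have hsm : #(⋃ p, F₀ p) < κ := (Cardinal.card_iUnion_lt_iff_forall_of_isRegular hκ hP).2 hF₀
    obtain ⟨b₀, hb₀⟩ := exists_bound hκ (r '' (⋃ p, F₀ p))
      (lt_of_le_of_lt Cardinal.mk_image_le hsm)
    exact ⟨b₀, fun p v hv => hb₀ _ ⟨v, Set.mem_iUnion.2 ⟨p, hv⟩, rfl⟩⟩
  obtain ⟨b₀, hb₀⟩ := hb
  -- the schedule
  have hY : #(P ⊕ (κ.ord.ToType × ν.ord.ToType)) ≤ κ := by
    rw [Cardinal.mk_sum, Cardinal.mk_prod]
    simp only [Cardinal.lift_id, Cardinal.mk_toType, Cardinal.card_ord]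
    refine Cardinal.add_le_of_le hκ.1 hP.le ?_
    exact Cardinal.mul_le_of_le hκ.1 le_rfl hνκ.le
  have hWn : Nonempty κ.ord.ToType := by
    rw [← Cardinal.mk_ne_zero_iff, hW]; exact hκ.pos.ne'
  have hνn : Nonempty ν.ord.ToType := by
    rw [← Cardinal.mk_ne_zero_iff, Cardinal.mk_toType, Cardinal.card_ord]
    exact (aleph0_pos.trans_le hν).ne'
  obtain ⟨e, he⟩ := exists_schedule hκ.1 (P ⊕ (κ.ord.ToType × ν.ord.ToType)) hY
    ⟨Sum.inr (hWn.some, hνn.some)⟩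
  -- the recursion
  have : Nonempty (Nd κ V) :=
    ⟨⟨False, ∅, 0, ∅, Classical.arbitrary V, hWn.some, hWn.some, hWn.some⟩⟩
  obtain ⟨N, hN⟩ := exists_rec (Spec ν f r B₀ γ₀ F₀ e b₀)
    (spec_exists hκ hν hνκ f r hr hP B₀ γ₀ hγ₀ F₀ hTask₀ e b₀)
    (fun c g g' y => spec_congr f r B₀ γ₀ F₀ e b₀ c g g' y)
  have hch : ∀ c, (N c).ok → ∃ B s F, Child f r B s F (N c) ∧ s.card < ν := by
    intro c hc
    obtain ⟨-, -, -, h4, h5⟩ := hN c
    rcases hq : e c with p | ⟨d, s⟩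
    · exact ⟨_, _, _, (h4 p hq).2, hγ₀ p⟩
    · exact ⟨_, _, _, (h5 d s hq).2 hc, ex_card s⟩
  have hxA : ∀ c, (N c).ok → (N c).x ∈ (N c).A := by
    intro c hc
    obtain ⟨B, s, F, h, -⟩ := hch c hc
    exact h.2.2.2.2.2.2.1
  have htx : ∀ c, (N c).ok → (N c).t ≤ r (N c).x := by
    intro c hc
    obtain ⟨B, s, F, h, -⟩ := hch c hc
    exact h.2.2.2.2.2.1 _ h.2.2.2.2.2.2.1
  have hγc : ∀ c, (N c).ok → (N c).γ.card < ν := by
    intro c hc
    obtain ⟨B, s, F, h, hs⟩ := hch c hc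
    rw [h.2.2.2.1]; exact hs
  have htask : ∀ c, (N c).ok → ∀ s < (N c).γ, Task κ f (BL κ (N c).A s) s (N c).F := by
    intro c hc s hs
    obtain ⟨B, s', F, h, -⟩ := hch c hc
    rw [h.2.2.2.1] at hs
    exact h.2.2.2.2.2.2.2 s hs
  -- freeness downwards
  have hfree : ∀ d, (N d).ok → ∀ v ∈ (N d).A, ∀ c < d, (N c).ok → (N c).γ = 0 →
      (N c).x ∉ f v := by
    intro d
    induction d using WellFoundedLT.induction with
    | ind d IH =>
      intro hd v hv c hcd hc hc0 hmem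
      obtain ⟨hb0, hlt, -, h4, h5⟩ := hN d
      have hrx : r (N c).x < (N d).t := ((hN c).2.2.1.2.2.1).trans (hlt c hcd)
      rcases hq : e d with p | ⟨d', s⟩
      · have hC := (h4 p hq).2
        have hF := hC.2.2.2.2.1 v hv _ hmem hrx
        have h6 := hb₀ p _ hF
        have h7 : b₀ < (N c).t := (hN c).1
        exact absurd (h6.trans h7) (not_lt.2 (htx c hc))
      · obtain ⟨h6, h7⟩ := h5 d' s hq
        obtain ⟨hd'd, hd'ok, hsγ, -⟩ := h6.1 hd
        have hC := h7 hd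
        have hvA : v ∈ (N d').A := BL_sub κ _ _ _ (hC.1 hv)
        rcases lt_trichotomy c d' with h | h | h
        · exact IH d' hd'd hd'ok v hvA c h hc hc0 hmem
        · rw [← h, hc0] at hsγ
          exact absurd hsγ (not_lt.2 zero_le)
        · have hF := hC.2.2.2.2.1 v hv _ hmem hrx
          have h8 : r (N c).x < (N d').b := (hN d').2.2.1.2.1 _ hF
          have h9 : (N d').b < (N c).t := (hN c).2.1 d' h
          exact absurd (h8.trans h9) (not_lt.2 (htx c hc))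
  let X : Set V := {v | ∃ c, (N c).ok ∧ (N c).γ = 0 ∧ v = (N c).x}
  -- counting blocks
  have hcount : ∀ (Cc : Set κ.ord.ToType) (B : κ.ord.ToType → Set V) (s : Ordinal.{0})
      (F : Set V), κ ≤ #Cc → (∀ c ∈ Cc, (N c).ok ∧ Child f r B s F (N c) ∧
        TG (X ∩ (N c).A) (κ.ord ^ s)) →
      κ ≤ #{i : κ.ord.ToType | TG (X ∩ B i) (κ.ord ^ s)} := by
    intro Cc B s F hCc hall
    refine hCc.trans ?_
    refine Cardinal.mk_le_of_injective (f := fun c : Cc =>
      (⟨(N c.1).i, ?_⟩ : {i : κ.ord.ToType | TG (X ∩ B i) (κ.ord ^ s)})) ?_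
    · obtain ⟨-, h2, h3⟩ := hall c.1 c.2
      exact h3.mono fun v hv => ⟨hv.1, h2.1 hv.2⟩
    · intro c c' hcc
      have hi : (N c.1).i = (N c'.1).i := congrArg Subtype.val hcc
      have hmono : ∀ a ∈ Cc, ∀ b ∈ Cc, a < b → (N a).i < (N b).i := by
        intro a ha b hb hab
        calc (N a).i < (N a).b := (hN a).2.2.1.2.2.2.2
          _ < (N b).t := (hN b).2.1 a hab
          _ ≤ (N b).i := (hall b hb).2.1.2.1
      rcases lt_trichotomy c.1 c'.1 with h | h | h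
      · exact absurd hi (hmono _ c.2 _ c'.2 h).ne
      · exact Subtype.ext h
      · exact absurd hi.symm (hmono _ c'.2 _ c.2 h).ne
  -- types
  have htype : ∀ γ : Ordinal.{0}, ∀ d, (N d).ok → (N d).γ = γ →
      TG (X ∩ (N d).A) (κ.ord ^ γ) := by
    intro γ
    induction γ using WellFoundedLT.induction with
    | ind γ IH =>
      intro d hd hdγ
      by_cases h0 : γ = 0
      · subst h0
        rw [Ordinal.opow_zero]
        exact tg_one (v := (N d).x) ⟨⟨d, hd, hdγ, rfl⟩, hxA d hd⟩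
      · refine tg_opow h1 h0 ?_
        intro s hs
        have hsν : s.card < ν := by
          refine lt_of_le_of_lt (Ordinal.card_le_card hs.le) ?_
          rw [← hdγ]; exact hγc d hd
        obtain ⟨a, ha⟩ := exists_ex hsν
        have hfib := fiber_above hκ.1 (he (Sum.inr (d, a))) d
        have hk := hcount {c | e c = Sum.inr (d, a) ∧ d < c} (BL κ (N d).A s) s (N d).F hfib (by
          rintro c ⟨hec, hdc⟩
          obtain ⟨-, -, -, -, h5⟩ := hN c
          obtain ⟨h6, h7⟩ := h5 d a hec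
          have hok : (N c).ok := by
            rw [h6, ha]
            exact ⟨hdc, hd, by rw [hdγ]; exact hs, htask d hd s (by rw [hdγ]; exact hs)⟩
          have hC := h7 hok
          rw [ha] at hC
          exact ⟨hok, hC, IH s hs c hok hC.2.2.2.1⟩)
        refine (tg_of_blocks (BL_mono κ (N d).A s) _ hk (X := X ∩ (N d).A) ?_)
        intro i hi
        refine TG.mono ?_ hi
        rintro v ⟨hv1, hv2⟩
        exact ⟨⟨hv1, BL_sub κ _ _ _ hv2⟩, hv2⟩
  refine ⟨X, ?_, ?_⟩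
  · rintro _ ⟨c, hc, hc0, rfl⟩ _ ⟨c', hc', hc'0, rfl⟩ hne hmem
    rcases lt_trichotomy c c' with h | h | h
    · have h2 : r (N c').x < (N c).b := (hN c).2.2.1.2.2.2.1 _ hmem
      have h3 : (N c).b < (N c').t := (hN c').2.1 c h
      exact absurd (h2.trans h3) (not_lt.2 (htx c' hc'))
    · subst h
      exact hne rfl
    · exact hfree c hc _ (hxA c hc) c' h hc' hc'0 hmem
  · intro p
    refine hcount {c | e c = Sum.inl p} (B₀ p) (γ₀ p) (F₀ p) (he (Sum.inl p)) ?_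
    intro c hc
    obtain ⟨-, -, -, h4, -⟩ := hN c
    obtain ⟨h6, h7⟩ := h4 p hc
    exact ⟨h6, h7, htype _ c h6 h7.2.2.2.1⟩

end Pool.Agent.H68.OG
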