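import Mathlib
import Pool.Agent.Lib_helper68.OG5

/-!
Ordinals whose largeness is controlled by fewer than `κ` many families of blocks.
-/

set_option autoImplicit false
set_option linter.unusedSectionVars false
set_option linter.deprecated false

open Cardinal Ordinal Set

namespace Pool.Agent.H68.OG

variable (V : Type) [LinearOrder V] [WellFoundedLT V] [Nonempty V]

/-- Largeness at `α` is controlled by fewer than `κ` many families of blocks with exponents of
size less than `ν`. -/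
def Acc (κ ν : Cardinal.{0}) (α : Ordinal.{0}) : Prop :=
  ∀ A : Set V, TG A α → ∃ (P : Type) (B : P → κ.ord.ToType → Set V) (γ : P → Ordinal.{0}),
    #P < κ ∧ (∀ p i j, i < j → ∀ x ∈ B p i, ∀ y ∈ B p j, x < y) ∧ (∀ p, (γ p).card < ν) ∧
    (∀ p i, TG (B p i) (κ.ord ^ γ p)) ∧
    ∀ X : Set V, (∀ p, κ ≤ #{i : κ.ord.ToType | TG (X ∩ B p i) (κ.ord ^ γ p)}) →
      TG (X ∩ A) α

variable {V}

theorem acc_zero {κ ν : Cardinal.{0}} (hκ : κ.IsRegular) : Acc V κ ν 0 := by
  intro A _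
  refine ⟨Empty, fun p => p.elim, fun p => p.elim, ?_, fun p => p.elim, fun p => p.elim,
    fun p => p.elim, fun X _ => tg_zero _⟩
  simpa using hκ.pos

theorem acc_add {κ ν : Cardinal.{0}} (hκ : κ.IsRegular) {α β : Ordinal.{0}}
    (hα : Acc V κ ν α) (hβ : Acc V κ ν β) : Acc V κ ν (α + β) := by
  intro A hA
  obtain ⟨S, T, hSA, hTA, hS, hT, hST⟩ := hA.split
  obtain ⟨P₁, B₁, γ₁, h11, h12, h13, h14, h15⟩ := hα S hS
  obtain ⟨P₂, B₂, γ₂, h21, h22, h23, h24, h25⟩ := hβ T hT
  refine ⟨P₁ ⊕ P₂, fun p => Sum.elim B₁ B₂ p, fun p => Sum.elim γ₁ γ₂ p, ?_, ?_, ?_, ?_, ?_⟩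
  · rw [Cardinal.mk_sum, Cardinal.lift_id, Cardinal.lift_id]
    exact Cardinal.add_lt_of_lt hκ.1 h11 h21
  · rintro (p | p)
    · exact h12 p
    · exact h22 p
  · rintro (p | p)
    · exact h13 p
    · exact h23 p
  · rintro (p | p)
    · exact h14 p
    · exact h24 p
  · intro X hX
    have h1 := h15 X fun p => hX (Sum.inl p)
    have h2 := h25 X fun p => hX (Sum.inr p)
    refine (h1.add h2 fun x hx y hy => hST x hx.2 y hy.2).mono ?_
    rintro x (hx | hx)
    · exact ⟨hx.1, hSA hx.2⟩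
    · exact ⟨hx.1, hTA hx.2⟩

theorem acc_sup {κ ν : Cardinal.{0}} (hκ : κ.IsRegular) {α : Ordinal.{0}} {I : Type}
    (hI : #I < κ) (a : I → Ordinal.{0}) (ha : ∀ i, Acc V κ ν (a i)) (hle : ∀ i, a i ≤ α)
    (hsup : ∀ X : Set V, (∀ i, TG X (a i)) → TG X α) : Acc V κ ν α := by
  classical
  intro A hA
  choose P B γ h1 h2 h3 h4 h5 using fun i => ha i A (hA.le (hle i))
  refine ⟨Σ i, P i, fun p => B p.1 p.2, fun p => γ p.1 p.2, ?_, fun p => h2 p.1 p.2,
    fun p => h3 p.1 p.2, fun p => h4 p.1 p.2, ?_⟩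
  · rw [Cardinal.mk_sigma]
    exact Cardinal.sum_lt_of_isRegular hκ hI h1
  · intro X hX
    exact hsup _ fun i => h5 i X fun p => hX ⟨i, p⟩

theorem acc_opow {κ ν : Cardinal.{0}} (hκ : κ.IsRegular) (hνκ : ν < κ) {β : Ordinal.{0}}
    (hβ : β ≠ 0) (hβν : β ≤ ν.ord) : Acc V κ ν (κ.ord ^ β) := by
  have h1 := one_lt_ord hκ
  intro A hA
  have hlt : ∀ s : β.ToType, (Ordinal.ToType.mk.symm s).1 < β := fun s =>
    (Ordinal.ToType.mk.symm s).2
  refine ⟨β.ToType, fun s => BL κ A (Ordinal.ToType.mk.symm s).1,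
    fun s => (Ordinal.ToType.mk.symm s).1, ?_, fun s => BL_mono κ A _, ?_, ?_, ?_⟩
  · rw [Cardinal.mk_toType]
    refine lt_of_le_of_lt (Ordinal.card_le_card hβν) ?_
    rwa [Cardinal.card_ord]
  · intro s
    exact Cardinal.lt_ord.1 (lt_of_lt_of_le (hlt s) hβν)
  · intro s
    exact BL_tg (hA.opow_lt h1 (hlt s))
  · intro X hX
    refine tg_opow h1 hβ ?_
    intro s hs
    have h2 := hX (Ordinal.ToType.mk ⟨s, hs⟩)
    simp only [OrderIso.symm_apply_apply] at h2
    refine tg_of_blocks (BL_mono κ A s) _ h2 ?_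
    intro i hi
    refine TG.mono ?_ hi
    rintro v ⟨hv1, hv2⟩
    exact ⟨⟨hv1, BL_sub κ A s i hv2⟩, hv2⟩

theorem isSuccLimit_ord_of_aleph0_le {ν : Cardinal.{0}} (hν : ℵ₀ ≤ ν) :
    Order.IsSuccLimit ν.ord := Cardinal.isSuccLimit_ord hν

/-- The exponent `ν + 1`. -/
theorem acc_opow_succ {κ ν : Cardinal.{0}} (hκ : κ.IsRegular) (hν : ℵ₀ ≤ ν) (hνκ : ν < κ) :
    Acc V κ ν (κ.ord ^ Order.succ ν.ord) := by
  classical
  have h1 := one_lt_ord hκ
  have h0 : κ.ord ≠ 0 := (zero_lt_one.trans h1).ne'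
  intro A hA
  rw [Ordinal.opow_succ] at hA
  obtain ⟨B, hBA, hBt, hBm⟩ := hA.blocks
  have hlt : ∀ s : ν.ord.ToType, (Ordinal.ToType.mk.symm s).1 < ν.ord := fun s =>
    (Ordinal.ToType.mk.symm s).2
  refine ⟨ν.ord.ToType, fun _ => B,
    fun s => (Ordinal.ToType.mk.symm s).1, ?_, fun s => hBm, ?_, ?_, ?_⟩
  · rw [Cardinal.mk_toType, Cardinal.card_ord]
    exact hνκ
  · intro s
    exact Cardinal.lt_ord.1 (hlt s)
  · intro s i
    exact (hBt i).le (Ordinal.opow_le_opow_right (zero_lt_one.trans h1) (hlt s).le)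
  · intro X hX
    have hX' : ∀ s < ν.ord, κ ≤ #{i : κ.ord.ToType | TG (X ∩ B i) (κ.ord ^ s)} := by
      intro s hs
      have h2 := hX (Ordinal.ToType.mk ⟨s, hs⟩)
      simpa using h2
    have hunb : ∀ s < ν.ord, ∀ z : κ.ord.ToType, ∃ i, z ≤ i ∧ TG (X ∩ B i) (κ.ord ^ s) := by
      intro s hs z
      by_contra hcon
      push Not at hcon
      have hsub : {i : κ.ord.ToType | TG (X ∩ B i) (κ.ord ^ s)} ⊆ Iio z := by
        intro i hi
        by_contra hzi
        exact hcon i (not_lt.1 hzi) hi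
      have := lt_of_le_of_lt (Cardinal.mk_le_mk_of_subset hsub)
        (Cardinal.mk_Iio_toType_ord_lt z)
      exact absurd (hX' s hs) (not_le.2 this)
    have hlim := Cardinal.isSuccLimit_ord hν
    have hnext : ∀ z : κ.ord.ToType, ∃ z' : κ.ord.ToType,
        TG (X ∩ ⋃ i ∈ Ico z z', B i) (κ.ord ^ ν.ord) := by
      intro z
      choose i hzi hi using fun s : ν.ord.ToType => hunb _ (hlt s) z
      obtain ⟨z', hz'⟩ := exists_bound hκ (Set.range i) (by
        refine lt_of_le_of_lt Cardinal.mk_range_le ?_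
        rw [Cardinal.mk_toType, Cardinal.card_ord]
        exact hνκ)
      refine ⟨z', tg_of_forall_lt ?_⟩
      intro c hc
      obtain ⟨s, hs, hcs⟩ := (Ordinal.lt_opow_of_isSuccLimit h0 hlim).1 hc
      refine ⟨κ.ord ^ s, hcs, ?_⟩
      have h3 := hi (Ordinal.ToType.mk ⟨s, hs⟩)
      simp only [OrderIso.symm_apply_apply] at h3
      refine h3.mono ?_
      rintro v ⟨hv1, hv2⟩
      refine ⟨hv1, ?_⟩
      simp only [Set.mem_iUnion]
      exact ⟨_, ⟨hzi _, hz' _ ⟨_, rfl⟩⟩, hv2⟩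
    have hall : ∀ ξ : Ordinal.{0}, ξ < κ.ord → ∃ z : κ.ord.ToType,
        TG (X ∩ ⋃ i ∈ Iio z, B i) (κ.ord ^ ν.ord * ξ) := by
      intro ξ
      induction ξ using WellFoundedLT.induction with
      | ind ξ IH =>
        intro hξ
        rcases Ordinal.zero_or_succ_or_isSuccLimit ξ with rfl | ⟨ζ, rfl⟩ | hl
        · have : Nonempty κ.ord.ToType := by
            rw [← Cardinal.mk_ne_zero_iff, Cardinal.mk_toType, Cardinal.card_ord]
            exact hκ.pos.ne'
          refine ⟨this.some, ?_⟩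
          rw [mul_zero]
          exact tg_zero _
        · obtain ⟨z, hz⟩ := IH ζ (Order.lt_succ ζ) ((Order.lt_succ ζ).trans hξ)
          obtain ⟨z', hz'⟩ := hnext z
          refine ⟨z', ?_⟩
          rw [Ordinal.mul_succ]
          refine (hz.add hz' ?_).mono ?_
          · rintro x ⟨-, hx⟩ y ⟨-, hy⟩
            simp only [Set.mem_iUnion] at hx hy
            obtain ⟨i, hi, hxi⟩ := hx
            obtain ⟨j, hj, hyj⟩ := hy
            exact hBm i j (lt_of_lt_of_le hi hj.1) x hxi y hyj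
          · have hzz : z ≤ z' := by
              by_contra hlt'
              rw [not_le] at hlt'
              have hE : Ico z z' = ∅ := Set.Ico_eq_empty (not_lt.2 hlt'.le)
              rw [hE] at hz'
              obtain ⟨v, hv⟩ := hz'.nonempty (Ordinal.opow_pos _ (zero_lt_one.trans h1))
              simp at hv
            rintro x (⟨hx1, hx⟩ | ⟨hx1, hx⟩)
            · refine ⟨hx1, ?_⟩
              simp only [Set.mem_iUnion] at hx ⊢
              obtain ⟨i, hi, hxi⟩ := hx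
              exact ⟨i, lt_of_lt_of_le hi hzz, hxi⟩
            · refine ⟨hx1, ?_⟩
              simp only [Set.mem_iUnion] at hx ⊢
              obtain ⟨i, hi, hxi⟩ := hx
              exact ⟨i, hi.2, hxi⟩
        · choose z hz using fun ζ : ξ.ToType => IH (Ordinal.ToType.mk.symm ζ).1
            (Ordinal.ToType.mk.symm ζ).2 ((Ordinal.ToType.mk.symm ζ).2.trans hξ)
          obtain ⟨z', hz'⟩ := exists_bound hκ (Set.range z) (by
            refine lt_of_le_of_lt Cardinal.mk_range_le ?_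
            rw [Cardinal.mk_toType]
            exact Cardinal.lt_ord.1 hξ)
          refine ⟨z', tg_of_forall_lt ?_⟩
          intro c hc
          obtain ⟨ζ, hζ, hcζ⟩ := (Ordinal.lt_mul_iff_of_isSuccLimit hl).1 hc
          refine ⟨_, hcζ, ?_⟩
          have h3 := hz (Ordinal.ToType.mk ⟨ζ, hζ⟩)
          simp only [OrderIso.symm_apply_apply] at h3
          refine h3.mono ?_
          rintro v ⟨hv1, hv2⟩
          refine ⟨hv1, ?_⟩
          simp only [Set.mem_iUnion] at hv2 ⊢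
          obtain ⟨i, hi, hvi⟩ := hv2
          exact ⟨i, lt_trans hi (hz' _ ⟨_, rfl⟩), hvi⟩
    rw [Ordinal.opow_succ]
    refine tg_of_forall_lt ?_
    intro c hc
    obtain ⟨ξ, hξ, hcξ⟩ := (Ordinal.lt_mul_iff_of_isSuccLimit
      (Cardinal.isSuccLimit_ord hκ.1)).1 hc
    obtain ⟨z, hz⟩ := hall ξ hξ
    refine ⟨_, hcξ, hz.mono ?_⟩
    rintro v ⟨hv1, hv2⟩
    refine ⟨hv1, ?_⟩
    simp only [Set.mem_iUnion] at hv2
    obtain ⟨i, -, hvi⟩ := hv2
    exact hBA i hvi

theorem acc_mul {κ ν : Cardinal.{0}} (hκ : κ.IsRegular) {a : Ordinal.{0}}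
    (ha : Acc V κ ν a) : ∀ c : Ordinal.{0}, c < κ.ord → Acc V κ ν (a * c) := by
  intro c
  induction c using WellFoundedLT.induction with
  | ind c IH =>
    intro hc
    rcases Ordinal.zero_or_succ_or_isSuccLimit c with rfl | ⟨c', rfl⟩ | hl
    · rw [mul_zero]
      exact acc_zero hκ
    · rw [Ordinal.mul_succ]
      exact acc_add hκ (IH c' (Order.lt_succ c') ((Order.lt_succ c').trans hc)) ha
    · have hcκ : #c.ToType < κ := by
        rw [Cardinal.mk_toType]
        exact Cardinal.lt_ord.1 hc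
      refine acc_sup hκ hcκ (fun i => a * (Ordinal.ToType.mk.symm i).1)
        (fun i => IH _ (Ordinal.ToType.mk.symm i).2 ((Ordinal.ToType.mk.symm i).2.trans hc))
        (fun i => mul_le_mul_right (Ordinal.ToType.mk.symm i).2.le a) ?_
      intro X hX
      refine tg_of_forall_lt ?_
      intro d hd
      obtain ⟨ζ, hζ, hcζ⟩ := (Ordinal.lt_mul_iff_of_isSuccLimit hl).1 hd
      refine ⟨_, hcζ, ?_⟩
      have h3 := hX (Ordinal.ToType.mk ⟨ζ, hζ⟩)
      simpa using h3

theorem acc_all {κ ν : Cardinal.{0}} (hκ : κ.IsRegular) (hν : ℵ₀ ≤ ν) (hνκ : ν < κ) :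
    ∀ α : Ordinal.{0}, κ.ord ∣ α → α < κ.ord ^ (ν.ord + 2) → Acc V κ ν α := by
  have h1 := one_lt_ord hκ
  intro α
  induction α using WellFoundedLT.induction with
  | ind α IH =>
    intro hdvd hlt
    rcases eq_or_ne α 0 with rfl | hα
    · exact acc_zero hκ
    · set β := Ordinal.log κ.ord α with hβ
      have hκα : κ.ord ≤ α := Ordinal.le_of_dvd hα hdvd
      have hβ1 : β ≠ 0 := by
        have : 0 < β := Ordinal.log_pos h1 hα hκα
        exact this.ne'
      have hβle : κ.ord ^ β ≤ α := Ordinal.opow_log_le_self κ.ord hα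
      have hβlt : β < ν.ord + 2 := by
        have h2 : κ.ord ^ β < κ.ord ^ (ν.ord + 2) := lt_of_le_of_lt hβle hlt
        exact (Ordinal.opow_lt_opow_iff_right h1).1 h2
      have hβcase : β ≤ ν.ord ∨ β = Order.succ ν.ord := by
        have h2 : ν.ord + 2 = Order.succ (Order.succ ν.ord) := by
          rw [← one_add_one_eq_two, ← add_assoc, ← Order.succ_eq_add_one,
            ← Order.succ_eq_add_one]
        rw [h2, Order.lt_succ_iff] at hβlt
        rcases hβlt.lt_or_eq with h | h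
        · exact Or.inl (Order.lt_succ_iff.1 h)
        · exact Or.inr h
      have hAβ : Acc V κ ν (κ.ord ^ β) := by
        rcases hβcase with h | h
        · exact acc_opow hκ hνκ hβ1 h
        · rw [h]; exact acc_opow_succ hκ hν hνκ
      have hc : α / κ.ord ^ β < κ.ord := Ordinal.div_opow_log_lt α h1
      have hpos : κ.ord ^ β ≠ 0 := (Ordinal.opow_pos β (zero_lt_one.trans h1)).ne'
      have hmod : α % κ.ord ^ β < κ.ord ^ β := Ordinal.mod_lt α hpos
      have hdm := Ordinal.div_add_mod α (κ.ord ^ β)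
      have hdb : κ.ord ∣ κ.ord ^ β := by
        have h3 := Ordinal.opow_dvd_opow κ.ord (Ordinal.one_le_iff_ne_zero.2 hβ1)
        rwa [Ordinal.opow_one] at h3
      have hdmod : κ.ord ∣ α % κ.ord ^ β := by
        rw [← hdm] at hdvd
        exact (Ordinal.dvd_add_iff (Dvd.dvd.mul_right hdb _)).1 hdvd
      have hmlt : α % κ.ord ^ β < α := lt_of_lt_of_le hmod hβle
      have hA2 := IH _ hmlt hdmod (hmlt.trans hlt)
      have := acc_add hκ (acc_mul hκ hAβ _ hc) hA2
      rwa [hdm] at this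

end Pool.Agent.H68.OG
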