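import Mathlib
import Pool.Agent.Lib_helper68.OG6

/-!
Graphs without infinite path have an orientation with finite out-degree; the main theorem.
-/

set_option autoImplicit false
set_option linter.unusedSectionVars false
set_option linter.deprecated false

open Cardinal Ordinal Set

namespace Pool.Agent.H68.OG

section Rayless

variable {V : Type} (G : SimpleGraph V)

/-- Being joined by a walk inside `C`. -/
def Conn (C : Set V) : V → V → Prop :=
  Relation.ReflTransGen (fun a b => a ∈ C ∧ b ∈ C ∧ G.Adj a b)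

theorem Conn.symm {C : Set V} {a b : V} (h : Conn G C a b) : Conn G C b a := by
  induction h with
  | refl => exact Relation.ReflTransGen.refl
  | tail _ hbc ih => exact Relation.ReflTransGen.head ⟨hbc.2.1, hbc.1, hbc.2.2.symm⟩ ih

theorem Conn.trans {C : Set V} {a b c : V} (h : Conn G C a b) (h' : Conn G C b c) :
    Conn G C a c := Relation.ReflTransGen.trans h h'

theorem Conn.mem {C : Set V} {a b : V} (h : Conn G C a b) (ha : a ∈ C) : b ∈ C := by
  induction h with
  | refl => exact ha
  | tail _ hbc _ => exact hbc.2.1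

/-- Ranked sets: built up from components after removing finite sets. -/
inductive Ranked : Set V → Prop
  | step (C S : Set V) (hS : S.Finite)
      (h : ∀ u ∈ C \ S, Ranked {w | Conn G (C \ S) u w}) : Ranked C

theorem Ranked.orient {C : Set V} (h : Ranked G C) :
    ∃ out : V → Set V, (∀ v ∈ C, (out v).Finite) ∧
      ∀ v ∈ C, ∀ w ∈ C, G.Adj v w → v ∈ out w ∨ w ∈ out v := by
  classical
  induction h with
  | step C S hS _ IH =>
    have IH' : ∀ D : Set V, ∃ out : V → Set V, (∃ u ∈ C \ S, D = {w | Conn G (C \ S) u w}) →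
        (∀ v ∈ D, (out v).Finite) ∧ ∀ v ∈ D, ∀ w ∈ D, G.Adj v w → v ∈ out w ∨ w ∈ out v := by
      intro D
      by_cases hD : ∃ u ∈ C \ S, D = {w | Conn G (C \ S) u w}
      · obtain ⟨u, hu, rfl⟩ := hD
        obtain ⟨out, ho⟩ := IH u hu
        exact ⟨out, fun _ => ho⟩
      · exact ⟨fun _ => ∅, fun h => absurd h hD⟩
    choose Out hOut using IH'
    let comp : V → Set V := fun v => {w | Conn G (C \ S) v w}
    refine ⟨fun v => S ∪ (if v ∈ S then ∅ else Out (comp v) v), ?_, ?_⟩
    · intro v hv
      refine hS.union ?_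
      split_ifs with hvS
      · exact Set.finite_empty
      · exact (hOut (comp v) ⟨v, ⟨hv, hvS⟩, rfl⟩).1 v Relation.ReflTransGen.refl
    · intro v hv w hw hvw
      by_cases hvS : v ∈ S
      · exact Or.inl (Or.inl hvS)
      by_cases hwS : w ∈ S
      · exact Or.inr (Or.inl hwS)
      have hcw : Conn G (C \ S) v w := Relation.ReflTransGen.single ⟨⟨hv, hvS⟩, ⟨hw, hwS⟩, hvw⟩
      have hcomp : comp w = comp v := by
        ext x
        exact ⟨fun hx => Conn.trans G hcw hx, fun hx => Conn.trans G (Conn.symm G hcw) hx⟩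
      have h2 := (hOut (comp v) ⟨v, ⟨hv, hvS⟩, rfl⟩).2 v Relation.ReflTransGen.refl w hcw hvw
      rcases h2 with h2 | h2
      · left
        right
        simp only [hwS, if_false]
        rw [hcomp]; exact h2
      · right
        right
        simp only [hvS, if_false]
        exact h2

theorem conn_exit {C : Set V} {v u : V} (h : Conn G C v u) (hne : u ≠ v) :
    ∃ w, G.Adj v w ∧ w ∈ C \ {v} ∧ Conn G (C \ {v}) w u := by
  induction h with
  | refl => exact absurd rfl hne
  | @tail b c _ hbc ih =>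
    by_cases hb : b = v
    · subst hb
      exact ⟨c, hbc.2.2, ⟨hbc.2.1, hne⟩, Relation.ReflTransGen.refl⟩
    · obtain ⟨w, h1, h2, h3⟩ := ih hb
      exact ⟨w, h1, h2, h3.tail ⟨⟨hbc.1, hb⟩, ⟨hbc.2.1, hne⟩, hbc.2.2⟩⟩

theorem conn_comp {C : Set V} {u w : V} (h : Conn G C u w) :
    Conn G {x | Conn G C u x} u w := by
  induction h with
  | refl => exact Relation.ReflTransGen.refl
  | @tail b c hub hbc ih =>
    exact ih.tail ⟨hub, hub.tail hbc, hbc.2.2⟩

/-- A graph which is not ranked has an infinite path. -/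
theorem exists_path (h : ¬ Ranked G Set.univ) :
    ∃ f : ℕ → V, Function.Injective f ∧ ∀ n, G.Adj (f n) (f (n + 1)) := by
  classical
  let State := {p : Set V × V // ¬ Ranked G p.1 ∧ p.2 ∈ p.1 ∧ ∀ w ∈ p.1, Conn G p.1 p.2 w}
  have hinit : Nonempty State := by
    by_contra hno
    apply h
    refine Ranked.step Set.univ ∅ Set.finite_empty ?_
    intro u _
    by_contra hr
    apply hno
    exact ⟨⟨({w | Conn G (Set.univ \ ∅) u w}, u), hr, Relation.ReflTransGen.refl,
      fun w hw => conn_comp G hw⟩⟩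
  have hstep : ∀ p : State, ∃ q : State, G.Adj p.1.2 q.1.2 ∧ q.1.1 ⊆ p.1.1 \ {p.1.2} := by
    rintro ⟨⟨C, v⟩, hr, hv, hC⟩
    simp only at hr hv hC
    have hex : ∃ u ∈ C \ {v}, ¬ Ranked G {w | Conn G (C \ {v}) u w} := by
      by_contra hno
      push Not at hno
      exact hr (Ranked.step C {v} (Set.finite_singleton v) hno)
    obtain ⟨u, hu, hur⟩ := hex
    obtain ⟨w, h1, h2, h3⟩ := conn_exit G (hC u hu.1) hu.2
    have hcomp : {x | Conn G (C \ {v}) w x} = {x | Conn G (C \ {v}) u x} := by
      ext x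
      exact ⟨fun hx => Conn.trans G (Conn.symm G h3) hx, fun hx => Conn.trans G h3 hx⟩
    refine ⟨⟨({x | Conn G (C \ {v}) w x}, w), ?_, Relation.ReflTransGen.refl,
      fun x hx => conn_comp G hx⟩, h1, ?_⟩
    · simp only
      rw [hcomp]; exact hur
    · intro x hx
      exact Conn.mem G hx h2
  choose nx hnx1 hnx2 using hstep
  let s : ℕ → State := fun n => Nat.rec hinit.some (fun _ p => nx p) n
  have hs : ∀ n, s (n + 1) = nx (s n) := fun n => rfl
  have hsub : ∀ n m, n < m → (s m).1.1 ⊆ (s n).1.1 \ {(s n).1.2} := by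
    intro n m hnm
    induction m with
    | zero => exact absurd hnm (Nat.not_lt_zero n)
    | succ m ih =>
      rcases Nat.lt_succ_iff_lt_or_eq.1 hnm with h1 | h1
      · refine Set.Subset.trans ?_ (ih h1)
        rw [hs m]
        exact (hnx2 (s m)).trans Set.diff_subset
      · subst h1
        rw [hs n]
        exact hnx2 (s n)
  refine ⟨fun n => (s n).1.2, ?_, ?_⟩
  · intro n m hnm
    rcases lt_trichotomy n m with h1 | h1 | h1
    · have := (hsub n m h1 (s m).2.2.1).2
      exact absurd hnm.symm this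
    · exact h1
    · have := (hsub m n h1 (s n).2.2.1).2
      exact absurd hnm this
  · intro n
    show G.Adj (s n).1.2 (s (n + 1)).1.2
    rw [hs n]
    exact hnx1 (s n)

end Rayless

/-- The free set theorem applied to graphs. -/
theorem graph_theorem {κ ν : Cardinal.{0}} (hκ : κ.IsRegular) (hν : ℵ₀ ≤ ν) (hνκ : ν < κ)
    (α : Ordinal.{0}) (hα0 : α ≠ 0) (hdvd : κ.ord ∣ α) (hlt : α < κ.ord ^ (ν.ord + 2))
    (G : SimpleGraph α.ToType) :
    (∃ f : ℕ → α.ToType, Function.Injective f ∧ ∀ n, G.Adj (f n) (f (n + 1))) ∨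
    (∃ S : Set α.ToType, (∀ x ∈ S, ∀ y ∈ S, ¬ G.Adj x y) ∧
      Ordinal.type (fun x y : S => x < y) = α) := by
  classical
  by_cases hR : Ranked G Set.univ
  · right
    have hκ0 : ℵ₀ < κ := lt_of_le_of_lt hν hνκ
    have : Nonempty α.ToType := Ordinal.nonempty_toType_iff.2 hα0
    obtain ⟨out, hfin, hadj⟩ := hR.orient G
    let f : α.ToType → Finset α.ToType := fun v => (hfin v (Set.mem_univ v)).toFinset
    -- cardinality
    have hcard : α.card ≤ κ := by
      have h1 := Ordinal.card_le_card hlt.le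
      have h2 : ω ≤ κ.ord := by
        rw [← Cardinal.ord_aleph0]
        exact Cardinal.ord_le_ord.2 hκ.1
      refine h1.trans ((Ordinal.card_opow_le_of_omega0_le_left h2 _).trans ?_)
      refine max_le (by rw [Cardinal.card_ord]) ?_
      rw [Ordinal.card_add, Cardinal.card_ord]
      refine Cardinal.add_le_of_le hκ.1 hνκ.le ?_
      have h3 : (2 : Ordinal.{0}).card = 2 := by simp
      rw [h3]
      exact (Cardinal.ofNat_lt_aleph0 (n := 2)).le.trans hκ.1
    have hr : ∃ r : α.ToType → κ.ord.ToType, Function.Injective r := by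
      have h1 : #α.ToType ≤ #κ.ord.ToType := by
        rw [Cardinal.mk_toType, Cardinal.mk_toType, Cardinal.card_ord]
        exact hcard
      obtain ⟨e⟩ := Cardinal.le_def _ _ |>.1 h1
      exact ⟨e, e.injective⟩
    obtain ⟨r, hr⟩ := hr
    have htyp : typ (Set.univ : Set α.ToType) = α := by
      have h1 : typ (Set.univ : Set α.ToType) ≤ Ordinal.type (fun x y : α.ToType => x < y) := by
        unfold typ
        rw [Ordinal.type_le_iff']
        exact ⟨⟨⟨fun x => x.1, Subtype.val_injective⟩, Iff.rfl⟩⟩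
      have h2 : Ordinal.type (fun x y : α.ToType => x < y) ≤ typ (Set.univ : Set α.ToType) := by
        unfold typ
        rw [Ordinal.type_le_iff']
        exact ⟨⟨⟨fun x => ⟨x, trivial⟩, fun a b h => congrArg Subtype.val h⟩, Iff.rfl⟩⟩
      have h3 : Ordinal.type (fun x y : α.ToType => x < y) = α := Ordinal.type_toType α
      rw [h3] at h1 h2
      exact le_antisymm h1 h2
    obtain ⟨P, B, γ, hP, hBm, hγ, hB, hX⟩ :=
      acc_all (V := α.ToType) hκ hν hνκ α hdvd hlt Set.univ (tg_iff.2 htyp.ge)
    obtain ⟨X, hXf, hXp⟩ := main_lemma hκ hν hνκ f r hr hP B γ hBm hγ hB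
    refine ⟨X, ?_, ?_⟩
    · intro x hx y hy hxy
      have hne : x ≠ y := hxy.ne
      rcases hadj x (Set.mem_univ x) y (Set.mem_univ y) hxy with h | h
      · exact hXf y hy x hx hne.symm (by simpa [f] using h)
      · exact hXf x hx y hy hne (by simpa [f] using h)
    · have h1 := hX X hXp
      rw [Set.inter_univ] at h1
      have h2 : α ≤ typ X := le_typ_of_tg h1
      have h3 : typ X ≤ α := by
        have h4 : typ X ≤ Ordinal.type (fun x y : α.ToType => x < y) := by
          unfold typ
          rw [Ordinal.type_le_iff']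
          exact ⟨⟨⟨fun x => x.1, Subtype.val_injective⟩, Iff.rfl⟩⟩
        have h5 : Ordinal.type (fun x y : α.ToType => x < y) = α := Ordinal.type_toType α
        rwa [h5] at h4
      exact le_antisymm h3 h2
  · left
    exact exists_path G hR

end Pool.Agent.H68.OG
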