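import Mathlib
import Pool.Agent.Lib_helper68.OG8

/-!
Splitting sets of limit order type, and the indecomposability lemma for families of sets.
-/

set_option autoImplicit false
set_option linter.unusedSectionVars false
set_option linter.deprecated false

open Cardinal Ordinal Set

namespace Pool.Agent.H68.OG

variable {V : Type} [LinearOrder V] [WellFoundedLT V]

theorem two_parts [Nonempty V] {κ : Cardinal.{0}} (hκ : κ.IsRegular) (D₁ D₂ : Set V) :
    ∀ (γ : Ordinal.{0}) (A : Set V), A ⊆ D₁ ∪ D₂ → TG A (κ.ord ^ γ) →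
      TG (A ∩ D₁) (κ.ord ^ γ) ∨ TG (A ∩ D₂) (κ.ord ^ γ) := by
  classical
  have h1 := one_lt_ord hκ
  intro γ
  induction γ using WellFoundedLT.induction with
  | ind γ IH =>
    intro A hA hT
    rcases eq_or_ne γ 0 with rfl | hγ
    · rw [Ordinal.opow_zero] at hT ⊢
      obtain ⟨v, hv⟩ := hT.nonempty zero_lt_one
      rcases hA hv with h | h
      · exact Or.inl (tg_one (v := v) ⟨hv, h⟩)
      · exact Or.inr (tg_one (v := v) ⟨hv, h⟩)
    · by_contra hcon
      push Not at hcon
      obtain ⟨hc1, hc2⟩ := hcon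
      have key : ∀ D : Set V, ¬ TG (A ∩ D) (κ.ord ^ γ) →
          ∃ s < γ, ¬ TG (A ∩ D) (κ.ord ^ s * κ.ord) := by
        intro D hD
        by_contra hno
        push Not at hno
        exact hD (tg_opow h1 hγ hno)
      obtain ⟨s₁, hs₁, hn₁⟩ := key D₁ hc1
      obtain ⟨s₂, hs₂, hn₂⟩ := key D₂ hc2
      have hs : max s₁ s₂ < γ := max_lt hs₁ hs₂
      obtain ⟨B, hBA, hBt, hBm⟩ := (hT.opow_lt h1 hs).blocks
      have hcov : (Set.univ : Set κ.ord.ToType) ⊆
          {i | TG (B i ∩ D₁) (κ.ord ^ (max s₁ s₂))} ∪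
          {i | TG (B i ∩ D₂) (κ.ord ^ (max s₁ s₂))} := by
        intro i _
        exact IH _ hs (B i) ((hBA i).trans hA) (hBt i)
      have hmon : ∀ s, s ≤ max s₁ s₂ →
          κ.ord ^ s * κ.ord ≤ κ.ord ^ (max s₁ s₂) * κ.ord := by
        intro s hs
        rw [← Ordinal.opow_succ, ← Ordinal.opow_succ]
        exact Ordinal.opow_le_opow_right (zero_lt_one.trans h1) (Order.succ_le_succ hs)
      have hfin : ∀ D : Set V, κ ≤ #{i | TG (B i ∩ D) (κ.ord ^ (max s₁ s₂))} →
          TG (A ∩ D) (κ.ord ^ (max s₁ s₂) * κ.ord) := by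
        intro D hD
        refine tg_of_blocks hBm _ hD ?_
        intro i hi
        refine TG.mono ?_ hi
        rintro v ⟨hv1, hv2⟩
        exact ⟨⟨hBA i hv1, hv2⟩, hv1⟩
      by_cases hk1 : κ ≤ #{i | TG (B i ∩ D₁) (κ.ord ^ (max s₁ s₂))}
      · exact hn₁ ((hfin D₁ hk1).le (hmon _ (le_max_left _ _)))
      by_cases hk2 : κ ≤ #{i | TG (B i ∩ D₂) (κ.ord ^ (max s₁ s₂))}
      · exact hn₂ ((hfin D₂ hk2).le (hmon _ (le_max_right _ _)))
      rw [not_le] at hk1 hk2
      have h3 := (Cardinal.mk_le_mk_of_subset hcov).trans (Cardinal.mk_union_le _ _)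
      rw [Cardinal.mk_univ, Cardinal.mk_toType, Cardinal.card_ord] at h3
      exact absurd (Cardinal.add_lt_of_lt hκ.1 hk1 hk2) (not_lt.2 h3)

/-- Finitely many bad indices. -/
def Fb (β : Ordinal.{0}) : Prop :=
  ∀ (V : Type) [LinearOrder V] [WellFoundedLT V] [Nonempty V] (A : Set V) (D : ℕ → Set V),
    TG A β → (∀ v ∈ A, ∀ r s, r ≠ s → v ∈ D r ∨ v ∈ D s) → {r | ¬ TG (A ∩ D r) β}.Finite

theorem fb_zero : Fb 0 := by
  intro V _ _ _ A D _ _
  convert Set.finite_empty (α := ℕ)
  ext r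
  simp only [Set.mem_ofPred_eq, Set.mem_empty_iff_false, iff_false, not_not]
  exact tg_zero _

theorem fb_add {a b : Ordinal.{0}} (ha : Fb a) (hb : Fb b) : Fb (a + b) := by
  intro V _ _ _ A D hA hD
  obtain ⟨S, T, hSA, hTA, hS, hT, hST⟩ := hA.split
  have h1 := ha V S D hS fun v hv => hD v (hSA hv)
  have h2 := hb V T D hT fun v hv => hD v (hTA hv)
  refine (h1.union h2).subset ?_
  intro r hr
  by_contra hcon
  rw [Set.mem_union, not_or] at hcon
  simp only [Set.mem_ofPred_eq, not_not] at hcon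
  refine hr ((hcon.1.add hcon.2 fun x hx y hy => hST x hx.1 y hy.1).mono ?_)
  rintro x (hx | hx)
  · exact ⟨hSA hx.1, hx.2⟩
  · exact ⟨hTA hx.1, hx.2⟩

theorem fb_opow (γ : Ordinal.{0}) : Fb (ω ^ γ) := by
  intro V _ _ _ A D hA hD
  refine Set.Subsingleton.finite ?_
  intro r hr s hs
  by_contra hne
  have h := two_parts Cardinal.isRegular_aleph0 (D r) (D s) γ A
    (fun v hv => hD v hv r s hne) (by rwa [Cardinal.ord_aleph0])
  rw [Cardinal.ord_aleph0] at h
  rcases h with h | h
  · exact hr h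
  · exact hs h

theorem fb_mul {a : Ordinal.{0}} (ha : Fb a) (n : ℕ) : Fb (a * n) := by
  induction n with
  | zero => rw [Nat.cast_zero, mul_zero]; exact fb_zero
  | succ n ih => rw [Nat.cast_succ, mul_add, mul_one]; exact fb_add ih ha

theorem fb_all (β : Ordinal.{0}) : Fb β := by
  induction β using WellFoundedLT.induction with
  | ind β IH =>
    rcases eq_or_ne β 0 with rfl | hβ
    · exact fb_zero
    · set γ := Ordinal.log ω β with hγ
      have hpos : (ω : Ordinal.{0}) ^ γ ≠ 0 := (Ordinal.opow_pos γ Ordinal.omega0_pos).ne'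
      have hle : ω ^ γ ≤ β := Ordinal.opow_log_le_self ω hβ
      have hc : β / ω ^ γ < ω := Ordinal.div_opow_log_lt β Ordinal.one_lt_omega0
      have hmod : β % ω ^ γ < ω ^ γ := Ordinal.mod_lt β hpos
      obtain ⟨n, hn⟩ := Ordinal.lt_omega0.1 hc
      have hdm := Ordinal.div_add_mod β (ω ^ γ)
      rw [← hdm, hn]
      exact fb_add (fb_mul (fb_opow γ) n) (IH _ (hmod.trans_le hle))

/-- Splitting a set of limit type into infinitely many pieces of the same type. -/
theorem TG.split_omega {A : Set V} {η : Ordinal.{0}} (h : TG A (ω * η)) :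
    ∃ S : ℕ → Set V, (∀ r, S r ⊆ A) ∧ (∀ r, TG (S r) (ω * η)) ∧
      ∀ r s, r ≠ s → ∀ v ∈ S r, v ∉ S s := by
  classical
  obtain ⟨g, hg, hm⟩ := h
  have hω : (ω : Ordinal.{0}) ≠ 0 := Ordinal.omega0_ne_zero
  have hinj : ∀ x y, x < ω * η → y < ω * η → g x = g y → x = y := by
    intro x y hx hy hxy
    rcases lt_trichotomy x y with h | h | h
    · exact absurd hxy (hm x y h hy).ne
    · exact h
    · exact absurd hxy (hm y x h hx).ne'
  have hlt : ∀ (x : Ordinal.{0}) (k : ℕ), x < η → ω * x + k < ω * η := by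
    intro x k hx
    calc ω * x + k < ω * x + ω := (add_lt_add_iff_left _).2 (Ordinal.nat_lt_omega0 k)
      _ = ω * Order.succ x := (Ordinal.mul_succ _ _).symm
      _ ≤ ω * η := mul_le_mul_right (Order.succ_le_of_lt hx) _
  have hdiv : ∀ x, x < ω * η → x / ω < η := fun x hx => (Ordinal.lt_mul_iff_div_lt hω).1 hx
  choose! nn hnn using fun x : Ordinal.{0} => Ordinal.lt_omega0.1 (Ordinal.mod_lt x hω)
  refine ⟨fun r => {v | ∃ ξ < η, ∃ n : ℕ, v = g (ω * ξ + (Nat.pair r n : ℕ))}, ?_, ?_, ?_⟩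
  · rintro r _ ⟨ξ, hξ, n, rfl⟩
    exact hg _ (hlt ξ _ hξ)
  · intro r
    refine ⟨fun x => g (ω * (x / ω) + (Nat.pair r (nn x) : ℕ)), ?_, ?_⟩
    · intro x hx
      exact ⟨x / ω, hdiv x hx, nn x, rfl⟩
    · intro x y hxy hy
      have hx : x < ω * η := hxy.trans hy
      refine hm _ _ ?_ (hlt _ _ (hdiv y hy))
      have hdx := Ordinal.div_add_mod x ω
      have hdy := Ordinal.div_add_mod y ω
      rw [hnn] at hdx hdy
      have hle : x / ω ≤ y / ω := by
        by_contra hcon
        rw [not_le] at hcon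
        have h2 : y < x := by
          rw [← hdx, ← hdy]
          calc ω * (y / ω) + (nn y : Ordinal.{0}) < ω * (y / ω) + ω :=
                (add_lt_add_iff_left _).2 (Ordinal.nat_lt_omega0 _)
            _ = ω * Order.succ (y / ω) := (Ordinal.mul_succ _ _).symm
            _ ≤ ω * (x / ω) := mul_le_mul_right (Order.succ_le_of_lt hcon) _
            _ ≤ _ := le_self_add
        exact absurd hxy (not_lt.2 h2.le)
      rcases hle.eq_or_lt with heq | hlt'
      · have h3 : nn x < nn y := by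
          have h8 : ω * (x / ω) + (nn x : Ordinal.{0}) < ω * (y / ω) + (nn y : Ordinal.{0}) := by
            rw [hdx, hdy]
            exact hxy
          rw [heq] at h8
          exact_mod_cast (add_lt_add_iff_left _).1 h8
        rw [heq]
        refine (add_lt_add_iff_left _).2 ?_
        exact_mod_cast Nat.pair_lt_pair_right r h3
      · calc ω * (x / ω) + (Nat.pair r (nn x) : ℕ) < ω * (x / ω) + ω :=
              (add_lt_add_iff_left _).2 (Ordinal.nat_lt_omega0 _)
          _ = ω * Order.succ (x / ω) := (Ordinal.mul_succ _ _).symm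
          _ ≤ ω * (y / ω) := mul_le_mul_right (Order.succ_le_of_lt hlt') _
          _ ≤ _ := le_self_add
  · rintro r s hrs v ⟨ξ, hξ, n, hv⟩ ⟨ζ, hζ, m, hv'⟩
    have h4 := hinj _ _ (hlt ξ _ hξ) (hlt ζ _ hζ) (hv.symm.trans hv')
    have h5 : ∀ (x : Ordinal.{0}) (k : ℕ), (ω * x + (k : Ordinal.{0})) % ω = k := by
      intro x k
      rw [Ordinal.mul_add_mod_self]
      exact Ordinal.mod_eq_of_lt (Ordinal.nat_lt_omega0 k)
    have h6 : ((Nat.pair r n : ℕ) : Ordinal.{0}) = (Nat.pair s m : ℕ) :=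
      (h5 ξ _).symm.trans ((congrArg (· % ω) h4).trans (h5 ζ _))
    have h7 : Nat.pair r n = Nat.pair s m := by exact_mod_cast h6
    exact hrs (Nat.pair_eq_pair.1 h7).1

/-- Removing a small set. -/
theorem TG.remove [Nonempty V] {κ : Cardinal.{0}} (hκ : κ.IsRegular) {R : Set V} (hR : #R < κ)
    (δ : Ordinal.{0}) : ∀ A : Set V, TG A (κ.ord * δ) → TG (A \ R) (κ.ord * δ) := by
  induction δ using WellFoundedLT.induction with
  | ind δ IH =>
    intro A hA
    rcases Ordinal.zero_or_succ_or_isSuccLimit δ with rfl | ⟨δ', rfl⟩ | hl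
    · rw [mul_zero]
      exact tg_zero _
    · rw [Ordinal.mul_succ] at hA ⊢
      obtain ⟨S, T, hSA, hTA, hS, hT, hST⟩ := hA.split
      have h1 := IH δ' (Order.lt_succ δ') S hS
      have h2 : TG (T \ R) κ.ord := by
        rw [tg_iff, Cardinal.ord_le]
        unfold typ
        rw [Ordinal.card_type]
        have h3 : κ ≤ #T := by
          have h4 := le_typ_of_tg hT
          rw [Cardinal.ord_le] at h4
          unfold typ at h4
          rwa [Ordinal.card_type] at h4
        by_contra hcon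
        rw [not_le] at hcon
        have h5 : T ⊆ (T \ R) ∪ R := by
          intro x hx
          by_cases hxR : x ∈ R
          · exact Or.inr hxR
          · exact Or.inl ⟨hx, hxR⟩
        have h6 := (Cardinal.mk_le_mk_of_subset h5).trans (Cardinal.mk_union_le _ _)
        exact absurd (Cardinal.add_lt_of_lt hκ.1 hcon hR) (not_lt.2 (h3.trans h6))
      refine (h1.add h2 fun x hx y hy => hST x hx.1 y hy.1).mono ?_
      rintro x (hx | hx)
      · exact ⟨hSA hx.1, hx.2⟩
      · exact ⟨hTA hx.1, hx.2⟩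
    · refine tg_of_forall_lt ?_
      intro c hc
      obtain ⟨ζ, hζ, hcζ⟩ := (Ordinal.lt_mul_iff_of_isSuccLimit hl).1 hc
      exact ⟨_, hcζ, IH ζ hζ A (hA.le (mul_le_mul_right hζ.le _))⟩

end Pool.Agent.H68.OG
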