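import Mathlib
import Pool.Agent.Lib_helper68.OG9

/-!
The path-or-independent-set property of an ordinal `κ * δ + ε` only depends on `ε < κ`.
-/

set_option autoImplicit false
set_option linter.unusedSectionVars false
set_option linter.deprecated false

open Cardinal Ordinal Set

namespace Pool.Agent.H68.OG

/-- Every graph on `α` has an infinite path or an independent set of type `α`. -/
def PI (α : Ordinal.{0}) : Prop :=
  ∀ G : SimpleGraph α.ToType,
    (∃ f : ℕ → α.ToType, Function.Injective f ∧ ∀ n, G.Adj (f n) (f (n + 1))) ∨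
    (∃ S : Set α.ToType, (∀ x ∈ S, ∀ y ∈ S, ¬ G.Adj x y) ∧
      Ordinal.type (fun x y : S => x < y) = α)

theorem typ_univ (α : Ordinal.{0}) : typ (Set.univ : Set α.ToType) = α := by
  have h1 : typ (Set.univ : Set α.ToType) ≤ Ordinal.type (fun x y : α.ToType => x < y) := by
    unfold typ
    rw [Ordinal.type_le_iff']
    exact ⟨⟨⟨fun x => x.1, Subtype.val_injective⟩, Iff.rfl⟩⟩
  have h2 : Ordinal.type (fun x y : α.ToType => x < y) ≤ typ (Set.univ : Set α.ToType) := by
    unfold typ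
    rw [Ordinal.type_le_iff']
    exact ⟨⟨⟨fun x => ⟨x, trivial⟩, fun a b h => congrArg Subtype.val h⟩, Iff.rfl⟩⟩
  have h3 : Ordinal.type (fun x y : α.ToType => x < y) = α := Ordinal.type_toType α
  rw [h3] at h1 h2
  exact le_antisymm h1 h2

theorem typ_le (α : Ordinal.{0}) (X : Set α.ToType) : typ X ≤ α := by
  have h4 : typ X ≤ Ordinal.type (fun x y : α.ToType => x < y) := by
    unfold typ
    rw [Ordinal.type_le_iff']
    exact ⟨⟨⟨fun x => x.1, Subtype.val_injective⟩, Iff.rfl⟩⟩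
  have h5 : Ordinal.type (fun x y : α.ToType => x < y) = α := Ordinal.type_toType α
  rwa [h5] at h4

theorem typ_eq_of_tg {α : Ordinal.{0}} {X : Set α.ToType} (h : TG X α) :
    Ordinal.type (fun x y : X => x < y) = α :=
  le_antisymm (typ_le α X) (le_typ_of_tg h)

theorem pi_zero : PI 0 := by
  intro G
  right
  refine ⟨∅, fun x hx => absurd hx (Set.notMem_empty x), ?_⟩
  refine le_antisymm (typ_le 0 ∅) zero_le

theorem card_lt_opow {κ ν : Cardinal.{0}} (hκ : κ.IsRegular) (hνκ : ν < κ)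
    {α : Ordinal.{0}} (hlt : α < κ.ord ^ (ν.ord + 2)) : α.card ≤ κ := by
  have h1 := Ordinal.card_le_card hlt.le
  have h2 : ω ≤ κ.ord := by
    rw [← Cardinal.ord_aleph0]
    exact Cardinal.ord_le_ord.2 hκ.1
  refine h1.trans ((Ordinal.card_opow_le_of_omega0_le_left h2 _).trans ?_)
  refine max_le (by rw [Cardinal.card_ord]) ?_
  rw [Ordinal.card_add, Cardinal.card_ord]
  refine Cardinal.add_le_of_le hκ.1 hνκ.le ?_
  have h3 : (2 : Ordinal.{0}).card = 2 := by simp
  rw [h3]
  exact (Cardinal.ofNat_lt_aleph0 (n := 2)).le.trans hκ.1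

/-- Free subsets of the right type. -/
theorem exists_free {V : Type} [LinearOrder V] [WellFoundedLT V] [Nonempty V]
    {κ ν : Cardinal.{0}} (hκ : κ.IsRegular) (hν : ℵ₀ ≤ ν) (hνκ : ν < κ) (hV : #V ≤ κ)
    (f : V → Finset V) {α : Ordinal.{0}} (hdvd : κ.ord ∣ α) (hlt : α < κ.ord ^ (ν.ord + 2))
    {A : Set V} (hA : TG A α) :
    ∃ X : Set V, X ⊆ A ∧ (∀ x ∈ X, ∀ y ∈ X, x ≠ y → y ∉ f x) ∧ TG X α := by
  classical
  have hr : ∃ r : V → κ.ord.ToType, Function.Injective r := by
    have h1 : #V ≤ #κ.ord.ToType := by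
      rw [Cardinal.mk_toType, Cardinal.card_ord]
      exact hV
    obtain ⟨e⟩ := Cardinal.le_def _ _ |>.1 h1
    exact ⟨e, e.injective⟩
  obtain ⟨r, hr⟩ := hr
  obtain ⟨P, B, γ, hP, hBm, hγ, hB, hX⟩ := acc_all (V := V) hκ hν hνκ α hdvd hlt A hA
  obtain ⟨X, hXf, hXp⟩ := main_lemma hκ hν hνκ f r hr hP B γ hBm hγ hB
  exact ⟨X ∩ A, Set.inter_subset_right, fun x hx y hy => hXf x hx.1 y hy.1, hX X hXp⟩

/-- The path-or-independent-set property passes to final parts. -/
theorem pi_tail {a b : Ordinal.{0}} (h : PI (a + b)) : PI b := by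
  classical
  intro H
  let e := (Ordinal.ToType.mk (o := a + b)).symm
  let e' := (Ordinal.ToType.mk (o := b)).symm
  have hlt : ∀ x : (a + b).ToType, a ≤ (e x).1 → (e x).1 - a < b := by
    intro x hx
    have h1 : (e x).1 < a + b := (e x).2
    rw [← Ordinal.add_sub_cancel_of_le hx] at h1
    exact (add_lt_add_iff_left a).1 h1
  rcases eq_or_ne b 0 with rfl | hb
  · exact pi_zero H
  have hN : Nonempty b.ToType := Ordinal.nonempty_toType_iff.2 hb
  have hN' : Nonempty (a + b).ToType := by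
    refine Ordinal.nonempty_toType_iff.2 ?_
    intro h0
    exact hb (by
      have : b ≤ a + b := le_add_self
      rw [h0] at this
      exact le_antisymm this zero_le)
  let t : (a + b).ToType → b.ToType := fun x =>
    if hx : a ≤ (e x).1 then Ordinal.ToType.mk ⟨(e x).1 - a, hlt x hx⟩ else hN.some
  have ht : ∀ x, a ≤ (e x).1 → (e' (t x)).1 = (e x).1 - a := by
    intro x hx
    simp [t, hx, e']
  have htinj : ∀ x y, a ≤ (e x).1 → a ≤ (e y).1 → t x = t y → x = y := by
    intro x y hx hy hxy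
    have h1 := ht x hx
    have h2 := ht y hy
    rw [hxy, h2] at h1
    have h3 : (e y).1 = (e x).1 := by
      rw [← Ordinal.add_sub_cancel_of_le hx, ← Ordinal.add_sub_cancel_of_le hy, h1]
    exact e.injective (Subtype.ext h3.symm)
  let G : SimpleGraph (a + b).ToType :=
    { Adj := fun x y => a ≤ (e x).1 ∧ a ≤ (e y).1 ∧ H.Adj (t x) (t y)
      symm := ⟨fun x y hxy => ⟨hxy.2.1, hxy.1, hxy.2.2.symm⟩⟩
      loopless := ⟨fun x hx => H.loopless.irrefl _ hx.2.2⟩ }
  rcases h G with ⟨p, hp, hadj⟩ | ⟨S, hS, hSt⟩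
  · left
    refine ⟨fun n => t (p n), ?_, fun n => (hadj n).2.2⟩
    intro n m hnm
    exact hp (htinj _ _ (hadj n).1 (hadj m).1 hnm)
  · right
    have h1 : TG S (a + b) := tg_of_le_typ (le_of_eq hSt.symm)
    obtain ⟨g, hg, hm⟩ := h1
    have hge : ∀ x, x < a + b → x ≤ (e (g x)).1 := by
      intro x
      induction x using WellFoundedLT.induction with
      | ind x IH =>
        intro hx
        refine le_of_forall_lt ?_
        intro c hc
        refine lt_of_le_of_lt (IH c hc (hc.trans hx)) ?_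
        exact e.lt_iff_lt.2 (hm c x hc hx)
    have hab : ∀ x, x < b → a + x < a + b := fun x hx => (add_lt_add_iff_left a).2 hx
    have hga : ∀ x, x < b → a ≤ (e (g (a + x))).1 := fun x hx =>
      (le_self_add).trans (hge (a + x) (hab x hx))
    refine ⟨{y | ∃ x < b, y = t (g (a + x))}, ?_, ?_⟩
    · rintro _ ⟨x, hx, rfl⟩ _ ⟨y, hy, rfl⟩ hadj
      exact hS _ (hg _ (hab x hx)) _ (hg _ (hab y hy)) ⟨hga x hx, hga y hy, hadj⟩
    · refine typ_eq_of_tg ⟨fun x => t (g (a + x)), fun x hx => ⟨x, hx, rfl⟩, ?_⟩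
      intro x y hxy hy
      have hx := hxy.trans hy
      have h2 := hm _ _ ((add_lt_add_iff_left a).2 hxy) (hab y hy)
      have h3 : (e (g (a + x))).1 < (e (g (a + y))).1 := e.lt_iff_lt.2 h2
      have h4 : (e' (t (g (a + x)))).1 < (e' (t (g (a + y)))).1 := by
        rw [ht _ (hga x hx), ht _ (hga y hy)]
        refine (add_lt_add_iff_left a).1 ?_
        rw [Ordinal.add_sub_cancel_of_le (hga x hx), Ordinal.add_sub_cancel_of_le (hga y hy)]
        exact h3
      exact e'.lt_iff_lt.1 h4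

theorem pi_ext {κ ν : Cardinal.{0}} (hκ : κ.IsRegular) (hν : ℵ₀ ≤ ν) (hνκ : ν < κ)
    (δ η : Ordinal.{0}) (hlt : κ.ord * δ < κ.ord ^ (ν.ord + 2)) (hη : ω * η < κ.ord)
    (hη0 : η ≠ 0) (h : PI (ω * η)) : PI (κ.ord * δ + ω * η) := by
  classical
  intro G
  by_cases hR : Ranked G Set.univ
  · right
    have hκ0 : ℵ₀ < κ := lt_of_le_of_lt hν hνκ
    have hε0 : ω * η ≠ 0 := mul_ne_zero Ordinal.omega0_ne_zero hη0
    have hNε : Nonempty (ω * η).ToType := Ordinal.nonempty_toType_iff.2 hε0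
    have hN : Nonempty (κ.ord * δ + ω * η).ToType := by
      refine Ordinal.nonempty_toType_iff.2 ?_
      intro h0
      have : ω * η ≤ κ.ord * δ + ω * η := le_add_self
      rw [h0] at this
      exact hε0 (le_antisymm this zero_le)
    obtain ⟨out, hfin, -, hchain, hadj, hnopath⟩ := hR.tree G
    have hV : #(κ.ord * δ + ω * η).ToType ≤ κ := by
      rw [Cardinal.mk_toType, Ordinal.card_add]
      exact Cardinal.add_le_of_le hκ.1 (card_lt_opow hκ hνκ hlt) (Cardinal.lt_ord.1 hη).le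
    have htop : TG (Set.univ : Set (κ.ord * δ + ω * η).ToType) (κ.ord * δ + ω * η) :=
      tg_iff.2 (typ_univ _).ge
    obtain ⟨A₁, A₂, -, -, hA₁, hA₂, hlt12⟩ := htop.split
    obtain ⟨g₂, hg₂, hm₂⟩ := hA₂
    let e := (Ordinal.ToType.mk (o := ω * η)).symm
    have hmono : ∀ x y : (ω * η).ToType, x < y → g₂ (e x).1 < g₂ (e y).1 := fun x y hxy =>
      hm₂ _ _ (e.lt_iff_lt.2 hxy) (e y).2
    have hinj : ∀ x y : (ω * η).ToType, g₂ (e x).1 = g₂ (e y).1 → x = y := by
      intro x y hxy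
      rcases lt_trichotomy x y with h1 | h1 | h1
      · exact absurd hxy (hmono x y h1).ne
      · exact h1
      · exact absurd hxy (hmono y x h1).ne'
    let H : SimpleGraph (ω * η).ToType :=
      { Adj := fun x y => x ≠ y ∧
          (g₂ (e x).1 ∈ out (g₂ (e y).1) ∨ g₂ (e y).1 ∈ out (g₂ (e x).1))
        symm := ⟨fun x y hxy => ⟨hxy.1.symm, hxy.2.symm⟩⟩
        loopless := ⟨fun x hx => hx.1 rfl⟩ }
    rcases h H with ⟨p, hp, hpadj⟩ | ⟨S', hS', hSt⟩
    · exfalso
      refine hnopath (fun n => g₂ (e (p n)).1) ?_ (fun n => Set.mem_univ _) fun n => (hpadj n).2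
      intro n m hnm
      exact hp (hinj _ _ hnm)
    obtain ⟨g', hg', hm'⟩ := tg_of_le_typ (le_of_eq hSt.symm)
    -- the transported set
    set S : Set (κ.ord * δ + ω * η).ToType := {v | ∃ x ∈ S', v = g₂ (e x).1} with hSdef
    have hSA : S ⊆ A₂ := by
      rintro _ ⟨x, -, rfl⟩
      exact hg₂ _ (e x).2
    have hST : TG S (ω * η) :=
      ⟨fun x => g₂ (e (g' x)).1, fun x hx => ⟨g' x, hg' x hx, rfl⟩,
        fun x y hxy hy => hmono _ _ (hm' x y hxy hy)⟩
    have hanti : ∀ x ∈ S, ∀ y ∈ S, x ≠ y → x ∉ out y := by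
      rintro _ ⟨x, hx, rfl⟩ _ ⟨y, hy, rfl⟩ hne hout
      refine hS' x hx y hy ⟨?_, Or.inl hout⟩
      rintro rfl
      exact hne rfl
    have hScard : #S < κ := by
      have h1 : S ⊆ Set.range (fun x : (ω * η).ToType => g₂ (e x).1) := by
        rintro _ ⟨x, -, rfl⟩
        exact ⟨x, rfl⟩
      refine lt_of_le_of_lt ((Cardinal.mk_le_mk_of_subset h1).trans Cardinal.mk_range_le) ?_
      rw [Cardinal.mk_toType]
      exact Cardinal.lt_ord.1 hη
    obtain ⟨T, hTS, hTT, hTd⟩ := hST.split_omega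
    let D : ℕ → Set (κ.ord * δ + ω * η).ToType := fun r => {v | ∀ u ∈ out v, u ∉ T r}
    have hD : ∀ v ∈ A₁, ∀ r s, r ≠ s → v ∈ D r ∨ v ∈ D s := by
      intro v _ r s hrs
      by_contra hcon
      rw [not_or] at hcon
      simp only [D, Set.mem_ofPred_eq, not_forall, not_not] at hcon
      obtain ⟨⟨x, hx, hxr⟩, ⟨y, hy, hys⟩⟩ := hcon
      have hne : x ≠ y := by
        rintro rfl
        exact hTd r s hrs x hxr hys
      rcases hchain v (Set.mem_univ v) x hx y hy with h1 | h1 | h1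
      · exact hne h1
      · exact hanti x (hTS r hxr) y (hTS s hys) hne h1
      · exact hanti y (hTS s hys) x (hTS r hxr) hne.symm h1
    have hbad := fb_all (κ.ord * δ) _ A₁ D hA₁ hD
    obtain ⟨r, hr⟩ := hbad.infinite_compl.nonempty
    simp only [Set.mem_compl_iff, Set.mem_ofPred_eq, not_not] at hr
    have hTc : #(T r) < κ := lt_of_le_of_lt (Cardinal.mk_le_mk_of_subset (hTS r)) hScard
    have hRc : #(⋃ s ∈ T r, out s : Set (κ.ord * δ + ω * η).ToType) < κ := by
      rw [Cardinal.card_biUnion_lt_iff_forall_of_isRegular hκ hTc]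
      intro s _
      exact lt_of_lt_of_le (hfin s (Set.mem_univ s)).lt_aleph0 hκ.1
    have hA₁' := TG.remove hκ hRc δ _ hr
    obtain ⟨X, hXA, hXf, hXT⟩ := exists_free hκ hν hνκ hV
      (fun v => (hfin v (Set.mem_univ v)).toFinset) (Dvd.intro δ rfl) hlt hA₁'
    have hfree : ∀ x ∈ X, ∀ y ∈ X, x ≠ y → y ∉ out x := by
      intro x hx y hy hne hout
      exact hXf x hx y hy hne (by simpa using hout)
    refine ⟨X ∪ T r, ?_, ?_⟩
    · have hXT' : ∀ x ∈ X, ∀ y ∈ T r, x ∉ out y ∧ y ∉ out x := by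
        intro x hx y hy
        have h1 := hXA hx
        refine ⟨fun hout => h1.2 ?_, fun hout => h1.1.2 y hout hy⟩
        exact Set.mem_biUnion hy hout
      rintro x hx y hy hxy
      have hne : x ≠ y := hxy.ne
      have h1 := hadj x (Set.mem_univ x) y (Set.mem_univ y) hxy
      rcases hx with hx | hx <;> rcases hy with hy | hy
      · rcases h1 with h1 | h1
        · exact hfree y hy x hx hne.symm h1
        · exact hfree x hx y hy hne h1
      · rcases h1 with h1 | h1
        · exact (hXT' x hx y hy).1 h1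
        · exact (hXT' x hx y hy).2 h1
      · rcases h1 with h1 | h1
        · exact (hXT' y hy x hx).2 h1
        · exact (hXT' y hy x hx).1 h1
      · rcases h1 with h1 | h1
        · exact hanti x (hTS r hx) y (hTS r hy) hne h1
        · exact hanti y (hTS r hy) x (hTS r hx) hne.symm h1
    · refine typ_eq_of_tg (hXT.add (hTT r) ?_)
      intro x hx y hy
      exact hlt12 x (hXA hx).1.1 y (hSA (hTS r hy))
  · left
    exact exists_path G hR

/-- The full statement. -/
theorem pi_iff {κ ν : Cardinal.{0}} (hκ : κ.IsRegular) (hν : ℵ₀ ≤ ν) (hνκ : ν < κ)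
    (δ : Ordinal.{0}) (hlt : κ.ord * δ < κ.ord ^ (ν.ord + 2)) :
    PI (κ.ord * δ) ∧ ∀ ε : Ordinal.{0}, ε < κ.ord → Order.IsSuccLimit ε →
      (PI (κ.ord * δ + ε) ↔ PI ε) := by
  refine ⟨?_, fun ε hε hl => ⟨pi_tail, fun h => ?_⟩⟩
  · rcases eq_or_ne δ 0 with rfl | hδ
    · rw [mul_zero]; exact pi_zero
    · have hne : κ.ord * δ ≠ 0 := mul_ne_zero (zero_lt_one.trans (one_lt_ord hκ)).ne' hδ
      exact fun G => graph_theorem hκ hν hνκ _ hne (Dvd.intro δ rfl) hlt G
  · obtain ⟨h0, η, rfl⟩ := Ordinal.isSuccLimit_iff_omega0_dvd.1 hl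
    refine pi_ext hκ hν hνκ δ η hlt hε ?_ h
    rintro rfl
    exact h0 (mul_zero _)

end Pool.Agent.H68.OG
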