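import Mathlib
import Pool.Agent.Lib_helper68.OG10

/-!
One phase of the construction of free sets for singular cardinals.
-/

set_option autoImplicit false
set_option linter.unusedSectionVars false
set_option linter.deprecated false

open Cardinal Ordinal Set

namespace Pool.Agent.H68.OG

theorem exists_rec' {W : Type} [LinearOrder W] [WellFoundedLT W] {Y : Type*} [Nonempty Y]
    (S : W → (W → Y) → Y → Prop) (hS : ∀ c g, ∃ y, S c g y)
    (hcongr : ∀ c g g' y, (∀ d < c, g d = g' d) → S c g y → S c g' y) :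
    ∃ N : W → Y, ∀ c, S c N (N c) := by
  classical
  choose st hst using hS
  have hwf : WellFounded (fun a b : W => a < b) := wellFounded_lt
  let N : W → Y := hwf.fix (fun c rec => st c (fun d => if h : d < c then rec d h else
    Classical.arbitrary Y))
  have hN : ∀ c, N c = st c (fun d => if _ : d < c then N d else Classical.arbitrary Y) := by
    intro c
    exact hwf.fix_eq _ c
  refine ⟨N, fun c => ?_⟩
  have h1 := hst c (fun d => if _ : d < c then N d else Classical.arbitrary Y)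
  rw [← hN c] at h1
  refine hcongr c _ N _ ?_ h1
  intro d hd
  simp [hd]

variable {V : Type} [LinearOrder V] [WellFoundedLT V]

theorem phase_step {ρ μ : Cardinal.{0}} (hρ : ρ.IsRegular) (hμρ : μ < ρ) (hμ0 : ℵ₀ ≤ μ)
    (f : V → Finset V) {N : Type} (hN : #N < ρ) (E : N → Set V) (hE : ∀ n, ρ ≤ #(E n))
    (hdisj : ∀ n m, n ≠ m → ∀ v ∈ E n, v ∉ E m) (K : μ.ord.ToType → Set V)
    (hK : #(⋃ η, K η) < ρ) (hKd : ∀ η ζ, η ≠ ζ → ∀ v ∈ K η, v ∉ K ζ) :
    ∃ Y : μ.ord.ToType → Set V,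
      (∀ η ζ, η ≠ ζ → ∀ v ∈ Y η, v ∉ Y ζ) ∧ (∀ η, ∀ v ∈ Y η, ∀ ζ, v ∉ K ζ) ∧ #(⋃ η, Y η) ≤ ρ ∧
      (∀ η, ∀ v ∈ Y η, (∀ ζ, ∀ w ∈ K ζ, v ∉ f w) ∧ ∀ w ∈ f v, w ∉ K η) ∧
      (∀ η, ∀ v ∈ Y η, ∀ w ∈ Y η, v ≠ w → w ∉ f v) ∧
      ∀ n, ∃ b : Finset μ.ord.ToType, ∀ η, η ∉ b → ρ ≤ #(Y η ∩ E n : Set V) := by
  classical
  have hρ0 : ℵ₀ < ρ := lt_of_le_of_lt hμ0 hμρ
  have hMc : #μ.ord.ToType = μ := by rw [Cardinal.mk_toType, Cardinal.card_ord]
  have hRc : #ρ.ord.ToType = ρ := by rw [Cardinal.mk_toType, Cardinal.card_ord]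
  have hMne : Nonempty μ.ord.ToType := by
    rw [← Cardinal.mk_ne_zero_iff, hMc]
    exact (aleph0_pos.trans_le hμ0).ne'
  rcases isEmpty_or_nonempty N with hNe | hNn
  · refine ⟨fun _ => ∅, ?_, ?_, ?_, ?_, ?_, fun n => (hNe.false n).elim⟩
    · intro η ζ _ v hv; exact absurd hv (Set.notMem_empty v)
    · intro η v hv; exact absurd hv (Set.notMem_empty v)
    · simp
    · intro η v hv; exact absurd hv (Set.notMem_empty v)
    · intro η v hv; exact absurd hv (Set.notMem_empty v)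
  -- the set to be avoided
  set K₀ : Set V := ⋃ η, K η with hK₀
  let R : Set V := K₀ ∪ ⋃ w ∈ K₀, (f w : Set V)
  have hRcard : #R < ρ := by
    refine lt_of_le_of_lt (Cardinal.mk_union_le _ _) (Cardinal.add_lt_of_lt hρ.1 hK ?_)
    refine (Cardinal.card_biUnion_lt_iff_forall_of_isRegular
      (t := fun w _ => (f w : Set V)) hρ hK).2 ?_
    intro w _
    exact lt_of_lt_of_le (Cardinal.lt_aleph0_iff_set_finite.2 (f w).finite_toSet) hρ.1
  -- bad colours
  have hfinbad : ∀ v : V, {η | ∃ w ∈ f v, w ∈ K η}.Finite := by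
    intro v
    have h1 : {η | ∃ w ∈ f v, w ∈ K η} ⊆ ⋃ w ∈ f v, {η | w ∈ K η} := by
      rintro η ⟨w, hw, hwη⟩
      exact Set.mem_biUnion hw hwη
    refine Set.Finite.subset (Set.Finite.biUnion (f v).finite_toSet ?_) h1
    intro w _
    refine Set.Subsingleton.finite ?_
    intro η hη ζ hζ
    by_contra hne
    exact hKd η ζ hne w hη hζ
  let bad : V → Finset μ.ord.ToType := fun v => (hfinbad v).toFinset
  have hbad : ∀ v η, η ∈ bad v ↔ ∃ w ∈ f v, w ∈ K η := by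
    intro v η
    simp [bad]
  have hFin : #(Finset μ.ord.ToType) < ρ := by
    have : Infinite μ.ord.ToType := by
      rw [Cardinal.infinite_iff, hMc]; exact hμ0
    rw [Cardinal.mk_finset_of_infinite, hMc]
    exact hμρ
  -- choose pieces
  have hpiece : ∀ n, ∃ b : Finset μ.ord.ToType,
      ρ ≤ #{v : V | v ∈ E n ∧ v ∉ R ∧ bad v = b} := by
    intro n
    have h1 : ρ ≤ #(E n \ R : Set V) := by
      by_contra hcon
      rw [not_le] at hcon
      have h5 : E n ⊆ (E n \ R) ∪ R := by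
        intro x hx
        by_cases hxR : x ∈ R
        · exact Or.inr hxR
        · exact Or.inl ⟨hx, hxR⟩
      have h6 := (Cardinal.mk_le_mk_of_subset h5).trans (Cardinal.mk_union_le _ _)
      exact absurd (Cardinal.add_lt_of_lt hρ.1 hcon hRcard) (not_lt.2 ((hE n).trans h6))
    obtain ⟨b, hb⟩ := Cardinal.infinite_pigeonhole_card
      (fun v : (E n \ R : Set V) => bad v.1) ρ h1 hρ.1 (by rw [hρ.cof_eq]; exact hFin)
    refine ⟨b, hb.trans ?_⟩
    refine Cardinal.mk_le_of_injective (f := fun v :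
      ((fun v : (E n \ R : Set V) => bad v.1) ⁻¹' {b}) =>
      (⟨v.1.1, v.1.2.1, v.1.2.2, v.2⟩ : {v : V | v ∈ E n ∧ v ∉ R ∧ bad v = b})) ?_
    intro x y hxy
    have h7 := congrArg Subtype.val hxy
    exact Subtype.ext (Subtype.ext h7)
  choose b hb using hpiece
  have hemb : ∀ n, ∃ e : μ.ord.ToType × ρ.ord.ToType → V, Function.Injective e ∧
      ∀ x, e x ∈ E n ∧ e x ∉ R ∧ bad (e x) = b n := by
    intro n
    have h1 : #(μ.ord.ToType × ρ.ord.ToType) ≤ #{v : V | v ∈ E n ∧ v ∉ R ∧ bad v = b n} := by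
      rw [Cardinal.mk_prod, Cardinal.lift_id, Cardinal.lift_id, hMc, hRc]
      rw [Cardinal.mul_eq_right hρ.1 hμρ.le (aleph0_pos.trans_le hμ0).ne']
      exact hb n
    obtain ⟨e⟩ := Cardinal.le_def _ _ |>.1 h1
    exact ⟨fun x => (e x).1, fun x y hxy => e.injective (Subtype.ext hxy), fun x => (e x).2⟩
  choose e hei hem using hemb
  -- the small universe
  let V' : Set V := {v | ∃ n x, v = e n x}
  have hV' : #V' ≤ ρ := by
    have h1 : V' ⊆ Set.range (fun p : N × (μ.ord.ToType × ρ.ord.ToType) => e p.1 p.2) := by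
      rintro v ⟨n, x, rfl⟩
      exact ⟨(n, x), rfl⟩
    refine (Cardinal.mk_le_mk_of_subset h1).trans (Cardinal.mk_range_le.trans ?_)
    rw [Cardinal.mk_prod, Cardinal.mk_prod]
    simp only [Cardinal.lift_id]
    rw [hMc, hRc]
    exact Cardinal.mul_le_of_le hρ.1 hN.le (Cardinal.mul_le_of_le hρ.1 hμρ.le le_rfl)
  have hV'ne : Nonempty V' := by
    have hRne : Nonempty ρ.ord.ToType := by
      rw [← Cardinal.mk_ne_zero_iff, hRc]; exact hρ.pos.ne'
    exact ⟨⟨e hNn.some (hMne.some, hRne.some), hNn.some, _, rfl⟩⟩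
  let f' : V' → Finset V' := fun v => (f v.1).subtype (fun w => w ∈ V')
  obtain ⟨r⟩ : Nonempty (V' ↪ ρ.ord.ToType) := by
    rw [← Cardinal.le_def, hRc]; exact hV'
  let S' : N × μ.ord.ToType → Set V' := fun p => {v | ∃ i, v.1 = e p.1 (p.2, i)}
  have hS' : ∀ p, ρ ≤ #(S' p) := by
    intro p
    calc ρ = #ρ.ord.ToType := hRc.symm
      _ ≤ #(S' p) := by
        refine Cardinal.mk_le_of_injective (f := fun i =>
          (⟨⟨e p.1 (p.2, i), p.1, (p.2, i), rfl⟩, i, rfl⟩ : S' p)) ?_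
        intro i j hij
        have h1 := congrArg (fun z : S' p => z.1.1) hij
        have h2 := hei p.1 h1
        exact (Prod.mk.inj h2).2
  have hbl : ∀ p, ∃ B : ρ.ord.ToType → Set V', (∀ i, B i ⊆ S' p) ∧ (∀ i, TG (B i) 1) ∧
      ∀ i j, i < j → ∀ x ∈ B i, ∀ y ∈ B j, x < y := by
    intro p
    have h1 : TG (S' p) (1 * ρ.ord) := by
      rw [one_mul, tg_iff, Cardinal.ord_le]
      unfold typ
      rw [Ordinal.card_type]
      exact hS' p
    exact h1.blocks
  choose B hBS hBT hBm using hbl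
  have hP : #(N × μ.ord.ToType) < ρ := by
    rw [Cardinal.mk_prod, Cardinal.lift_id, Cardinal.lift_id, hMc]
    exact Cardinal.mul_lt_of_lt hρ.1 hN hμρ
  obtain ⟨X, hXf, hXp⟩ := main_lemma hρ le_rfl hρ0 f' r r.injective hP B (fun _ => 0)
    hBm (fun _ => by simpa using aleph0_pos) (fun p i => by
      rw [Ordinal.opow_zero]; exact hBT p i)
  refine ⟨fun η => {v | ∃ n, η ∉ b n ∧ ∃ h : v ∈ V', (⟨v, h⟩ : V') ∈ X ∧ (⟨v, h⟩ : V') ∈ S' (n, η)},
    ?_, ?_, ?_, ?_, ?_, ?_⟩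
  · rintro η ζ hηζ v ⟨n, hn, h, -, i, hi⟩ ⟨m, hm, h', -, j, hj⟩
    have h1 : v = e n (η, i) := hi
    have h2 : v = e m (ζ, j) := hj
    have hnm : n = m := by
      by_contra hne
      exact hdisj n m hne v (by rw [h1]; exact (hem n _).1) (by rw [h2]; exact (hem m _).1)
    subst hnm
    have h3 := hei n (h1.symm.trans h2)
    exact hηζ (Prod.mk.inj h3).1
  · rintro η v ⟨n, hn, h, -, i, hi⟩ ζ hvK
    have h1 : v = e n (η, i) := hi
    have h2 := (hem n (η, i)).2.1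
    rw [← h1] at h2
    exact h2 (Or.inl (Set.mem_iUnion.2 ⟨ζ, hvK⟩))
  · refine (Cardinal.mk_le_mk_of_subset ?_).trans hV'
    intro v hv
    obtain ⟨η, n, -, h, -⟩ := Set.mem_iUnion.1 hv
    exact h
  · rintro η v ⟨n, hn, h, -, i, hi⟩
    have h1 : v = e n (η, i) := hi
    constructor
    · intro ζ w hw hvw
      have h2 := (hem n (η, i)).2.1
      rw [← h1] at h2
      exact h2 (Or.inr (Set.mem_biUnion (Set.mem_iUnion.2 ⟨ζ, hw⟩) hvw))
    · intro w hw hwK
      have h2 := (hem n (η, i)).2.2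
      rw [← h1] at h2
      have h3 : η ∈ bad v := (hbad v η).2 ⟨w, hw, hwK⟩
      rw [h2] at h3
      exact hn h3
  · rintro η v ⟨n, hn, h, hvX, -⟩ w ⟨m, hm, h', hwX, -⟩ hvw hmem
    refine hXf ⟨v, h⟩ hvX ⟨w, h'⟩ hwX ?_ ?_
    · intro heq
      exact hvw (congrArg Subtype.val heq)
    · simp only [f', Finset.mem_subtype]
      exact hmem
  · intro n
    refine ⟨b n, fun η hη => ?_⟩
    refine (hXp (n, η)).trans ?_
    have hch : ∀ i : {i : ρ.ord.ToType | TG (X ∩ B (n, η) i) (ρ.ord ^ (0 : Ordinal.{0}))},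
        ∃ v : V', v ∈ X ∧ v ∈ B (n, η) i.1 := by
      rintro ⟨i, hi⟩
      rw [Set.mem_ofPred_eq, Ordinal.opow_zero] at hi
      obtain ⟨v, hv⟩ := hi.nonempty zero_lt_one
      exact ⟨v, hv⟩
    choose u hu1 hu2 using hch
    refine Cardinal.mk_le_of_injective (f := fun i => (⟨(u i).1, ?_, ?_⟩ :
      ({v | ∃ n, η ∉ b n ∧ ∃ h : v ∈ V', (⟨v, h⟩ : V') ∈ X ∧ (⟨v, h⟩ : V') ∈ S' (n, η)} ∩ E n :
        Set V))) ?_
    · exact ⟨n, hη, (u i).2, hu1 i, hBS _ _ (hu2 i)⟩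
    · obtain ⟨j, hj⟩ := hBS _ _ (hu2 i)
      rw [hj]
      exact (hem n _).1
    · intro i j hij
      have h1 : (u i).1 = (u j).1 := by
        have h0 := Subtype.mk.inj hij
        exact h0
      have h2 : u i = u j := Subtype.ext h1
      rcases lt_trichotomy i.1 j.1 with h | h | h
      · exact absurd (hBm _ _ _ h _ (hu2 i) _ (hu2 j)) (by rw [h2]; exact lt_irrefl _)
      · exact Subtype.ext h
      · exact absurd (hBm _ _ _ h _ (hu2 j) _ (hu2 i)) (by rw [h2]; exact lt_irrefl _)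

end Pool.Agent.H68.OG
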