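import Mathlib
import Pool.Agent.Lib_helper68.OG11

/-!
Free sets for singular cardinals.
-/

set_option autoImplicit false
set_option linter.unusedSectionVars false
set_option linter.deprecated false

open Cardinal Ordinal Set

namespace Pool.Agent.H68.OG

theorem succ_lt_of_cof {κ μ : Cardinal.{0}} (hμ0 : ℵ₀ ≤ μ) (hμκ : μ < κ)
    (hcof : κ.ord.cof < μ) {x : Cardinal.{0}} (hx : x < κ) : Order.succ x < κ := by
  rcases (Order.succ_le_of_lt hx).lt_or_eq with h | h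
  · exact h
  · exfalso
    have hx0 : ℵ₀ ≤ x := by
      by_contra hcon
      rw [not_le] at hcon
      have h1 : Order.succ x ≤ ℵ₀ := Order.succ_le_of_lt hcon
      rw [h] at h1
      exact absurd (h1.trans hμ0) (not_le.2 hμκ)
    have hr := Cardinal.isRegular_succ hx0
    rw [h] at hr
    rw [hr.cof_eq] at hcof
    exact absurd hcof (not_lt.2 hμκ.le)

theorem exists_scale {κ μ : Cardinal.{0}} (hμ0 : ℵ₀ ≤ μ) (hμκ : μ < κ) (hcof : κ.ord.cof < μ) :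
    ∃ (J : Type) (_ : LinearOrder J) (_ : WellFoundedLT J) (G : J → Ordinal.{0})
      (ρ : J → Cardinal.{0}), #J < μ ∧ (∀ j, (ρ j).IsRegular) ∧ (∀ j, μ < ρ j) ∧ (∀ j, ρ j < κ) ∧
      (∀ j, (G j).card < ρ j) ∧ (∀ a < κ.ord, ∃ j, a < G j) ∧
      (∀ j, Cardinal.sum (fun i : Iio j => ρ i.1) < ρ j) := by
  classical
  have hκ0 : ℵ₀ ≤ κ := hμ0.trans hμκ.le
  obtain ⟨s, hs, hsc⟩ := Order.exists_cof_eq κ.ord.ToType
  rw [Ordinal.cof_toType] at hsc
  have hJc : #κ.ord.cof.ord.ToType = κ.ord.cof := by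
    rw [Cardinal.mk_toType, Cardinal.card_ord]
  obtain ⟨φ⟩ := Cardinal.eq.1 (hJc.trans hsc.symm)
  let G : κ.ord.cof.ord.ToType → Ordinal.{0} := fun j =>
    Order.succ (Ordinal.ToType.mk.symm (φ j).1).1
  have hG : ∀ j, (G j).card < κ := by
    intro j
    have h1 : (Ordinal.ToType.mk.symm (φ j).1).1 < κ.ord := (Ordinal.ToType.mk.symm (φ j).1).2
    have h2 : G j < κ.ord := (Cardinal.isSuccLimit_ord hκ0).succ_lt h1
    exact Cardinal.lt_ord.1 h2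
  obtain ⟨ρ, hρ⟩ := exists_rec' (W := κ.ord.cof.ord.ToType) (Y := Cardinal.{0})
    (fun c g y => y = Order.succ (max (max μ (G c).card) (Cardinal.sum (fun i : Iio c => g i.1))))
    (fun c g => ⟨_, rfl⟩) (by
      intro c g g' y h hy
      rw [hy]
      congr 3
      funext i
      exact h i.1 i.2)
  have hκlt : ∀ j, ρ j < κ := by
    intro j
    induction j using WellFoundedLT.induction with
    | ind j IH =>
      rw [hρ j]
      refine succ_lt_of_cof hμ0 hμκ hcof (max_lt (max_lt hμκ (hG j)) ?_)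
      refine lt_of_le_of_lt (Cardinal.sum_le_mk_mul_iSup _) ?_
      have h1 : #(Iio j) < κ.ord.cof := by
        have := Cardinal.mk_Iio_toType_ord_lt j
        exact this
      refine Cardinal.mul_lt_of_lt hκ0 (h1.trans (hcof.trans hμκ)) ?_
      exact Cardinal.iSup_lt_of_lt_cof_ord h1 fun i => IH i.1 i.2
  refine ⟨κ.ord.cof.ord.ToType, inferInstance, inferInstance, G, ρ, ?_, ?_, ?_, hκlt, ?_, ?_, ?_⟩
  · rw [hJc]; exact hcof
  · intro j
    rw [hρ j]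
    exact Cardinal.isRegular_succ (hμ0.trans ((le_max_left _ _).trans (le_max_left _ _)))
  · intro j
    rw [hρ j]
    exact Order.lt_succ_of_le ((le_max_left _ _).trans (le_max_left _ _))
  · intro j
    rw [hρ j]
    exact Order.lt_succ_of_le ((le_max_right _ _).trans (le_max_left _ _))
  · intro a ha
    obtain ⟨y, hy, hay⟩ := hs (Ordinal.ToType.mk ⟨a, ha⟩)
    refine ⟨φ.symm ⟨y, hy⟩, ?_⟩
    simp only [G, Equiv.apply_symm_apply]
    refine Order.lt_succ_of_le ?_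
    have h1 := (Ordinal.ToType.mk (o := κ.ord)).symm.monotone hay
    simp only [OrderIso.symm_apply_apply] at h1
    exact h1
  · intro j
    conv_rhs => rw [hρ j]
    exact Order.lt_succ_of_le (le_max_right _ _)

variable {V : Type} [LinearOrder V] [WellFoundedLT V]

theorem singular_lemma {κ μ : Cardinal.{0}} (hμ : μ.IsRegular) (hμκ : μ < κ)
    (hcof : κ.ord.cof < μ) (f : V → Finset V) {Ξ : Type} (hΞ : #Ξ ≤ κ) (E : Ξ → Set V)
    (hE : ∀ ξ, κ ≤ #(E ξ)) (hdisj : ∀ ξ ζ, ξ ≠ ζ → ∀ v ∈ E ξ, v ∉ E ζ) :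
    ∃ X : μ.ord.ToType → Set V, (∀ η, ∀ x ∈ X η, ∀ y ∈ X η, x ≠ y → y ∉ f x) ∧
      ∀ ξ, ∃ β : μ.ord.ToType, ∀ η, β ≤ η → κ ≤ #(X η ∩ E ξ : Set V) := by
  classical
  have hμ0 : ℵ₀ ≤ μ := hμ.1
  have hκ0 : ℵ₀ ≤ κ := hμ0.trans hμκ.le
  obtain ⟨J, iJ, wJ, G, ρ, hJ, hρr, hμρ, hρκ, hGρ, hGcof, hsum⟩ := exists_scale hμ0 hμκ hcof
  obtain ⟨r⟩ : Nonempty (Ξ ↪ κ.ord.ToType) := by
    rw [← Cardinal.le_def, Cardinal.mk_toType, Cardinal.card_ord]; exact hΞ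
  let rr : Ξ → Ordinal.{0} := fun ξ => (Ordinal.ToType.mk.symm (r ξ)).1
  have hrr : Function.Injective rr := by
    intro a b hab
    exact r.injective ((Ordinal.ToType.mk (o := κ.ord)).symm.injective (Subtype.ext hab))
  have hrκ : ∀ ξ, rr ξ < κ.ord := fun ξ => (Ordinal.ToType.mk.symm (r ξ)).2
  have hN : ∀ j, #{ξ : Ξ // rr ξ < G j} < ρ j := by
    intro j
    refine lt_of_le_of_lt ?_ (hGρ j)
    rw [← Cardinal.mk_toType (G j)]
    refine Cardinal.mk_le_of_injective (f := fun ξ : {ξ : Ξ // rr ξ < G j} =>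
      (Ordinal.ToType.mk (o := G j) ⟨rr ξ.1, ξ.2⟩)) ?_
    intro a b hab
    have h1 := (Ordinal.ToType.mk (o := G j)).injective hab
    exact Subtype.ext (hrr (Subtype.mk.inj h1))
  let KK : J → (J → μ.ord.ToType → Set V) → μ.ord.ToType → Set V :=
    fun c g η => ⋃ d ∈ Iio c, g d η
  let S : J → (J → μ.ord.ToType → Set V) → (μ.ord.ToType → Set V) → Prop := fun c g Y =>
    (#(⋃ η, KK c g η) < ρ c → (∀ η ζ, η ≠ ζ → ∀ v ∈ KK c g η, v ∉ KK c g ζ) →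
      (∀ η ζ, η ≠ ζ → ∀ v ∈ Y η, v ∉ Y ζ) ∧ (∀ η, ∀ v ∈ Y η, ∀ ζ, v ∉ KK c g ζ) ∧
      #(⋃ η, Y η) ≤ ρ c ∧
      (∀ η, ∀ v ∈ Y η, (∀ ζ, ∀ w ∈ KK c g ζ, v ∉ f w) ∧ ∀ w ∈ f v, w ∉ KK c g η) ∧
      (∀ η, ∀ v ∈ Y η, ∀ w ∈ Y η, v ≠ w → w ∉ f v) ∧
      ∀ n : {ξ : Ξ // rr ξ < G c}, ∃ b : Finset μ.ord.ToType, ∀ η, η ∉ b →
        ρ c ≤ #(Y η ∩ E n.1 : Set V))
  obtain ⟨Y, hY⟩ := exists_rec' S (by
      intro c g
      by_cases h1 : #(⋃ η, KK c g η) < ρ c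
      · by_cases h2 : ∀ η ζ, η ≠ ζ → ∀ v ∈ KK c g η, v ∉ KK c g ζ
        · obtain ⟨Y, hY⟩ := phase_step (hρr c) (hμρ c) hμ0 f (hN c) (fun n => E n.1)
            (fun n => (hρκ c).le.trans (hE n.1))
            (fun n m hnm => hdisj n.1 m.1 fun h => hnm (Subtype.ext h)) (KK c g) h1 h2
          exact ⟨Y, fun _ _ => hY⟩
        · exact ⟨fun _ => ∅, fun _ h => absurd h h2⟩
      · exact ⟨fun _ => ∅, fun h => absurd h h1⟩) (by
      intro c g g' y h hS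
      have hKK : KK c g = KK c g' := by
        funext η
        simp only [KK]
        refine Set.iUnion₂_congr ?_
        intro d hd
        rw [h d hd]
      simp only [S] at hS ⊢
      rw [← hKK]
      exact hS)
  have hmem : ∀ c g η v, v ∈ KK c g η ↔ ∃ d, d < c ∧ v ∈ g d η := by
    intro c g η v
    simp only [KK, Set.mem_iUnion, Set.mem_Iio, exists_prop]
  -- all hypotheses hold along the recursion
  have hgood : ∀ c, #(⋃ η, Y c η) ≤ ρ c ∧ #(⋃ η, KK c Y η) < ρ c ∧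
      (∀ η ζ, η ≠ ζ → ∀ v ∈ KK c Y η, v ∉ KK c Y ζ) := by
    intro c
    induction c using WellFoundedLT.induction with
    | ind c IH =>
      have h1 : #(⋃ η, KK c Y η) < ρ c := by
        have h2 : (⋃ η, KK c Y η) ⊆ ⋃ d : Iio c, ⋃ η, Y d.1 η := by
          intro v hv
          obtain ⟨η, hη⟩ := Set.mem_iUnion.1 hv
          obtain ⟨d, hd, hvd⟩ := (hmem c Y η v).1 hη
          exact Set.mem_iUnion.2 ⟨⟨d, hd⟩, Set.mem_iUnion.2 ⟨η, hvd⟩⟩
        refine lt_of_le_of_lt (Cardinal.mk_le_mk_of_subset h2) ?_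
        refine lt_of_le_of_lt (Cardinal.mk_iUnion_le_sum_mk) ?_
        refine lt_of_le_of_lt ?_ (hsum c)
        exact Cardinal.sum_le_sum _ _ fun d => (IH d.1 d.2).1
      have h3 : ∀ η ζ, η ≠ ζ → ∀ v ∈ KK c Y η, v ∉ KK c Y ζ := by
        intro η ζ hne v hv hv'
        obtain ⟨d, hd, hvd⟩ := (hmem c Y η v).1 hv
        obtain ⟨d', hd', hvd'⟩ := (hmem c Y ζ v).1 hv'
        rcases lt_trichotomy d d' with h | h | h
        · have h4 := (hY d' (IH d' hd').2.1 (IH d' hd').2.2).2.1 ζ v hvd' η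
          exact h4 ((hmem d' Y η v).2 ⟨d, h, hvd⟩)
        · subst h
          exact (hY d (IH d hd).2.1 (IH d hd).2.2).1 η ζ hne v hvd hvd'
        · have h4 := (hY d (IH d hd).2.1 (IH d hd).2.2).2.1 η v hvd ζ
          exact h4 ((hmem d Y ζ v).2 ⟨d', h, hvd'⟩)
      exact ⟨(hY c h1 h3).2.2.1, h1, h3⟩
  have hprop := fun c => hY c (hgood c).2.1 (hgood c).2.2
  refine ⟨fun η => ⋃ c, Y c η, ?_, ?_⟩
  · intro η x hx y hy hne hyx
    obtain ⟨c, hc⟩ := Set.mem_iUnion.1 hx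
    obtain ⟨d, hd⟩ := Set.mem_iUnion.1 hy
    rcases lt_trichotomy c d with h | h | h
    · exact ((hprop d).2.2.2.1 η y hd).1 η x ((hmem d Y η x).2 ⟨c, h, hc⟩) hyx
    · subst h
      exact (hprop c).2.2.2.2.1 η x hc y hd hne hyx
    · exact ((hprop c).2.2.2.1 η x hc).2 y hyx ((hmem c Y η y).2 ⟨d, h, hd⟩)
  · intro ξ
    have hb : ∀ c, ∃ b : Finset μ.ord.ToType, rr ξ < G c → ∀ η, η ∉ b →
        ρ c ≤ #(Y c η ∩ E ξ : Set V) := by
      intro c
      by_cases h : rr ξ < G c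
      · obtain ⟨b, hb⟩ := (hprop c).2.2.2.2.2 ⟨ξ, h⟩
        exact ⟨b, fun _ => hb⟩
      · exact ⟨∅, fun h' => absurd h' h⟩
    choose b hb using hb
    have hsm : #(⋃ c, (b c : Set μ.ord.ToType)) < μ := by
      refine (Cardinal.card_iUnion_lt_iff_forall_of_isRegular hμ hJ).2 ?_
      intro c
      exact lt_of_lt_of_le (Cardinal.lt_aleph0_iff_set_finite.2 (b c).finite_toSet) hμ0
    obtain ⟨β, hβ⟩ := exists_bound hμ _ hsm
    refine ⟨β, fun η hη => ?_⟩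
    by_contra hcon
    rw [not_le] at hcon
    have h1 : max (rr ξ) (#((⋃ c, Y c η) ∩ E ξ : Set V)).ord < κ.ord :=
      max_lt (hrκ ξ) (Cardinal.ord_lt_ord.2 hcon)
    obtain ⟨c, hc⟩ := hGcof _ h1
    have h2 : rr ξ < G c := (le_max_left _ _).trans_lt hc
    have h3 : η ∉ b c := by
      intro hη'
      exact absurd (hβ η (Set.mem_iUnion.2 ⟨c, hη'⟩)) (not_lt.2 hη)
    have h4 := hb c h2 η h3
    have h5 : #(Y c η ∩ E ξ : Set V) ≤ #((⋃ c, Y c η) ∩ E ξ : Set V) := by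
      refine Cardinal.mk_le_mk_of_subset ?_
      rintro v ⟨hv1, hv2⟩
      exact ⟨Set.mem_iUnion.2 ⟨c, hv1⟩, hv2⟩
    have h6 : (#((⋃ c, Y c η) ∩ E ξ : Set V)).ord < G c := (le_max_right _ _).trans_lt hc
    have h7 : #((⋃ c, Y c η) ∩ E ξ : Set V) ≤ (G c).card := by
      rw [← Cardinal.card_ord (#((⋃ c, Y c η) ∩ E ξ : Set V))]
      exact Ordinal.card_le_card h6.le
    exact absurd (h7.trans_lt (hGρ c)) (not_lt.2 (h4.trans h5))

end Pool.Agent.H68.OG
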