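import Mathlib
import Pool.Agent.Lib_helper68.OG12

/-!
Pigeonhole for increasing unions, and free sets of large order type for singular cardinals.
-/

set_option autoImplicit false
set_option linter.unusedSectionVars false
set_option linter.deprecated false

open Cardinal Ordinal Set

namespace Pool.Agent.H68.OG

/-- Pigeonhole for increasing unions of length `μ`. -/
def PG (μ : Cardinal.{0}) (δ : Ordinal.{0}) : Prop :=
  ∀ (V : Type) [LinearOrder V] [WellFoundedLT V] [Nonempty V] (A : Set V)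
    (C : μ.ord.ToType → Set V), (∀ η ζ, η ≤ ζ → C η ⊆ C ζ) → (∀ v ∈ A, ∃ η, v ∈ C η) →
    TG A δ → ∃ η, TG (A ∩ C η) δ

theorem pg_zero {μ : Cardinal.{0}} (hμ : μ.IsRegular) : PG μ 0 := by
  intro V _ _ _ A C _ _ _
  have hMne : Nonempty μ.ord.ToType := by
    rw [← Cardinal.mk_ne_zero_iff, Cardinal.mk_toType, Cardinal.card_ord]
    exact hμ.pos.ne'
  exact ⟨hMne.some, tg_zero _⟩

theorem pg_add {μ : Cardinal.{0}} {a b : Ordinal.{0}} (ha : PG μ a) (hb : PG μ b) :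
    PG μ (a + b) := by
  intro V _ _ _ A C hC hA hT
  obtain ⟨S, T, hSA, hTA, hS, hT, hST⟩ := hT.split
  obtain ⟨η, hη⟩ := ha V S C hC (fun v hv => hA v (hSA hv)) hS
  obtain ⟨ζ, hζ⟩ := hb V T C hC (fun v hv => hA v (hTA hv)) hT
  refine ⟨max η ζ, (hη.add hζ fun x hx y hy => hST x hx.1 y hy.1).mono ?_⟩
  rintro x (hx | hx)
  · exact ⟨hSA hx.1, hC _ _ (le_max_left _ _) hx.2⟩
  · exact ⟨hTA hx.1, hC _ _ (le_max_right _ _) hx.2⟩

theorem exists_many {κ μ : Cardinal.{0}} (hμ : μ.IsRegular) (hμκ : μ < κ)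
    (hcof : κ.ord.cof < μ) (h : κ.ord.ToType → μ.ord.ToType) :
    ∃ η, κ ≤ #{i | h i ≤ η} := by
  classical
  obtain ⟨J, iJ, wJ, G, ρ, hJ, hρr, hμρ, hρκ, hGρ, hGcof, -⟩ := exists_scale hμ.1 hμκ hcof
  have ha : ∀ j, ∃ a, ρ j ≤ #(h ⁻¹' {a}) := by
    intro j
    refine Cardinal.infinite_pigeonhole_card h (ρ j) ?_ (hρr j).1 ?_
    · rw [Cardinal.mk_toType, Cardinal.card_ord]
      exact (hρκ j).le
    · rw [(hρr j).cof_eq, Cardinal.mk_toType, Cardinal.card_ord]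
      exact hμρ j
  choose a ha using ha
  obtain ⟨η, hη⟩ := exists_bound hμ (Set.range a) (Cardinal.mk_range_le.trans_lt hJ)
  refine ⟨η, ?_⟩
  by_contra hcon
  rw [not_le] at hcon
  obtain ⟨j, hj⟩ := hGcof _ (Cardinal.ord_lt_ord.2 hcon)
  have h1 : #{i | h i ≤ η} ≤ (G j).card := by
    rw [← Cardinal.card_ord (#{i | h i ≤ η})]
    exact Ordinal.card_le_card hj.le
  have h2 : ρ j ≤ #{i | h i ≤ η} := by
    refine (ha j).trans (Cardinal.mk_le_mk_of_subset ?_)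
    intro i hi
    have h3 : h i = a j := hi
    show h i ≤ η
    rw [h3]
    exact (hη _ ⟨j, rfl⟩).le
  exact absurd (h1.trans_lt (hGρ j)) (not_lt.2 h2)

theorem pg_opow {κ μ : Cardinal.{0}} (hμ : μ.IsRegular) (hμκ : μ < κ)
    (hcof : κ.ord.cof < μ) (γ : Ordinal.{0}) : γ.card < μ → PG μ (κ.ord ^ γ) := by
  classical
  have hκ0 : ℵ₀ ≤ κ := hμ.1.trans hμκ.le
  have h1 : 1 < κ.ord := by
    rw [Cardinal.lt_ord]
    simpa using one_lt_aleph0.trans_le hκ0
  induction γ using WellFoundedLT.induction with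
  | ind γ IH =>
    intro hγ V _ _ _ A C hC hA hT
    rcases eq_or_ne γ 0 with rfl | hγ0
    · rw [Ordinal.opow_zero] at hT ⊢
      obtain ⟨v, hv⟩ := hT.nonempty zero_lt_one
      obtain ⟨η, hη⟩ := hA v hv
      exact ⟨η, tg_one (v := v) ⟨hv, hη⟩⟩
    · have key : ∀ s : γ.ToType, ∃ η, TG (A ∩ C η)
          (κ.ord ^ (Ordinal.ToType.mk.symm s).1 * κ.ord) := by
        intro s
        have hs : (Ordinal.ToType.mk.symm s).1 < γ := (Ordinal.ToType.mk.symm s).2
        obtain ⟨B, hBA, hBt, hBm⟩ := (hT.opow_lt h1 hs).blocks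
        have hB : ∀ i, ∃ η, TG (B i ∩ C η) (κ.ord ^ (Ordinal.ToType.mk.symm s).1) := fun i =>
          IH _ hs (lt_of_le_of_lt (Ordinal.card_le_card hs.le) hγ) V (B i) C hC
            (fun v hv => hA v (hBA i hv)) (hBt i)
        choose h hh using hB
        obtain ⟨η, hη⟩ := exists_many hμ hμκ hcof h
        refine ⟨η, tg_of_blocks hBm _ hη ?_⟩
        intro i hi
        refine (hh i).mono ?_
        rintro v ⟨hv1, hv2⟩
        exact ⟨⟨hBA i hv1, hC _ _ hi hv2⟩, hv1⟩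
      choose h hh using key
      obtain ⟨η, hη⟩ := exists_bound hμ (Set.range h) (Cardinal.mk_range_le.trans_lt (by
        rw [Cardinal.mk_toType]; exact hγ))
      refine ⟨η, tg_opow h1 hγ0 ?_⟩
      intro s hs
      have h2 := hh (Ordinal.ToType.mk ⟨s, hs⟩)
      simp only [OrderIso.symm_apply_apply] at h2
      refine h2.mono ?_
      rintro v ⟨hv1, hv2⟩
      exact ⟨hv1, hC _ _ (hη _ ⟨_, rfl⟩).le hv2⟩

theorem pg_mul {μ : Cardinal.{0}} (hμ : μ.IsRegular) {a : Ordinal.{0}} (ha : PG μ a) :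
    ∀ c : Ordinal.{0}, c.card < μ → PG μ (a * c) := by
  classical
  intro c
  induction c using WellFoundedLT.induction with
  | ind c IH =>
    intro hc
    rcases Ordinal.zero_or_succ_or_isSuccLimit c with rfl | ⟨c', rfl⟩ | hl
    · rw [mul_zero]
      exact pg_zero hμ
    · rw [Ordinal.mul_succ]
      exact pg_add (IH c' (Order.lt_succ c')
        (lt_of_le_of_lt (Ordinal.card_le_card (Order.lt_succ c').le) hc)) ha
    · intro V _ _ _ A C hC hA hT
      have key : ∀ s : c.ToType, ∃ η, TG (A ∩ C η) (a * (Ordinal.ToType.mk.symm s).1) := by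
        intro s
        have hs : (Ordinal.ToType.mk.symm s).1 < c := (Ordinal.ToType.mk.symm s).2
        exact IH _ hs (lt_of_le_of_lt (Ordinal.card_le_card hs.le) hc) V A C hC hA
          (hT.le (mul_le_mul_right hs.le a))
      choose h hh using key
      obtain ⟨η, hη⟩ := exists_bound hμ (Set.range h) (Cardinal.mk_range_le.trans_lt (by
        rw [Cardinal.mk_toType]; exact hc))
      refine ⟨η, tg_of_forall_lt ?_⟩
      intro d hd
      obtain ⟨ζ, hζ, hcζ⟩ := (Ordinal.lt_mul_iff_of_isSuccLimit hl).1 hd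
      refine ⟨_, hcζ, ?_⟩
      have h2 := hh (Ordinal.ToType.mk ⟨ζ, hζ⟩)
      simp only [OrderIso.symm_apply_apply] at h2
      refine h2.mono ?_
      rintro v ⟨hv1, hv2⟩
      exact ⟨hv1, hC _ _ (hη _ ⟨_, rfl⟩).le hv2⟩

theorem one_lt_ord' {κ : Cardinal.{0}} (hκ : ℵ₀ ≤ κ) : 1 < κ.ord := by
  rw [Cardinal.lt_ord]
  simpa using one_lt_aleph0.trans_le hκ

theorem card_log_le {κ ν : Cardinal.{0}} (hκ : ℵ₀ ≤ κ) (hν : ℵ₀ ≤ ν) {δ : Ordinal.{0}}
    (hδ : δ ≠ 0) (hlt : δ < κ.ord ^ (ν.ord + 2)) : (Ordinal.log κ.ord δ).card ≤ ν := by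
  have h1 := one_lt_ord' hκ
  have h2 : Ordinal.log κ.ord δ < ν.ord + 2 := by
    have h3 : κ.ord ^ Ordinal.log κ.ord δ < κ.ord ^ (ν.ord + 2) :=
      lt_of_le_of_lt (Ordinal.opow_log_le_self κ.ord hδ) hlt
    exact (Ordinal.opow_lt_opow_iff_right h1).1 h3
  refine (Ordinal.card_le_card h2.le).trans ?_
  rw [Ordinal.card_add, Cardinal.card_ord]
  refine Cardinal.add_le_of_le hν le_rfl ?_
  have h3 : (2 : Ordinal.{0}).card = 2 := by simp
  rw [h3]
  exact (Cardinal.ofNat_lt_aleph0 (n := 2)).le.trans hν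

theorem pg_exists {κ ν : Cardinal.{0}} (hν : ℵ₀ ≤ ν) (hνκ : ν < κ)
    (hcof : κ.ord.cof < κ) : ∀ δ : Ordinal.{0}, δ < κ.ord ^ (ν.ord + 2) →
      ∃ μ₀ < κ, ∀ μ : Cardinal.{0}, μ.IsRegular → μ₀ < μ → μ < κ → PG μ δ := by
  have hκ0 : ℵ₀ ≤ κ := hν.trans hνκ.le
  have h1 := one_lt_ord' hκ0
  intro δ
  induction δ using WellFoundedLT.induction with
  | ind δ IH =>
    intro hlt
    rcases eq_or_ne δ 0 with rfl | hδ
    · exact ⟨0, lt_of_lt_of_le aleph0_pos hκ0, fun μ hμ _ _ => pg_zero hμ⟩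
    · set γ := Ordinal.log κ.ord δ with hγ
      have hpos : κ.ord ^ γ ≠ 0 := (Ordinal.opow_pos γ (zero_lt_one.trans h1)).ne'
      have hle : κ.ord ^ γ ≤ δ := Ordinal.opow_log_le_self κ.ord hδ
      have hc : δ / κ.ord ^ γ < κ.ord := Ordinal.div_opow_log_lt δ h1
      have hmod : δ % κ.ord ^ γ < κ.ord ^ γ := Ordinal.mod_lt δ hpos
      have hdm := Ordinal.div_add_mod δ (κ.ord ^ γ)
      obtain ⟨μ₁, hμ₁, hall⟩ := IH (δ % κ.ord ^ γ) (hmod.trans_le hle)
        ((hmod.trans_le hle).trans hlt)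
      refine ⟨max μ₁ (max (max ν κ.ord.cof) (δ / κ.ord ^ γ).card),
        max_lt hμ₁ (max_lt (max_lt hνκ hcof) (Cardinal.lt_ord.1 hc)), ?_⟩
      intro μ hμ hμ₀ hμκ
      have ha : μ₁ < μ := (le_max_left _ _).trans_lt hμ₀
      have hb : max ν κ.ord.cof < μ :=
        ((le_max_left _ _).trans (le_max_right _ _)).trans_lt hμ₀
      have hd : (δ / κ.ord ^ γ).card < μ :=
        ((le_max_right _ _).trans (le_max_right _ _)).trans_lt hμ₀
      rw [← hdm]
      refine pg_add (pg_mul hμ (pg_opow hμ hμκ ((le_max_right _ _).trans_lt hb) γ ?_) _ hd)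
        (hall μ hμ ha hμκ)
      exact (card_log_le hκ0 hν hδ hlt).trans_lt ((le_max_left _ _).trans_lt hb)

/-- Blocks indexed by an arbitrary well-order. -/
theorem tg_of_blocks' {V : Type} [LinearOrder V] [WellFoundedLT V] [Nonempty V] {ι : Type}
    [LinearOrder ι] [WellFoundedLT ι] {X : Set V} {b c : Ordinal.{0}} {B : ι → Set V}
    (hB : ∀ i j, i < j → ∀ x ∈ B i, ∀ y ∈ B j, x < y)
    (I : Set ι) (hI : TG I c) (hX : ∀ i ∈ I, TG (X ∩ B i) b) :
    TG X (b * c) := by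
  classical
  rcases eq_or_ne b 0 with hb | hb
  · subst hb
    rw [zero_mul]
    exact tg_zero X
  obtain ⟨h, hh, hhm⟩ := hI
  choose! g hg hgm using hX
  refine ⟨fun x => g (h (x / b)) (x % b), ?_, ?_⟩
  · intro x hx
    have h1 : x / b < c := (Ordinal.lt_mul_iff_div_lt hb).1 hx
    exact (hg _ (hh _ h1) _ (Ordinal.mod_lt x hb)).1
  · intro x y hxy hy
    have hx : x < b * c := hxy.trans hy
    have hx1 : x / b < c := (Ordinal.lt_mul_iff_div_lt hb).1 hx
    have hy1 : y / b < c := (Ordinal.lt_mul_iff_div_lt hb).1 hy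
    have hle : x / b ≤ y / b := by
      by_contra hcon
      rw [not_le] at hcon
      have h2 : b * (y / b) + y % b < b * (x / b) + x % b := by
        calc b * (y / b) + y % b < b * (y / b) + b := (add_lt_add_iff_left _).2 (Ordinal.mod_lt y hb)
          _ = b * Order.succ (y / b) := (Ordinal.mul_succ _ _).symm
          _ ≤ b * (x / b) := mul_le_mul_right (Order.succ_le_of_lt hcon) b
          _ ≤ _ := le_self_add
      rw [Ordinal.div_add_mod, Ordinal.div_add_mod] at h2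
      exact absurd hxy (not_lt.2 h2.le)
    rcases hle.eq_or_lt with heq | hlt
    · show g (h (x / b)) (x % b) < g (h (y / b)) (y % b)
      rw [← heq]
      refine hgm _ (hh _ hx1) _ _ ?_ (Ordinal.mod_lt y hb)
      have h2 : b * (x / b) + x % b < b * (y / b) + y % b := by
        rw [Ordinal.div_add_mod, Ordinal.div_add_mod]; exact hxy
      rw [← heq] at h2
      exact (add_lt_add_iff_left _).1 h2
    · have h3 := hhm _ _ hlt hy1
      exact hB _ _ h3 _ (hg _ (hh _ hx1) _ (Ordinal.mod_lt x hb)).2 _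
        (hg _ (hh _ hy1) _ (Ordinal.mod_lt y hb)).2

theorem card_lt_opow' {κ ν : Cardinal.{0}} (hκ : ℵ₀ ≤ κ) (hνκ : ν < κ)
    {α : Ordinal.{0}} (hlt : α < κ.ord ^ (ν.ord + 2)) : α.card ≤ κ := by
  have h1 := Ordinal.card_le_card hlt.le
  have h2 : ω ≤ κ.ord := by
    rw [← Cardinal.ord_aleph0]
    exact Cardinal.ord_le_ord.2 hκ
  refine h1.trans ((Ordinal.card_opow_le_of_omega0_le_left h2 _).trans ?_)
  refine max_le (by rw [Cardinal.card_ord]) ?_
  rw [Ordinal.card_add, Cardinal.card_ord]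
  refine Cardinal.add_le_of_le hκ hνκ.le ?_
  have h3 : (2 : Ordinal.{0}).card = 2 := by simp
  rw [h3]
  exact (Cardinal.ofNat_lt_aleph0 (n := 2)).le.trans hκ

/-- Free subsets of the right type, singular case. -/
theorem exists_free_singular {V : Type} [LinearOrder V] [WellFoundedLT V] [Nonempty V]
    {κ ν : Cardinal.{0}} (hν : ℵ₀ ≤ ν) (hνκ : ν < κ) (hcof : κ.ord.cof < κ)
    (f : V → Finset V) {δ : Ordinal.{0}} (hlt : κ.ord * δ < κ.ord ^ (ν.ord + 2))
    {A : Set V} (hA : TG A (κ.ord * δ)) :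
    ∃ X : Set V, X ⊆ A ∧ (∀ x ∈ X, ∀ y ∈ X, x ≠ y → y ∉ f x) ∧ TG X (κ.ord * δ) := by
  classical
  have hκ0 : ℵ₀ ≤ κ := hν.trans hνκ.le
  have h1 := one_lt_ord' hκ0
  have hδle : δ ≤ κ.ord * δ := by
    calc δ = 1 * δ := (one_mul δ).symm
      _ ≤ κ.ord * δ := mul_le_mul_left h1.le δ
  rcases eq_or_ne δ 0 with rfl | hδ0
  · refine ⟨∅, Set.empty_subset A, fun x hx => absurd hx (Set.notMem_empty x), ?_⟩
    rw [mul_zero]
    exact tg_zero _
  have hδlt : δ < κ.ord ^ (ν.ord + 2) := hδle.trans_lt hlt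
  obtain ⟨μ₀, hμ₀, hPG⟩ := pg_exists hν hνκ hcof δ hδlt
  -- the cardinal `μ`
  have hmax : max (max μ₀ κ.ord.cof) ν < κ := max_lt (max_lt hμ₀ hcof) hνκ
  have hsucc : Order.succ (max (max μ₀ κ.ord.cof) ν) < κ := by
    rcases (Order.succ_le_of_lt hmax).lt_or_eq with h | h
    · exact h
    · exfalso
      have hr := Cardinal.isRegular_succ (hν.trans (le_max_right (max μ₀ κ.ord.cof) ν))
      rw [h] at hr
      rw [hr.cof_eq] at hcof
      exact lt_irrefl _ hcof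
  set μ := Order.succ (max (max μ₀ κ.ord.cof) ν) with hμdef
  have hμr : μ.IsRegular := Cardinal.isRegular_succ (hν.trans (le_max_right _ _))
  have hμ1 : μ₀ < μ := Order.lt_succ_of_le ((le_max_left _ _).trans (le_max_left _ _))
  have hμ2 : κ.ord.cof < μ := Order.lt_succ_of_le ((le_max_right _ _).trans (le_max_left _ _))
  -- blocks
  obtain ⟨g, hg, hm⟩ := hA
  let e := (Ordinal.ToType.mk (o := δ)).symm
  have hbd : ∀ (i : δ.ToType) (x : Ordinal.{0}), x < κ.ord → κ.ord * (e i).1 + x < κ.ord * δ := by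
    intro i x hx
    calc κ.ord * (e i).1 + x < κ.ord * (e i).1 + κ.ord := (add_lt_add_iff_left _).2 hx
      _ = κ.ord * Order.succ (e i).1 := (Ordinal.mul_succ _ _).symm
      _ ≤ κ.ord * δ := mul_le_mul_right (Order.succ_le_of_lt (show (e i).1 < δ from (e i).2)) _
  let E : δ.ToType → Set V := fun i => {v | ∃ x < κ.ord, v = g (κ.ord * (e i).1 + x)}
  have hEA : ∀ i, E i ⊆ A := by
    rintro i _ ⟨x, hx, rfl⟩
    exact hg _ (hbd i x hx)
  have hEm : ∀ i j, i < j → ∀ x ∈ E i, ∀ y ∈ E j, x < y := by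
    rintro i j hij _ ⟨x, hx, rfl⟩ _ ⟨y, hy, rfl⟩
    refine hm _ _ ?_ (hbd j y hy)
    calc κ.ord * (e i).1 + x < κ.ord * (e i).1 + κ.ord := (add_lt_add_iff_left _).2 hx
      _ = κ.ord * Order.succ (e i).1 := (Ordinal.mul_succ _ _).symm
      _ ≤ κ.ord * (e j).1 := mul_le_mul_right (Order.succ_le_of_lt
          (show (e i).1 < (e j).1 from e.lt_iff_lt.2 hij)) _
      _ ≤ κ.ord * (e j).1 + y := le_self_add
  have hET : ∀ i, TG (E i) κ.ord := fun i =>
    ⟨fun x => g (κ.ord * (e i).1 + x), fun x hx => ⟨x, hx, rfl⟩, fun x y hxy hy =>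
      hm _ _ ((add_lt_add_iff_left _).2 hxy) (hbd i y hy)⟩
  have hcardTG : ∀ S : Set V, TG S κ.ord ↔ κ ≤ #S := by
    intro S
    rw [tg_iff, Cardinal.ord_le]
    unfold typ
    rw [Ordinal.card_type]
  have hEd : ∀ i j, i ≠ j → ∀ v ∈ E i, v ∉ E j := by
    intro i j hij v hv hv'
    rcases lt_or_gt_of_ne hij with h | h
    · exact lt_irrefl _ (hEm i j h v hv v hv')
    · exact lt_irrefl _ (hEm j i h v hv' v hv)
  have hδc : #δ.ToType ≤ κ := by
    rw [Cardinal.mk_toType]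
    exact card_lt_opow' hκ0 hνκ hδlt
  obtain ⟨X, hXf, hXβ⟩ := singular_lemma hμr hsucc hμ2 f hδc E (fun i => (hcardTG _).1 (hET i)) hEd
  choose β hβ using hXβ
  have hNδ : Nonempty δ.ToType := Ordinal.nonempty_toType_iff.2 hδ0
  obtain ⟨η, hη⟩ := hPG μ hμr hμ1 hsucc δ.ToType Set.univ (fun η => {i | β i ≤ η})
    (fun η ζ hηζ i hi => le_trans hi hηζ) (fun i _ => ⟨β i, (show β i ≤ β i from le_rfl)⟩) (tg_iff.2 (typ_univ δ).ge)
  refine ⟨X η ∩ A, Set.inter_subset_right, fun x hx y hy => hXf η x hx.1 y hy.1, ?_⟩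
  refine tg_of_blocks' hEm _ hη ?_
  rintro i ⟨-, hi⟩
  have h2 := hβ i η hi
  refine ((hcardTG _).2 h2).mono ?_
  rintro v ⟨hv1, hv2⟩
  exact ⟨⟨hv1, hEA i hv2⟩, hv2⟩

/-- Free subsets of the right type, all cardinals. -/
theorem exists_free_all {V : Type} [LinearOrder V] [WellFoundedLT V] [Nonempty V]
    {κ ν : Cardinal.{0}} (hν : ℵ₀ ≤ ν) (hνκ : ν < κ) (hV : #V ≤ κ)
    (f : V → Finset V) {δ : Ordinal.{0}} (hlt : κ.ord * δ < κ.ord ^ (ν.ord + 2))
    {A : Set V} (hA : TG A (κ.ord * δ)) :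
    ∃ X : Set V, X ⊆ A ∧ (∀ x ∈ X, ∀ y ∈ X, x ≠ y → y ∉ f x) ∧ TG X (κ.ord * δ) := by
  have hκ0 : ℵ₀ ≤ κ := hν.trans hνκ.le
  rcases (Ordinal.cof_ord_le κ).lt_or_eq with h | h
  · exact exists_free_singular hν hνκ h f hlt hA
  · have hκ : κ.IsRegular := ⟨hκ0, h.ge⟩
    exact exists_free hκ hν hνκ hV f (Dvd.intro δ rfl) hlt hA

end Pool.Agent.H68.OG
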