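import Mathlib
import Pool.Agent.Lib_helper68.OG13

/-!
The countable case: independent sets of countable limit type in graphs without infinite path.
-/

set_option autoImplicit false
set_option linter.unusedSectionVars false
set_option linter.deprecated false

open Cardinal Ordinal Set

namespace Pool.Agent.H68.OG

variable {V : Type} [LinearOrder V] [WellFoundedLT V] [Nonempty V]

theorem tg_infinite {A : Set V} {b : Ordinal.{0}} (hb : ω ≤ b) (h : TG A b) : A.Infinite := by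
  obtain ⟨g, hg, hm⟩ := h
  refine Set.infinite_of_injective_forall_mem (f := fun n : ℕ => g n) ?_ ?_
  · intro n m hnm
    have hlt : ∀ k : ℕ, (k : Ordinal.{0}) < b := fun k => (Ordinal.nat_lt_omega0 k).trans_le hb
    rcases lt_trichotomy n m with h | h | h
    · exact absurd hnm (hm n m (by exact_mod_cast h) (hlt m)).ne
    · exact h
    · exact absurd hnm (hm m n (by exact_mod_cast h) (hlt n)).ne'
  · intro n
    exact hg _ ((Ordinal.nat_lt_omega0 n).trans_le hb)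

theorem infinite_tg {A : Set V} (h : A.Infinite) : TG A ω := by
  rw [tg_iff, ← Cardinal.ord_aleph0, Cardinal.ord_le]
  unfold typ
  rw [Ordinal.card_type, ← Cardinal.infinite_iff]
  exact h.to_subtype

theorem omega_parts {A D₁ D₂ : Set V} (hA : A ⊆ D₁ ∪ D₂) {s : Ordinal.{0}} (h : TG A (ω ^ s)) :
    TG (A ∩ D₁) (ω ^ s) ∨ TG (A ∩ D₂) (ω ^ s) := by
  have := two_parts Cardinal.isRegular_aleph0 D₁ D₂ s A hA (by rwa [Cardinal.ord_aleph0])
  rwa [Cardinal.ord_aleph0] at this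

theorem omega_remove {s : Ordinal.{0}} (Q : V → V → Prop) (Z : Finset V) :
    ∀ A : Set V, TG A (ω ^ s) → (∀ z ∈ Z, ¬ TG {v | v ∈ A ∧ Q z v} (ω ^ s)) →
      TG {v | v ∈ A ∧ ∀ z ∈ Z, ¬ Q z v} (ω ^ s) := by
  classical
  induction Z using Finset.induction_on with
  | empty =>
    intro A hA _
    refine hA.mono ?_
    intro v hv
    exact ⟨hv, fun z hz => absurd hz (Finset.notMem_empty z)⟩
  | insert z Z hz ih =>
    intro A hA h
    have h1 := ih A hA fun w hw => h w (Finset.mem_insert_of_mem hw)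
    have hcov : {v | v ∈ A ∧ ∀ w ∈ Z, ¬ Q w v} ⊆ {v | Q z v} ∪ {v | ¬ Q z v} := by
      intro v _
      by_cases hv : Q z v
      · exact Or.inl hv
      · exact Or.inr hv
    rcases omega_parts hcov h1 with h2 | h2
    · exfalso
      refine h z (Finset.mem_insert_self z Z) (h2.mono ?_)
      rintro v ⟨hv1, hv2⟩
      exact ⟨hv1.1, hv2⟩
    · refine h2.mono ?_
      rintro v ⟨hv1, hv2⟩
      refine ⟨hv1.1, ?_⟩
      intro w hw
      rcases Finset.mem_insert.1 hw with rfl | hw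
      · exact hv2
      · exact hv1.2 w hw

theorem omega_le_opow {s : Ordinal.{0}} (hs : s ≠ 0) : ω ≤ (ω : Ordinal.{0}) ^ s := by
  calc (ω : Ordinal.{0}) = ω ^ (1 : Ordinal.{0}) := (Ordinal.opow_one _).symm
    _ ≤ ω ^ s := Ordinal.opow_le_opow_right Ordinal.omega0_pos (Order.one_le_iff_pos.2
        (pos_iff_ne_zero.2 hs))

/-- Finite kernels. -/
theorem exists_finite_kernel (G : SimpleGraph V) {C : Set V} (h : Ranked G C) :
    ∀ (B : Set V) (s : Ordinal.{0}), B ⊆ C → s ≠ 0 → TG B (ω ^ s) →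
      ∃ (F : Finset V) (B' : Set V), B' ⊆ B ∧ TG B' (ω ^ s) ∧
        ∀ z ∈ C, z ∉ F → ¬ TG {v | v ∈ B' ∧ G.Adj z v} (ω ^ s) := by
  classical
  induction h with
  | step C S hS _ IH =>
    intro B s hBC hs hB
    have h1 : TG (B \ S) (ω ^ s) := by
      have hcov : B ⊆ S ∪ Sᶜ := by
        rw [Set.union_compl_self]; exact Set.subset_univ B
      rcases omega_parts hcov hB with h | h
      · exfalso
        exact (tg_infinite (omega_le_opow hs) h) (hS.subset Set.inter_subset_right)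
      · exact h.mono fun v hv => hv
    by_cases hex : ∃ u ∈ C \ S, TG ((B \ S) ∩ {w | Conn G (C \ S) u w}) (ω ^ s)
    · obtain ⟨u, hu, hT⟩ := hex
      obtain ⟨F, B', hB'B, hB'T, hF⟩ := IH u hu _ s Set.inter_subset_right hs hT
      refine ⟨F ∪ hS.toFinset, B', fun v hv => (hB'B hv).1.1, hB'T, ?_⟩
      intro z hz hzF hcon
      have hzS : z ∉ S := fun hzS => hzF (Finset.mem_union_right _ (by simpa using hzS))
      have hzF' : z ∉ F := fun h => hzF (Finset.mem_union_left _ h)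
      by_cases hzu : Conn G (C \ S) u z
      · exact hF z hzu hzF' hcon
      · obtain ⟨v, hv1, hv2⟩ := hcon.nonempty (Ordinal.opow_pos s Ordinal.omega0_pos)
        have hv3 := hB'B hv1
        refine hzu (Relation.ReflTransGen.tail hv3.2 ?_)
        exact ⟨⟨hBC hv3.1.1, hv3.1.2⟩, ⟨hz, hzS⟩, hv2.symm⟩
    · push Not at hex
      refine ⟨hS.toFinset, B \ S, Set.diff_subset, h1, ?_⟩
      intro z hz hzF hcon
      have hzS : z ∉ S := fun hzS => hzF (by simpa using hzS)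
      refine hex z ⟨hz, hzS⟩ (hcon.mono ?_)
      rintro v ⟨hv1, hv2⟩
      refine ⟨hv1, Relation.ReflTransGen.single ?_⟩
      exact ⟨⟨hz, hzS⟩, ⟨hBC hv1.1, hv1.2⟩, hv2⟩

/-- A good node. -/
def Good (G : SimpleGraph V) (F : Finset V) (B : Set V) (s : Ordinal.{0}) : Prop :=
  s ≠ 0 ∧ TG B (ω ^ s) ∧ ∀ z, z ∉ F → ¬ TG {v | v ∈ B ∧ G.Adj z v} (ω ^ s)

theorem Good.mono {G : SimpleGraph V} {F F' : Finset V} {B : Set V} {s : Ordinal.{0}}
    (h : Good G F B s) (hF : F ⊆ F') : Good G F' B s :=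
  ⟨h.1, h.2.1, fun z hz => h.2.2 z fun hz' => hz (hF hz')⟩

/-- The part of a good node which is not adjacent to the chosen points. -/
theorem Good.rest {G : SimpleGraph V} {F K : Finset V} {B : Set V} {s : Ordinal.{0}}
    (h : Good G F B s) (hKF : ∀ z ∈ K, z ∉ F) :
    TG {v | v ∈ B ∧ ∀ z ∈ K, ¬ G.Adj z v} (ω ^ s) :=
  omega_remove G.Adj K B h.2.1 fun z hz => h.2.2 z (hKF z hz)

theorem Good.point {G : SimpleGraph V} {F K : Finset V} {B : Set V} {s : Ordinal.{0}}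
    (h : Good G F B s) (hKF : ∀ z ∈ K, z ∉ F) :
    ∃ x ∈ B, x ∉ F ∧ x ∉ K ∧ ∀ z ∈ K, ¬ G.Adj z x := by
  classical
  have h1 := tg_infinite (omega_le_opow h.1) (h.rest hKF)
  obtain ⟨x, hx, hx'⟩ := h1.exists_notMem_finset (F ∪ K)
  rw [Finset.mem_union, not_or] at hx'
  exact ⟨x, hx.1, hx'.1, hx'.2, hx.2⟩

/-- Children of a good node. -/
theorem Good.children {G : SimpleGraph V} (hG : Ranked G Set.univ) {F K : Finset V} {B : Set V}
    {s : Ordinal.{0}} (h : Good G F B s) (hKF : ∀ z ∈ K, z ∉ F) {t : Ordinal.{0}} (ht0 : t ≠ 0)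
    (ht : t < s) (k : ℕ) :
    ∃ (F' : Finset V) (C : ℕ → Set V), F ⊆ F' ∧ (∀ z ∈ K, z ∉ F') ∧
      (∀ i < k, C i ⊆ B ∧ Good G F' (C i) t) ∧
      ∀ i j, i < j → ∀ x ∈ C i, ∀ y ∈ C j, x < y := by
  classical
  have h1 := h.rest hKF
  have hω1 : 1 < (ℵ₀ : Cardinal.{0}).ord := one_lt_ord' le_rfl
  rw [← Cardinal.ord_aleph0] at h1
  obtain ⟨D, hDB, hDT, hDm⟩ := (h1.opow_lt hω1 ht).blocks
  have hDT' : ∀ i, TG (D i) (ω ^ t) := fun i => by
    have h2 := hDT i
    rwa [Cardinal.ord_aleph0] at h2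
  -- index by natural numbers
  let nat : ℕ → (ℵ₀ : Cardinal.{0}).ord.ToType := fun n =>
    Ordinal.ToType.mk ⟨(n : Ordinal.{0}), by
      rw [Set.mem_Iio, Cardinal.ord_aleph0]; exact Ordinal.nat_lt_omega0 n⟩
  have hnat : ∀ i j, i < j → nat i < nat j := by
    intro i j hij
    refine (Ordinal.ToType.mk (o := (ℵ₀ : Cardinal.{0}).ord)).lt_iff_lt.2 ?_
    exact Subtype.mk_lt_mk.2 (by exact_mod_cast hij)
  have hker := fun i : ℕ => exists_finite_kernel G hG (D (nat i)) t (Set.subset_univ _) ht0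
    (hDT' (nat i))
  choose F₀ C₀ hC₀D hC₀T hF₀ using hker
  refine ⟨F ∪ ((Finset.range k).biUnion F₀ \ K), C₀, Finset.subset_union_left, ?_, ?_, ?_⟩
  · intro z hz hz'
    rcases Finset.mem_union.1 hz' with h2 | h2
    · exact hKF z hz h2
    · exact (Finset.mem_sdiff.1 h2).2 hz
  · intro i hi
    refine ⟨fun v hv => (hDB _ (hC₀D i hv)).1, ht0, hC₀T i, ?_⟩
    intro z hz
    by_cases hzK : z ∈ K
    · intro hcon
      obtain ⟨v, hv1, hv2⟩ := hcon.nonempty (Ordinal.opow_pos t Ordinal.omega0_pos)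
      exact (hDB _ (hC₀D i hv1)).2 z hzK hv2
    · refine hF₀ i z (Set.mem_univ z) ?_
      intro hz'
      refine hz (Finset.mem_union_right _ (Finset.mem_sdiff.2 ⟨?_, hzK⟩))
      exact Finset.mem_biUnion.2 ⟨i, Finset.mem_range.2 hi, hz'⟩
  · intro i j hij x hx y hy
    exact hDm _ _ (hnat i j hij) x (hC₀D i hx) y (hC₀D j hy)

theorem tg_sum {X : Set V} {a : Ordinal.{0}} {C : ℕ → Set V}
    (hC : ∀ i j, i < j → ∀ x ∈ C i, ∀ y ∈ C j, x < y) :
    ∀ k : ℕ, (∀ i < k, TG (X ∩ C i) a) → TG (X ∩ ⋃ i ∈ Finset.range k, C i) (a * k) := by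
  intro k
  induction k with
  | zero =>
    intro _
    rw [Nat.cast_zero, mul_zero]
    exact tg_zero _
  | succ k ih =>
    intro h
    rw [Nat.cast_succ, mul_add, mul_one]
    refine ((ih fun i hi => h i (Nat.lt_succ_of_lt hi)).add (h k (Nat.lt_succ_self k)) ?_).mono ?_
    · rintro x ⟨-, hx⟩ y ⟨-, hy⟩
      simp only [Set.mem_iUnion, Finset.mem_range] at hx
      obtain ⟨i, hi, hxi⟩ := hx
      exact hC i k hi x hxi y hy
    · rintro x (⟨hx1, hx⟩ | ⟨hx1, hx⟩)
      · refine ⟨hx1, ?_⟩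
        simp only [Set.mem_iUnion, Finset.mem_range] at hx ⊢
        obtain ⟨i, hi, hxi⟩ := hx
        exact ⟨i, Nat.lt_succ_of_lt hi, hxi⟩
      · refine ⟨hx1, ?_⟩
        simp only [Set.mem_iUnion, Finset.mem_range]
        exact ⟨k, Nat.lt_succ_self k, hx⟩

end Pool.Agent.H68.OG
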