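import Mathlib
import Pool.Agent.Lib_helper68.OG14

/-!
The countable case: the generic construction.
-/

set_option autoImplicit false
set_option linter.unusedSectionVars false
set_option linter.deprecated false

open Cardinal Ordinal Set

namespace Pool.Agent.H68.OG

variable {V : Type} [LinearOrder V] [WellFoundedLT V] [Nonempty V]

theorem children_total (G : SimpleGraph V) (hG : Ranked G Set.univ) (K F : Finset V) (B : Set V)
    (s t : Ordinal.{0}) (k : ℕ) :
    ∃ (F' : Finset V) (C : ℕ → Set V), Good G F B s → (∀ z ∈ K, z ∉ F) → t ≠ 0 → t < s →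
      F ⊆ F' ∧ (∀ z ∈ K, z ∉ F') ∧ (∀ i < k, C i ⊆ B ∧ Good G F' (C i) t) ∧
      ∀ i j, i < j → ∀ x ∈ C i, ∀ y ∈ C j, x < y := by
  by_cases h : Good G F B s ∧ (∀ z ∈ K, z ∉ F) ∧ t ≠ 0 ∧ t < s
  · obtain ⟨F', C, hFC⟩ := h.1.children hG h.2.1 h.2.2.1 h.2.2.2 k
    exact ⟨F', C, fun _ _ _ _ => hFC⟩
  · exact ⟨F, fun _ => ∅, fun h1 h2 h3 h4 => absurd ⟨h1, h2, h3, h4⟩ h⟩

/-- ordinal coded by an element of `σ.ToType` -/
noncomputable def exo {σ : Ordinal.{0}} (a : σ.ToType) : Ordinal.{0} :=
  (Ordinal.ToType.mk.symm a).1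

theorem exists_exo {σ t : Ordinal.{0}} (h : t < σ) : ∃ a : σ.ToType, exo a = t :=
  ⟨Ordinal.ToType.mk ⟨t, h⟩, by unfold exo; simp⟩

/-- Words coding nodes. -/
abbrev Word (V : Type) (σ : Ordinal.{0}) : Type := Finset V × Finset V × σ.ToType × ℕ × ℕ

/-- The node coded by a word. -/
noncomputable def node {P : Type} {σ : Ordinal.{0}}
    (cC : Finset V → Finset V → Set V → Ordinal.{0} → Ordinal.{0} → ℕ → ℕ → Set V)
    (root : P → Set V × Ordinal.{0}) (p : P) : List (Word V σ) → Set V × Ordinal.{0}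
  | [] => root p
  | w :: l => (cC w.1 w.2.1 (node cC root p l).1 (node cC root p l).2 (exo w.2.2.1) w.2.2.2.1
      w.2.2.2.2, exo w.2.2.1)

theorem exists_schedule_nat (R : Type) [Nonempty R] [Countable R] :
    ∃ e : ℕ → R, ∀ r N, ∃ n, N ≤ n ∧ e n = r := by
  obtain ⟨h, hh⟩ := exists_surjective_nat (R × ℕ)
  refine ⟨fun n => (h n).1, ?_⟩
  intro r N
  by_contra hcon
  push Not at hcon
  have hinj : ∀ m : ℕ, ∃ n, n < N ∧ h n = (r, m) := by
    intro m
    obtain ⟨n, hn⟩ := hh (r, m)
    refine ⟨n, ?_, hn⟩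
    by_contra hle
    rw [not_lt] at hle
    exact hcon n hle (by rw [hn])
  choose g hg1 hg2 using hinj
  have hginj : Function.Injective g := by
    intro a b hab
    have h1 := hg2 a
    rw [hab, hg2 b] at h1
    exact (Prod.mk.inj h1).2.symm
  have hfin : (Set.range g).Finite := (Set.finite_lt_nat N).subset (by
    rintro _ ⟨m, rfl⟩
    exact hg1 m)
  exact Set.infinite_range_of_injective hginj hfin

theorem tg_opow_omega {A : Set V} {γ : Ordinal.{0}} (hγ : γ ≠ 0)
    (h : ∀ s < γ, TG A (ω ^ s * ω)) : TG A (ω ^ γ) := by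
  have := tg_opow (κ := ℵ₀) (A := A) (one_lt_ord' le_rfl) hγ (by
    intro s hs
    rw [Cardinal.ord_aleph0]
    exact h s hs)
  rwa [Cardinal.ord_aleph0] at this

theorem typ_mono {A B : Set V} (h : A ⊆ B) : typ A ≤ typ B :=
  le_typ_of_tg ((tg_iff.2 (le_refl (typ A))).mono h)

theorem countable_roots [Countable V] (G : SimpleGraph V) (hG : Ranked G Set.univ) {P : Type}
    [Finite P] (B : P → Set V) (s : P → Ordinal.{0}) (hs : ∀ p, s p ≠ 0)
    (hB : ∀ p, TG (B p) (ω ^ s p)) :
    ∃ X : Set V, (∀ x ∈ X, ∀ y ∈ X, ¬ G.Adj x y) ∧ ∀ p, TG (X ∩ B p) (ω ^ s p) := by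
  classical
  have := Fintype.ofFinite P
  rcases isEmpty_or_nonempty P with hPe | hPn
  · exact ⟨∅, fun x hx => absurd hx (Set.notMem_empty x), fun p => (hPe.false p).elim⟩
  -- kernels of the roots
  choose F₀ B' hB'B hB'T hF₀ using fun p =>
    exists_finite_kernel G hG (B p) (s p) (Set.subset_univ _) (hs p) (hB p)
  -- child functions
  choose cF cC hc using children_total G hG
  let σ : Ordinal.{0} := typ (Set.univ : Set V)
  have hσc : Countable σ.ToType := by
    rw [← Cardinal.mk_le_aleph0_iff, Cardinal.mk_toType]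
    show (typ (Set.univ : Set V)).card ≤ ℵ₀
    unfold typ
    rw [Ordinal.card_type, Cardinal.mk_univ]
    exact Cardinal.mk_le_aleph0
  let root : P → Set V × Ordinal.{0} := fun p => (B' p, s p)
  let nd : P × List (Word V σ) → Set V × Ordinal.{0} := fun q => node cC root q.1 q.2
  -- requests
  let R : Type := (P × List (Word V σ)) × Option (σ.ToType × ℕ)
  have hRn : Nonempty R := ⟨((hPn.some, []), none)⟩
  have hRc : Countable R := by
    show Countable ((P × List (Word V σ)) × Option (σ.ToType × ℕ))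
    infer_instance
  obtain ⟨e, he⟩ := exists_schedule_nat R
  -- states
  let State : Type := {p : Finset V × Finset V //
    (∀ z ∈ p.1, z ∉ p.2) ∧ ∀ x ∈ p.1, ∀ y ∈ p.1, ¬ G.Adj x y}
  have hstep : ∀ (p : State) (r : R), ∃ p' : State, p.1.1 ⊆ p'.1.1 ∧ p.1.2 ⊆ p'.1.2 ∧
      (∀ q, r = (q, none) → Good G p.1.2 (nd q).1 (nd q).2 →
        ∃ x ∈ (nd q).1, x ∈ p'.1.1 ∧ x ∉ p.1.1) ∧
      (∀ q a k, r = (q, some (a, k)) → Good G p.1.2 (nd q).1 (nd q).2 → exo a ≠ 0 →
        exo a < (nd q).2 → p'.1.1 = p.1.1 ∧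
          p'.1.2 = cF p.1.1 p.1.2 (nd q).1 (nd q).2 (exo a) k) := by
    rintro ⟨⟨K, F⟩, hKF, hK⟩ ⟨q, r⟩
    simp only at hKF hK
    rcases r with _ | ⟨a, k⟩
    · by_cases hgood : Good G F (nd q).1 (nd q).2
      · obtain ⟨x, hx1, hx2, hx3, hx4⟩ := hgood.point hKF
        refine ⟨⟨(insert x K, F), ?_, ?_⟩, Finset.subset_insert x K, Finset.Subset.refl F, ?_, ?_⟩
        · intro z hz
          rcases Finset.mem_insert.1 hz with rfl | hz
          · exact hx2
          · exact hKF z hz
        · intro y hy z hz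
          rcases Finset.mem_insert.1 hy with hy' | hy' <;>
            rcases Finset.mem_insert.1 hz with hz' | hz'
          · rw [hy', hz']; exact G.loopless.irrefl _
          · rw [hy']; exact fun h => hx4 z hz' h.symm
          · rw [hz']; exact hx4 y hy'
          · exact hK y hy' z hz'
        · intro q' hq' _
          obtain rfl := (Prod.mk.inj hq').1
          exact ⟨x, hx1, Finset.mem_insert_self x K, hx3⟩
        · intro q' a k hq'
          exact absurd (Prod.mk.inj hq').2 (by simp)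
      · refine ⟨⟨(K, F), hKF, hK⟩, Finset.Subset.refl K, Finset.Subset.refl F, ?_, ?_⟩
        · intro q' hq' hgood'
          obtain rfl := (Prod.mk.inj hq').1
          exact absurd hgood' hgood
        · intro q' a k hq'
          exact absurd (Prod.mk.inj hq').2 (by simp)
    · by_cases hgood : Good G F (nd q).1 (nd q).2 ∧ exo a ≠ 0 ∧ exo a < (nd q).2
      · obtain ⟨h1, h2, -, -⟩ := hc K F (nd q).1 (nd q).2 (exo a) k hgood.1 hKF hgood.2.1 hgood.2.2
        refine ⟨⟨(K, cF K F (nd q).1 (nd q).2 (exo a) k), h2, hK⟩, Finset.Subset.refl K, h1, ?_, ?_⟩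
        · intro q' hq'
          exact absurd (Prod.mk.inj hq').2 (by simp)
        · intro q' a' k' hq' _ _ _
          obtain ⟨h3, h4⟩ := Prod.mk.inj hq'
          obtain rfl := h3
          obtain ⟨rfl, rfl⟩ := Prod.mk.inj (Option.some.inj h4)
          exact ⟨rfl, rfl⟩
      · refine ⟨⟨(K, F), hKF, hK⟩, Finset.Subset.refl K, Finset.Subset.refl F, ?_, ?_⟩
        · intro q' hq'
          exact absurd (Prod.mk.inj hq').2 (by simp)
        · intro q' a' k' hq' h5 h6 h7
          obtain ⟨h3, h4⟩ := Prod.mk.inj hq'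
          obtain rfl := h3
          obtain ⟨rfl, rfl⟩ := Prod.mk.inj (Option.some.inj h4)
          exact absurd ⟨h5, h6, h7⟩ hgood
  choose nx hnx1 hnx2 hnx3 hnx4 using hstep
  let st : ℕ → State := fun n => Nat.rec
    (⟨(∅, Finset.univ.biUnion F₀), fun z hz => absurd hz (Finset.notMem_empty z),
      fun z hz => absurd hz (Finset.notMem_empty z)⟩ : State) (fun n p => nx p (e n)) n
  have hst : ∀ n, st (n + 1) = nx (st n) (e n) := fun n => rfl
  have hmonoK : ∀ n m, n ≤ m → (st n).1.1 ⊆ (st m).1.1 := by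
    intro n m hnm
    induction m, hnm using Nat.le_induction with
    | base => exact Finset.Subset.refl _
    | succ m _ ih => exact ih.trans (by rw [hst m]; exact hnx1 _ _)
  have hmonoF : ∀ n m, n ≤ m → (st n).1.2 ⊆ (st m).1.2 := by
    intro n m hnm
    induction m, hnm using Nat.le_induction with
    | base => exact Finset.Subset.refl _
    | succ m _ ih => exact ih.trans (by rw [hst m]; exact hnx2 _ _)
  let X : Set V := {x | ∃ n, x ∈ (st n).1.1}
  -- the types
  have htype : ∀ t : Ordinal.{0}, ∀ (q : P × List (Word V σ)) (n : ℕ), (nd q).2 = t →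
      Good G (st n).1.2 (nd q).1 (nd q).2 → TG (X ∩ (nd q).1) (ω ^ t) := by
    intro t
    induction t using WellFoundedLT.induction with
    | ind t IH =>
      intro q n hqt hgood
      have ht0 : t ≠ 0 := by rw [← hqt]; exact hgood.1
      refine tg_opow_omega ht0 ?_
      intro t' ht'
      rcases eq_or_ne t' 0 with rfl | ht'0
      · rw [Ordinal.opow_zero, one_mul]
        refine infinite_tg ?_
        intro hfin
        -- all points are in some state
        have hex : ∃ m, n ≤ m ∧ ∀ x ∈ X ∩ (nd q).1, x ∈ (st m).1.1 := by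
          have hch : ∀ x : V, ∃ m, x ∈ X → x ∈ (st m).1.1 := by
            intro x
            by_cases hx : x ∈ X
            · obtain ⟨m, hm⟩ := hx
              exact ⟨m, fun _ => hm⟩
            · exact ⟨0, fun h => absurd h hx⟩
          choose m hm using hch
          refine ⟨max n (hfin.toFinset.sup m), le_max_left _ _, ?_⟩
          intro x hx
          refine hmonoK (m x) _ ?_ (hm x hx.1)
          exact (Finset.le_sup (f := m) (hfin.mem_toFinset.2 hx)).trans (le_max_right _ _)
        obtain ⟨m, hnm, hm⟩ := hex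
        obtain ⟨n', hn', hen'⟩ := he (q, none) m
        obtain ⟨x, hx1, hx2, hx3⟩ := hnx3 (st n') (e n') q hen'
          (hgood.mono (hmonoF n n' (hnm.trans hn')))
        rw [← hst n'] at hx2
        exact hx3 (hmonoK m n' hn' (hm x ⟨⟨n' + 1, hx2⟩, hx1⟩))
      · refine tg_of_forall_lt ?_
        intro c hclt
        obtain ⟨k', hk', hck⟩ := (Ordinal.lt_mul_iff_of_isSuccLimit
          Ordinal.isSuccLimit_omega0).1 hclt
        obtain ⟨k, rfl⟩ := Ordinal.lt_omega0.1 hk'
        refine ⟨_, hck, ?_⟩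
        -- code the exponent
        have htσ : t' < σ := by
          refine lt_of_lt_of_le ht' ?_
          have h2 : ω ^ t ≤ typ (nd q).1 := by
            rw [← hqt]
            exact le_typ_of_tg hgood.2.1
          calc t ≤ ω ^ t := Ordinal.right_le_opow t Ordinal.one_lt_omega0
            _ ≤ typ (nd q).1 := h2
            _ ≤ typ (Set.univ : Set V) := typ_mono (Set.subset_univ _)
        obtain ⟨a, ha⟩ := exists_exo htσ
        obtain ⟨n', hn', hen'⟩ := he (q, some (a, k)) n
        have hgood' := hgood.mono (hmonoF n n' hn')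
        have ha0 : exo a ≠ 0 := by rw [ha]; exact ht'0
        have has : exo a < (nd q).2 := by rw [ha, hqt]; exact ht'
        obtain ⟨h3, h4⟩ := hnx4 (st n') (e n') q a k hen' hgood' ha0 has
        obtain ⟨-, -, h5, h6⟩ := hc (st n').1.1 (st n').1.2 (nd q).1 (nd q).2 (exo a) k hgood'
          (st n').2.1 ha0 has
        rw [← hst n'] at h4
        have hsum := tg_sum (X := X) (a := ω ^ t') h6 k (by
          intro i hi
          have h7 := h5 i hi
          rw [← h4] at h7
          have h8 := IH t' ht' (q.1, ((st n').1.1, (st n').1.2, a, k, i) :: q.2) (n' + 1) ha (by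
            show Good G _ (cC _ _ (nd q).1 (nd q).2 (exo a) k i) (exo a)
            exact h7.2)
          exact h8)
        refine hsum.mono ?_
        rintro x ⟨hx1, hx2⟩
        refine ⟨hx1, ?_⟩
        simp only [Set.mem_iUnion, Finset.mem_range] at hx2
        obtain ⟨i, hi, hxi⟩ := hx2
        exact (h5 i hi).1 hxi
  refine ⟨X, ?_, ?_⟩
  · rintro x ⟨n, hn⟩ y ⟨m, hm⟩
    exact (st (max n m)).2.2 x (hmonoK n _ (le_max_left _ _) hn) y
      (hmonoK m _ (le_max_right _ _) hm)
  · intro p
    have hgood : Good G (st 0).1.2 (nd (p, [])).1 (nd (p, [])).2 := by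
      refine ⟨hs p, hB'T p, ?_⟩
      intro z hz
      refine hF₀ p z (Set.mem_univ z) ?_
      intro hzF
      exact hz (Finset.mem_biUnion.2 ⟨p, Finset.mem_univ p, hzF⟩)
    have h1 := htype (s p) (p, []) 0 rfl hgood
    refine h1.mono ?_
    rintro x ⟨hx1, hx2⟩
    exact ⟨hx1, hB'B p hx2⟩

end Pool.Agent.H68.OG
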