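import Mathlib
import Pool.Agent.Lib_helper68.OG15

/-!
The final theorems.
-/

set_option autoImplicit false
set_option linter.unusedSectionVars false
set_option linter.deprecated false

open Cardinal Ordinal Set

namespace Pool.Agent.H68.OG

/-- Decomposition into finitely many sets of type `ω ^ s`, `s ≠ 0`. -/
def RD (α : Ordinal.{0}) : Prop :=
  ∀ (V : Type) [LinearOrder V] [WellFoundedLT V] [Nonempty V] (A : Set V), TG A α →
    ∃ (P : Type) (_ : Finite P) (B : P → Set V) (s : P → Ordinal.{0}), (∀ p, s p ≠ 0) ∧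
      (∀ p, TG (B p) (ω ^ s p)) ∧ ∀ X : Set V, (∀ p, TG (X ∩ B p) (ω ^ s p)) → TG (X ∩ A) α

theorem rd_zero : RD 0 := by
  intro V _ _ _ A _
  exact ⟨Empty, inferInstance, fun p => p.elim, fun p => p.elim, fun p => p.elim,
    fun p => p.elim, fun X _ => tg_zero _⟩

theorem rd_add {a b : Ordinal.{0}} (ha : RD a) (hb : RD b) : RD (a + b) := by
  intro V _ _ _ A hA
  obtain ⟨S, T, hSA, hTA, hS, hT, hST⟩ := hA.split
  obtain ⟨P₁, f₁, B₁, s₁, h11, h12, h13⟩ := ha V S hS
  obtain ⟨P₂, f₂, B₂, s₂, h21, h22, h23⟩ := hb V T hT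
  refine ⟨P₁ ⊕ P₂, inferInstance, fun p => Sum.elim B₁ B₂ p, fun p => Sum.elim s₁ s₂ p, ?_, ?_, ?_⟩
  · rintro (p | p)
    · exact h11 p
    · exact h21 p
  · rintro (p | p)
    · exact h12 p
    · exact h22 p
  · intro X hX
    have h1 := h13 X fun p => hX (Sum.inl p)
    have h2 := h23 X fun p => hX (Sum.inr p)
    refine (h1.add h2 fun x hx y hy => hST x hx.2 y hy.2).mono ?_
    rintro x (hx | hx)
    · exact ⟨hx.1, hSA hx.2⟩
    · exact ⟨hx.1, hTA hx.2⟩

theorem rd_opow {γ : Ordinal.{0}} (hγ : γ ≠ 0) : RD (ω ^ γ) := by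
  intro V _ _ _ A hA
  exact ⟨Unit, inferInstance, fun _ => A, fun _ => γ, fun _ => hγ, fun _ => hA,
    fun X hX => hX ()⟩

theorem rd_mul {a : Ordinal.{0}} (ha : RD a) (n : ℕ) : RD (a * n) := by
  induction n with
  | zero => rw [Nat.cast_zero, mul_zero]; exact rd_zero
  | succ n ih => rw [Nat.cast_succ, mul_add, mul_one]; exact rd_add ih ha

theorem rd_all (β : Ordinal.{0}) : ω ∣ β → RD β := by
  induction β using WellFoundedLT.induction with
  | ind β IH =>
    intro hdvd
    rcases eq_or_ne β 0 with rfl | hβ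
    · exact rd_zero
    · set γ := Ordinal.log ω β with hγ
      have hpos : (ω : Ordinal.{0}) ^ γ ≠ 0 := (Ordinal.opow_pos γ Ordinal.omega0_pos).ne'
      have hle : ω ^ γ ≤ β := Ordinal.opow_log_le_self ω hβ
      have hωβ : ω ≤ β := Ordinal.le_of_dvd hβ hdvd
      have hγ0 : γ ≠ 0 := by
        have : 0 < γ := Ordinal.log_pos Ordinal.one_lt_omega0 hβ hωβ
        exact this.ne'
      have hc : β / ω ^ γ < ω := Ordinal.div_opow_log_lt β Ordinal.one_lt_omega0
      have hmod : β % ω ^ γ < ω ^ γ := Ordinal.mod_lt β hpos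
      obtain ⟨n, hn⟩ := Ordinal.lt_omega0.1 hc
      have hdm := Ordinal.div_add_mod β (ω ^ γ)
      have hdb : (ω : Ordinal.{0}) ∣ ω ^ γ := by
        have h3 := Ordinal.opow_dvd_opow ω (Ordinal.one_le_iff_ne_zero.2 hγ0)
        rwa [Ordinal.opow_one] at h3
      have hdmod : ω ∣ β % ω ^ γ := by
        rw [← hdm] at hdvd
        exact (Ordinal.dvd_add_iff (Dvd.dvd.mul_right hdb _)).1 hdvd
      have h4 := rd_add (rd_mul (rd_opow hγ0) n) (IH _ (hmod.trans_le hle) hdmod)
      rw [← hn, hdm] at h4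
      exact h4

/-- Countable limit ordinals. -/
theorem pi_countable {α : Ordinal.{0}} (hα : ω ∣ α) (hc : α.card ≤ ℵ₀) : PI α := by
  classical
  rcases eq_or_ne α 0 with rfl | hα0
  · exact pi_zero
  intro G
  by_cases hR : Ranked G Set.univ
  · right
    have hN : Nonempty α.ToType := Ordinal.nonempty_toType_iff.2 hα0
    have hC : Countable α.ToType := by
      rw [← Cardinal.mk_le_aleph0_iff, Cardinal.mk_toType]
      exact hc
    obtain ⟨P, hP, B, s, hs, hB, hX⟩ := rd_all α hα α.ToType Set.univ (tg_iff.2 (typ_univ α).ge)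
    obtain ⟨X, hXi, hXp⟩ := countable_roots G hR B s hs hB
    refine ⟨X, hXi, ?_⟩
    have h1 := hX X hXp
    rw [Set.inter_univ] at h1
    exact typ_eq_of_tg h1
  · left
    exact exists_path G hR

/-- Removing a small set, any infinite cardinal. -/
theorem TG.remove' {V : Type} [LinearOrder V] [WellFoundedLT V] [Nonempty V] {κ : Cardinal.{0}}
    (hκ : ℵ₀ ≤ κ) {R : Set V} (hR : #R < κ)
    (δ : Ordinal.{0}) : ∀ A : Set V, TG A (κ.ord * δ) → TG (A \ R) (κ.ord * δ) := by
  induction δ using WellFoundedLT.induction with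
  | ind δ IH =>
    intro A hA
    rcases Ordinal.zero_or_succ_or_isSuccLimit δ with rfl | ⟨δ', rfl⟩ | hl
    · rw [mul_zero]
      exact tg_zero _
    · rw [Ordinal.mul_succ] at hA ⊢
      obtain ⟨S, T, hSA, hTA, hS, hT, hST⟩ := hA.split
      have h1 := IH δ' (Order.lt_succ δ') S hS
      have h2 : TG (T \ R) κ.ord := by
        rw [tg_iff, Cardinal.ord_le]
        unfold typ
        rw [Ordinal.card_type]
        have h3 : κ ≤ #T := by
          have h4 := le_typ_of_tg hT
          rw [Cardinal.ord_le] at h4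
          unfold typ at h4
          rwa [Ordinal.card_type] at h4
        by_contra hcon
        rw [not_le] at hcon
        have h5 : T ⊆ (T \ R) ∪ R := by
          intro x hx
          by_cases hxR : x ∈ R
          · exact Or.inr hxR
          · exact Or.inl ⟨hx, hxR⟩
        have h6 := (Cardinal.mk_le_mk_of_subset h5).trans (Cardinal.mk_union_le _ _)
        exact absurd (Cardinal.add_lt_of_lt hκ hcon hR) (not_lt.2 (h3.trans h6))
      refine (h1.add h2 fun x hx y hy => hST x hx.1 y hy.1).mono ?_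
      rintro x (hx | hx)
      · exact ⟨hSA hx.1, hx.2⟩
      · exact ⟨hTA hx.1, hx.2⟩
    · refine tg_of_forall_lt ?_
      intro c hc
      obtain ⟨ζ, hζ, hcζ⟩ := (Ordinal.lt_mul_iff_of_isSuccLimit hl).1 hc
      exact ⟨_, hcζ, IH ζ hζ A (hA.le (mul_le_mul_right hζ.le _))⟩

theorem pi_mul {κ ν : Cardinal.{0}} (hν : ℵ₀ ≤ ν) (hνκ : ν < κ) (δ : Ordinal.{0})
    (hlt : κ.ord * δ < κ.ord ^ (ν.ord + 2)) : PI (κ.ord * δ) := by
  classical
  rcases eq_or_ne δ 0 with rfl | hδ
  · rw [mul_zero]; exact pi_zero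
  have hκ0 : ℵ₀ ≤ κ := hν.trans hνκ.le
  intro G
  by_cases hR : Ranked G Set.univ
  · right
    have hN : Nonempty (κ.ord * δ).ToType :=
      Ordinal.nonempty_toType_iff.2 (mul_ne_zero (zero_lt_one.trans (one_lt_ord' hκ0)).ne' hδ)
    obtain ⟨out, hfin, hadj⟩ := hR.orient G
    have hV : #(κ.ord * δ).ToType ≤ κ := by
      rw [Cardinal.mk_toType]
      exact card_lt_opow' hκ0 hνκ hlt
    obtain ⟨X, -, hXf, hXT⟩ := exists_free_all hν hνκ hV
      (fun v => (hfin v (Set.mem_univ v)).toFinset) hlt (A := Set.univ)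
      (tg_iff.2 (typ_univ _).ge)
    refine ⟨X, ?_, typ_eq_of_tg hXT⟩
    intro x hx y hy hxy
    have hne : x ≠ y := hxy.ne
    rcases hadj x (Set.mem_univ x) y (Set.mem_univ y) hxy with h | h
    · exact hXf y hy x hx hne.symm (by simpa using h)
    · exact hXf x hx y hy hne (by simpa using h)
  · left
    exact exists_path G hR

theorem mk_biUnion_finite_lt {V : Type} {κ : Cardinal.{0}} (hκ : ℵ₀ < κ) (T : Set V)
    (hT : #T < κ) (out : V → Set V) (hfin : ∀ v, (out v).Finite) :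
    #(⋃ s ∈ T, out s : Set V) < κ := by
  refine lt_of_le_of_lt (Cardinal.mk_biUnion_le out T) ?_
  have h1 : (⨆ x : T, #(out x.1)) ≤ ℵ₀ := ciSup_le' fun s => (hfin s.1).lt_aleph0.le
  refine lt_of_le_of_lt (mul_le_mul_right h1 (#T)) ?_
  exact Cardinal.mul_lt_of_lt hκ.le hT hκ

theorem pi_ext' {κ ν : Cardinal.{0}} (hν : ℵ₀ ≤ ν) (hνκ : ν < κ)
    (δ η : Ordinal.{0}) (hlt : κ.ord * δ < κ.ord ^ (ν.ord + 2)) (hη : ω * η < κ.ord)
    (hη0 : η ≠ 0) (h : PI (ω * η)) : PI (κ.ord * δ + ω * η) := by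
  classical
  intro G
  by_cases hR : Ranked G Set.univ
  · right
    have hκ1 : ℵ₀ < κ := lt_of_le_of_lt hν hνκ
    have hκ0 : ℵ₀ ≤ κ := hκ1.le
    have hε0 : ω * η ≠ 0 := mul_ne_zero Ordinal.omega0_ne_zero hη0
    have hNε : Nonempty (ω * η).ToType := Ordinal.nonempty_toType_iff.2 hε0
    have hN : Nonempty (κ.ord * δ + ω * η).ToType := by
      refine Ordinal.nonempty_toType_iff.2 ?_
      intro h0
      have : ω * η ≤ κ.ord * δ + ω * η := le_add_self
      rw [h0] at this
      exact hε0 (le_antisymm this zero_le)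
    obtain ⟨out, hfin, -, hchain, hadj, hnopath⟩ := hR.tree G
    have hV : #(κ.ord * δ + ω * η).ToType ≤ κ := by
      rw [Cardinal.mk_toType, Ordinal.card_add]
      exact Cardinal.add_le_of_le hκ0 (card_lt_opow' hκ0 hνκ hlt) (Cardinal.lt_ord.1 hη).le
    have htop : TG (Set.univ : Set (κ.ord * δ + ω * η).ToType) (κ.ord * δ + ω * η) :=
      tg_iff.2 (typ_univ _).ge
    obtain ⟨A₁, A₂, -, -, hA₁, hA₂, hlt12⟩ := htop.split
    obtain ⟨g₂, hg₂, hm₂⟩ := hA₂
    let e := (Ordinal.ToType.mk (o := ω * η)).symm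
    have hmono : ∀ x y : (ω * η).ToType, x < y → g₂ (e x).1 < g₂ (e y).1 := fun x y hxy =>
      hm₂ _ _ (e.lt_iff_lt.2 hxy) (e y).2
    have hinj : ∀ x y : (ω * η).ToType, g₂ (e x).1 = g₂ (e y).1 → x = y := by
      intro x y hxy
      rcases lt_trichotomy x y with h1 | h1 | h1
      · exact absurd hxy (hmono x y h1).ne
      · exact h1
      · exact absurd hxy (hmono y x h1).ne'
    let H : SimpleGraph (ω * η).ToType :=
      { Adj := fun x y => x ≠ y ∧
          (g₂ (e x).1 ∈ out (g₂ (e y).1) ∨ g₂ (e y).1 ∈ out (g₂ (e x).1))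
        symm := ⟨fun x y hxy => ⟨hxy.1.symm, hxy.2.symm⟩⟩
        loopless := ⟨fun x hx => hx.1 rfl⟩ }
    rcases h H with ⟨p, hp, hpadj⟩ | ⟨S', hS', hSt⟩
    · exfalso
      refine hnopath (fun n => g₂ (e (p n)).1) ?_ (fun n => Set.mem_univ _) fun n => (hpadj n).2
      intro n m hnm
      exact hp (hinj _ _ hnm)
    obtain ⟨g', hg', hm'⟩ := tg_of_le_typ (le_of_eq hSt.symm)
    set S : Set (κ.ord * δ + ω * η).ToType := {v | ∃ x ∈ S', v = g₂ (e x).1} with hSdef
    have hSA : S ⊆ A₂ := by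
      rintro _ ⟨x, -, rfl⟩
      exact hg₂ _ (e x).2
    have hST : TG S (ω * η) :=
      ⟨fun x => g₂ (e (g' x)).1, fun x hx => ⟨g' x, hg' x hx, rfl⟩,
        fun x y hxy hy => hmono _ _ (hm' x y hxy hy)⟩
    have hanti : ∀ x ∈ S, ∀ y ∈ S, x ≠ y → x ∉ out y := by
      rintro _ ⟨x, hx, rfl⟩ _ ⟨y, hy, rfl⟩ hne hout
      refine hS' x hx y hy ⟨?_, Or.inl hout⟩
      rintro rfl
      exact hne rfl
    have hScard : #S < κ := by
      have h1 : S ⊆ Set.range (fun x : (ω * η).ToType => g₂ (e x).1) := by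
        rintro _ ⟨x, -, rfl⟩
        exact ⟨x, rfl⟩
      refine lt_of_le_of_lt ((Cardinal.mk_le_mk_of_subset h1).trans Cardinal.mk_range_le) ?_
      rw [Cardinal.mk_toType]
      exact Cardinal.lt_ord.1 hη
    obtain ⟨T, hTS, hTT, hTd⟩ := hST.split_omega
    let D : ℕ → Set (κ.ord * δ + ω * η).ToType := fun r => {v | ∀ u ∈ out v, u ∉ T r}
    have hD : ∀ v ∈ A₁, ∀ r s, r ≠ s → v ∈ D r ∨ v ∈ D s := by
      intro v _ r s hrs
      by_contra hcon
      rw [not_or] at hcon
      simp only [D, Set.mem_ofPred_eq, not_forall, not_not] at hcon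
      obtain ⟨⟨x, hx, hxr⟩, ⟨y, hy, hys⟩⟩ := hcon
      have hne : x ≠ y := by
        rintro rfl
        exact hTd r s hrs x hxr hys
      rcases hchain v (Set.mem_univ v) x hx y hy with h1 | h1 | h1
      · exact hne h1
      · exact hanti x (hTS r hxr) y (hTS s hys) hne h1
      · exact hanti y (hTS s hys) x (hTS r hxr) hne.symm h1
    have hbad := fb_all (κ.ord * δ) _ A₁ D hA₁ hD
    obtain ⟨r, hr⟩ := hbad.infinite_compl.nonempty
    simp only [Set.mem_compl_iff, Set.mem_ofPred_eq, not_not] at hr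
    have hTc : #(T r) < κ := lt_of_le_of_lt (Cardinal.mk_le_mk_of_subset (hTS r)) hScard
    have hRc := mk_biUnion_finite_lt hκ1 (T r) hTc out fun v => hfin v (Set.mem_univ v)
    have hA₁' := TG.remove' hκ0 hRc δ _ hr
    obtain ⟨X, hXA, hXf, hXT⟩ := exists_free_all hν hνκ hV
      (fun v => (hfin v (Set.mem_univ v)).toFinset) hlt hA₁'
    have hfree : ∀ x ∈ X, ∀ y ∈ X, x ≠ y → y ∉ out x := by
      intro x hx y hy hne hout
      exact hXf x hx y hy hne (by simpa using hout)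
    refine ⟨X ∪ T r, ?_, ?_⟩
    · have hXT' : ∀ x ∈ X, ∀ y ∈ T r, x ∉ out y ∧ y ∉ out x := by
        intro x hx y hy
        have h1 := hXA hx
        refine ⟨fun hout => h1.2 ?_, fun hout => h1.1.2 y hout hy⟩
        exact Set.mem_biUnion hy hout
      rintro x hx y hy hxy
      have hne : x ≠ y := hxy.ne
      have h1 := hadj x (Set.mem_univ x) y (Set.mem_univ y) hxy
      rcases hx with hx | hx <;> rcases hy with hy | hy
      · rcases h1 with h1 | h1
        · exact hfree y hy x hx hne.symm h1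
        · exact hfree x hx y hy hne h1
      · rcases h1 with h1 | h1
        · exact (hXT' x hx y hy).1 h1
        · exact (hXT' x hx y hy).2 h1
      · rcases h1 with h1 | h1
        · exact (hXT' y hy x hx).2 h1
        · exact (hXT' y hy x hx).1 h1
      · rcases h1 with h1 | h1
        · exact hanti x (hTS r hx) y (hTS r hy) hne h1
        · exact hanti y (hTS r hy) x (hTS r hx) hne.symm h1
    · refine typ_eq_of_tg (hXT.add (hTT r) ?_)
      intro x hx y hy
      exact hlt12 x (hXA hx).1.1 y (hSA (hTS r hy))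
  · left
    exact exists_path G hR

/-- Reduction modulo `κ`. -/
theorem pi_iff' {κ ν : Cardinal.{0}} (hν : ℵ₀ ≤ ν) (hνκ : ν < κ)
    (δ : Ordinal.{0}) (hlt : κ.ord * δ < κ.ord ^ (ν.ord + 2)) (ε : Ordinal.{0})
    (hε : ε < κ.ord) (hl : Order.IsSuccLimit ε) : PI (κ.ord * δ + ε) ↔ PI ε := by
  refine ⟨pi_tail, fun h => ?_⟩
  obtain ⟨h0, η, rfl⟩ := Ordinal.isSuccLimit_iff_omega0_dvd.1 hl
  refine pi_ext' hν hνκ δ η hlt hε ?_ h
  rintro rfl
  exact h0 (mul_zero _)

theorem ord_dvd_ord {μ κ : Cardinal.{0}} (hμ : ℵ₀ ≤ μ) (h : μ ≤ κ) : μ.ord ∣ κ.ord := by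
  rcases h.lt_or_eq with h | h
  · have hκ : ℵ₀ ≤ κ := hμ.trans h.le
    have h1 := (Ordinal.isPrincipal_mul_iff_mul_left_eq.1 (Ordinal.isPrincipal_mul_ord hκ)) μ.ord
      (by
        rw [Cardinal.lt_ord]
        simpa using aleph0_pos.trans_le hμ) (Cardinal.ord_lt_ord.2 h)
    exact ⟨κ.ord, h1.symm⟩
  · rw [h]

/-- All limit ordinals whose parts at the various cardinal levels are small. -/
theorem pi_level (α : Ordinal.{0}) : ω ∣ α →
    (∀ κ : Cardinal.{0}, ℵ₀ < κ → ∃ ν : Cardinal.{0}, ℵ₀ ≤ ν ∧ ν < κ ∧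
      α % (Order.succ κ).ord < κ.ord ^ (ν.ord + 2)) → PI α := by
  induction α using WellFoundedLT.induction with
  | ind α IH =>
    intro hdvd hlev
    by_cases hc : α.card ≤ ℵ₀
    · exact pi_countable hdvd hc
    · rw [not_le] at hc
      set κ := α.card with hκ
      obtain ⟨ν, hν, hνκ, hlt⟩ := hlev κ hc
      have hαlt : α < (Order.succ κ).ord := by
        rw [Cardinal.lt_ord]
        exact Order.lt_succ κ
      rw [Ordinal.mod_eq_of_lt hαlt] at hlt
      have hκα : κ.ord ≤ α := Cardinal.ord_le.2 le_rfl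
      have hκ0 : κ.ord ≠ 0 := (zero_lt_one.trans (one_lt_ord' hc.le)).ne'
      have hdm := Ordinal.div_add_mod α κ.ord
      have hεκ : α % κ.ord < κ.ord := Ordinal.mod_lt α hκ0
      have hδlt : κ.ord * (α / κ.ord) < κ.ord ^ (ν.ord + 2) := by
        refine lt_of_le_of_lt ?_ hlt
        conv_rhs => rw [← hdm]
        exact le_self_add
      have hωκ : ω ∣ κ.ord := by
        have := ord_dvd_ord le_rfl hc.le
        rwa [Cardinal.ord_aleph0] at this
      have hωε : ω ∣ α % κ.ord := by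
        rw [← hdm] at hdvd
        exact (Ordinal.dvd_add_iff (Dvd.dvd.mul_right hωκ _)).1 hdvd
      rcases eq_or_ne (α % κ.ord) 0 with h0 | h0
      · rw [h0, add_zero] at hdm
        rw [← hdm]
        exact pi_mul hν hνκ _ hδlt
      · have hl : Order.IsSuccLimit (α % κ.ord) :=
          Ordinal.isSuccLimit_iff_omega0_dvd.2 ⟨h0, hωε⟩
        rw [← hdm]
        refine (pi_iff' hν hνκ _ hδlt _ hεκ hl).2 (IH _ (hεκ.trans_le hκα) hωε ?_)
        intro κ' hκ'
        by_cases hle : κ ≤ κ'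
        · refine ⟨ℵ₀, le_rfl, hκ', ?_⟩
          refine (Ordinal.mod_le _ _).trans_lt (hεκ.trans_le ?_)
          refine (Cardinal.ord_le_ord.2 hle).trans ?_
          calc κ'.ord = κ'.ord ^ (1 : Ordinal.{0}) := (Ordinal.opow_one _).symm
            _ ≤ κ'.ord ^ ((ℵ₀ : Cardinal.{0}).ord + 2) := by
              refine Ordinal.opow_le_opow_right (zero_lt_one.trans (one_lt_ord' hκ'.le)) ?_
              refine (one_lt_ord' le_rfl).le.trans ?_
              exact le_self_add
        · rw [not_le] at hle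
          obtain ⟨ν', hν', hν'κ, hlt'⟩ := hlev κ' hκ'
          refine ⟨ν', hν', hν'κ, ?_⟩
          obtain ⟨c, hc'⟩ := ord_dvd_ord (μ := Order.succ κ') (κ := κ)
            (hκ'.le.trans (Order.le_succ κ')) (Order.succ_le_of_lt hle)
          have h5 : α % (Order.succ κ').ord = (α % κ.ord) % (Order.succ κ').ord := by
            conv_lhs => rw [← hdm]
            rw [hc', mul_assoc, Ordinal.mul_add_mod_self]
          rw [← h5]
          exact hlt'

end Pool.Agent.H68.OG
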